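import Pool.Agent.Lib.MP_7d4c8f_an.Defs
import Mathlib.MeasureTheory.Integral.IntervalIntegral.AbsolutelyContinuousFun
import Mathlib.MeasureTheory.SpecificCodomains.Pi
import Mathlib.Analysis.Calculus.Deriv.Prod
import Mathlib.Tactic

/-! Calculus of actions: curves as primitives, concatenation, splitting. -/

namespace Pool.Agent.Lib.MP_7d4c8f_an
open MeasureTheory Filter Set

lemma pr_add (x y : E) : pr (x + y) = pr x + pr y := by ext i; simp [pr]

lemma pr_surj : Function.Surjective pr := fun x => by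
  choose f hf using fun i => QuotientAddGroup.mk_surjective (x i)
  exact ⟨f, funext hf⟩

lemma coe_add_nat (t : ℝ) (n : ℕ) : ((t + n : ℝ) : UnitAddCircle) = t := by
  rw [AddCircle.coe_add, add_eq_left, AddCircle.coe_eq_zero_iff]
  exact ⟨n, by simp⟩

lemma ac_pi {γ : ℝ → E} {a b : ℝ} :
    AbsolutelyContinuousOnInterval γ a b ↔
      ∀ i, AbsolutelyContinuousOnInterval (fun s => γ s i) a b := by
  constructor
  · intro h i
    refine squeeze_zero (fun t => Finset.sum_nonneg fun _ _ => dist_nonneg) (fun t => ?_) h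
    exact Finset.sum_le_sum fun j _ => dist_le_pi_dist _ _ i
  · intro h
    refine squeeze_zero (fun t => Finset.sum_nonneg fun _ _ => dist_nonneg) (fun t => ?_)
      (by simpa using tendsto_finsetSum Finset.univ fun i _ => h i)
    rw [Finset.sum_comm]
    refine Finset.sum_le_sum fun j _ => (dist_pi_le_iff (Finset.sum_nonneg fun _ _ =>
      dist_nonneg)).2 fun i => ?_
    exact Finset.single_le_sum (f := fun i => dist (γ (t.2 j).1 i) (γ (t.2 j).2 i))
      (fun _ _ => dist_nonneg) (Finset.mem_univ i)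

lemma ii_pi {v : ℝ → E} {a b : ℝ} :
    IntervalIntegrable v volume a b ↔ ∀ i, IntervalIntegrable (fun s => v s i) volume a b := by
  simp only [intervalIntegrable_iff, IntegrableOn, integrable_pi_iff]

lemma int_pi {v : ℝ → E} {a b : ℝ} (h : IntervalIntegrable v volume a b) (i : Fin 4) :
    (∫ s in a..b, v s) i = ∫ s in a..b, v s i :=
  ((ContinuousLinearMap.proj (R := ℝ) (φ := fun _ : Fin 4 => ℝ) i).intervalIntegral_comp_comm
    h).symm

noncomputable def path (q : E) (v : ℝ → E) (t : ℝ) : E := q + ∫ s in (0 : ℝ)..t, v s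

@[simp] lemma path_zero (q : E) (v : ℝ → E) : path q v 0 = q := by simp [path]

def Adm (L : Ph → ℝ) (n : ℕ) (x y : Tor) (r : ℝ) : Prop :=
  ∃ (q : E) (v : ℝ → E), IntervalIntegrable v volume 0 n ∧ pr q = x ∧ pr (path q v n) = y ∧
    IntervalIntegrable (fun t => lift L (path q v t) (v t) t) volume 0 n ∧
    r = ∫ t in (0 : ℝ)..n, lift L (path q v t) (v t) t

variable {L : Ph → ℝ}

lemma Adm.hn_le {n : ℕ} {x y : Tor} {r : ℝ} (h : Adm L n x y r) : hn L 0 n x y ≤ r := by
  obtain ⟨q, v, h1, h2, h3, h4, h5⟩ := h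
  have hd : ∀ᵐ t, t ∈ uIoc (0 : ℝ) n → lift L (path q v t) (deriv (path q v) t) t =
      lift L (path q v t) (v t) t := by
    filter_upwards [h1.ae_hasDerivAt_integral] with t ht h
    rw [show deriv (path q v) t = v t from
      ((ht (uIoc_subset_uIcc h) 0 left_mem_uIcc).const_add q).deriv]
  refine iInf₂_le_of_le (path q v) ⟨ac_pi.2 fun i => ?_, by simpa using h2, h3, ?_⟩ ?_
  · have h6 := (ii_pi.1 h1 i).absolutelyContinuousOnInterval_intervalIntegral left_mem_uIcc
    unfold AbsolutelyContinuousOnInterval at h6 ⊢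
    refine h6.congr' ?_
    filter_upwards [mem_inf_of_right (mem_principal_self _)] with t ht
    refine Finset.sum_congr rfl fun j hj => ?_
    simp only [path, Pi.add_apply, dist_add_left]
    rw [int_pi (h1.mono_set (uIcc_subset_uIcc_left (ht.1 j hj).1)),
      int_pi (h1.mono_set (uIcc_subset_uIcc_left (ht.1 j hj).2))]
  · rw [intervalIntegrable_iff] at h4 ⊢
    exact h4.congr_fun_ae ((ae_restrict_iff' measurableSet_uIoc).2 (hd.mono fun t h h' =>
      (h h').symm))
  · simp only [add_zero]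
    rw [intervalIntegral.integral_congr_ae hd, h5]

lemma adm_of_lt {n : ℕ} {x y : Tor} {a : EReal} (h : hn L 0 n x y < a) :
    ∃ r : ℝ, Adm L n x y r ∧ (r : EReal) < a := by
  obtain ⟨γ, h⟩ := iInf_lt_iff.1 h
  obtain ⟨⟨h1, h2, h3, h4⟩, h⟩ := iInf_lt_iff.1 h
  have hc := ac_pi.1 h1
  have hd : ∀ᵐ t, t ∈ uIcc (0 : ℝ) n → ∀ i, deriv (fun s => γ s i) t = deriv γ t i := by
    filter_upwards [ae_all_iff.2 fun i => (hc i).ae_differentiableAt] with t ht h i
    rw [show deriv γ t = _ from deriv_pi fun i => ht i h]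
  have h5 : IntervalIntegrable (deriv γ) volume 0 n := ii_pi.2 fun i => by
    have := (hc i).intervalIntegrable_deriv
    rw [intervalIntegrable_iff] at this ⊢
    exact this.congr_fun_ae ((ae_restrict_iff' measurableSet_uIoc).2 (hd.mono fun t h h' =>
      h (uIoc_subset_uIcc h') i))
  have h6 : ∀ t ∈ uIcc (0 : ℝ) n, path (γ 0) (deriv γ) t = γ t := by
    intro t ht
    have hs := uIcc_subset_uIcc_left ht
    ext i
    rw [path, Pi.add_apply, int_pi (h5.mono_set hs), ← intervalIntegral.integral_congr_ae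
      (hd.mono fun s h h' => h (hs (uIoc_subset_uIcc h')) i),
      ((hc i).mono hs).integral_deriv_eq_sub]
    ring
  refine ⟨_, ⟨γ 0, deriv γ, h5, h2, by rw [h6 _ right_mem_uIcc, h3],
    h4.congr fun t ht => by simp only [h6 t (uIoc_subset_uIcc ht)], rfl⟩, ?_⟩
  rw [intervalIntegral.integral_congr (g := fun t => lift L (γ t) (deriv γ t) t + 0)
    fun t ht => by simp only [h6 t ht, add_zero]]
  exact h

lemma glue {F : Type*} [NormedAddCommGroup F] [NormedSpace ℝ F] {f g h : ℝ → F} {n m : ℝ}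
    (hn : 0 ≤ n) (hm : 0 ≤ m) (h1 : ∀ t ∈ Icc 0 n, f t = g t)
    (h2 : ∀ t ∈ Ioc 0 m, f (t + n) = h t) :
    (IntervalIntegrable f volume 0 (n + m) ↔
      IntervalIntegrable g volume 0 n ∧ IntervalIntegrable h volume 0 m) ∧
    (IntervalIntegrable f volume 0 (n + m) →
      ∫ t in (0 : ℝ)..n + m, f t = (∫ t in (0 : ℝ)..n, g t) + ∫ t in (0 : ℝ)..m, h t) := by
  have a1 : IntervalIntegrable f volume 0 n ↔ IntervalIntegrable g volume 0 n :=
    intervalIntegrable_congr fun t ht => h1 t (by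
      rw [uIoc_of_le hn] at ht; exact Ioc_subset_Icc_self ht)
  have a2 : IntervalIntegrable f volume n (n + m) ↔ IntervalIntegrable h volume 0 m := by
    rw [← intervalIntegrable_congr (f := fun t => f (t + n)) fun t ht => h2 t (by
      rwa [uIoc_of_le hm] at ht)]
    constructor
    · intro h3; simpa using h3.comp_add_right n
    · intro h3; simpa [add_comm] using h3.comp_sub_right n
  have a3 := IntervalIntegrable.trans_iff (f := f) (μ := volume) (a := 0) (b := n) (c := n + m)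
    (by rw [uIcc_of_le (by linarith)]; exact ⟨hn, by linarith⟩)
  refine ⟨by rw [a3, a1, a2], fun h3 => ?_⟩
  rw [← intervalIntegral.integral_add_adjacent_intervals (a3.1 h3).1 (a3.1 h3).2,
    intervalIntegral.integral_congr (g := g) fun t ht => h1 t (by rwa [uIcc_of_le hn] at ht),
    ← intervalIntegral.integral_congr_ae (f := fun t => f (t + n)) (Eventually.of_forall
      fun t ht => h2 t (by rwa [uIoc_of_le hm] at ht)), intervalIntegral.integral_comp_add_right]
  simp [add_comm]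

lemma Adm.trans {n m : ℕ} {x y z : Tor} {r r' : ℝ} (h : Adm L n x y r) (h' : Adm L m y z r') :
    Adm L (n + m) x z (r + r') := by
  obtain ⟨q, v, h1, h2, h3, h4, h5⟩ := h
  obtain ⟨q', v', h1', h2', h3', h4', h5'⟩ := h'
  have hn : (0 : ℝ) ≤ n := n.cast_nonneg
  have hm : (0 : ℝ) ≤ m := m.cast_nonneg
  set w : ℝ → E := fun t => if t ≤ n then v t else v' (t - n) with hw
  have e1 : ∀ t ∈ Icc (0 : ℝ) n, w t = v t := fun t ht => if_pos ht.2
  have e2 : ∀ t, 0 < t → w (t + n) = v' t := fun t ht => by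
    simp only [hw]; rw [if_neg (by linarith), add_sub_cancel_right]
  have p1 : ∀ t ∈ Icc (0 : ℝ) n, path q w t = path q v t := fun t ht => by
    unfold path
    rw [intervalIntegral.integral_congr (g := v) fun s hs => e1 s (by
      rw [uIcc_of_le ht.1] at hs; exact ⟨hs.1, hs.2.trans ht.2⟩)]
  have p2 : ∀ t ∈ Icc (0 : ℝ) m, pr (path q w (n + t)) = pr (path q' v' t) := fun t ht => by
    obtain ⟨g1, g2⟩ := glue hn ht.1 e1 fun s hs => e2 s hs.1
    unfold path at h3 ⊢
    rw [g2 (g1.2 ⟨h1, h1'.mono_set (uIcc_subset_uIcc_left (by rwa [uIcc_of_le hm]))⟩), ← add_assoc,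
      pr_add, h3, pr_add, h2']
  obtain ⟨g1, g2⟩ := glue (f := fun t => lift L (path q w t) (w t) t) hn hm
    (g := fun t => lift L (path q v t) (v t) t) (h := fun t => lift L (path q' v' t) (v' t) t)
    (fun t ht => by simp only [e1 t ht, p1 t ht]) fun t ht => by
      simp only [lift, e2 t ht.1, coe_add_nat, ← p2 t (Ioc_subset_Icc_self ht), add_comm (n : ℝ)]
  refine ⟨q, w, ?_⟩
  push_cast
  exact ⟨(glue hn hm e1 fun s hs => e2 s hs.1).1.2 ⟨h1, h1'⟩, h2,
    by rw [p2 _ (right_mem_Icc.2 hm), h3'], g1.2 ⟨h4, h4'⟩, by rw [g2 (g1.2 ⟨h4, h4'⟩), h5, h5']⟩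

lemma Adm.split {n m : ℕ} {x z : Tor} {r : ℝ} (h : Adm L (n + m) x z r) :
    ∃ y r1 r2, Adm L n x y r1 ∧ Adm L m y z r2 ∧ r = r1 + r2 := by
  obtain ⟨q, v, h1, h2, h3, h4, h5⟩ := h
  push_cast at h1 h3 h4 h5
  have hn : (0 : ℝ) ≤ n := n.cast_nonneg
  have hm : (0 : ℝ) ≤ m := m.cast_nonneg
  have a1 := (glue (f := v) (g := v) (h := fun t => v (t + n)) hn hm (fun _ _ => rfl)
    fun _ _ => rfl).1.1 h1
  have p2 : ∀ t ∈ Icc (0 : ℝ) m, path q v (n + t) = path (path q v n) (fun t => v (t + n)) t :=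
    fun t ht => by
      unfold path
      rw [(glue (f := v) (g := v) (h := fun t => v (t + n)) hn ht.1 (fun _ _ => rfl)
        fun _ _ => rfl).2 (h1.mono_set (uIcc_subset_uIcc_left (by
          rw [uIcc_of_le (by linarith)]; exact ⟨by linarith [ht.1], by linarith [ht.2]⟩))), add_assoc]
  obtain ⟨g1, g2⟩ := glue (f := fun t => lift L (path q v t) (v t) t) hn hm
    (g := fun t => lift L (path q v t) (v t) t)
    (h := fun t => lift L (path (path q v n) (fun t => v (t + n)) t) (v (t + n)) t)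
    (fun t ht => rfl) fun t ht => by
      simp only [lift, coe_add_nat, ← p2 t (Ioc_subset_Icc_self ht), add_comm (n : ℝ)]
  exact ⟨_, _, _, ⟨q, v, a1.1, h2, rfl, (g1.1 h4).1, rfl⟩, ⟨path q v n, fun t => v (t + n), a1.2,
    rfl, by rw [← p2 _ (right_mem_Icc.2 hm), h3], (g1.1 h4).2, rfl⟩, by rw [h5, g2 h4]⟩

lemma Adm.zero {x z : Tor} {r : ℝ} (h : Adm L 0 x z r) : x = z := by
  obtain ⟨q, v, -, h2, h3, -⟩ := h
  rw [← h2, ← h3]; simp

variable (hL : ∀ z, 0 ≤ L z)
include hL

lemma Adm.nonneg {n : ℕ} {x y : Tor} {r : ℝ} (h : Adm L n x y r) : 0 ≤ r := by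
  obtain ⟨q, v, -, -, -, -, rfl⟩ := h
  exact intervalIntegral.integral_nonneg_of_forall n.cast_nonneg fun _ => hL _

lemma hn_nonneg (n : ℕ) (x y : Tor) : 0 ≤ hn L 0 n x y := by
  by_contra h
  obtain ⟨r, h1, h2⟩ := adm_of_lt (not_le.1 h)
  exact absurd (h1.nonneg hL) (not_le.2 (by exact_mod_cast h2))

lemma barrier_nonneg (x y : Tor) : 0 ≤ barrier L 0 x y :=
  le_liminf_of_le (h := Eventually.of_forall fun n => hn_nonneg hL n x y)

lemma barrier_tri (x y z : Tor) : barrier L 0 x z ≤ barrier L 0 x y + barrier L 0 y z := by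
  refine EReal.le_add_of_forall_gt (Or.inl ((barrier_nonneg hL _ _).trans_lt' EReal.bot_lt_zero).ne')
    (Or.inr ((barrier_nonneg hL _ _).trans_lt' EReal.bot_lt_zero).ne') fun a ha b hb => ?_
  refine liminf_le_of_frequently_le' (frequently_atTop.2 fun N => ?_)
  obtain ⟨n, hn1, hn2⟩ := frequently_atTop.1 (frequently_lt_of_liminf_lt (h := ha)) N
  obtain ⟨m, hm2⟩ := (frequently_lt_of_liminf_lt (h := hb)).exists
  obtain ⟨r, h1, h2⟩ := adm_of_lt hn2
  obtain ⟨r', h1', h2'⟩ := adm_of_lt hm2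
  exact ⟨n + m, by omega, (h1.trans h1').hn_le.trans (by
    rw [EReal.coe_add]; exact add_le_add h2.le h2'.le)⟩

lemma Adm.chain {n : ℕ} : ∀ {x z : Tor} {r : ℝ}, Adm L n x z r → ∃ u : ℕ → Tor, u 0 = x ∧ u n = z ∧
    ∀ k < n, ∃ r' ≤ r, Adm L 1 (u k) (u (k + 1)) r' := by
  induction n with
  | zero => exact fun h => ⟨fun _ => _, rfl, h.zero, by simp⟩
  | succ n ih =>
    intro x z r h
    rw [add_comm] at h
    obtain ⟨y, r1, r2, h1, h2, h3⟩ := h.split
    obtain ⟨u, a1, a2, a3⟩ := ih h2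
    refine ⟨fun k => Nat.casesOn k x u, rfl, a2, fun k hk => ?_⟩
    cases k with
    | zero => exact ⟨r1, by linarith [h2.nonneg hL], by simpa [a1] using h1⟩
    | succ k =>
      obtain ⟨r', b1, b2⟩ := a3 k (by omega)
      exact ⟨r', by linarith [h1.nonneg hL], b2⟩

omit hL in
lemma quot_aux {X : Type} (d : X → X → ENNReal) (h1 : ∀ x, d x x = 0) (h2 : ∀ x y, d x y = d y x)
    (h3 : ∀ x y z, d x z ≤ d x y + d y z) : ∃ (Q : Type) (_ : EMetricSpace Q) (π : X → Q),
    Function.Surjective π ∧ ∀ x y, edist (π x) (π y) = d x y := by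
  letI : PseudoEMetricSpace X :=
    { edist := d, edist_self := h1, edist_comm := h2, edist_triangle := h3 }
  exact ⟨SeparationQuotient X, inferInstance, SeparationQuotient.mk,
    SeparationQuotient.surjective_mk, fun x y => rfl⟩

theorem exists_quot : ∃ (Q : Type) (_ : EMetricSpace Q) (π : aubry L 0 → Q),
    Function.Surjective π ∧ ∀ x y, (edist (π x) (π y) : EReal) = rho L 0 x y := by
  obtain ⟨Q, _, π, h1, h2⟩ := quot_aux (X := aubry L 0) (fun x y => (rho L 0 x y).toENNReal)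
    (fun x => by rw [rho, show barrier L 0 x x = 0 from x.2]; simp)
    (fun x y => by rw [rho, rho, add_comm]) fun x y z => by
      refine le_trans (EReal.toENNReal_le_toENNReal ?_) EReal.toENNReal_add_le
      unfold rho
      calc _ ≤ (barrier L 0 x y + barrier L 0 y z) + (barrier L 0 z y + barrier L 0 y x) :=
            add_le_add (barrier_tri hL _ _ _) (barrier_tri hL _ _ _)
        _ = _ := by ac_rfl
  exact ⟨Q, _, π, h1, fun x y => by
    rw [h2]; exact EReal.coe_toENNReal (add_nonneg (barrier_nonneg hL _ _) (barrier_nonneg hL _ _))⟩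

end Pool.Agent.Lib.MP_7d4c8f_an
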