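import Mathlib.Analysis.Complex.Schwarz
import Mathlib.Analysis.Complex.RealDeriv
import Mathlib.Analysis.Calculus.LocalExtr.Basic
import Mathlib.Tactic

/-! Thin holomorphic maps of the plane close to a quadratic map: basic estimates. -/

namespace Pool.Agent.Lib.MP_7d4c8f_an
open Metric Set

abbrev C2 := ℂ × ℂ

noncomputable def th : ℝ := 1 / 10 ^ 100

lemma th_pos : 0 < th := by unfold th; positivity

def g (G : C2 → C2) (x : ℂ) : ℂ := (G (x, 0)).1
def gr (G : C2 → C2) (x : ℝ) : ℝ := (g G x).re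
def IsR (z : C2) : Prop := z.1.im = 0 ∧ z.2.im = 0

structure Cls (G : C2 → C2) : Prop where
  diff : Differentiable ℂ G
  real : ∀ z, IsR z → IsR (G z)
  quad : ∀ x : ℂ, ‖x‖ ≤ 3 → ‖g G x - x ^ 2 - gr G 0‖ ≤ 1 / 1000
  thin : ∀ z : C2, ‖z‖ ≤ 3 → ‖G z - (g G z.1, 0)‖ ≤ th
  lo : -201 / 100 ≤ gr G 0
  hi : gr G 0 ≤ -199 / 100

lemma sch {E F : Type*} [NormedAddCommGroup E] [NormedSpace ℂ E] [NormedAddCommGroup F]
    [NormedSpace ℂ F] {f : E → F} (hf : Differentiable ℂ f) {M : ℝ}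
    (hM : ∀ z, ‖z‖ ≤ 3 → ‖f z‖ ≤ M) {z z' : E} (hz : ‖z‖ ≤ 5 / 2) (hz' : ‖z' - z‖ < 1 / 2) :
    ‖f z' - f z‖ ≤ 4 * M * ‖z' - z‖ := by
  have h := Complex.dist_le_div_mul_dist_of_mapsTo_ball (f := f) (c := z) (z := z') (R₁ := 1 / 2)
    (R₂ := 2 * M) hf.differentiableOn ?_ (by simpa [dist_eq_norm] using hz')
  · rw [dist_eq_norm, dist_eq_norm] at h
    convert h using 2; ring
  · intro w hw
    rw [mem_ball, dist_eq_norm] at hw
    rw [mem_closedBall, dist_eq_norm]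
    have h1 : ‖w‖ ≤ 3 := by
      have := norm_add_le (w - z) z
      rw [sub_add_cancel] at this; linarith
    have := norm_sub_le (f w) (f z)
    linarith [hM w h1, hM z (by linarith)]

lemma sch2 {f : ℂ → ℂ} (hf : Differentiable ℂ f) {s : ℂ} {R M : ℝ}
    (hM : ∀ z, ‖z - s‖ < R → ‖f z - f s‖ ≤ M) {z : ℂ} (hz : ‖z - s‖ < R) :
    ‖dslope f s z‖ ≤ M / R ∧ ‖dslope f s z - dslope f s s‖ ≤ 2 * M / R ^ 2 * ‖z - s‖ := by
  have hR : 0 < R := lt_of_le_of_lt (norm_nonneg _) hz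
  have h1 : ∀ w, ‖w - s‖ < R → ‖dslope f s w‖ ≤ M / R := fun w hw =>
    Complex.norm_dslope_le_div_of_mapsTo_ball (R₁ := R) hf.differentiableOn
      (fun u hu => by simpa [dist_eq_norm] using hM u (by simpa [dist_eq_norm] using hu))
      (by simpa [dist_eq_norm] using hw)
  refine ⟨h1 z hz, ?_⟩
  have hd : DifferentiableOn ℂ (dslope f s) (ball s R) :=
    (Complex.differentiableOn_dslope (ball_mem_nhds s hR)).2 hf.differentiableOn
  have h := Complex.dist_le_div_mul_dist_of_mapsTo_ball (c := s) (z := z) (R₁ := R)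
    (R₂ := 2 * (M / R)) hd ?_ (by simpa [dist_eq_norm] using hz)
  · rw [dist_eq_norm, dist_eq_norm] at h
    convert h using 2; field_simp
  · intro w hw
    rw [mem_ball, dist_eq_norm] at hw
    rw [mem_closedBall, dist_eq_norm]
    have := norm_sub_le (dslope f s w) (dslope f s s)
    linarith [h1 w hw, h1 s (by simpa using hR)]

namespace Cls
variable {G : C2 → C2}

lemma gdiff (h : Cls G) : Differentiable ℂ (g G) :=
  differentiable_fst.comp (h.diff.comp (differentiable_id.prodMk (differentiable_const _)))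

lemma greal (h : Cls G) (x : ℝ) : g G x = gr G x := by
  apply Complex.ext
  · simp [gr]
  · simpa [g] using (h.real (x, 0) ⟨by simp, by simp⟩).1

lemma grcont (h : Cls G) : Continuous (gr G) :=
  Complex.continuous_re.comp (h.gdiff.continuous.comp Complex.continuous_ofReal)

lemma two (h : Cls G) {x x' : ℂ} (hx : ‖x‖ ≤ 5 / 2) (hx' : ‖x' - x‖ < 1 / 2) :
    ‖g G x' - g G x - (x' + x) * (x' - x)‖ ≤ 4 / 1000 * ‖x' - x‖ := by
  have := sch (f := fun x => g G x - x ^ 2 - gr G 0) (by have := h.gdiff; fun_prop) h.quad hx hx'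
  have e : g G x' - g G x - (x' + x) * (x' - x) =
    g G x' - x' ^ 2 - gr G 0 - (g G x - x ^ 2 - gr G 0) := by ring
  rw [e]; linarith

lemma two_le (h : Cls G) {x x' : ℂ} (hx : ‖x‖ ≤ 5 / 2) (hx' : ‖x' - x‖ < 1 / 2) {K : ℝ}
    (hK : ‖x' + x‖ ≤ K) : ‖g G x' - g G x‖ ≤ (K + 4 / 1000) * ‖x' - x‖ := by
  have h1 := h.two hx hx'
  have h2 := norm_add_le (g G x' - g G x - (x' + x) * (x' - x)) ((x' + x) * (x' - x))
  rw [sub_add_cancel, norm_mul] at h2
  have := mul_le_mul_of_nonneg_right hK (norm_nonneg (x' - x))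
  linarith

lemma two_ge (h : Cls G) {x x' : ℂ} (hx : ‖x‖ ≤ 5 / 2) (hx' : ‖x' - x‖ < 1 / 2) {K : ℝ}
    (hK : K ≤ ‖x' + x‖) : (K - 4 / 1000) * ‖x' - x‖ ≤ ‖g G x' - g G x‖ := by
  have h1 := h.two hx hx'
  have h2 := norm_sub_le (g G x' - g G x) (g G x' - g G x - (x' + x) * (x' - x))
  rw [sub_sub_cancel, norm_mul] at h2
  have := mul_le_mul_of_nonneg_right hK (norm_nonneg (x' - x))
  linarith

lemma twor (h : Cls G) {x x' : ℝ} (hx : |x| ≤ 5 / 2) (hx' : |x' - x| < 1 / 2) :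
    |gr G x' - gr G x - (x' + x) * (x' - x)| ≤ 4 / 1000 * |x' - x| := by
  have := h.two (x := x) (x' := x') (by simpa using hx) (by
    rw [← Complex.ofReal_sub, Complex.norm_real]; exact hx')
  rw [h.greal, h.greal] at this
  exact_mod_cast this

lemma quadr (h : Cls G) {x : ℝ} (hx : |x| ≤ 3) : |gr G x - x ^ 2 - gr G 0| ≤ 1 / 1000 := by
  have := h.quad x (by simpa using hx)
  rw [h.greal] at this
  exact_mod_cast this

lemma thinLip (h : Cls G) {z z' : C2} (hz : ‖z‖ ≤ 5 / 2) (hz' : ‖z' - z‖ < 1 / 2) :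
    ‖(G z' - (g G z'.1, 0)) - (G z - (g G z.1, 0))‖ ≤ 4 * th * ‖z' - z‖ :=
  sch (f := fun z => G z - (g G z.1, 0)) (by have := h.gdiff; have := h.diff; fun_prop) h.thin hz hz'

lemma lip (h : Cls G) {z z' : C2} (hz : ‖z‖ ≤ 5 / 2) (hz' : ‖z' - z‖ < 1 / 2) {K : ℝ}
    (hK : ‖z'.1 + z.1‖ ≤ K) : ‖G z' - G z‖ ≤ (K + 5 / 1000) * ‖z' - z‖ := by
  have h1 := h.thinLip hz hz'
  have h0 : ‖z'.1 - z.1‖ ≤ ‖z' - z‖ := norm_fst_le (z' - z)
  have h2 := h.two_le (x := z.1) (x' := z'.1) ((norm_fst_le z).trans hz) (h0.trans_lt hz') hK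
  have h3 : G z' - G z = ((G z' - (g G z'.1, 0)) - (G z - (g G z.1, 0))) +
      (g G z'.1 - g G z.1, 0) := by
    ext
    · simp only [Prod.fst_sub, Prod.fst_add]; ring
    · simp
  rw [h3]
  refine (norm_add_le _ _).trans ?_
  have h4 : ‖((g G z'.1 - g G z.1, 0) : C2)‖ = ‖g G z'.1 - g G z.1‖ := by simp
  have hK0 : 0 ≤ K := (norm_nonneg _).trans hK
  have h5 := mul_le_mul_of_nonneg_left h0 (show 0 ≤ K + 4 / 1000 by positivity)
  have h6 : 4 * th * ‖z' - z‖ ≤ 1 / 1000 * ‖z' - z‖ :=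
    mul_le_mul_of_nonneg_right (by unfold th; norm_num) (norm_nonneg _)
  rw [h4]; linarith

end Cls

/-- the critical point -/
noncomputable def cr (G : C2 → C2) : ℝ :=
  Classical.epsilon fun c => c ∈ Icc (-5 / 2 : ℝ) (5 / 2) ∧
    ∀ x ∈ Icc (-5 / 2 : ℝ) (5 / 2), gr G c ≤ gr G x

/-- the positive preimage of the critical point -/
noncomputable def xi (G : C2 → C2) : ℝ :=
  Classical.epsilon fun x => x ∈ Icc (13 / 10 : ℝ) (3 / 2) ∧ gr G x = cr G

namespace Cls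
variable {G : C2 → C2}

lemma crit (h : Cls G) {c : ℝ} (hc : c ∈ Icc (-5 / 2 : ℝ) (5 / 2))
    (hm : ∀ x ∈ Icc (-5 / 2 : ℝ) (5 / 2), gr G c ≤ gr G x) :
    |c| ≤ 1 / 2000 ∧ HasDerivAt (g G) 0 c ∧
      ∀ x : ℂ, ‖x - c‖ < 2 → ‖g G x - g G c - (x - c) ^ 2‖ ≤ 1 / 1000 * ‖x - c‖ ^ 2 := by
  have h0 := hm 0 (by norm_num)
  have h1 := abs_le.1 (h.quadr (x := c) (abs_le.2 ⟨by linarith [hc.1], by linarith [hc.2]⟩))
  have h2 : |c| ≤ 1 / 2 := abs_le.2 ⟨by nlinarith, by nlinarith⟩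
  have h3 := abs_le.1 h2
  have hd := (h.gdiff c).hasDerivAt
  have hre : (deriv (g G) c).re = 0 := by
    have hmin : IsLocalMin (gr G) c := by
      filter_upwards [Icc_mem_nhds (show (-5 / 2 : ℝ) < c by linarith)
        (show c < 5 / 2 by linarith)] with x hx using hm x hx
    exact hmin.hasDerivAt_eq_zero hd.real_of_complex
  have him : (deriv (g G) c).im = 0 := by
    have h4 : HasDerivAt (fun x : ℝ => (-Complex.I * g G x).re) (-Complex.I * deriv (g G) c).re c :=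
      (hd.const_mul (-Complex.I)).real_of_complex
    have h5 : (fun x : ℝ => (-Complex.I * g G x).re) = fun _ => 0 := by
      ext x; rw [h.greal]; simp
    rw [h5] at h4
    have := h4.unique (hasDerivAt_const c 0)
    simpa using this
  have hz : deriv (g G) c = 0 := Complex.ext hre him
  rw [hz] at hd
  set e : ℂ → ℂ := fun x => g G x - x ^ 2 - gr G 0 with he
  have hed : Differentiable ℂ e := by have := h.gdiff; fun_prop
  have hb : ∀ z : ℂ, ‖z - c‖ < 2 → ‖e z - e c‖ ≤ 2 / 1000 := by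
    intro z hz
    have h6 : ‖(c : ℂ)‖ ≤ 1 / 2 := by simpa using h2
    have h7 := norm_add_le (z - c) c
    rw [sub_add_cancel] at h7
    have := norm_sub_le (e z) (e c)
    linarith [h.quad z (by linarith), h.quad c (by linarith)]
  have hds : dslope e c c = -2 * c := by
    rw [dslope_same]
    have : HasDerivAt e (0 - 2 * (c : ℂ)) c := by
      have := (hd.sub (hasDerivAt_pow 2 (c : ℂ))).sub_const (gr G 0 : ℂ)
      refine HasDerivAt.congr_deriv this ?_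
      simp
    rw [this.deriv]; ring
  refine ⟨?_, hd, fun x hx => ?_⟩
  · have := (sch2 hed hb (z := c) (by simp)).1
    rw [hds] at this
    simp at this; linarith
  · have h8 := (sch2 hed hb hx).2
    have h9 : g G x - g G c - (x - c) ^ 2 = (x - c) * (dslope e c x - dslope e c c) := by
      have := sub_smul_dslope e c x
      rw [smul_eq_mul] at this
      rw [mul_sub, this, hds]; simp only [he]; ring
    rw [h9, norm_mul]
    calc _ ≤ ‖x - c‖ * (2 * (2 / 1000) / 2 ^ 2 * ‖x - c‖) := by gcongr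
      _ = _ := by ring

lemma cr_spec (h : Cls G) : cr G ∈ Icc (-5 / 2 : ℝ) (5 / 2) ∧
    ∀ x ∈ Icc (-5 / 2 : ℝ) (5 / 2), gr G (cr G) ≤ gr G x := by
  apply Classical.epsilon_spec (p := fun c => c ∈ Icc (-5 / 2 : ℝ) (5 / 2) ∧
    ∀ x ∈ Icc (-5 / 2 : ℝ) (5 / 2), gr G c ≤ gr G x)
  obtain ⟨c, hc, hm⟩ := (isCompact_Icc (a := (-5 / 2 : ℝ)) (b := 5 / 2)).exists_isMinOn
    ⟨0, by norm_num⟩ h.grcont.continuousOn
  exact ⟨c, hc, fun x hx => hm hx⟩

lemma cr_abs (h : Cls G) : |cr G| ≤ 1 / 2000 := (h.crit h.cr_spec.1 h.cr_spec.2).1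
lemma cr_deriv (h : Cls G) : HasDerivAt (g G) 0 (cr G) := (h.crit h.cr_spec.1 h.cr_spec.2).2.1
lemma cr_quad (h : Cls G) {x : ℂ} (hx : ‖x - cr G‖ < 2) :
    ‖g G x - g G (cr G) - (x - cr G) ^ 2‖ ≤ 1 / 1000 * ‖x - cr G‖ ^ 2 :=
  (h.crit h.cr_spec.1 h.cr_spec.2).2.2 x hx

lemma cr_le (h : Cls G) {x : ℂ} (hx : ‖x - cr G‖ < 2) :
    ‖g G x - g G (cr G)‖ ≤ 1001 / 1000 * ‖x - cr G‖ ^ 2 := by
  have h1 := h.cr_quad hx
  have h2 := norm_add_le (g G x - g G (cr G) - (x - cr G) ^ 2) ((x - cr G) ^ 2)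
  rw [sub_add_cancel, norm_pow] at h2
  linarith

lemma cr_ge (h : Cls G) {x : ℂ} (hx : ‖x - cr G‖ < 2) :
    999 / 1000 * ‖x - cr G‖ ^ 2 ≤ ‖g G x - g G (cr G)‖ := by
  have h1 := h.cr_quad hx
  have h2 := norm_sub_le (g G x - g G (cr G)) (g G x - g G (cr G) - (x - cr G) ^ 2)
  rw [sub_sub_cancel, norm_pow] at h2
  linarith

lemma cr_uniq (h : Cls G) {c : ℝ} (hc : c ∈ Icc (-5 / 2 : ℝ) (5 / 2))
    (hm : ∀ x ∈ Icc (-5 / 2 : ℝ) (5 / 2), gr G c ≤ gr G x) : c = cr G := by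
  have h1 := abs_le.1 (h.crit hc hm).1
  have h2 := abs_le.1 h.cr_abs
  have h3 : gr G c = gr G (cr G) := le_antisymm (hm _ h.cr_spec.1) (h.cr_spec.2 _ hc)
  have h4 := h.cr_ge (x := c) (by
    rw [← Complex.ofReal_sub, Complex.norm_real, Real.norm_eq_abs, abs_lt]
    constructor <;> linarith)
  rw [h.greal, h.greal, h3, sub_self, norm_zero] at h4
  have h5 : ‖(c : ℂ) - cr G‖ = 0 := by nlinarith [norm_nonneg ((c : ℂ) - cr G)]
  rw [norm_eq_zero, sub_eq_zero] at h5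
  exact_mod_cast h5

lemma xi_spec (h : Cls G) : xi G ∈ Icc (13 / 10 : ℝ) (3 / 2) ∧ gr G (xi G) = cr G := by
  apply Classical.epsilon_spec (p := fun x => x ∈ Icc (13 / 10 : ℝ) (3 / 2) ∧ gr G x = cr G)
  have h1 := abs_le.1 (h.quadr (x := 13 / 10) (by norm_num [abs_le]))
  have h2 := abs_le.1 (h.quadr (x := 3 / 2) (by norm_num [abs_le]))
  have h3 := abs_le.1 h.cr_abs
  exact intermediate_value_Icc (show (13 / 10 : ℝ) ≤ 3 / 2 by norm_num) h.grcont.continuousOn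
    ⟨by linarith [h.hi], by linarith [h.lo]⟩

lemma xi_bd (h : Cls G) : 141 / 100 ≤ xi G ∧ xi G ≤ 142 / 100 := by
  obtain ⟨⟨h0, h0'⟩, h1⟩ := h.xi_spec
  have h2 := abs_le.1 (h.quadr (x := xi G) (abs_le.2 ⟨by linarith, by linarith⟩))
  have h3 := abs_le.1 h.cr_abs
  have := h.lo; have := h.hi
  constructor <;> nlinarith

lemma xi_uniq (h : Cls G) {x : ℝ} (hx : x ∈ Icc (13 / 10 : ℝ) (3 / 2)) (he : gr G x = cr G) :
    x = xi G := by
  obtain ⟨⟨h0, h0'⟩, h1⟩ := h.xi_spec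
  have h2 := h.twor (x := xi G) (x' := x) (abs_le.2 ⟨by linarith, by linarith⟩)
    (abs_lt.2 ⟨by linarith [hx.1], by linarith [hx.2]⟩)
  rw [he, h1, sub_self, zero_sub, abs_neg, abs_mul, abs_of_pos (by linarith [hx.1])] at h2
  have : |x - xi G| = 0 := by nlinarith [abs_nonneg (x - xi G), hx.1]
  rwa [abs_eq_zero, sub_eq_zero] at this

end Cls

end Pool.Agent.Lib.MP_7d4c8f_an
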