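import Pool.Agent.Lib.MP_7d4c8f_an.Act
import Mathlib.Geometry.Manifold.IntegralCurve.UniformTime
import Mathlib.Analysis.Calculus.ContDiff.RCLike

/-! Mane Lagrangians: Tonelli properties, completeness, critical value. -/

namespace Pool.Agent.Lib.MP_7d4c8f_an
open MeasureTheory Filter Set Metric
open scoped ContDiff Manifold

lemma global_ode {Z : Type} [NormedAddCommGroup Z] [NormedSpace ℝ Z] [CompleteSpace Z]
    [ProperSpace Z] {W : Z → Z} (hW : ContDiff ℝ 1 W) {B : ℝ} (hB : 0 < B)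
    (hg : ∀ z, ‖W z‖ ≤ B * (1 + ‖z‖)) (z0 : Z) :
    ∃ z : ℝ → Z, z 0 = z0 ∧ ∀ t, HasDerivAt z (W (z t)) t := by
  have hε : 0 < 1 / (2 * B) := by positivity
  obtain ⟨z, h0, hz⟩ := exists_isMIntegralCurve_of_isMIntegralCurveOn (I := 𝓘(ℝ, Z)) (v := W)
    (contMDiff_vectorSpace_iff_contDiff.2 hW) hε (fun x => by
      obtain ⟨K, hK⟩ := hW.contDiffOn.exists_lipschitzOnWith one_ne_zero
        (convex_closedBall x (‖x‖₊ + 1 : NNReal)) (isCompact_closedBall _ _)
      have hP := IsPicardLindelof.of_time_independent (f := W) (tmin := -(1 / (2 * B)))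
        (tmax := 1 / (2 * B)) (t₀ := ⟨0, by constructor <;> linarith⟩) (x₀ := x)
        (a := ‖x‖₊ + 1) (r := 0) (L := ⟨2 * B * (‖x‖ + 1), by positivity⟩) (K := K)
        (fun y hy => by
          have h1 := norm_add_le (y - x) x
          rw [sub_add_cancel] at h1
          rw [mem_closedBall, dist_eq_norm] at hy
          push_cast at hy
          refine (hg y).trans ?_
          change _ ≤ 2 * B * (‖x‖ + 1)
          nlinarith) hK (by
          change 2 * B * (‖x‖ + 1) * _ ≤ _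
          simp only [sub_zero, sub_neg_eq_add, zero_add, max_self]
          push_cast
          apply le_of_eq; field_simp; ring)
      obtain ⟨γ, h1, h2⟩ := hP.exists_eq_forall_mem_Icc_hasDerivWithinAt₀
      refine ⟨γ, h1, fun t ht => ?_⟩
      exact hasMFDerivWithinAt_iff_hasFDerivWithinAt.2
        ((h2 t (Ioo_subset_Icc_self ht)).mono Ioo_subset_Icc_self).hasFDerivWithinAt) z0
  exact ⟨z, h0, fun t => hasDerivAt_iff_hasFDerivAt.2 (hasMFDerivAt_iff_hasFDerivAt.1 (hz t))⟩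

lemma pr_int (x : E) (m : Fin 4 → ℤ) : pr (x + fun i => (m i : ℝ)) = pr x := by
  ext i
  simp only [pr, Pi.add_apply]
  rw [AddCircle.coe_add, add_eq_left, AddCircle.coe_eq_zero_iff]
  exact ⟨m i, by simp⟩

lemma coe_add_int (t : ℝ) (n : ℤ) : ((t + n : ℝ) : UnitAddCircle) = t := by
  rw [AddCircle.coe_add, add_eq_left, AddCircle.coe_eq_zero_iff]
  exact ⟨n, by simp⟩

lemma per_bdd {F : Type*} [NormedAddCommGroup F] {g : ℝ × E → F} (hg : Continuous g)
    (hp : ∀ t x (n : ℤ) (m : Fin 4 → ℤ), g (t + n, x + fun i => (m i : ℝ)) = g (t, x)) :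
    ∃ K, ∀ p, ‖g p‖ ≤ K := by
  obtain ⟨K, hK⟩ := (isCompact_closedBall (0 : ℝ × E) 1).exists_bound_of_continuousOn
    hg.continuousOn
  refine ⟨K, fun p => ?_⟩
  have := hp (Int.fract p.1) (fun i => Int.fract (p.2 i)) ⌊p.1⌋ fun i => ⌊p.2 i⌋
  rw [Int.fract_add_floor, show ((fun i => Int.fract (p.2 i)) + fun i => (⌊p.2 i⌋ : ℝ)) = p.2 from
    funext fun i => Int.fract_add_floor _] at this
  rw [show g p = _ from this]
  have h : ∀ a : ℝ, ‖Int.fract a‖ ≤ 1 := fun a => by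
    rw [Real.norm_eq_abs, abs_of_nonneg (Int.fract_nonneg a)]; exact (Int.fract_lt_one a).le
  refine hK _ ?_
  rw [mem_closedBall_zero_iff, Prod.norm_def]
  exact max_le (h _) ((pi_norm_le_iff_of_nonneg zero_le_one).2 fun i => h _)

noncomputable def ML (Y : UnitAddCircle → Tor → E) (z : Ph) : ℝ :=
  1 / 2 * ∑ i, (z.2.1 i - Y z.2.2 z.1 i) ^ 2

def XX (Y : UnitAddCircle → Tor → E) (t : ℝ) (x : E) : E := Y t (pr x)

variable {Y : UnitAddCircle → Tor → E}

lemma ML_nonneg (z : Ph) : 0 ≤ ML Y z := by unfold ML; positivity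

lemma lift_ML (x v : E) (t : ℝ) : lift (ML Y) x v t = 1 / 2 * ∑ i, ((v - XX Y t x) i) ^ 2 := rfl

lemma norm_sq_le (w : E) : ‖w‖ ^ 2 ≤ ∑ i, w i ^ 2 := by
  have h0 : 0 ≤ ∑ i, w i ^ 2 := by positivity
  refine (pow_le_pow_left₀ (norm_nonneg _) ((pi_norm_le_iff_of_nonneg (Real.sqrt_nonneg _)).2
    fun i => Real.abs_le_sqrt (Finset.single_le_sum (f := fun i => w i ^ 2)
      (fun _ _ => sq_nonneg _) (Finset.mem_univ i))) 2).trans_eq (Real.sq_sqrt h0)

lemma sq_le_norm (w : E) : ∑ i, w i ^ 2 ≤ 4 * ‖w‖ ^ 2 := by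
  have : ∀ i, w i ^ 2 ≤ ‖w‖ ^ 2 := fun i => by
    rw [← sq_abs]; exact pow_le_pow_left₀ (abs_nonneg _) (norm_le_pi_norm w i) 2
  simpa using Finset.sum_le_card_nsmul Finset.univ _ _ fun i _ => this i

noncomputable def BB : E →L[ℝ] E →L[ℝ] ℝ :=
  ∑ i, (ContinuousLinearMap.proj (R := ℝ) (φ := fun _ : Fin 4 => ℝ) i).smulRight
    (ContinuousLinearMap.proj (R := ℝ) (φ := fun _ : Fin 4 => ℝ) i)

lemma BB_apply (u w : E) : BB u w = ∑ i, u i * w i := by simp [BB]

lemma fd_sq {g : E → E} {g' : E →L[ℝ] E} {y : E} (h : HasFDerivAt g g' y) :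
    HasFDerivAt (fun y => 1 / 2 * ∑ i, (g y i) ^ 2) ((BB (g y)).comp g') y := by
  have h1 := (BB.hasFDerivAt_of_bilinear h h).const_mul (1 / 2)
  have e : (fun y => 1 / 2 * ∑ i, (g y i) ^ 2) = fun y => 1 / 2 * BB (g y) (g y) := by
    ext y; simp [BB_apply, sq]
  rw [e]
  refine h1.congr_fderiv (ContinuousLinearMap.ext fun w => ?_)
  simp only [BB_apply, ContinuousLinearMap.comp_apply, smul_apply, add_apply,
    ContinuousLinearMap.precompR_apply, ContinuousLinearMap.precompL_apply,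
    ContinuousLinearMap.compL_apply, smul_eq_mul, mul_comm (g' w _)]
  ring

lemma fd_v (x v : E) (t : ℝ) : fderiv ℝ (fun u => lift (ML Y) x u t) v = BB (v - XX Y t x) :=
  (fd_sq ((hasFDerivAt_id v).sub_const (XX Y t x))).fderiv

variable (hY : ContDiff ℝ ∞ fun p : ℝ × E => XX Y p.1 p.2)
include hY

lemma XX_diff (t : ℝ) : Differentiable ℝ (XX Y t) :=
  (hY.comp (contDiff_prodMk_right t)).differentiable (by simp)

lemma D_smooth : ContDiff ℝ ∞ fun p : ℝ × E => fderiv ℝ (XX Y p.1) p.2 :=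
  ContDiff.fderiv (m := ∞) (f := fun p : ℝ × E => XX Y p.1)
    (hY.comp (f := fun q : (ℝ × E) × E => (q.1.1, q.2)) (by fun_prop)) contDiff_snd (by simp)

lemma XX_bdd : ∃ K > 0, ∀ t x, ‖XX Y t x‖ ≤ K ∧ ‖fderiv ℝ (XX Y t) x‖ ≤ K := by
  have hp : ∀ t x (n : ℤ) (m : Fin 4 → ℤ), XX Y (t + n) (x + fun i => (m i : ℝ)) = XX Y t x :=
    fun t x n m => by simp only [XX, pr_int, coe_add_int]
  obtain ⟨K1, h1⟩ := per_bdd hY.continuous hp
  obtain ⟨K2, h2⟩ := per_bdd (D_smooth hY).continuous fun t x n m => by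
    simp only [← fderiv_comp_add_right, hp]
  exact ⟨max 1 (max K1 K2), by positivity, fun t x =>
    ⟨(h1 (t, x)).trans (le_max_of_le_right (le_max_left _ _)),
      (h2 (t, x)).trans (le_max_of_le_right (le_max_right _ _))⟩⟩

theorem tonelli : IsTonelli (ML Y) := by
  refine ⟨?_, fun x v t w hw => ?_, fun K => ?_⟩
  · simp only [lift_ML]
    have h1 : ContDiff ℝ ∞ fun p : E × E × ℝ => p.2.1 - XX Y p.2.2 p.1 :=
      ContDiff.sub (by fun_prop) (hY.comp (f := fun p : E × E × ℝ => (p.2.2, p.1)) (by fun_prop))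
    exact contDiff_const.mul (ContDiff.sum fun i _ => (contDiff_pi.1 h1 i).pow 2)
  · rw [iteratedFDeriv_two_apply, show fderiv ℝ (fun u => lift (ML Y) x u t) =
      fun v => BB (v - XX Y t x) from funext fun v => fd_v x v t,
      show fderiv ℝ (fun v => BB (v - XX Y t x)) v = _ from
        (BB.hasFDerivAt.comp v ((hasFDerivAt_id v).sub_const (XX Y t x))).fderiv]
    change 0 < BB w w
    rw [BB_apply]
    have := norm_sq_le w
    simp only [sq] at this
    exact lt_of_lt_of_le (mul_pos (norm_pos_iff.2 hw) (norm_pos_iff.2 hw)) this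
  · obtain ⟨B, hB, h⟩ := XX_bdd hY
    refine ⟨K ^ 2 / 2 + |K| * B, fun x v t => ?_⟩
    have h1 := norm_sq_le (v - XX Y t x)
    have h2 := norm_add_le (v - XX Y t x) (XX Y t x)
    rw [sub_add_cancel] at h2
    have h3 : K * ‖v‖ ≤ |K| * (‖v - XX Y t x‖ + B) :=
      mul_le_mul (le_abs_self K) (by linarith [(h t x).1]) (norm_nonneg _) (abs_nonneg _)
    rw [lift_ML]
    nlinarith [sq_nonneg (|K| - ‖v - XX Y t x‖), sq_abs K]

noncomputable def cov (p : E) (D : E →L[ℝ] E) : E := fun j => -BB p (D (Pi.single j 1))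

omit hY in
lemma BB_cov (p w : E) (D : E →L[ℝ] E) : BB (cov p D) w = -BB p (D w) := by
  conv_rhs => rw [← Finset.univ_sum_single w]
  rw [BB_apply, map_sum, map_sum, ← Finset.sum_neg_distrib]
  refine Finset.sum_congr rfl fun j _ => ?_
  rw [show Pi.single j (w j) = w j • (Pi.single j 1 : E) by rw [← Pi.single_smul]; simp,
    map_smul, map_smul]
  simp [cov, mul_comm]

omit hY in
lemma cov_smooth : ContDiff ℝ ∞ fun q : E × (E →L[ℝ] E) => cov q.1 q.2 := by
  refine contDiff_pi.2 fun j => ContDiff.neg ?_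
  exact (BB.contDiff.comp contDiff_fst).clm_apply (contDiff_snd.clm_apply contDiff_const)

lemma isEL_of {x p : ℝ → E} (hx : ∀ t, HasDerivAt x (p t + XX Y t (x t)) t)
    (hp : ∀ t, HasDerivAt p (cov (p t) (fderiv ℝ (XX Y t) (x t))) t) : IsEL (ML Y) x := by
  have dx : deriv x = fun t => p t + XX Y t (x t) := funext fun t => (hx t).deriv
  have dp : deriv p = fun t => cov (p t) (fderiv ℝ (XX Y t) (x t)) := funext fun t => (hp t).deriv
  have x0 : Differentiable ℝ x := fun t => (hx t).differentiableAt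
  have p0 : Differentiable ℝ p := fun t => (hp t).differentiableAt
  have x1 : ContDiff ℝ 1 x := contDiff_one_iff_deriv.2 ⟨x0, dx ▸ p0.continuous.add
    (hY.continuous.comp (continuous_id.prodMk x0.continuous))⟩
  have p1 : ContDiff ℝ 1 p := contDiff_one_iff_deriv.2 ⟨p0, dp ▸ cov_smooth.continuous.comp
    (p0.continuous.prodMk ((D_smooth hY).continuous.comp (continuous_id.prodMk x0.continuous)))⟩
  refine ⟨(contDiff_succ_iff_deriv (n := 1)).2 ⟨x0, by simp, dx ▸ p1.add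
    ((hY.of_le (by simp)).comp (contDiff_id.prodMk x1))⟩, fun t w => ?_⟩
  simp only [fd_v, dx, add_sub_cancel_right]
  simp only [lift_ML]
  rw [show fderiv ℝ (fun y => 1 / 2 * ∑ i, (p t + XX Y t (x t) - XX Y t y) i ^ 2) (x t) = _ from
    (fd_sq ((XX_diff hY t (x t)).hasFDerivAt.const_sub (p t + XX Y t (x t)))).fderiv]
  have := ((BB.flip w).hasFDerivAt.comp_hasDerivAt t (hp t))
  refine HasDerivAt.congr_deriv this ?_
  simp [BB_cov]

lemma exists_EL (q v : E) (t0 : ℝ) : ∃ x, IsEL (ML Y) x ∧ x t0 = q ∧ deriv x t0 = v := by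
  obtain ⟨B, hB, h⟩ := XX_bdd hY
  obtain ⟨z, h0, hz⟩ := global_ode (Z := E × E × ℝ) (W := fun z => (z.2.1 + XX Y z.2.2 z.1,
    cov z.2.1 (fderiv ℝ (XX Y z.2.2) z.1), 1)) (by
      have h1 : ContDiff ℝ ∞ fun z : E × E × ℝ => (z.2.2, z.1) := by fun_prop
      have h2 : ContDiff ℝ ∞ fun z : E × E × ℝ => z.2.1 := by fun_prop
      exact ((h2.add (hY.comp h1)).prodMk ((cov_smooth.comp (h2.prodMk
        ((D_smooth hY).comp h1))).prodMk contDiff_const)).of_le (by simp))
    (B := 4 * B + 1) (by positivity) (fun z => by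
      have h1 : ‖z.2.1‖ ≤ ‖z‖ := (norm_fst_le z.2).trans (norm_snd_le z)
      have h2 := norm_nonneg z
      have h3 := mul_nonneg hB.le h2
      rw [Prod.norm_def, Prod.norm_def]
      refine max_le ((norm_add_le _ _).trans ?_) (max_le ?_ ?_)
      · nlinarith [(h z.2.2 z.1).1]
      · refine (pi_norm_le_iff_of_nonneg (by positivity)).2 fun j => ?_
        have h4 : ‖fderiv ℝ (XX Y z.2.2) z.1 (Pi.single j 1)‖ ≤ B := by
          simpa [Pi.norm_single] using (fderiv ℝ (XX Y z.2.2) z.1).le_of_opNorm_le (h z.2.2 z.1).2 (Pi.single j 1)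
        simp only [cov, BB_apply, norm_neg]
        refine (norm_sum_le _ _).trans ((Finset.sum_le_card_nsmul _ _ (‖z‖ * B) fun i _ => ?_).trans
          (by simp; nlinarith))
        rw [norm_mul]
        exact mul_le_mul ((norm_le_pi_norm _ i).trans h1) ((norm_le_pi_norm _ i).trans h4)
          (norm_nonneg _) h2
      · simp; nlinarith) (q, v - XX Y t0 q, t0)
  have z1 := fun s => (ContinuousLinearMap.fst ℝ _ _).hasFDerivAt.comp_hasDerivAt s (hz s)
  have z2 := fun s => (ContinuousLinearMap.snd ℝ _ _).hasFDerivAt.comp_hasDerivAt s (hz s)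
  have z21 := fun s => (ContinuousLinearMap.fst ℝ _ _).hasFDerivAt.comp_hasDerivAt s (z2 s)
  have z22 := fun s => (ContinuousLinearMap.snd ℝ _ _).hasFDerivAt.comp_hasDerivAt s (z2 s)
  have ht : ∀ s, (z (s - t0)).2.2 = s := by
    have h1 : ∀ s, HasDerivAt (fun s => (z s).2.2 - s) 0 s := fun s => by
      exact ((z22 s).sub (hasDerivAt_id s)).congr_deriv (by simp)
    intro s
    have := is_const_of_deriv_eq_zero (fun s => (h1 s).differentiableAt) (fun s => (h1 s).deriv)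
      (s - t0) 0
    simp only [h0] at this
    linarith
  have hx : ∀ t, HasDerivAt (fun t => (z (t - t0)).1)
      ((z (t - t0)).2.1 + XX Y t (z (t - t0)).1) t := fun t => by
    exact ((z1 (t - t0)).comp_sub_const t t0).congr_deriv (by simp [ht])
  refine ⟨fun t => (z (t - t0)).1, isEL_of hY (p := fun t => (z (t - t0)).2.1) hx fun t => ?_,
    by simp [h0], by rw [(hx t0).deriv]; simp [h0]⟩
  exact ((z21 (t - t0)).comp_sub_const t t0).congr_deriv (by simp [ht])

theorem exists_flow {q0 : E} (h0 : ∀ t, Y t (pr q0) = 0) :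
    ∃ φ, IsELFlow (ML Y) φ ∧ IsAlpha (ML Y) φ 0 := by
  have key : ∀ z : Ph, ∃ (x : ℝ → E) (t0 : ℝ), IsEL (ML Y) x ∧
      (pr (x t0), deriv x t0, (t0 : UnitAddCircle)) = z ∧
      (z.1 = pr q0 → z.2.1 = 0 → x = fun _ => q0) := by
    rintro ⟨a, v, τ⟩
    obtain ⟨t0, rfl⟩ := QuotientAddGroup.mk_surjective τ
    by_cases h : a = pr q0 ∧ v = 0
    · refine ⟨fun _ => q0, t0, isEL_of hY (p := fun _ => 0) (fun t => ?_) (fun t => ?_),
        by simp [h.1, h.2], fun _ _ => rfl⟩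
      · simpa [XX, h0] using hasDerivAt_const t q0
      · refine (hasDerivAt_const t (0 : E)).congr_deriv ?_
        ext j; simp [cov]
    · obtain ⟨q, rfl⟩ := pr_surj a
      obtain ⟨x, h1, h2, h3⟩ := exists_EL hY q v t0
      exact ⟨x, t0, h1, by rw [h2, h3], fun a b => absurd ⟨a, b⟩ h⟩
  choose x t0 h1 h2 h3 using key
  refine ⟨fun s z => (pr (x z (t0 z + s)), deriv (x z) (t0 z + s), ((t0 z + s : ℝ) : UnitAddCircle)),
    fun z => ⟨by simpa using h2 z, x z, t0 z, h1 z, fun _ => rfl⟩, IsLeast.isGLB ⟨?_, ?_⟩⟩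
  · let j : UnitAddCircle → Ph := fun τ => (pr q0, 0, τ)
    have hj : MeasurableEmbedding j :=
      (measurableEmbedding_prodMk_left (pr q0)).comp (measurableEmbedding_prodMk_left (0 : E))
    have hL : ∀ τ, ML Y (j τ) = 0 := fun τ => by simp [ML, j, h0]
    refine ⟨volume.map j, ⟨by rw [hj.map_apply]; simp⟩, fun s A _ => ?_,
      hj.integrable_map_iff.2 (by simp [Function.comp_def, hL]), by simp [hj.integral_map, hL]⟩
    rw [hj.map_apply, hj.map_apply, ← measure_preimage_add_right volume (s : UnitAddCircle)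
      (j ⁻¹' A)]
    congr 1
    ext τ
    have h4 : ((t0 (j τ) : ℝ) : UnitAddCircle) = τ := congrArg (fun z => z.2.2) (h2 (j τ))
    simp [h3 (j τ) rfl rfl, h4, j]
  · rintro _ ⟨μ, -, -, -, rfl⟩
    exact integral_nonneg fun z => by simpa using ML_nonneg z

end Pool.Agent.Lib.MP_7d4c8f_an
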