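import Pool.Agent.Lib.MP_7d4c8f_an.Mane
import Mathlib.Analysis.SpecialFunctions.SmoothTransition
import Mathlib.Analysis.Calculus.BumpFunction.InnerProduct

/-! A smooth periodic vector field whose time-one map is the product of two Henon maps. -/

namespace Pool.Agent.Lib.MP_7d4c8f_an
open MeasureTheory Filter Set Metric Topology Real
open scoped ContDiff

lemma per_round (f : ℝ → ℝ) : Function.Periodic (fun x : ℝ => f (x - round x)) 1 := fun x => by
  simp [round_add_one]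

noncomputable def PP (f : ℝ → ℝ) : UnitAddCircle → ℝ := (per_round f).lift

lemma PP_eq {f : ℝ → ℝ} (hf : ∀ x, 2 / 5 ≤ |x| → f x = 0) {x : ℝ} {n : ℤ} (h : |x - n| < 3 / 5) :
    PP f x = f (x - n) := by
  change f (x - round x) = _
  rcases eq_or_ne (round x) n with h1 | h1
  · rw [h1]
  have h2 : (1 : ℝ) ≤ |(round x : ℝ) - n| := by
    exact_mod_cast Int.one_le_abs (sub_ne_zero.2 h1)
  have h3 := abs_sub_round x
  have h4 := abs_sub_le (round x : ℝ) x n
  rw [abs_sub_comm _ x] at h4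
  rw [hf _ (by linarith), hf _ (by linarith)]

lemma PP_smooth {f : ℝ → ℝ} (hf : ∀ x, 2 / 5 ≤ |x| → f x = 0) (hs : ContDiff ℝ ∞ f) :
    ContDiff ℝ ∞ fun x : ℝ => PP f x := by
  refine contDiff_iff_contDiffAt.2 fun x => ?_
  refine ((hs.comp (contDiff_id.sub contDiff_const)).contDiffAt (x := x)).congr_of_eventuallyEq
    (f := f ∘ fun y => id y - (round x : ℝ)) ?_
  filter_upwards [ball_mem_nhds x (show (0 : ℝ) < 1 / 10 by norm_num)] with y hy
  rw [mem_ball, Real.dist_eq] at hy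
  exact PP_eq hf (by linarith [abs_sub_le y x (round x), abs_sub_round x])

noncomputable def chi : ContDiffBump (0 : ℝ) := ⟨1 / 4, 2 / 5, by norm_num, by norm_num⟩

lemma chi_zero (x : ℝ) (h : 2 / 5 ≤ |x|) : chi x = 0 :=
  chi.zero_of_le_dist (by simpa [chi] using h)

lemma chi_one {x : ℝ} (h : |x| ≤ 1 / 4) : chi x = 1 :=
  chi.one_of_mem_closedBall (by simpa [chi] using h)

noncomputable def SS (c t : ℝ) : ℝ := smoothTransition (5 * t - c)

lemma SS_smooth (c : ℝ) : ContDiff ℝ ∞ (SS c) :=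
  smoothTransition.contDiff.comp (by fun_prop)

lemma SS_deriv {c t : ℝ} (h : 5 * t < c ∨ c + 1 < 5 * t) : deriv (SS c) t = 0 := by
  rcases h with h | h
  · rw [EventuallyEq.deriv_eq (f := fun _ => 0), deriv_const]
    filter_upwards [Iio_mem_nhds (show t < c / 5 by linarith)] with s hs
    exact smoothTransition.zero_of_nonpos (by linarith [mem_Iio.1 hs])
  · rw [EventuallyEq.deriv_eq (f := fun _ => 1), deriv_const]
    filter_upwards [Ioi_mem_nhds (show (c + 1) / 5 < t by linarith)] with s hs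
    exact smoothTransition.one_of_one_le (by linarith [mem_Ioi.1 hs])

noncomputable def tb (c : ℝ) (τ : UnitAddCircle) : ℝ :=
  PP (fun s => deriv (SS c) (s + 1 / 2)) (τ - (1 / 2 : ℝ))
noncomputable def uu (τ : UnitAddCircle) : ℝ := PP (fun s => s * chi s) τ
noncomputable def ps (τ : UnitAddCircle) : ℝ := PP chi τ

lemma tb_supp {c : ℝ} (h1 : 1 ≤ c) (h3 : c ≤ 3) (x : ℝ) (h : 2 / 5 ≤ |x|) :
    deriv (SS c) (x + 1 / 2) = 0 := by
  rcases le_abs.1 h with h | h
  · exact SS_deriv (Or.inr (by linarith))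
  · exact SS_deriv (Or.inl (by linarith))

lemma tb_smooth {c : ℝ} (h1 : 1 ≤ c) (h3 : c ≤ 3) : ContDiff ℝ ∞ fun t : ℝ => tb c t :=
  (PP_smooth (tb_supp h1 h3) ((contDiff_infty_iff_deriv.1 (SS_smooth c)).2.comp
    (contDiff_id.add contDiff_const))).comp (contDiff_id.sub contDiff_const)

lemma tb_eq {c : ℝ} (h1 : 1 ≤ c) (h3 : c ≤ 3) {t : ℝ} (ht : t ∈ Icc (0 : ℝ) 1) :
    tb c t = deriv (SS c) t := by
  unfold tb
  rw [← AddCircle.coe_sub, PP_eq (tb_supp h1 h3) (n := 0)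
    (abs_lt.2 ⟨by simp; linarith [ht.1], by simp; linarith [ht.2]⟩)]
  simp

lemma uu_smooth : ContDiff ℝ ∞ fun t : ℝ => uu t :=
  PP_smooth (fun x h => by simp [chi_zero x h]) (contDiff_id.mul chi.contDiff)

lemma ps_smooth : ContDiff ℝ ∞ fun t : ℝ => ps t := PP_smooth chi_zero chi.contDiff

lemma uu_eq {x : ℝ} (h : |x| ≤ 1 / 4) : uu x = x := by
  unfold uu
  rw [PP_eq (fun x h => by simp [chi_zero x h]) (n := 0) (by simp; linarith)]
  simp [chi_one h]

lemma ps_eq {x : ℝ} (h : |x| ≤ 1 / 4) : ps x = 1 := by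
  unfold ps
  rw [PP_eq chi_zero (n := 0) (by simp; linarith)]
  simp [chi_one h]

lemma uu_half : uu (1 / 2 : ℝ) = 0 := by
  unfold uu
  rw [PP_eq (fun x h => by simp [chi_zero x h]) (n := 0) (by norm_num [abs_lt]),
    chi_zero _ (by norm_num [le_abs]), mul_zero]

lemma ps_half : ps (1 / 2 : ℝ) = 0 := by
  unfold ps
  rw [PP_eq chi_zero (n := 0) (by norm_num [abs_lt]), chi_zero _ (by norm_num [le_abs])]

noncomputable def V1 (b : ℝ) (τ x y : UnitAddCircle) : ℝ :=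
  tb 3 τ * (log b * uu x - π / 2 * uu y)
noncomputable def V2 (a b l : ℝ) (τ x y : UnitAddCircle) : ℝ :=
  tb 1 τ * (-(l * uu x ^ 2 + a / l * ps x) / b) + tb 3 τ * (π / 2 * uu x + log b * uu y)
noncomputable def YY (a b l : ℝ) (τ : UnitAddCircle) (x : Tor) : E :=
  ![V1 b τ (x 0) (x 1), V2 a b l τ (x 0) (x 1), V1 b τ (x 2) (x 3), V2 a b l τ (x 2) (x 3)]

lemma YY_smooth (a b l : ℝ) : ContDiff ℝ ∞ fun p : ℝ × E => XX (YY a b l) p.1 p.2 := by
  have t1 : ContDiff ℝ ∞ fun p : ℝ × E => tb 1 p.1 :=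
    (tb_smooth le_rfl (by norm_num)).comp contDiff_fst
  have t3 : ContDiff ℝ ∞ fun p : ℝ × E => tb 3 p.1 :=
    (tb_smooth (by norm_num) le_rfl).comp contDiff_fst
  have u : ∀ i, ContDiff ℝ ∞ fun p : ℝ × E => uu (p.2 i) := fun i => uu_smooth.comp (by fun_prop)
  have v : ∀ i, ContDiff ℝ ∞ fun p : ℝ × E => ps (p.2 i) := fun i => ps_smooth.comp (by fun_prop)
  have h1 : ∀ i j, ContDiff ℝ ∞ fun p : ℝ × E => V1 b p.1 (p.2 i) (p.2 j) := fun i j =>
    t3.mul ((contDiff_const.mul (u i)).sub (contDiff_const.mul (u j)))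
  have h2 : ∀ i j, ContDiff ℝ ∞ fun p : ℝ × E => V2 a b l p.1 (p.2 i) (p.2 j) := fun i j =>
    (t1.mul (((contDiff_const.mul ((u i).pow 2)).add (contDiff_const.mul (v i))).neg.div_const
      _)).add (t3.mul ((contDiff_const.mul (u i)).add (contDiff_const.mul (u j))))
  refine contDiff_pi.2 fun i => ?_
  fin_cases i
  exacts [h1 0 1, h2 0 1, h1 2 3, h2 2 3]

lemma YY_zero (a b l : ℝ) (t : UnitAddCircle) : YY a b l t (pr fun _ => 1 / 2) = 0 := by
  ext i
  fin_cases i <;> simp only [YY, V1, V2, pr, uu_half, ps_half] <;> simp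

lemma plane {a b l X Y : ℝ} (hb : 0 < b) (hb1 : b ≤ 1) (ha : |a| ≤ 3) (hl : l = 4 * (6 + 12 / b))
    (hX : |l * X| ≤ 3) (hY : |l * Y| ≤ 3) : ∃ x y : ℝ → ℝ, x 0 = X ∧ y 0 = Y ∧
      l * x 1 = (l * X) ^ 2 + a - b * (l * Y) ∧ l * y 1 = b * (l * X) ∧ ∀ t ∈ Icc (0 : ℝ) 1,
        HasDerivAt x (V1 b t (x t) (y t)) t ∧ HasDerivAt y (V2 a b l t (x t) (y t)) t := by
  have hl0 : 0 < l := by rw [hl]; positivity
  set s0 := (l * X ^ 2 + a / l) / b with hs0
  have z0 : ∀ c : ℝ, 0 ≤ c → SS c 0 = 0 := fun c hc =>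
    smoothTransition.zero_of_nonpos (by linarith)
  have z1 : ∀ c : ℝ, c ≤ 3 → SS c 1 = 1 := fun c hc => smoothTransition.one_of_one_le (by linarith)
  refine ⟨fun t => exp (log b * SS 3 t) * (cos (π / 2 * SS 3 t) * X -
      sin (π / 2 * SS 3 t) * (Y - SS 1 t * s0)),
    fun t => exp (log b * SS 3 t) * (sin (π / 2 * SS 3 t) * X +
      cos (π / 2 * SS 3 t) * (Y - SS 1 t * s0)), by simp [z0], by simp [z0], ?_, ?_,
      fun t ht => ?_⟩
  · simp only [z1 3 le_rfl, z1 1 (by norm_num), mul_one, exp_log hb, cos_pi_div_two,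
      sin_pi_div_two, hs0]
    field_simp; ring
  · simp only [z1 3 le_rfl, z1 1 (by norm_num), mul_one, exp_log hb, cos_pi_div_two,
      sin_pi_div_two]
    ring
  have b1 : |X| + |Y - SS 1 t * s0| ≤ 1 / 4 := by
    have h1 : |l * s0| ≤ 12 / b := by
      rw [show l * s0 = ((l * X) ^ 2 + a) / b by rw [hs0]; field_simp, abs_div, abs_of_pos hb]
      gcongr
      have := abs_add_le ((l * X) ^ 2) a
      rw [abs_pow] at this
      nlinarith [abs_nonneg (l * X)]
    have h2 := abs_sub Y (SS 1 t * s0)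
    have h3 : |SS 1 t * s0| ≤ |s0| := by
      rw [abs_mul, abs_of_nonneg (show 0 ≤ SS 1 t from smoothTransition.nonneg _)]
      exact mul_le_of_le_one_left (abs_nonneg _) (smoothTransition.le_one _)
    rw [abs_mul, abs_of_pos hl0] at h1 hX hY
    refine le_of_mul_le_mul_left ?_ hl0
    nlinarith
  have b2 : ∀ c s : ℝ, |c| ≤ 1 → |s| ≤ 1 →
      |exp (log b * SS 3 t) * (c * X + s * (Y - SS 1 t * s0))| ≤ 1 / 4 := by
    intro c s hc hs
    have h1 : exp (log b * SS 3 t) ≤ 1 := exp_le_one_iff.2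
      (mul_nonpos_of_nonpos_of_nonneg (log_nonpos hb.le hb1) (smoothTransition.nonneg _))
    have h2 := abs_add_le (c * X) (s * (Y - SS 1 t * s0))
    rw [abs_mul, abs_mul] at h2
    rw [abs_mul, abs_of_pos (exp_pos _)]
    refine (mul_le_of_le_one_left (abs_nonneg _) h1).trans ?_
    nlinarith [abs_nonneg X, abs_nonneg (Y - SS 1 t * s0)]
  have b3 := b2 (cos (π / 2 * SS 3 t)) (-sin (π / 2 * SS 3 t)) (abs_cos_le_one _)
    (by rw [abs_neg]; exact abs_sin_le_one _)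
  have b4 := b2 (sin (π / 2 * SS 3 t)) (cos (π / 2 * SS 3 t)) (abs_sin_le_one _) (abs_cos_le_one _)
  rw [neg_mul, ← sub_eq_add_neg] at b3
  have d1 := ((SS_smooth 1).differentiable (by simp) t).hasDerivAt
  have d3 := ((SS_smooth 3).differentiable (by simp) t).hasDerivAt
  have de := (d3.const_mul (log b)).exp
  have dc := (d3.const_mul (π / 2)).cos
  have ds := (d3.const_mul (π / 2)).sin
  have dy := (d1.mul_const s0).const_sub Y
  have alt : deriv (SS 1) t = 0 ∨ SS 3 t = 0 := by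
    rcases le_or_gt (5 * t) 2 with h | h
    · exact Or.inr (smoothTransition.zero_of_nonpos (by linarith))
    · exact Or.inl (SS_deriv (Or.inr (by linarith)))
  simp only [V1, V2, uu_eq b3, uu_eq b4, ps_eq b3, tb_eq le_rfl (by norm_num) ht,
    tb_eq (c := 3) (by norm_num) le_rfl ht]
  refine ⟨(de.mul ((dc.mul_const X).sub (ds.mul dy))).congr_deriv ?_,
    (de.mul ((ds.mul_const X).add (dc.mul dy))).congr_deriv ?_⟩
  · rcases alt with h | h <;> simp [h] <;> ring
  · rcases alt with h | h <;> simp [h, hs0] <;> ring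

theorem main : ∃ (L : Ph → ℝ) (φ : ℝ → Ph → Ph) (α : ℝ), IsTonelli L ∧ IsELFlow L φ ∧
    IsAlpha L φ α ∧ ∃ (Q : Type) (_ : EMetricSpace Q) (q : aubry L α → Q),
      Function.Surjective q ∧ (∀ x y, (edist (q x) (q y) : EReal) = rho L α x y) ∧
      0 < dimH (univ : Set Q) := by
  obtain ⟨a, b, V, C, ε, y, hb, hb1, ha, hC, hε, hV, hF, hy, hrec, trap, sep⟩ := recs
  set l := 4 * (6 + 12 / b) with hl
  have hl1 : 24 ≤ l := by
    have : 0 < 12 / b := by positivity
    linarith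
  have hl0 : 0 < l := by linarith
  have hY := YY_smooth a b l
  obtain ⟨φ, h1, h2⟩ := exists_flow hY (q0 := fun _ => 1 / 2) fun t => YY_zero a b l t
  refine ⟨_, φ, 0, tonelli hY, h1, h2, ?_⟩
  set F := Prod.map (HR a b) (HR a b) with hFF
  let J : E → R2 × R2 := fun x => ((l * x 0, l * x 1), (l * x 2, l * x 3))
  let I : R2 × R2 → E := fun z => ![z.1.1 / l, z.1.2 / l, z.2.1 / l, z.2.2 / l]
  have JI : ∀ z, J (I z) = z := fun z => by simp [J, I, mul_div_cancel₀ _ hl0.ne']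
  have IJ : ∀ x, I (J x) = x := fun x => by
    ext i; fin_cases i <;> simp [J, I, mul_div_cancel_left₀ _ hl0.ne']
  have Jn : ∀ x x', ‖J x - J x'‖ ≤ l * ‖x - x'‖ := fun x x' => by
    have h : ∀ i, ‖l * x i - l * x' i‖ ≤ l * ‖x - x'‖ := fun i => by
      rw [← mul_sub, norm_mul, Real.norm_eq_abs, abs_of_pos hl0]
      exact mul_le_mul_of_nonneg_left (norm_le_pi_norm (x - x') i) hl0.le
    exact max_le (max_le (h 0) (h 1)) (max_le (h 2) (h 3))
  have In : ∀ z z', ‖I z - I z'‖ ≤ ‖z - z'‖ := fun z z' => by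
    have h : ∀ u v : ℝ, ‖u - v‖ ≤ ‖z - z'‖ → ‖u / l - v / l‖ ≤ ‖z - z'‖ := fun u v h => by
      rw [← sub_div, norm_div, Real.norm_eq_abs l, abs_of_pos hl0]
      exact (div_le_self (norm_nonneg _) (by linarith)).trans h
    refine (pi_norm_le_iff_of_nonneg (norm_nonneg _)).2 fun i => ?_
    fin_cases i
    exacts [h _ _ ((norm_fst_le (z - z').1).trans (norm_fst_le _)),
      h _ _ ((norm_snd_le (z - z').1).trans (norm_fst_le _)),
      h _ _ ((norm_fst_le (z - z').2).trans (norm_snd_le _)),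
      h _ _ ((norm_snd_le (z - z').2).trans (norm_snd_le _))]
  have bd : ∀ x ∈ J ⁻¹' (V ×ˢ V), ∀ i, |l * x i| ≤ 3 := fun x hx i => by
    fin_cases i
    exacts [(norm_fst_le (J x).1).trans (hV _ hx.1), (norm_snd_le (J x).1).trans (hV _ hx.1),
      (norm_fst_le (J x).2).trans (hV _ hx.2), (norm_snd_le (J x).2).trans (hV _ hx.2)]
  have it : ∀ k z, (fun x => I (F (J x)))^[k] (I z) = I (F^[k] z) := fun k =>
    (show Function.Semiconj I F fun x => I (F (J x)) from fun z => by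
      simp only [JI]).iterate_right k |>.eq |> fun h z => (h z).symm
  refine mane_dim hY (W := J ⁻¹' (V ×ˢ V)) (Φ := fun x => I (F (J x))) (y := fun e => I (y e))
    (C := C) (ε := ε / l) (fun z hz => ?_) (fun x hx x' hx' h => ?_)
    (fun x hx => by rw [mem_preimage, JI]; exact ⟨hF _ hx.1, hF _ hx.2⟩)
    (fun e => by rw [mem_preimage, JI]; exact hy e)
    (fun e δ hδ => (hrec e δ hδ).mono fun k hk => by
      rw [it, dist_eq_norm]; exact (In _ _).trans_lt (by rwa [← dist_eq_norm])) hC (by positivity)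
    (fun z hz z' h => trap _ hz _ ?_) fun e e' n N δ u a1 a2 a3 a4 a5 a6 =>
      sep e e' n N (l * δ) (fun k => J (u k)) (by positivity) ?_ a3 (by rw [a4, JI])
        (by rw [a5, JI]) fun k hk => ?_
  · obtain ⟨x0, x1, a1, a2, a3, a4, a5⟩ := plane hb hb1 ha hl (bd z hz 0) (bd z hz 1)
    obtain ⟨x2, x3, b1, b2, b3, b4, b5⟩ := plane hb hb1 ha hl (bd z hz 2) (bd z hz 3)
    refine ⟨fun t => ![x0 t, x1 t, x2 t, x3 t], ?_, ?_, fun t ht => hasDerivAt_pi.2 fun i => ?_⟩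
    · ext i; fin_cases i <;> simp [a1, a2, b1, b2]
    · refine (IJ _).symm.trans (congrArg I ?_)
      simp [J, F, HR, a3, a4, b3, b4]
    · fin_cases i
      exacts [(a5 t ht).1, (a5 t ht).2, (b5 t ht).1, (b5 t ht).2]
  · have h3 : ∀ x ∈ J ⁻¹' (V ×ˢ V), ∀ i, x i ∈ Ico (-1 / 2 : ℝ) (-1 / 2 + 1) := fun x hx i => by
      have := bd x hx i
      rw [abs_mul, abs_of_pos hl0] at this
      have h4 : |x i| ≤ 1 / 4 := by nlinarith [abs_nonneg (x i)]
      exact ⟨by linarith [(abs_le.1 h4).1], by linarith [(abs_le.1 h4).2]⟩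
    ext i
    exact (AddCircle.coe_eq_coe_iff_of_mem_Ico (h3 x hx i) (h3 x' hx' i)).1 (congrFun h i)
  · have := Jn z' (I (F (J z)))
    rw [JI] at this
    rw [le_div_iff₀ hl0] at h
    linarith
  · rw [le_div_iff₀ hl0] at a2
    linarith
  · have := Jn (u (k + 1)) (I (F (J (u k))))
    rw [JI] at this
    exact this.trans (mul_le_mul_of_nonneg_left (a6 k hk) hl0.le)

end Pool.Agent.Lib.MP_7d4c8f_an
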