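import Pool.Agent.Lib.MP_7d4c8f_an.Field

/-! The pseudometric is finite, so the quotient is a metric space in the usual sense. -/

namespace Pool.Agent.Lib.MP_7d4c8f_an
open MeasureTheory Filter Set

lemma hn_shift (L : Ph → ℝ) (α : ℝ) (n : ℕ) (x y : Tor) :
    hn L α n x y = hn (fun z => L z + α) 0 n x y := by
  unfold hn
  refine iInf_congr fun γ => ?_
  have : IntervalIntegrable (fun t => lift L (γ t) (deriv γ t) t) volume 0 n ↔
      IntervalIntegrable (fun t => lift (fun z => L z + α) (γ t) (deriv γ t) t) volume 0 n :=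
    ⟨fun h => h.add intervalIntegrable_const,
      fun h => by simpa [lift] using h.sub (intervalIntegrable_const (c := α))⟩
  rw [this]
  simp only [lift, add_zero]

lemma adm_one {L : Ph → ℝ} (hL : Continuous fun p : E × E × ℝ => lift L p.1 p.2.1 p.2.2)
    (x y : Tor) : ∃ r, Adm L 1 x y r := by
  obtain ⟨q, rfl⟩ := pr_surj x
  obtain ⟨q', rfl⟩ := pr_surj y
  refine ⟨_, q, fun _ => q' - q, intervalIntegrable_const, rfl, by simp [path], ?_, rfl⟩
  have : Continuous fun t : ℝ => (path q (fun _ => q' - q) t, q' - q, t) := by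
    simp only [path, intervalIntegral.integral_const, sub_zero]
    fun_prop
  exact (hL.comp this).intervalIntegrable _ _

lemma barrier_lt_top {L : Ph → ℝ} (hL : IsTonelli L) {α : ℝ} {x : Tor} (hx : x ∈ aubry L α)
    (y : Tor) : barrier L α x y < ⊤ := by
  obtain ⟨r, hr⟩ := adm_one (L := fun z => L z + α) (hL.1.continuous.add continuous_const) x y
  have h1 : barrier L α x x < ((1 : ℝ) : EReal) := by
    rw [show barrier L α x x = 0 from hx]
    exact_mod_cast one_pos
  refine lt_of_le_of_lt ?_ (EReal.coe_lt_top (1 + r))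
  refine liminf_le_of_frequently_le' (frequently_atTop.2 fun N => ?_)
  obtain ⟨n, hn1, hn2⟩ := frequently_atTop.1 (frequently_lt_of_liminf_lt (h := h1)) N
  rw [hn_shift] at hn2
  obtain ⟨r1, h2, h3⟩ := adm_of_lt hn2
  refine ⟨n + 1, by omega, ?_⟩
  rw [hn_shift]
  refine (h2.trans hr).hn_le.trans ?_
  have : r1 < 1 := by exact_mod_cast h3
  exact_mod_cast (by linarith : r1 + r ≤ 1 + r)

theorem main_metric : ∃ (L : Ph → ℝ) (φ : ℝ → Ph → Ph) (α : ℝ), IsTonelli L ∧ IsELFlow L φ ∧
    IsAlpha L φ α ∧ ∃ (Q : Type) (_ : MetricSpace Q) (q : aubry L α → Q),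
      Function.Surjective q ∧ (∀ x y, ((dist (q x) (q y) : ℝ) : EReal) = rho L α x y) ∧
      0 < dimH (univ : Set Q) := by
  obtain ⟨L, φ, α, h1, h2, h3, Q, iQ, q, hs, hd, hdim⟩ := main
  have hfin : ∀ a b : Q, edist a b ≠ ⊤ := by
    intro a b h
    obtain ⟨x, rfl⟩ := hs a
    obtain ⟨y, rfl⟩ := hs b
    have h4 := hd x y
    rw [h] at h4
    exact (EReal.add_lt_top (barrier_lt_top h1 x.2 y).ne (barrier_lt_top h1 y.2 x).ne).ne
      (by simpa [rho] using h4.symm)
  refine ⟨L, φ, α, h1, h2, h3, Q, EMetricSpace.toMetricSpace hfin, q, hs, fun x y => ?_, hdim⟩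
  rw [← hd x y]
  exact EReal.coe_ennreal_toReal (hfin _ _)

end Pool.Agent.Lib.MP_7d4c8f_an
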