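import Mathlib.Analysis.Normed.Group.Constructions
import Mathlib.Analysis.Normed.Module.Basic
import Mathlib.Data.ZMod.Basic
import Mathlib.Tactic

/-! The tower of Hanoi machine on three affine stacks. -/

namespace Pool.Agent.Lib.MP_7d4c8f_an.Han

/-- the three pegs -/
abbrev Peg := ZMod 3

/-- a disk: toggle (`false`: I sit on the next disk, `true`: I am off it), direction of the next
bigger disk that has to move (`0`: none; toggle `true` with direction `0` marks the last disk),
stored digit (`1 .. P` standard, `0` borrow, `P + 1` carry) -/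
abbrev Sym (P : ℕ) := Bool × Peg × Fin (P + 2)

/-- control state: peg of disk `0`, phase (`false`: disk `0` moves, `true`: a bigger disk moves) -/
abbrev Ctl := Peg × Bool

variable {P : ℕ}

/-- one-hot code of a symbol -/
def e (s : Sym P) : Sym P → ℝ := Pi.single s 1

/-- carry and borrow between the digit `x` of a disk and the digit `y` of the next disk;
`x * P + y` is preserved -/
def carry (x y : Fin (P + 2)) : Fin (P + 2) × Fin (P + 2) :=
  if h : y.val = P + 1 ∧ x.val < P + 1 then (⟨x.val + 1, by omega⟩, ⟨1, by omega⟩)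
  else if y.val = 0 ∧ 0 < x.val then (⟨x.val - 1, by omega⟩, ⟨P, by omega⟩) else (x, y)

/-- disk `s` is moved in direction `d` onto the disk `s'`: the new symbols of both -/
def upd (d : Peg) (s s' : Sym P) : Sym P × Sym P :=
  if s.1 = false then ((true, -d, s.2.2), s')
  else if s.2.1 = 0 then (s, s')
  else ((false, s'.2.1, (carry s.2.2 s'.2.2).1), (s'.1, s'.2.1, (carry s.2.2 s'.2.2).2))

/-- the next control state -/
def nxt (q : Ctl) : Ctl := if q.2 = false then (q.1 + 1, true) else (q.1, false)

/-- the direction of the move (`0`: no move), `t` = the three top symbols -/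
def dir (q : Ctl) (t : Peg → Sym P) : Peg := if q.2 = false then 1 else (t q.1).2.1

/-- the source peg of the move -/
def src (q : Ctl) (t : Peg → Sym P) : Peg := if q.2 = false then q.1 else q.1 + (t q.1).2.1

/-- the top disk of peg `S` is moved to peg `S + d` -/
noncomputable def mv (S d : Peg) (t : Peg → Sym P) (X : Peg → Sym P → ℝ) : Peg → Sym P → ℝ :=
  fun j => if j = S then (10 : ℝ) • (X S - e (t S))
    else if j = S + d then
      (1 / 10 : ℝ) • (X j - e (t j) + e (upd d (t S) (t j)).2) + e (upd d (t S) (t j)).1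
    else X j

/-- one step of the machine on the stacks -/
noncomputable def mstep (q : Ctl) (t : Peg → Sym P) (X : Peg → Sym P → ℝ) : Peg → Sym P → ℝ :=
  if dir q t = 0 then X else mv (src q t) (dir q t) t X

/-- `t` lists the top symbols of the stacks `X`, with block radius `η` -/
def Top (η : ℝ) (t : Peg → Sym P) (X : Peg → Sym P → ℝ) : Prop := ∀ j, ‖X j - e (t j)‖ ≤ η

/-- the lower bound (file HanLow): along a pseudo-orbit the digit of disk `0` grows by at most
`2 + 32 P ∑ u ^ 2` -/
def LowStmt : Prop := ∀ (P : ℕ), 400 ≤ P → ∀ (N : ℕ) (q : ℕ → Ctl) (t : ℕ → Peg → Sym P)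
  (X : ℕ → Peg → Sym P → ℝ) (u : ℕ → ℝ), (∀ n < N, q (n + 1) = nxt (q n)) →
  (∀ n ≤ N, Top (1 / 4) (t n) (X n)) →
  (∀ n < N, ‖X (n + 1) - mstep (q n) (t n) (X n)‖ ≤ u n) →
  ((t N (q N).1).2.2.val : ℝ) ≤ (t 0 (q 0).1).2.2.val + 2 + 32 * P * ∑ n ∈ Finset.range N, u n ^ 2

lemma carry_val (x y : Fin (P + 2)) :
    (carry x y).1.val * P + (carry x y).2.val = x.val * P + y.val := by
  unfold carry
  split_ifs with h1 h2
  · simp only [h1.1]; ring
  · obtain ⟨k, hk⟩ : ∃ k, x.val = k + 1 := ⟨x.val - 1, by omega⟩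
    simp only [h2.1, hk, Nat.add_sub_cancel]; ring
  · rfl

lemma norm_e (s : Sym P) : ‖e s‖ = 1 := by simp [e, Pi.norm_single]

lemma e_sep {s s' : Sym P} (h : ‖e s - e s'‖ < 1) : s = s' := by
  by_contra hs
  have := norm_le_pi_norm (e s - e s') s
  simp [e, hs] at this h
  linarith

end Pool.Agent.Lib.MP_7d4c8f_an.Han
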