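import Pool.Agent.Lib.MP_7d4c8f_an.HanDefs

/-! The lower bound for pseudo-orbits of the Hanoi machine. -/

namespace Pool.Agent.Lib.MP_7d4c8f_an.Han
open Function

variable {P : ℕ}

/-- remove the disk `s` from peg `p` -/
noncomputable def pop (X : Peg → Sym P → ℝ) (p : Peg) (s : Sym P) : Peg → Sym P → ℝ :=
  update X p ((10 : ℝ) • (X p - e s))

/-- the trusted disks with their energies; `b` = the disk has moved since the last bigger move,
`p` its peg, `d` its direction, `n < w` the clock of the smaller disks -/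
def Rel (σ : ℝ) : List (Sym P × ℝ) → Bool → Peg → Peg → ℕ → ℕ → (Peg → Sym P → ℝ) → Prop
  | [], _, _, _, _, _, _ => True
  | x :: L, b, p, d, n, w, X => 0 ≤ x.2 ∧
      (∃ D : ℝ, 0 ≤ D ∧ ‖X p - e x.1‖ ≤ 1 / 4 + D ∧
        D ^ 2 ≤ ((if b = true then n else n + w : ℕ) + σ) * x.2) ∧
      (∀ y ∈ L.head?, (x.1.1 = true → x.1.2.1 = -d) ∧
        (x.1.1 = false → b = true → x.1.2.1 = y.1.2.1)) ∧
      Rel σ L (xor b x.1.1) (if x.1.1 = false then p else if b = true then p - d else p + d) (-d)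
        (if b = true then n + w else n) (2 * w) (pop X p x.1)

/-- no energy has reached its threshold -/
def Tr : List (Sym P × ℝ) → ℕ → Prop
  | [], _ => True
  | x :: L, w => 8 * w * x.2 < 1 ∧ Tr L (2 * w)

/-- the potential -/
noncomputable def Pot : List (Sym P × ℝ) → ℕ → ℝ
  | [], _ => 2 * P
  | x :: L, w => x.1.2.2.val + 16 * P * w * x.2 + Pot L (2 * w) / P

lemma Rel.pot_nonneg {σ : ℝ} : ∀ {L : List (Sym P × ℝ)} {b p d n w X}, Rel σ L b p d n w X →
    0 ≤ Pot L w
  | [], _, _, _, _, _, _, _ => by simp only [Pot]; positivity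
  | x :: L, _, _, _, _, _, _, h => by
    have h1 := h.1
    have h2 := h.2.2.2.pot_nonneg
    simp only [Pot]; positivity

lemma Rel.tick : ∀ {L : List (Sym P × ℝ)} {b p d n w X}, Rel 1 L b p d n w X →
    Rel 0 L b p d (n + 1) w X
  | [], _, _, _, _, _, _, _ => trivial
  | x :: L, b, p, d, n, w, X, h => by
    obtain ⟨h1, ⟨D, h2, h3, h4⟩, h5, h6⟩ := h
    refine ⟨h1, ⟨D, h2, h3, h4.trans_eq ?_⟩, h5, ?_⟩
    · cases b <;> simp <;> left <;> ring
    · have := h6.tick
      cases b <;> simpa [add_right_comm] using this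

lemma Rel.trim : ∀ {L : List (Sym P × ℝ)} {b p d n w X}, Rel 1 L b p d n w X →
    ∃ L', Rel 1 L' b p d n w X ∧ Tr L' w ∧ Pot L' w ≤ Pot L w ∧ ∀ y ∈ L'.head?, y ∈ L.head?
  | [], _, _, _, _, _, _, _ => ⟨[], trivial, trivial, le_rfl, by simp⟩
  | x :: L, b, p, d, n, w, X, h => by
    by_cases hx : 8 * w * x.2 < 1
    · obtain ⟨h1, h2, h5, h6⟩ := h
      obtain ⟨L', a1, a2, a3, a4⟩ := h6.trim
      refine ⟨x :: L', ⟨h1, h2, fun y hy => h5 y (a4 y hy), a1⟩, ⟨hx, a2⟩, ?_, by simp⟩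
      simp only [Pot]
      gcongr
    · refine ⟨[], trivial, trivial, ?_, by simp⟩
      have h2 := h.2.2.2.pot_nonneg
      have h3 : 0 ≤ Pot L (2 * w) / P := by positivity
      have h4 : (0 : ℝ) ≤ P := by positivity
      have h5 : (0 : ℝ) ≤ x.1.2.2.val := by positivity
      simp only [Pot]
      nlinarith [not_lt.1 hx]

lemma pop_norm {X X' : Peg → Sym P → ℝ} {u : ℝ} (h : ‖X' - X‖ ≤ u) (p : Peg) (s : Sym P) :
    ‖pop X' p s - pop X p s‖ ≤ 10 * u := by
  have hu : 0 ≤ u := (norm_nonneg _).trans h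
  refine (pi_norm_le_iff_of_nonneg (by positivity)).2 fun j => ?_
  have h1 : ‖X' j - X j‖ ≤ u := (norm_le_pi_norm (X' - X) j).trans h
  by_cases hj : j = p
  · subst hj
    simp only [pop, Pi.sub_apply, update_self]
    rw [← smul_sub, sub_sub_sub_cancel_right, norm_smul]
    simp only [Real.norm_ofNat]
    linarith
  · simp only [pop, Pi.sub_apply, update_of_ne hj]
    linarith

lemma Rel.jump (hP : 400 ≤ P) : ∀ {L : List (Sym P × ℝ)} {b p d n w X X'} {u : ℝ},
    Rel 0 L b p d n w X → ‖X' - X‖ ≤ u → ∃ L', Rel 1 L' b p d n w X' ∧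
      Pot L' w ≤ Pot L w + 32 * P * w * u ^ 2 ∧ ∀ y ∈ L'.head?, ∃ z ∈ L.head?, y.1 = z.1
  | [], _, _, _, _, w, _, _, u, _, _ => ⟨[], trivial, by
      have : (0 : ℝ) ≤ 32 * P * w * u ^ 2 := by positivity
      linarith, by simp⟩
  | x :: L, b, p, d, n, w, X, X', u, h, hu => by
    obtain ⟨h1, ⟨D, h2, h3, h4⟩, h5, h6⟩ := h
    have hu0 : 0 ≤ u := (norm_nonneg _).trans hu
    obtain ⟨L', a1, a2, a3⟩ := h6.jump hP (pop_norm hu p x.1)
    refine ⟨(x.1, x.2 + u ^ 2) :: L', ⟨by positivity, ⟨D + u, by positivity, ?_, ?_⟩,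
      fun y hy => ?_, a1⟩, ?_, by simp⟩
    · have h7 : ‖X' p - X p‖ ≤ u := (norm_le_pi_norm (X' - X) p).trans hu
      have h8 := norm_add_le (X' p - X p) (X p - e x.1)
      rw [sub_add_sub_cancel] at h8
      linarith
    · have ha : (0 : ℝ) ≤ ((if b = true then n else n + w : ℕ) : ℝ) := Nat.cast_nonneg _
      generalize ((if b = true then n else n + w : ℕ) : ℝ) = a at h4 ha ⊢
      have h7 : 2 * D * u ≤ x.2 + a * u ^ 2 := by
        by_contra hc
        have h9 : (x.2 + a * u ^ 2) ^ 2 < (2 * D * u) ^ 2 := by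
          have := not_le.1 hc
          gcongr
        nlinarith [sq_nonneg (x.2 - a * u ^ 2), mul_le_mul_of_nonneg_right h4 (sq_nonneg u)]
      nlinarith
    · obtain ⟨z, z1, z2⟩ := a3 y hy
      rw [z2]; exact h5 z z1
    · have hP' : (400 : ℝ) ≤ P := by exact_mod_cast hP
      have h7 : Pot L' (2 * w) / P ≤ Pot L (2 * w) / P + 6400 * w * u ^ 2 := by
        rw [div_add' _ _ _ (by positivity)]
        gcongr
        push_cast at a2
        linarith
      have h8 : (0 : ℝ) ≤ w * u ^ 2 := by positivity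
      simp only [Pot]
      nlinarith

lemma Rel.trust {x : Sym P × ℝ} {L b p d n w X s} (h : Rel 1 (x :: L) b p d n w X) (hn : n < w)
    (ht : Tr (x :: L) w) (hs : ‖X p - e s‖ ≤ 1 / 4) : x.1 = s := by
  obtain ⟨h1, ⟨D, h2, h3, h4⟩, -⟩ := h
  have h5 : (((if b = true then n else n + w : ℕ) : ℝ) + 1) ≤ 2 * w := by
    have : (if b = true then n else n + w : ℕ) + 1 ≤ 2 * w := by split_ifs <;> omega
    exact_mod_cast this
  have h6 : D < 1 / 2 := by
    have := ht.1
    nlinarith [mul_le_mul_of_nonneg_right h5 h1]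
  have h7 := norm_sub_le (X p - e s) (X p - e x.1)
  rw [sub_sub_sub_cancel_left] at h7
  exact e_sep (by linarith)

lemma mv_top {p d : Peg} (hd : d ≠ 0) {t : Peg → Sym P} {X : Peg → Sym P → ℝ}
    (h : ‖X (p + d) - e (t (p + d))‖ ≤ 1 / 4) :
    ‖mv p d t X (p + d) - e (upd d (t p) (t (p + d))).1‖ ≤ 1 / 4 + 0 := by
  have h1 : p + d ≠ p := by simpa using hd
  simp only [mv, if_neg h1, if_true, add_sub_cancel_right, norm_smul]
  have h2 := norm_add_le (X (p + d) - e (t (p + d))) (e (upd d (t p) (t (p + d))).2)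
  rw [norm_e] at h2
  norm_num
  linarith

lemma mv_pop {p d : Peg} (hd : d ≠ 0) (t : Peg → Sym P) (X : Peg → Sym P → ℝ) :
    pop (mv p d t X) (p + d) (upd d (t p) (t (p + d))).1 = update (pop X p (t p)) (p + d)
      (X (p + d) - e (t (p + d)) + e (upd d (t p) (t (p + d))).2) := by
  have h1 : p + d ≠ p := by simpa using hd
  funext j
  by_cases hj : j = p + d
  · subst hj
    simp [pop, mv, h1, smul_smul]
  · by_cases hp : j = p
    · subst hp; simp [pop, mv, hj]
    · simp [pop, mv, hj, hp]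

lemma Rel.mv1 (hP : 400 ≤ P) {x : Sym P × ℝ} {L p d n w X} {t : Peg → Sym P}
    (h : Rel 1 (x :: L) false p d n w X) (hn : n + 1 = w) (hd : d ≠ 0) (ht : Tr (x :: L) w)
    (t1 : ‖X p - e (t p)‖ ≤ 1 / 4) (t2 : ‖X (p + d) - e (t (p + d))‖ ≤ 1 / 4) :
    ∃ L', Rel 0 L' true (p + d) d 0 w (mv p d t X) ∧ Pot L' w ≤ Pot (x :: L) w := by
  have h0 := h.trust (by omega) ht t1
  have hp : p + d ≠ p := by simpa using hd
  have hP' : (400 : ℝ) ≤ P := by exact_mod_cast hP
  obtain ⟨s, E⟩ := x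
  simp only at h0
  subst h0
  obtain ⟨h1, -, h5, h6⟩ := h
  simp only at h1 h5 h6
  have k1 := mv_top hd t2
  have k2 := mv_pop (p := p) hd t X
  have hE : (0 : ℝ) ≤ 16 * P * w * E := by positivity
  have k3 : update (pop X p (t p)) (p + d) (X (p + d) - e (t (p + d)) + e (t (p + d))) =
      pop X p (t p) := by
    rw [sub_add_cancel, update_eq_self_iff, pop, update_of_ne hp]
  by_cases c1 : (t p).1 = false
  · have u : upd d (t p) (t (p + d)) = ((true, -d, (t p).2.2), t (p + d)) := by simp [upd, c1]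
    rw [u] at k1 k2
    refine ⟨((true, -d, (t p).2.2), 0) :: L, ⟨le_rfl, ⟨0, le_rfl, k1, by simp⟩, by simp, ?_⟩, ?_⟩
    · have := h6.tick
      simp only [k2, k3]
      simpa [c1, hn] using this
    · simp only [Pot]; linarith
  by_cases c2 : (t p).2.1 = 0
  · have u : upd d (t p) (t (p + d)) = (t p, t (p + d)) := by simp [upd, c1, c2]
    rw [u] at k1
    rcases L with _ | ⟨y, L⟩
    · refine ⟨[(t p, 0)], ⟨le_rfl, ⟨0, le_rfl, k1, by simp⟩, by simp, trivial⟩, ?_⟩
      simp only [Pot]; linarith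
    · have := (h5 y rfl).1 (by simpa using c1)
      exact absurd (by simpa [c2] using this.symm) hd
  set c := carry (t p).2.2 (t (p + d)).2.2 with hc
  have u : upd d (t p) (t (p + d)) = ((false, (t (p + d)).2.1, c.1),
      ((t (p + d)).1, (t (p + d)).2.1, c.2)) := by simp [upd, c1, c2, hc]
  rw [u] at k1 k2
  have hv : (c.1.val : ℝ) * P + c.2.val = (t p).2.2.val * P + (t (p + d)).2.2.val := by
    exact_mod_cast carry_val (t p).2.2 (t (p + d)).2.2
  have key : ∀ L2 : List (Sym P × ℝ), (∀ y ∈ L2.head?, ((t (p + d)).1 = true →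
      (t (p + d)).2.1 = - -d) ∧ ((t (p + d)).1 = false → true = true → (t (p + d)).2.1 = y.1.2.1)) →
      Rel 1 L2 (xor true (t (p + d)).1) (if (t (p + d)).1 = false then p + d else p + d - -d) (- -d)
        (n + 2 * w) (2 * (2 * w)) (pop (pop X p (t p)) (p + d) (t (p + d))) →
      Rel 0 (((false, (t (p + d)).2.1, c.1), 0) :: (((t (p + d)).1, (t (p + d)).2.1, c.2), 0) :: L2)
        true (p + d) d 0 w (mv p d t X) := by
    intro L2 a1 a2
    refine ⟨le_rfl, ⟨0, le_rfl, k1, by simp⟩, by simp, le_rfl, ⟨0, le_rfl, ?_, by simp⟩, a1, ?_⟩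
    · simp only [k2]
      simpa using t2
    · have := a2.tick
      have k4 : pop (update (pop X p (t p)) (p + d) (X (p + d) - e (t (p + d)) +
          e ((t (p + d)).1, (t (p + d)).2.1, c.2))) (p + d) ((t (p + d)).1, (t (p + d)).2.1, c.2) =
          pop (pop X p (t p)) (p + d) (t (p + d)) := by simp [pop, hp]
      rw [show n + 2 * w + 1 = w + 2 * w by omega, ← k4] at this
      simp only [k2]
      simpa using this
  rcases L with _ | ⟨y, L⟩
  · refine ⟨_, key [] (by simp) trivial, ?_⟩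
    have h7 : ((t (p + d)).2.2.val : ℝ) < P + 2 := by exact_mod_cast (t (p + d)).2.2.isLt
    simp only [Pot]
    have h8 : (2 * P / P : ℝ) = 2 := by field_simp
    rw [h8]
    have h9 : ((c.2.val : ℝ) + 16 * P * (2 * w : ℕ) * 0 + 2) / P ≤ (t p).2.2.val + 2 - c.1.val := by
      rw [div_le_iff₀ (by positivity)]; nlinarith
    linarith
  · have c3 : (t p).1 = true := by simpa using c1
    simp only [c3, Bool.false_xor, Bool.true_eq_false, Bool.false_eq_true, if_false] at h6
    have h7 := h6.trust (s := t (p + d)) (by omega) ht.2 (by rwa [pop, update_of_ne hp])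
    obtain ⟨s', E'⟩ := y
    simp only at h7
    subst h7
    obtain ⟨g1, -, g5, g6⟩ := h6
    refine ⟨_, key L g5 (by simpa using g6), ?_⟩
    simp only [Pot] at g1 ⊢
    have h8 : (0 : ℝ) ≤ 16 * P * (2 * w : ℕ) * E' := by positivity
    have h9 : ((c.2.val : ℝ) + 16 * P * (2 * w : ℕ) * 0 + Pot L (2 * (2 * w)) / P) / P ≤
        ((t (p + d)).2.2.val + 16 * P * (2 * w : ℕ) * E' + Pot L (2 * (2 * w)) / P) / P +
          ((t p).2.2.val - c.1.val) := by
      rw [div_add' _ _ _ (by positivity)]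
      exact div_le_div_of_nonneg_right (by nlinarith) (by positivity)
    linarith

lemma Rel.mv2 (hP : 400 ≤ P) {a c : Peg} {t : Peg → Sym P} : ∀ {L : List (Sym P × ℝ)} {d n w X},
    Rel 1 L true a d n w X → n + 1 = w → d ≠ 0 → Tr L w → (∀ y ∈ L.head?, y.1.2.1 = c) →
    (c ≠ 0 → ∀ j ≠ a, ‖X j - e (t j)‖ ≤ 1 / 4) →
    ∃ L', Rel 0 L' false a d 0 w (if c = 0 then X else mv (a + c) c t X) ∧ Pot L' w ≤ Pot L w
  | [], _, _, _, _, _, _, _, _, _, _ => ⟨[], trivial, le_rfl⟩
  | (s, E) :: L, d, n, w, X, h, hn, hd, ht, hc, tp => by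
    obtain ⟨h1, ⟨D, h2, h3, h4⟩, h5, h6⟩ := h
    have hs : s.2.1 = c := hc _ rfl
    have z1 : ∀ a c : Peg, c ≠ 0 → a ≠ a + c ∧ a ≠ a + c + c ∧ a + c + c = a - c := by decide
    have k1 : (if c = 0 then X else mv (a + c) c t X) a = X a := by
      split_ifs with h0
      · rfl
      · simp only [mv, if_neg (z1 a c h0).1, if_neg (z1 a c h0).2.1]
    have k2 : pop (if c = 0 then X else mv (a + c) c t X) a s =
        if c = 0 then pop X a s else mv (a + c) c t (pop X a s) := by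
      unfold pop
      rw [k1]
      split_ifs with h0
      · rfl
      · funext j
        obtain ⟨b1, b2, -⟩ := z1 a c h0
        by_cases hj : j = a
        · subst hj; simp only [mv, if_neg b1, if_neg b2, update_self]
        · simp only [mv, update_of_ne hj, update_of_ne b1.symm]
    have tp' : c ≠ 0 → ∀ j ≠ a, ‖pop X a s j - e (t j)‖ ≤ 1 / 4 := fun h0 j hj => by
      rw [pop, update_of_ne hj]; exact tp h0 j hj
    have key : ∀ L', (∀ y ∈ L'.head?, s.1 = true → s.2.1 = -d) →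
        Rel 0 L' s.1 (if s.1 = false then a else a + d) (-d) 0 (2 * w)
          (if c = 0 then pop X a s else mv (a + c) c t (pop X a s)) →
        Pot L' (2 * w) ≤ Pot L (2 * w) →
        ∃ L', Rel 0 L' false a d 0 w (if c = 0 then X else mv (a + c) c t X) ∧
          Pot L' w ≤ Pot ((s, E) :: L) w := by
      intro L' a1 a2 a3
      refine ⟨(s, E) :: L', ⟨h1, ⟨D, h2, by rwa [k1], ?_⟩, fun y hy => ⟨a1 y hy, by simp⟩, ?_⟩, ?_⟩
      · simpa [← hn] using h4
      · simpa [k2] using a2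
      · simp only [Pot]; gcongr
    by_cases hb : s.1 = false
    · simp only [hb, Bool.xor_false, if_true] at h6
      obtain ⟨L', a1, a2⟩ := h6.mv2 hP (by omega) (by simpa using hd) ht.2
        (fun y hy => ((h5 y hy).2 hb rfl).symm.trans hs) tp'
      exact key L' (by simp [hb]) (by simpa [hb] using a1) a2
    have hb' : s.1 = true := by simpa using hb
    rcases L with _ | ⟨y, L⟩
    · exact key [] (by simp) trivial le_rfl
    have h7 : s.2.1 = -d := (h5 y rfl).1 hb'
    have h8 : c = -d := hs.symm.trans h7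
    have h0 : c ≠ 0 := by simpa [h8] using hd
    simp only [hb', Bool.xor_self, if_true, Bool.true_eq_false, if_false, sub_eq_add_neg,
      ← h8] at h6
    obtain ⟨L', a1, a2⟩ := h6.mv1 hP (t := t) (by omega) h0 ht.2
      (tp' h0 _ (z1 a c h0).1.symm) (tp' h0 _ (z1 a c h0).2.1.symm)
    refine key L' (fun _ _ _ => h7) ?_ a2
    rw [(z1 a c h0).2.2] at a1
    simpa [hb', h0, h8, hd] using a1

lemma Rel.step (hP : 400 ≤ P) {L : List (Sym P × ℝ)} {q : Ctl} {t X} (h : Rel 1 L q.2 q.1 1 0 1 X)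
    (ht : Tr L 1) (tp : Top (1 / 4) t X) :
    ∃ L', Rel 0 L' (nxt q).2 (nxt q).1 1 0 1 (mstep q t X) ∧ Pot L' 1 ≤ Pot L 1 := by
  obtain ⟨p, b⟩ := q
  have h1 : (1 : Peg) ≠ 0 := by decide
  rcases L with _ | ⟨x, L⟩
  · exact ⟨[], trivial, le_rfl⟩
  cases b
  · simpa [nxt, mstep, dir, src, h1] using h.mv1 hP rfl h1 ht (tp _) (tp _)
  · have h2 := h.trust one_pos ht (tp _)
    simpa [nxt, mstep, dir, src] using h.mv2 hP (t := t) (c := (t p).2.1) rfl h1 ht
      (by simp [h2]) fun _ j _ => tp j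

theorem low : LowStmt := by
  intro P hP N q t X u hq ht hu
  have hP' : (400 : ℝ) ≤ P := by exact_mod_cast hP
  have key : ∀ n ≤ N, ∃ L, Rel 1 L (q n).2 (q n).1 1 0 1 (X n) ∧
      Pot L 1 ≤ (t 0 (q 0).1).2.2.val + 2 + 32 * P * ∑ i ∈ Finset.range n, u i ^ 2 := by
    intro n
    induction n with
    | zero =>
      refine fun hn => ⟨[(t 0 (q 0).1, 0)], ⟨le_rfl, ⟨0, le_rfl, by simpa using ht 0 hn _,
        by simp⟩, by simp, trivial⟩, ?_⟩
      have : (2 * P / P : ℝ) = 2 := by field_simp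
      simp [Pot, this]
    | succ n ih =>
      intro hn
      obtain ⟨L, a1, a2⟩ := ih (by omega)
      obtain ⟨L1, b1, b2, b3, -⟩ := a1.trim
      obtain ⟨L2, c1, c2⟩ := b1.step hP b2 (ht n (by omega))
      obtain ⟨L3, d1, d2, -⟩ := c1.jump hP (hu n hn)
      refine ⟨L3, by rwa [hq n hn], ?_⟩
      rw [Finset.sum_range_succ]
      push_cast at d2
      linarith
  obtain ⟨L, a1, a2⟩ := key N le_rfl
  obtain ⟨L1, b1, b2, b3, -⟩ := a1.trim
  refine le_trans ?_ (b3.trans a2)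
  rcases L1 with _ | ⟨x, L1⟩
  · have h7 : ((t N (q N).1).2.2.val : ℝ) < P + 2 := by exact_mod_cast (t N (q N).1).2.2.isLt
    simp only [Pot]; linarith
  · have h1 := b1.1
    have h2 := b1.2.2.2.pot_nonneg
    rw [← b1.trust one_pos b2 (ht N le_rfl _)]
    simp only [Pot]
    have h3 : 0 ≤ 16 * P * (1 : ℕ) * x.2 + Pot L1 (2 * 1) / P := by positivity
    linarith

end Pool.Agent.Lib.MP_7d4c8f_an.Han
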