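import Pool.Agent.Lib.MP_7d4c8f_an.Q1UpCh

/-! Exact runs of the Hanoi machine: one tower move runs one carry cascade. -/

namespace Pool.Agent.Lib.MP_7d4c8f_an.Han.Mac
open Q1 Function

variable {P : ℕ}

/-- one symbol on a stream -/
def cons (a : Sym P) (A : ℕ → Sym P) : ℕ → Sym P := fun n => Nat.casesOn n a A

/-- `k` disks on a stream -/
def twr : ℕ → Peg → (ℕ → Fin (P + 2)) → (ℕ → Sym P) → ℕ → Sym P
  | 0, _, _, A => A
  | k + 1, π, x, A => twr k π x (cons (false, π, x k) A)

lemma cons_eta (A : ℕ → Sym P) : cons (A 0) (fun n => A (n + 1)) = A := by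
  funext n; cases n <;> rfl

lemma twr_dir : ∀ (k : ℕ) (π : Peg) (x : ℕ → Fin (P + 2)) (A : ℕ → Sym P), (A 0).2.1 = π →
    (twr k π x A 0).2.1 = π
  | 0, _, _, _, h => h
  | k + 1, π, x, _, _ => twr_dir k π x _ rfl

lemma twr_congr : ∀ (k : ℕ) (π : Peg) {x y : ℕ → Fin (P + 2)} (A : ℕ → Sym P),
    (∀ i < k, x i = y i) → twr k π x A = twr k π y A
  | 0, _, _, _, _, _ => rfl
  | k + 1, π, x, y, A, h => by
    simp only [twr, h k (by omega)]
    exact twr_congr k π _ fun i hi => h i (by omega)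

lemma twr_add : ∀ (k : ℕ) (π : Peg) (x : ℕ → Fin (P + 2)) (A : ℕ → Sym P) (i : ℕ),
    twr k π x A (k + i) = A i
  | 0, _, _, _, _ => by simp [twr]
  | k + 1, π, x, A, i => by
    rw [twr, show k + 1 + i = k + (i + 1) by omega, twr_add k]; rfl

lemma twr_lt : ∀ (k : ℕ) (π : Peg) (x : ℕ → Fin (P + 2)) (A : ℕ → Sym P) (i : ℕ), i < k →
    twr k π x A i = (false, π, x i)
  | k + 1, π, x, A, i, h => by
    rcases Nat.lt_succ_iff_lt_or_eq.1 h with h | rfl
    · exact twr_lt k π x _ i h
    · exact twr_add i π x _ 0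

lemma cas_fix {x : ℕ → Fin (P + 2)} (hx : Std x) (n : ℕ) : cas n x (x n) = x := by
  rw [cas_std hx n (hx n).1 (hx n).2, update_eq_self]

lemma step_idle {q : Ctl} {S : Peg → ℕ → Sym P} (h : dir q (fun i => S i 0) = 0) :
    (han P).step (q, S) = (nxt q, S) := by
  simp only [SM.step, han, h, if_true]
  congr 1
  funext i
  exact cons_eta (S i)

lemma step_move {q : Ctl} {S : Peg → ℕ → Sym P} {p d : Peg} {s s' A B}
    (h1 : dir q (fun i => S i 0) = d) (h2 : src q (fun i => S i 0) = p) (hd : d ≠ 0)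
    (h3 : S p = cons s A) (h4 : S (p + d) = cons s' B) :
    (han P).step (q, S) = (nxt q, update (update S p A) (p + d)
      (cons (upd d s s').1 (cons (upd d s s').2 B))) := by
  have hp : p + d ≠ p := by simpa using hd
  simp only [SM.step, han, h1, h2, if_neg hd]
  congr 1
  funext i
  by_cases c1 : i = p
  · subst c1
    simp only [if_true, update_of_ne hp.symm, update_self, h3]
    rfl
  by_cases c2 : i = p + d
  · subst c2
    simp only [if_neg hp, if_true, update_self, h3, h4]
    rfl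
  · simp only [if_neg c1, if_neg c2, update_of_ne c1, update_of_ne c2]
    exact cons_eta (S i)

lemma hanoi {x : ℕ → Fin (P + 2)} (hx : Std x) : ∀ (k : ℕ) (p π : Peg) (s s' : Sym P)
    (A B : ℕ → Sym P) (S : Peg → ℕ → Sym P), S p = twr k π x (cons s A) →
    S (p + (-1) ^ k) = cons s' B →
    (han P).step^[2 ^ (k + 1) - 1] ((p, false), S) = ((p + (-1) ^ k, true),
      update (update S p A) (p + (-1) ^ k) (twr k (upd ((-1) ^ k) s s').1.2.1
        (cas k x (upd ((-1) ^ k) s s').1.2.2) (cons ((upd ((-1) ^ k) s s').1.1,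
          (upd ((-1) ^ k) s s').1.2.1, cas k x (upd ((-1) ^ k) s s').1.2.2 k)
          (cons (upd ((-1) ^ k) s s').2 B))))
  | 0, p, π, s, s', A, B, S, h1, h2 => by
    have := step_move (q := (p, false)) (S := S) (p := p) (d := 1) rfl rfl (by decide) h1 h2
    simpa [cas, twr, nxt] using this
  | k + 1, p, π, s, s', A, B, S, h1, h2 => by
    have e1 : 2 ^ (k + 1 + 1) - 1 = (2 ^ (k + 1) - 1) + 1 + (2 ^ (k + 1) - 1) := by
      have : 0 < 2 ^ (k + 1) := by positivity
      omega
    have H := hanoi hx k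
    have hd : ((-1 : Peg) ^ k) ≠ 0 := by
      rcases neg_one_pow_eq_or Peg k with h | h <;> rw [h] <;> decide
    rw [pow_succ (-1 : Peg), mul_neg_one] at h2 ⊢
    generalize (-1 : Peg) ^ k = d at H hd h2 ⊢
    have z : ∀ p d : Peg, d ≠ 0 → p + d ≠ p ∧ p + -d ≠ p ∧ p + -d ≠ p + d ∧ p + d + d = p + -d := by
      decide
    obtain ⟨z1, z2, z3, z4⟩ := z p d hd
    rw [e1, iterate_add_apply, iterate_add_apply,
      H p π (false, π, x k) _ (cons s A) _ S h1 (cons_eta _).symm]
    have u1 : ∀ y : Sym P, upd d (false, π, x k) y = ((true, -d, x k), y) := fun y => by simp [upd]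
    simp only [u1, cas_fix hx, cons_eta, iterate_one]
    have t1 := twr_dir k (-d) x (cons (true, -d, x k) (S (p + d))) rfl
    rw [step_move (p := p) (d := -d) (s := s) (s' := s') (A := A) (B := B) (by simp [dir, t1])
      (by simp [src, t1]) (by simpa using hd) (by simp [z1.symm]) (by simp [z2, z3, h2])]
    generalize upd (-d) s s' = u
    have := H (p + d) (-d) (true, -d, x k) u.1 (S (p + d)) (cons u.2 B)
      (update (update (update (update S p (cons s A)) (p + d)
        (twr k (-d) x (cons (true, -d, x k) (S (p + d))))) p A) (p + -d) (cons u.1 (cons u.2 B)))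
      (by simp [z1, z3.symm]) (by simp [z4])
    have u2 : upd d (true, -d, x k) u.1 = ((false, u.1.2.1, (carry (x k) u.1.2.2).1),
        (u.1.1, u.1.2.1, (carry (x k) u.1.2.2).2)) := by simp [upd, hd]
    simp only [nxt, Bool.true_eq_false, if_false]
    rw [this, u2, z4]
    congr 1
    funext j
    by_cases c1 : j = p + -d
    · subst c1
      simp only [update_self, twr, cas, update_of_ne (Nat.succ_ne_self k).symm]
      rw [twr_congr k _ _ (y := update (cas k x (carry (x k) u.1.2.2).1) (k + 1)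
        (carry (x k) u.1.2.2).2) fun i hi => (update_of_ne (by omega) _ _).symm]
    by_cases c2 : j = p + d
    · subst c2; simp [c1, z1]
    by_cases c3 : j = p
    · subst c3; simp [c1, c2]
    · simp [c1, c2, c3]

/-- an `n`-tower with last disk of digit `a` on peg `p` -/
def W (n : ℕ) (p : Peg) (x : ℕ → Fin (P + 2)) (a : Fin (P + 2)) : Ctl × (Peg → ℕ → Sym P) :=
  ((p, false), update (fun _ _ => (false, 0, 0)) p
    (twr n 0 x (cons (true, 0, a) fun _ => (false, 0, 0))))

lemma W_move {x : ℕ → Fin (P + 2)} (hx : Std x) (n : ℕ) (p : Peg) (a : Fin (P + 2)) :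
    (han P).step^[2 ^ (n + 1)] (W n p x a) = W n (p + (-1) ^ n) (cas n x a) (cas n x a n) := by
  have hd : ((-1 : Peg) ^ n) ≠ 0 := by
    rcases neg_one_pow_eq_or Peg n with h | h <;> rw [h] <;> decide
  have hp : p + (-1) ^ n ≠ p := by simpa using hd
  have e1 : 2 ^ (n + 1) = 1 + (2 ^ (n + 1) - 1) := by
    have : 0 < 2 ^ (n + 1) := by positivity
    omega
  have c : cons ((false, 0, 0) : Sym P) (fun _ => (false, 0, 0)) = fun _ => (false, 0, 0) :=
    cons_eta fun _ => (false, 0, 0)
  have u : ∀ d, upd d ((true, 0, a) : Sym P) (false, 0, 0) = ((true, 0, a), (false, 0, 0)) :=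
    fun d => by simp [upd]
  rw [e1, iterate_add_apply, W, hanoi hx n p 0 (true, 0, a) (false, 0, 0) _ (fun _ => (false, 0, 0))
    _ (update_self ..) (by rw [update_of_ne hp, c]), u, iterate_one,
    step_idle (by simpa [dir] using twr_dir n 0 _ _ rfl)]
  simp [W, nxt, c]

lemma W_agree (n : ℕ) (x : ℕ → Fin (P + 2)) (a : Fin (P + 2)) : Agree n (tow x) (W n 0 x a) := by
  refine ⟨rfl, fun i k hk => ?_⟩
  by_cases hi : i = 0
  · subst hi; simp [tow, W, twr_lt _ _ _ _ _ hk]
  · simp [tow, W, hi]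

theorem mac : MacroStmt P := by
  intro n x a hx hy T0
  have key : ∀ m : ℕ, (han P).step^[2 ^ (n + 1) * (m + 1)] (W n 0 x a) =
      W n ((m + 1 : ℕ) * (-1) ^ n) (cas n x a) (cas n x a n) := by
    intro m
    induction m with
    | zero => simpa using W_move hx n 0 a
    | succ m ih =>
      rw [mul_add_one, add_comm, iterate_add_apply, ih, W_move hy, cas_fix hy]
      push_cast
      ring_nf
  refine ⟨2 ^ (n + 1) * (3 * T0 + 2 + 1), ?_, W n 0 x a, W_agree n x a, ?_⟩
  · have : 1 ≤ 2 ^ (n + 1) := Nat.one_le_two_pow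
    nlinarith
  · have h3 : ((3 * T0 + 2 + 1 : ℕ) : Peg) = 0 := by
      rw [ZMod.natCast_eq_zero_iff]; omega
    rw [key, h3, zero_mul]
    have := W_agree n (cas n x a) (cas n x a n)
    exact ⟨this.1.symm, fun i k hk => (this.2 i k hk).symm⟩

theorem han_up : (han 400).Up ca cb := up_of mac

end Pool.Agent.Lib.MP_7d4c8f_an.Han.Mac
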