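import Pool.Agent.Lib.MP_7d4c8f_an.Phase
import Mathlib.Analysis.Real.OfDigits
import Mathlib.Topology.MetricSpace.HausdorffDimension

/-! Recurrent points of the product map with prescribed phase difference. -/

namespace Pool.Agent.Lib.MP_7d4c8f_an
open Metric Set Filter Topology

lemma birkhoff {X : Type*} [MetricSpace X] {T : X → X} (hT : Continuous T) {K : Set X}
    (hK : IsCompact K) (hne : K.Nonempty) (hi : MapsTo T K K) :
    ∃ y ∈ K, ∀ ε > 0, ∃ᶠ k in atTop, dist (T^[k] y) y < ε := by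
  obtain ⟨m, -, hm⟩ := zorn_superset_nonempty
    {A | A ⊆ K ∧ A.Nonempty ∧ IsClosed A ∧ MapsTo T A A} (fun c hc hch hcn => by
      have : Nonempty c := hcn.to_subtype
      obtain ⟨A, hA⟩ := hcn
      refine ⟨⋂₀ c, ⟨(sInter_subset_of_mem hA).trans (hc hA).1,
        IsCompact.nonempty_sInter_of_directed_nonempty_isCompact_isClosed 
          (fun A hA B hB => (hch.total hA hB).elim (fun h => ⟨A, hA, Subset.rfl, h⟩)
            fun h => ⟨B, hB, h, Subset.rfl⟩)
          (fun B hB => (hc hB).2.1) (fun B hB => hK.of_isClosed_subset (hc hB).2.2.1 (hc hB).1)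
          (fun B hB => (hc hB).2.2.1), isClosed_sInter fun B hB => (hc hB).2.2.1,
        fun x hx B hB => (hc hB).2.2.2 (hx B hB)⟩, fun B hB => sInter_subset_of_mem hB⟩)
    K ⟨Subset.rfl, hne, hK.isClosed, hi⟩
  obtain ⟨h1, ⟨y, hy⟩, h2, h3⟩ := hm.prop
  refine ⟨y, h1 hy, fun ε hε => frequently_atTop.2 fun n => ?_⟩
  have h4 : closure (range fun k => T^[k + n] y) ⊆ m :=
    closure_minimal (range_subset_iff.2 fun k => h3.iterate _ hy) h2
  have h5 : m ⊆ closure (range fun k => T^[k + n] y) := hm.le_of_le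
    ⟨h4.trans h1, (range_nonempty _).closure, isClosed_closure, MapsTo.closure (by
      rintro _ ⟨k, rfl⟩
      exact ⟨k + 1, by
        simp only [show k + 1 + n = (k + n) + 1 by ring, Function.iterate_succ_apply']⟩) hT⟩ h4
  obtain ⟨_, ⟨k, rfl⟩, hk⟩ := Metric.mem_closure_iff.1 (h5 hy) ε hε
  exact ⟨k + n, by omega, by rwa [dist_comm]⟩

def DD (p : ℕ) (e : ℕ → Fin 2) (n : ℕ) : ℕ := ∑ k ∈ Finset.range n, (e k : ℕ) * p ^ k

lemma DD_mod (p : ℕ) (e : ℕ → Fin 2) (n : ℕ) : DD p e (n + 1) ≡ DD p e n [MOD p ^ n] := by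
  unfold DD
  rw [Finset.sum_range_succ]
  exact (Nat.modEq_iff_dvd' (by omega)).2 (by simp) |>.symm

lemma DD_inj {p : ℕ} (hp : 2 ≤ p) (e e' : ℕ → Fin 2) (n : ℕ)
    (h : DD p e n ≡ DD p e' n [MOD p ^ n]) : ∀ k < n, e k = e' k := by
  induction n with
  | zero => simp
  | succ n ih =>
    have h1 := ih (((DD_mod p e n).symm.trans (h.of_dvd (pow_dvd_pow _ n.le_succ))).trans
      (DD_mod p e' n))
    have h2 : DD p e n = DD p e' n :=
      Finset.sum_congr rfl fun k hk => by rw [h1 k (Finset.mem_range.1 hk)]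
    intro k hk
    rcases (Nat.lt_succ_iff.1 hk).eq_or_lt with rfl | hk
    · unfold DD at h h2
      rw [Finset.sum_range_succ, Finset.sum_range_succ, h2, pow_succ'] at h
      have h3 := (Nat.ModEq.add_left_cancel' _ h).mul_right_cancel' (by positivity)
      exact Fin.ext (h3.eq_of_lt_of_lt (by omega) (by omega))
    · exact h1 k hk

abbrev R2 := ℝ × ℝ

theorem recs : ∃ (a b : ℝ) (V : Set R2) (C ε : ℝ) (y : (ℕ → Fin 2) → R2 × R2), 0 < b ∧ b ≤ 1 ∧
    |a| ≤ 3 ∧ 1 ≤ C ∧ 0 < ε ∧ (∀ z ∈ V, ‖z‖ ≤ 3) ∧ (∀ z ∈ V, HR a b z ∈ V) ∧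
    (∀ e, y e ∈ V ×ˢ V) ∧
    (∀ e, ∀ δ > 0, ∃ᶠ k in atTop, dist ((Prod.map (HR a b) (HR a b))^[k] (y e)) (y e) < δ) ∧
    (∀ z ∈ V ×ˢ V, ∀ z', ‖z' - Prod.map (HR a b) (HR a b) z‖ ≤ ε → z' ∈ V ×ˢ V) ∧
    ∀ e e' (n N : ℕ) (δ : ℝ) (u : ℕ → R2 × R2), 0 < δ → C ^ n * δ ≤ ε → 1 ≤ N → u 0 = y e →
      u N = y e' → (∀ k < N, ‖u (k + 1) - Prod.map (HR a b) (HR a b) (u k)‖ ≤ δ) →
      ∀ k < n, e k = e' k := by
  obtain ⟨a, b, V, ω, p, C, ε, hb, hb1, ha, hp, hC, hε, hV, hω, trap, ph⟩ := dyn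
  set F := HR a b with hF
  have hFc : Continuous F := by rw [hF]; unfold HR; fun_prop
  have hFV : ∀ z ∈ V, F z ∈ V := fun z hz => trap z hz _ (by simpa using hε.le)
  have hO : ∀ k, F^[k] ω ∈ V := fun k => (show MapsTo F V V from hFV).iterate k hω
  let Y : (ℕ → Fin 2) → ℕ → Set (R2 × R2) := fun e n =>
    closure {w | ∃ i j, j ≡ i + DD p e n [MOD p ^ n] ∧ w = (F^[i + 1] ω, F^[j + 1] ω)}
  have hYc : ∀ e n, IsCompact (Y e n) := fun e n =>
    (isCompact_closedBall (0 : R2 × R2) 3).of_isClosed_subset isClosed_closure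
      (closure_minimal (by
        rintro _ ⟨i, j, -, rfl⟩
        rw [mem_closedBall_zero_iff, Prod.norm_def]
        exact max_le (hV _ (hO (i + 1))) (hV _ (hO (j + 1)))) isClosed_closedBall)
  have hex : ∀ e, ∃ y ∈ ⋂ n, Y e n, ∀ δ > 0, ∃ᶠ k in atTop,
      dist ((Prod.map F F)^[k] y) y < δ := by
    intro e
    refine birkhoff (hFc.prodMap hFc) ((hYc e 0).of_isClosed_subset
      (isClosed_iInter fun _ => isClosed_closure) (iInter_subset _ 0))
      (IsCompact.nonempty_iInter_of_sequence_nonempty_isCompact_isClosed _ (fun n => closure_mono ?_)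
        (fun n => Nonempty.closure ⟨_, 0, _, Nat.ModEq.refl _, rfl⟩) (hYc e 0)
        fun _ => isClosed_closure) (mapsTo_iInter_iInter fun n => MapsTo.closure ?_
          (hFc.prodMap hFc))
    · rintro _ ⟨i, j, h, rfl⟩
      exact ⟨i, j, (h.of_dvd (pow_dvd_pow _ n.le_succ)).trans ((DD_mod p e n).add_left i), rfl⟩
    · rintro _ ⟨i, j, h, rfl⟩
      refine ⟨i + 1, j + 1, by rw [add_right_comm]; exact h.add_right 1, ?_⟩
      simp only [Prod.map_apply, Function.iterate_succ_apply']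
  choose y hy hrec using hex
  have appr : ∀ e n, ∀ δ > 0, ∃ i j, j ≡ i + DD p e n [MOD p ^ n] ∧
      ‖(y e).1 - F^[i + 1] ω‖ ≤ δ ∧ ‖(y e).2 - F^[j + 1] ω‖ ≤ δ := by
    intro e n δ hδ
    obtain ⟨_, ⟨i, j, h, rfl⟩, h1⟩ := Metric.mem_closure_iff.1 (mem_iInter.1 (hy e) n) δ hδ
    rw [dist_eq_norm] at h1
    exact ⟨i, j, h, (norm_fst_le _).trans h1.le, (norm_snd_le _).trans h1.le⟩
  have one : ∀ (n N : ℕ) (δ : ℝ) (u : ℕ → R2) (i i' : ℕ), C ^ n * (2 * δ) ≤ ε → 1 ≤ N →
      ‖u 0 - F^[i + 1] ω‖ ≤ δ → ‖u N - F^[i' + 1] ω‖ ≤ δ →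
      (∀ k < N, ‖u (k + 1) - F (u k)‖ ≤ δ) → i + 1 + N ≡ i' + 1 [MOD p ^ n] := by
    intro n N δ u i i' h1 hN h2 h3 h4
    have hδ : 0 ≤ δ := (norm_nonneg _).trans h2
    refine ph n (2 * δ) (fun t => if t ≤ i then F^[t] ω else if t < i + 1 + N then u (t - (i + 1))
      else F^[i' + 1 + (t - (i + 1 + N))] ω) (fun t => F^[t] ω) _ _ h1 (fun t => ?_)
      (fun t => by simp [Function.iterate_succ_apply', hδ]) (by simp) rfl
      fun t => by rw [if_neg (by omega), if_neg (by omega), Nat.add_sub_cancel_left]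
    rcases lt_trichotomy t i with h | rfl | h
    · rw [if_pos (show t + 1 ≤ i by omega), if_pos h.le, Function.iterate_succ_apply']
      simp [hδ]
    · rw [if_neg (by omega), if_pos (by omega), if_pos le_rfl, Nat.sub_self,
        ← Function.iterate_succ_apply' F]
      linarith
    rw [if_neg (show ¬ t + 1 ≤ i by omega), if_neg (show ¬ t ≤ i by omega)]
    rcases lt_trichotomy (t + 1) (i + 1 + N) with h' | h' | h'
    · rw [if_pos h', if_pos (by omega), show t + 1 - (i + 1) = t - (i + 1) + 1 by omega]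
      linarith [h4 (t - (i + 1)) (by omega)]
    · rw [if_neg (by omega), if_pos (by omega), h', Nat.sub_self, add_zero]
      have h5 := h4 (t - (i + 1)) (by omega)
      rw [show t - (i + 1) + 1 = N by omega] at h5
      have := norm_sub_le (u N - F (u (t - (i + 1)))) (u N - F^[i' + 1] ω)
      rw [sub_sub_sub_cancel_left] at this
      linarith
    · rw [if_neg (by omega), if_neg (by omega), ← Function.iterate_succ_apply' F,
        show i' + 1 + (t + 1 - (i + 1 + N)) = (i' + 1 + (t - (i + 1 + N))).succ by omega]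
      simp [hδ]
  refine ⟨a, b, V, C, ε / 2, y, hb, hb1, ha, hC, by positivity, hV, hFV, fun e => ?_, hrec,
    fun z hz z' h => ⟨trap _ hz.1 _ (((norm_fst_le _).trans h).trans (by linarith)),
      trap _ hz.2 _ (((norm_snd_le _).trans h).trans (by linarith))⟩,
    fun e e' n N δ u hδ h1 hN h2 h3 h4 => DD_inj hp e e' n ?_⟩
  · obtain ⟨i, j, -, h1, h2⟩ := appr e 0 ε hε
    rw [Function.iterate_succ_apply'] at h1 h2
    exact ⟨trap _ (hO i) _ h1, trap _ (hO j) _ h2⟩
  · obtain ⟨i, j, a1, a2, a3⟩ := appr e n δ hδ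
    obtain ⟨i', j', b1, b2, b3⟩ := appr e' n δ hδ
    have c1 := one n N δ (fun k => (u k).1) i i' (by linarith) hN (by rwa [h2]) (by rwa [h3])
      fun k hk => (norm_fst_le _).trans (h4 k hk)
    have c2 := one n N δ (fun k => (u k).2) j j' (by linarith) hN (by rwa [h2]) (by rwa [h3])
      fun k hk => (norm_snd_le _).trans (h4 k hk)
    have c3 : i + 1 + N + DD p e n ≡ i + 1 + N + DD p e' n [MOD p ^ n] := by
      calc i + 1 + N + DD p e n = i + DD p e n + 1 + N := by ring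
        _ ≡ j + 1 + N [MOD p ^ n] := ((a1.symm.add_right 1).add_right N)
        _ ≡ j' + 1 [MOD p ^ n] := c2
        _ ≡ i' + DD p e' n + 1 [MOD p ^ n] := b1.add_right 1
        _ = i' + 1 + DD p e' n := by ring
        _ ≡ i + 1 + N + DD p e' n [MOD p ^ n] := c1.symm.add_right _
    exact Nat.ModEq.add_left_cancel' _ c3

theorem dim_pos {Q : Type*} [EMetricSpace Q] (y : (ℕ → Fin 2) → Q) {c K : ℝ} (hc : 0 < c)
    (h : ∀ e e' n, edist (y e) (y e') < ENNReal.ofReal (c / K ^ n) → ∀ k < n, e k = e' k)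
    (hK : 1 ≤ K) : 0 < dimH (univ : Set Q) := by
  obtain ⟨m, hm⟩ := pow_unbounded_of_one_lt K (show (1 : ℝ) < 2 by norm_num)
  have hm0 : m ≠ 0 := by rintro rfl; simp at hm; linarith
  have hinj : Function.Injective y := fun e e' he => funext fun k =>
    h e e' (k + 1) (by rw [he, edist_self]; exact ENNReal.ofReal_pos.2 (by positivity)) k
      k.lt_succ_self
  set c0 := min c 1 with hc0
  have hc0p : 0 < c0 := lt_min hc one_pos
  let f : Q → ℝ := fun q => Real.ofDigits (Function.invFun y q)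
  have hf : ∀ e, f (y e) = Real.ofDigits e := fun e => by
    simp only [f, Function.leftInverse_invFun hinj e]
  have hH : HolderOnWith (2 / c0).toNNReal (m : NNReal)⁻¹ f (range y) := by
    rintro _ ⟨e, rfl⟩ _ ⟨e', rfl⟩
    rcases eq_or_ne e e' with rfl | hne
    · simp
    have hex : ∃ k, e k ≠ e' k := by by_contra h0; push Not at h0; exact hne (funext h0)
    classical
    set n := Nat.find hex with hn
    have h1 : |Real.ofDigits e - Real.ofDigits e'| ≤ ((2 : ℕ) ^ n : ℝ)⁻¹ :=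
      Real.abs_ofDigits_sub_ofDigits_le fun i hi => not_not.1 (Nat.find_min hex hi)
    have h2 : ENNReal.ofReal (c / K ^ (n + 1)) ≤ edist (y e) (y e') := by
      by_contra h3
      exact Nat.find_spec hex (h e e' (n + 1) (not_le.1 h3) n n.lt_succ_self)
    have h3 : (c0 / 2 ^ (n + 1)) ^ m ≤ c / K ^ (n + 1) := by
      rw [div_pow, ← pow_mul, mul_comm, pow_mul]
      exact div_le_div₀ hc.le ((pow_le_of_le_one hc0p.le (min_le_right _ _) hm0).trans
        (min_le_left _ _)) (by positivity) (pow_le_pow_left₀ (by linarith) hm.le _)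
    have h4 : ENNReal.ofReal (c0 / 2 ^ (n + 1)) ≤ edist (y e) (y e') ^ ((m : ℝ)⁻¹) := by
      rw [← ENNReal.pow_rpow_inv_natCast hm0 (ENNReal.ofReal _), ← ENNReal.ofReal_pow
        (by positivity)]
      exact ENNReal.rpow_le_rpow ((ENNReal.ofReal_le_ofReal h3).trans h2) (by positivity)
    rw [hf, hf, edist_dist, Real.dist_eq, NNReal.coe_inv, NNReal.coe_natCast]
    refine le_trans ?_ (mul_le_mul_right h4 _)
    change _ ≤ ENNReal.ofReal (2 / c0) * _
    rw [← ENNReal.ofReal_mul (by positivity)]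
    refine ENNReal.ofReal_le_ofReal (h1.trans_eq ?_)
    push_cast
    field_simp
    ring
  have h1 := hH.dimH_image_le (by positivity)
  have h2 : Icc (0 : ℝ) 1 ⊆ f '' range y := fun x hx => by
    obtain ⟨e, -, rfl⟩ := Real.ofDigits_SurjOn (b := 2) one_lt_two hx
    exact ⟨_, ⟨e, rfl⟩, hf e⟩
  have h3 := (dimH_mono h2).trans h1
  rw [Real.dimH_of_nonempty_interior (by simp)] at h3
  refine lt_of_lt_of_le (pos_iff_ne_zero.2 fun h0 => ?_) (dimH_mono (subset_univ (range y)))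
  rw [h0] at h3
  simp at h3

end Pool.Agent.Lib.MP_7d4c8f_an
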