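import Pool.Agent.Lib.MP_7d4c8f_an.EL
import Pool.Agent.Lib.MP_7d4c8f_an.Rec
import Mathlib.Analysis.ODE.Gronwall

/-! Action of a Mane Lagrangian versus pseudo-orbits of the time-one map. -/

namespace Pool.Agent.Lib.MP_7d4c8f_an
open MeasureTheory Filter Set Metric Topology
open scoped ContDiff

variable {Y : UnitAddCircle → Tor → E}
variable (hY : ContDiff ℝ ∞ fun p : ℝ × E => XX Y p.1 p.2)
include hY

lemma XX_lip : ∃ K : NNReal, 0 < K ∧ ∀ t, LipschitzWith K (XX Y t) := by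
  obtain ⟨K, hK, h⟩ := XX_bdd hY
  exact ⟨⟨K, hK.le⟩, hK, fun t => lipschitzWith_of_nnnorm_fderiv_le (XX_diff hY t)
    fun x => (h t x).2⟩

lemma step_up : ∃ C > 0, ∀ (x : ℝ → E), (∀ t ∈ Icc (0 : ℝ) 1, HasDerivAt x (XX Y t (x t)) t) →
    ∀ z', ∃ r ≤ C * ‖z' - x 1‖ ^ 2, Adm (ML Y) 1 (pr (x 0)) (pr z') r := by
  obtain ⟨K, hK, hL⟩ := XX_lip hY
  refine ⟨2 * (1 + K) ^ 2, by positivity, fun x hx z' => ?_⟩
  set D := z' - x 1 with hD
  have xc : ContinuousOn x (Icc 0 1) := fun t ht => (hx t ht).continuousAt.continuousWithinAt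
  have Xc : ∀ {γ : ℝ → E}, ContinuousOn γ (Icc 0 1) →
      ContinuousOn (fun t => XX Y t (γ t)) (Icc 0 1) := fun h =>
    hY.continuous.comp_continuousOn (continuousOn_id.prodMk h)
  have vc : ContinuousOn (fun t => XX Y t (x t) + D) (Icc 0 1) := (Xc xc).add continuousOn_const
  have hp : ∀ t ∈ Icc (0 : ℝ) 1, path (x 0) (fun t => XX Y t (x t) + D) t = x t + t • D := by
    intro t ht
    have hs : uIcc 0 t ⊆ Icc (0 : ℝ) 1 := by
      rw [uIcc_of_le ht.1]; exact Icc_subset_Icc_right ht.2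
    unfold path
    rw [intervalIntegral.integral_eq_sub_of_hasDerivAt (f := fun t => x t + t • D)
      (fun s h => (hx s (hs h)).add (by simpa using (hasDerivAt_id s).smul_const D))
      (vc.mono hs).intervalIntegrable]
    simp
  have gc : ContinuousOn (fun t => x t + t • D) (Icc 0 1) := xc.add (by fun_prop)
  have lc : ContinuousOn (fun t => lift (ML Y) (x t + t • D) (XX Y t (x t) + D) t) (Icc 0 1) := by
    simp only [lift_ML]
    exact continuousOn_const.mul (continuousOn_finsetSum _ fun i _ =>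
      (continuousOn_pi.1 (vc.sub (Xc gc)) i).pow 2)
  have li := lc.intervalIntegrable_of_Icc (μ := volume) zero_le_one
  refine ⟨_, ?_, x 0, fun t => XX Y t (x t) + D, by
    simpa using vc.intervalIntegrable_of_Icc zero_le_one, rfl, by
    rw [Nat.cast_one, hp 1 (by simp)]; simp [hD], ?_, rfl⟩
  · rw [Nat.cast_one, intervalIntegral.integral_congr (g := fun t =>
      lift (ML Y) (x t + t • D) (XX Y t (x t) + D) t) fun t ht => by
        simp only [hp t (by simpa using ht)]]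
    refine (intervalIntegral.integral_mono_on zero_le_one li intervalIntegrable_const
      fun t ht => ?_).trans_eq (by simp; rfl)
    have h1 := sq_le_norm (XX Y t (x t) + D - XX Y t (x t + t • D))
    have h2 := (hL t).dist_le_mul (x t) (x t + t • D)
    rw [dist_eq_norm, dist_self_add_right, norm_smul, Real.norm_eq_abs, abs_of_nonneg ht.1] at h2
    have h3 := norm_add_le (XX Y t (x t) - XX Y t (x t + t • D)) D
    rw [← add_sub_right_comm] at h3
    have h4 : K * (t * ‖D‖) ≤ K * (1 * ‖D‖) := by gcongr; exact ht.2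
    have h5 : ‖XX Y t (x t) + D - XX Y t (x t + t • D)‖ ^ 2 ≤ ((1 + K) * ‖D‖) ^ 2 := by
      gcongr; linarith
    rw [lift_ML]
    nlinarith
  · rw [Nat.cast_one]
    exact li.congr fun t ht => by
      simp only [hp t (Ioc_subset_Icc_self (by simpa using ht))]

lemma step_low : ∃ C > 0, ∀ (x : ℝ → E), (∀ t ∈ Icc (0 : ℝ) 1, HasDerivAt x (XX Y t (x t)) t) →
    ∀ y r η, 0 < η → r ≤ η ^ 2 → Adm (ML Y) 1 (pr (x 0)) y r →
      ∃ z', pr z' = y ∧ ‖z' - x 1‖ ≤ C * η := by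
  obtain ⟨K, hK, hL⟩ := XX_lip hY
  refine ⟨2 * Real.exp K, by positivity, fun x hx y r η hη hr ⟨q, v, h1, h2, h3, h4, h5⟩ => ?_⟩
  have hpr : ∀ t, pr (path q v t) = pr (path (x 0) v t) := fun t => by
    simp only [path, pr_add, h2]
  simp only [Nat.cast_one, lift, hpr] at h1 h3 h4 h5
  set γ := path (x 0) v with hγ
  change IntervalIntegrable (fun t => lift (ML Y) (γ t) (v t) t) volume 0 1 at h4
  change r = ∫ t in (0 : ℝ)..1, lift (ML Y) (γ t) (v t) t at h5
  refine ⟨γ 1, h3, ?_⟩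
  have gc : ContinuousOn γ (Icc 0 1) := continuousOn_const.add (by
    simpa using intervalIntegral.continuousOn_primitive_interval' h1 left_mem_uIcc)
  set β : ℝ → E := fun t => XX Y t (γ (projIcc (0 : ℝ) 1 zero_le_one t)) with hβ
  have bc : Continuous β := hY.continuous.comp (continuous_id.prodMk
    (gc.comp_continuous (continuous_subtype_val.comp continuous_projIcc) fun t => Subtype.prop _))
  have be : ∀ t ∈ Icc (0 : ℝ) 1, β t = XX Y t (γ t) := fun t ht => by
    simp only [hβ, projIcc_of_mem _ ht]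
  have i1 : IntervalIntegrable (fun t => v t - β t) volume 0 1 :=
    h1.sub (bc.intervalIntegrable _ _)
  have hA : ∫ t in (0 : ℝ)..1, ‖v t - β t‖ ≤ 2 * η := by
    have := intervalIntegral.integral_mono_on (g := fun t => η + η⁻¹ * lift (ML Y) (γ t) (v t) t)
      zero_le_one i1.norm (intervalIntegrable_const.add (h4.const_mul _)) fun t ht => by
        have h6 := norm_sq_le (v t - XX Y t (γ t))
        rw [be t ht, lift_ML, ← sub_le_iff_le_add', inv_mul_eq_div, le_div_iff₀ hη]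
        nlinarith [sq_nonneg (‖v t - XX Y t (γ t)‖ - η), sq_nonneg η]
    rw [intervalIntegral.integral_add intervalIntegrable_const (h4.const_mul _),
      intervalIntegral.integral_const_mul, ← h5] at this
    have h6 : η⁻¹ * r ≤ η := by rw [inv_mul_le_iff₀ hη]; linarith
    simp only [intervalIntegral.integral_const, sub_zero, smul_eq_mul, one_mul] at this
    linarith
  have hd : ∀ t ∈ Icc (0 : ℝ) 1, ‖γ t - path (x 0) β t‖ ≤ 2 * η := by
    intro t ht
    have hs : uIcc 0 t ⊆ uIcc (0 : ℝ) 1 := uIcc_subset_uIcc_left (by simpa using ht)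
    simp only [hγ, path, add_sub_add_left_eq_sub]
    rw [← intervalIntegral.integral_sub (h1.mono_set hs) (bc.intervalIntegrable _ _)]
    refine (intervalIntegral.norm_integral_le_integral_norm ht.1).trans (le_trans ?_ hA)
    exact intervalIntegral.integral_mono_interval le_rfl ht.1 ht.2
      (Eventually.of_forall fun _ => norm_nonneg _) i1.norm
  have fd : ∀ t, HasDerivAt (path (x 0) β) (β t) t := fun t =>
    ((bc.integral_hasStrictDerivAt 0 t).hasDerivAt).const_add _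
  have hg := dist_le_of_approx_trajectories_ODE (v := XX Y) (f := path (x 0) β) (g := x) (f' := β)
    (g' := fun t => XX Y t (x t)) (εf := K * (2 * η)) (εg := 0) (δ := 0) (a := 0) (b := 1) hL
    (fun t _ => (fd t).continuousAt.continuousWithinAt) (fun t _ => (fd t).hasDerivWithinAt)
    (fun t ht => by
      rw [be t (Ico_subset_Icc_self ht)]
      refine ((hL t).dist_le_mul _ _).trans ?_
      rw [dist_eq_norm]
      gcongr
      exact hd t (Ico_subset_Icc_self ht))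
    (fun t ht => (hx t ht).continuousAt.continuousWithinAt)
    (fun t ht => (hx t (Ico_subset_Icc_self ht)).hasDerivWithinAt) (fun _ _ => by simp)
    (by simp) 1 (by simp)
  have hK' : (K : ℝ) ≠ 0 := by exact_mod_cast hK.ne'
  rw [gronwallBound_of_K_ne_0 hK', dist_eq_norm] at hg
  simp only [zero_mul, add_zero, zero_add, sub_zero, mul_one, mul_div_cancel_left₀ _ hK'] at hg
  have := norm_add_le (γ 1 - path (x 0) β 1) (path (x 0) β 1 - x 1)
  rw [sub_add_sub_cancel] at this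
  linarith [hd 1 (by simp)]

theorem mane_dim {W : Set E} {Φ : E → E}
    (hsol : ∀ z ∈ W, ∃ x : ℝ → E, x 0 = z ∧ x 1 = Φ z ∧
      ∀ t ∈ Icc (0 : ℝ) 1, HasDerivAt x (XX Y t (x t)) t)
    (hinj : InjOn pr W) (hΦ : MapsTo Φ W W) {y : (ℕ → Fin 2) → E} (hy : ∀ e, y e ∈ W)
    (hrec : ∀ e, ∀ δ > 0, ∃ᶠ k in atTop, dist (Φ^[k] (y e)) (y e) < δ) {C ε : ℝ} (hC : 1 ≤ C)
    (hε : 0 < ε) (trap : ∀ z ∈ W, ∀ z', ‖z' - Φ z‖ ≤ ε → z' ∈ W)
    (sep : ∀ e e' (n N : ℕ) (δ : ℝ) (u : ℕ → E), 0 < δ → C ^ n * δ ≤ ε → 1 ≤ N → u 0 = y e →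
      u N = y e' → (∀ k < N, ‖u (k + 1) - Φ (u k)‖ ≤ δ) → ∀ k < n, e k = e' k) :
    ∃ (Q : Type) (_ : EMetricSpace Q) (π : aubry (ML Y) 0 → Q), Function.Surjective π ∧
      (∀ x y, (edist (π x) (π y) : EReal) = rho (ML Y) 0 x y) ∧ 0 < dimH (univ : Set Q) := by
  obtain ⟨Q, _, π, hπ, hd⟩ := exists_quot (L := ML Y) ML_nonneg
  obtain ⟨C1, hC1, up⟩ := step_up hY
  obtain ⟨C2, hC2, low⟩ := step_low hY
  have up1 : ∀ z ∈ W, ∀ z', ∃ r ≤ C1 * ‖z' - Φ z‖ ^ 2, Adm (ML Y) 1 (pr z) (pr z') r := by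
    intro z hz z'
    obtain ⟨x, h1, h2, h3⟩ := hsol z hz
    simpa only [h1, h2] using up x h3 z'
  have upn : ∀ n, ∀ z ∈ W, ∀ z', ∃ r ≤ C1 * ‖z' - Φ^[n + 1] z‖ ^ 2,
      Adm (ML Y) (n + 1) (pr z) (pr z') r := by
    intro n
    induction n with
    | zero => exact up1
    | succ n ih =>
      intro z hz z'
      obtain ⟨r, h1, h2⟩ := up1 z hz (Φ z)
      obtain ⟨r', h1', h2'⟩ := ih (Φ z) (hΦ hz) z'
      refine ⟨r + r', ?_, by simpa only [add_comm 1] using h2.trans h2'⟩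
      simp only [sub_self, norm_zero] at h1
      change _ ≤ C1 * ‖z' - Φ^[n + 1] (Φ z)‖ ^ 2
      linarith
  have hA : ∀ e, pr (y e) ∈ aubry (ML Y) 0 := by
    intro e
    refine le_antisymm (EReal.le_of_forall_lt_iff_le.1 fun a ha => ?_) (barrier_nonneg ML_nonneg _ _)
    have ha : 0 < a := by exact_mod_cast ha
    refine liminf_le_of_frequently_le' (((hrec e (min 1 (a / C1)) (by positivity)).and_eventually
      (eventually_ge_atTop 1)).mono fun k hk => ?_)
    obtain ⟨n, rfl⟩ : ∃ n, k = n + 1 := ⟨k - 1, by omega⟩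
    obtain ⟨r, h1, h2⟩ := upn n _ (hy e) (y e)
    refine h2.hn_le.trans (EReal.coe_le_coe (h1.trans ?_))
    have h3 := hk.1
    rw [dist_comm, dist_eq_norm, lt_min_iff, lt_div_iff₀ hC1] at h3
    nlinarith [norm_nonneg (y e - Φ^[n + 1] (y e)), mul_nonneg hC1.le
      (norm_nonneg (y e - Φ^[n + 1] (y e)))]
  refine ⟨Q, _, π, hπ, hd, dim_pos (fun e => π ⟨_, hA e⟩) (c := (ε / C2) ^ 2) (K := C ^ 2)
    (by positivity) (fun e e' n h => ?_) (one_le_pow₀ hC)⟩
  set η := ε / C2 / C ^ n with hη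
  have hη0 : 0 < η := by positivity
  have h1 : barrier (ML Y) 0 (pr (y e)) (pr (y e')) < (η ^ 2 : ℝ) := by
    have h1 := EReal.coe_ennreal_lt_coe_ennreal_iff.2 h
    rw [hd, EReal.coe_ennreal_ofReal, max_eq_left (by positivity)] at h1
    refine lt_of_le_of_lt (le_add_of_nonneg_right (barrier_nonneg ML_nonneg _ _)) (h1.trans_eq ?_)
    rw [hη, div_pow _ (C ^ n), ← pow_mul, ← pow_mul, mul_comm]
  obtain ⟨N, h2, hN⟩ := ((frequently_lt_of_liminf_lt (h := h1)).and_eventually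
    (eventually_ge_atTop 1)).exists
  obtain ⟨r, h3, h4⟩ := adm_of_lt h2
  obtain ⟨u, u0, uN, hu⟩ := h3.chain ML_nonneg
  have hCn : 1 ≤ C ^ n := one_le_pow₀ hC
  have hδ : C ^ n * (C2 * η) = ε := by rw [hη]; field_simp
  have hδ' : C2 * η ≤ ε := by nlinarith [mul_pos hC2 hη0]
  have nx : ∀ k (z : E), ∃ z', k < N → z ∈ W → pr z = u k →
      pr z' = u (k + 1) ∧ ‖z' - Φ z‖ ≤ C2 * η := by
    intro k z
    by_cases h : k < N ∧ z ∈ W ∧ pr z = u k
    · obtain ⟨r', a1, a2⟩ := hu k h.1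
      obtain ⟨x, b1, b2, b3⟩ := hsol z h.2.1
      obtain ⟨z', c1, c2⟩ := low x b3 (u (k + 1)) r' η hη0
        (a1.trans (EReal.coe_lt_coe_iff.1 h4).le) (by rwa [b1, h.2.2])
      exact ⟨z', fun _ _ _ => ⟨c1, b2 ▸ c2⟩⟩
    · exact ⟨z, fun a b c => absurd ⟨a, b, c⟩ h⟩
  choose nx hnx using nx
  let w : ℕ → E := fun k => Nat.rec (y e) nx k
  have hw : ∀ k ≤ N, w k ∈ W ∧ pr (w k) = u k := by
    intro k
    induction k with
    | zero => exact fun _ => ⟨hy e, u0.symm⟩
    | succ k ih =>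
      intro hk
      obtain ⟨a1, a2⟩ := ih (by omega)
      obtain ⟨b1, b2⟩ := hnx k (w k) hk a1 a2
      exact ⟨trap _ a1 _ (b2.trans hδ'), b1⟩
  exact sep e e' n N (C2 * η) w (by positivity) hδ.le hN rfl
    (hinj (hw N le_rfl).1 (hy e') ((hw N le_rfl).2.trans uN))
    fun k hk => (hnx k (w k) hk (hw k hk.le).1 (hw k hk.le).2).2

end Pool.Agent.Lib.MP_7d4c8f_an
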