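import Pool.Agent.Lib.MP_7d4c8f_an.Cls

/-! Orbits near the critical orbit of a renormalisable map. -/

namespace Pool.Agent.Lib.MP_7d4c8f_an
open Metric Set

def MM : ℕ := 59
noncomputable def mu : ℝ := 1 / 10 ^ 33
noncomputable def ww : ℝ := 1 / 10 ^ 48

lemma MM_up : (21 / 5 : ℝ) ^ (MM + 1) ≤ 10 ^ 38 := by unfold MM; norm_num
lemma MM_low : (10 : ℝ) ^ 33 ≤ 6 * (7 / 2) ^ (MM + 1) := by unfold MM; norm_num
lemma MM_six : (6 : ℝ) ^ (MM + 3) ≤ 10 ^ 49 := by unfold MM; norm_num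
lemma MM_ge : 20 ≤ MM := by unfold MM; norm_num
attribute [irreducible] MM

lemma mu_pos : 0 < mu := by unfold mu; positivity
lemma ww_pos : 0 < ww := by unfold ww; positivity

lemma shadow {d : ℕ → ℝ} {L ε δ : ℝ} (hL : 2 ≤ L) (hε : 0 ≤ ε) (hd0 : 0 ≤ d 0) {n : ℕ}
    (step : ∀ j < n, d j ≤ δ → d (j + 1) ≤ L * d j + ε) (hs : L ^ n * (d 0 + ε) ≤ δ) :
    ∀ j ≤ n, d j + ε ≤ L ^ j * (d 0 + ε) := by
  intro j
  induction j with
  | zero => intro _; simp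
  | succ j ih =>
    intro hj
    have h1 := ih (by omega)
    have h2 : L ^ j * (d 0 + ε) ≤ L ^ n * (d 0 + ε) :=
      mul_le_mul_of_nonneg_right (pow_le_pow_right₀ (by linarith) (by omega)) (by linarith)
    have h3 := step j (by omega) (by linarith)
    have h4 := mul_le_mul_of_nonneg_left h1 (show 0 ≤ L by linarith)
    rw [pow_succ]
    nlinarith

lemma shadow' {d : ℕ → ℝ} {L ε δ H : ℝ} (hL : 2 ≤ L) (hε : 0 ≤ ε) (hd0 : 0 ≤ d 0) {n : ℕ}
    (step : ∀ j < n, d j ≤ δ → d (j + 1) ≤ L * d j + ε) (hH : L ^ n ≤ H)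
    (hs : H * (d 0 + ε) ≤ δ) : ∀ j ≤ n, d j ≤ H * (d 0 + ε) := by
  intro j hj
  have h0 : L ^ n * (d 0 + ε) ≤ H * (d 0 + ε) := mul_le_mul_of_nonneg_right hH (by linarith)
  have h1 := shadow hL hε hd0 step (h0.trans hs) j hj
  have h2 : L ^ j * (d 0 + ε) ≤ L ^ n * (d 0 + ε) :=
    mul_le_mul_of_nonneg_right (pow_le_pow_right₀ (by linarith) hj) (by linarith)
  linarith

/-- the orbit of the critical value -/
noncomputable def s (G : C2 → C2) (j : ℕ) : ℝ := (gr G)^[j + 1] (cr G)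

lemma s_succ (G : C2 → C2) (j : ℕ) : s G (j + 1) = gr G (s G j) :=
  Function.iterate_succ_apply' _ _ _

structure Good (G : C2 → C2) : Prop extends Cls G where
  mid : ∀ j, 1 ≤ j → j ≤ MM → s G j ∈ Icc (9 / 5 : ℝ) (41 / 20)
  last : s G (MM + 1) ∈ Icc (13 / 10 : ℝ) (3 / 2)

namespace Cls
variable {G : C2 → C2}

lemma s0 (h : Cls G) : -2011 / 1000 ≤ s G 0 ∧ s G 0 ≤ -1988 / 1000 ∧
    gr G 0 - 1 / 1000 ≤ s G 0 ∧ s G 0 ≤ gr G 0 := by
  have h1 := abs_le.1 h.cr_abs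
  have h2 := abs_le.1 (h.quadr (x := cr G) (abs_le.2 ⟨by linarith, by linarith⟩))
  have h3 : s G 0 = gr G (cr G) := rfl
  have h4 := h.cr_spec.2 0 (by norm_num)
  have := h.lo; have := h.hi
  refine ⟨by nlinarith, by nlinarith, by nlinarith, by linarith⟩

lemma gs (h : Cls G) (j : ℕ) : g G (s G j) = s G (j + 1) := by rw [h.greal, s_succ]
lemma gcr (h : Cls G) : g G (cr G) = s G 0 := by rw [h.greal]; rfl
lemma gxi (h : Cls G) : g G (xi G) = cr G := by rw [h.greal, h.xi_spec.2]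

lemma giter (h : Cls G) (n : ℕ) (x : ℝ) : (g G)^[n] x = ((gr G)^[n] x : ℝ) := by
  induction n with
  | zero => rfl
  | succ n ih => rw [Function.iterate_succ_apply', Function.iterate_succ_apply', ih, h.greal]

lemma step1 (h : Cls G) {x : ℂ} (hx : ‖x - xi G‖ ≤ 1 / 100) :
    28 / 10 * ‖x - xi G‖ ≤ ‖g G x - cr G‖ ∧ ‖g G x - cr G‖ ≤ 29 / 10 * ‖x - xi G‖ := by
  have h1 := h.xi_bd
  have h2 : ‖(xi G : ℂ)‖ = xi G := by simp; linarith
  have e : x + xi G = (x - xi G) + 2 * xi G := by ring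
  have h3 : ‖2 * (xi G : ℂ)‖ = 2 * xi G := by rw [norm_mul, h2]; simp
  have h4 := norm_add_le (x - xi G) (2 * xi G)
  have h5 := norm_sub_le (x + xi G) (x - xi G)
  rw [show x + xi G - (x - xi G) = 2 * xi G by ring] at h5
  rw [← e] at h4
  have h6 := h.two_le (x := xi G) (x' := x) (K := 285 / 100) (by linarith) (by linarith)
    (by linarith)
  have h7 := h.two_ge (x := xi G) (x' := x) (K := 281 / 100) (by linarith) (by linarith)
    (by linarith)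
  rw [h.gxi] at h6 h7
  have := norm_nonneg (x - xi G)
  constructor <;> linarith

lemma thin1 (h : Cls G) {z : C2} (hz : ‖z‖ ≤ 3) : ‖(G z).1 - g G z.1‖ ≤ th :=
  (norm_fst_le (G z - (g G z.1, 0))).trans (h.thin z hz)

lemma thin2 (h : Cls G) {z : C2} (hz : ‖z‖ ≤ 3) : ‖(G z).2‖ ≤ th := by
  simpa using (norm_snd_le (G z - (g G z.1, 0))).trans (h.thin z hz)

lemma lip6 (h : Cls G) {z z' : C2} (hz : ‖z‖ ≤ 11 / 5) (hz' : ‖z' - z‖ ≤ 1 / 4) :
    ‖G z' - G z‖ ≤ 6 * ‖z' - z‖ := by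
  have h1 := norm_add_le z'.1 z.1
  have h2 := norm_fst_le z
  have h3 := norm_fst_le z'
  have h4 := norm_add_le (z' - z) z
  rw [sub_add_cancel] at h4
  have := h.lip (z := z) (z' := z') (K := 5) (by linarith) (by linarith) (by linarith)
  linarith [norm_nonneg (z' - z)]

lemma lipc (h : Cls G) {z z' : C2} (hz : ‖z.1 - cr G‖ ≤ 10 * mu) (hz' : ‖z'.1 - cr G‖ ≤ 10 * mu)
    (hy : ‖z.2‖ ≤ 1 / 10) (hy' : ‖z'.2‖ ≤ 1 / 10) : ‖G z' - G z‖ ≤ 60 * mu * ‖z' - z‖ := by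
  have hc : ‖(cr G : ℂ)‖ ≤ 1 / 2000 := by simpa using h.cr_abs
  have hmu : mu = 1 / 10 ^ 33 := rfl
  have h0 : ‖z'.1 - z.1‖ ≤ 20 * mu := by
    have := norm_sub_le (z'.1 - cr G) (z.1 - cr G)
    rw [sub_sub_sub_cancel_right] at this; linarith
  have h1 := Complex.dist_le_div_mul_dist_of_mapsTo_ball (f := g G) (c := z.1) (z := z'.1)
    (R₁ := 30 * mu) (R₂ := 1702 * mu ^ 2) h.gdiff.differentiableOn ?_
    (by rw [mem_ball, dist_eq_norm]; linarith)
  · rw [dist_eq_norm, dist_eq_norm] at h1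
    have h2 : ‖z‖ ≤ 5 / 2 := by
      have := norm_add_le (z.1 - cr G) (cr G)
      rw [sub_add_cancel] at this
      rw [Prod.norm_def]; exact max_le (by linarith) (by linarith)
    have h3 : ‖z' - z‖ < 1 / 2 := by
      have := norm_sub_le z'.2 z.2
      rw [Prod.norm_def]; exact max_lt (by simp only [Prod.fst_sub]; linarith)
        (by simp only [Prod.snd_sub]; linarith)
    have h4 := h.thinLip h2 h3
    have h5 : G z' - G z = ((G z' - (g G z'.1, 0)) - (G z - (g G z.1, 0))) +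
        (g G z'.1 - g G z.1, 0) := by
      ext
      · simp only [Prod.fst_sub, Prod.fst_add]; ring
      · simp
    rw [h5]
    refine (norm_add_le _ _).trans ?_
    have h6 : ‖((g G z'.1 - g G z.1, 0) : C2)‖ = ‖g G z'.1 - g G z.1‖ := by simp
    have h7 : ‖z'.1 - z.1‖ ≤ ‖z' - z‖ := norm_fst_le (z' - z)
    rw [h6]
    rw [hmu] at h1 ⊢
    unfold th at h4
    have := norm_nonneg (z' - z)
    norm_num at h1 h4 ⊢
    linarith
  · intro u hu
    rw [mem_ball, dist_eq_norm] at hu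
    rw [mem_closedBall, dist_eq_norm]
    have h2 : ‖u - cr G‖ ≤ 40 * mu := by
      have := norm_add_le (u - z.1) (z.1 - cr G)
      rw [sub_add_sub_cancel] at this; linarith
    have h3 := h.cr_le (x := u) (by linarith)
    have h4 := h.cr_le (x := z.1) (by linarith)
    have h5 := norm_sub_le (g G u - g G (cr G)) (g G z.1 - g G (cr G))
    rw [sub_sub_sub_cancel_right] at h5
    have h6 : ‖u - cr G‖ ^ 2 ≤ (40 * mu) ^ 2 := by gcongr
    have h7 : ‖z.1 - cr G‖ ^ 2 ≤ (10 * mu) ^ 2 := by gcongr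
    nlinarith [sq_nonneg mu]

end Cls

namespace Good
variable {G : C2 → C2}

lemma sabs (h : Good G) {j : ℕ} (hj : j ≤ MM) : 9 / 5 ≤ |s G j| ∧ |s G j| ≤ 41 / 20 := by
  rcases Nat.eq_zero_or_pos j with rfl | h0
  · have := h.s0
    rw [abs_of_neg (by linarith)]; constructor <;> linarith
  · have := h.mid j h0 hj
    rw [abs_of_pos (by linarith [this.1])]; exact this

lemma sabs' (h : Good G) {j : ℕ} (hj : j ≤ MM + 1) : |s G j| ≤ 41 / 20 := by
  rcases hj.eq_or_lt with rfl | h0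
  · have := h.last
    rw [abs_of_pos (by linarith [this.1])]; linarith [this.2]
  · exact (h.sabs (by omega)).2

lemma sum_bd (h : Good G) {j : ℕ} (hj : j ≤ MM) {x x' : ℂ} (hx : ‖x - s G j‖ ≤ 1 / 40)
    (hx' : ‖x' - s G j‖ ≤ 1 / 20) : 7 / 2 + 4 / 1000 ≤ ‖x' + x‖ ∧ ‖x' + x‖ ≤ 4175 / 1000 := by
  have h1 := h.sabs hj
  have h2 : ‖2 * (s G j : ℂ)‖ = 2 * |s G j| := by simp
  have h3 := norm_add_le (x' - s G j) (x - s G j)
  have h4 := norm_add_le ((x' - s G j) + (x - s G j)) (2 * s G j)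
  have h5 := norm_sub_le (x' + x) ((x' - s G j) + (x - s G j))
  rw [show (x' - s G j) + (x - s G j) + 2 * s G j = x' + x by ring] at h4
  rw [show x' + x - ((x' - s G j) + (x - s G j)) = 2 * s G j by ring] at h5
  constructor <;> linarith

lemma up1 (h : Good G) {x : ℂ} (hx : 10 ^ 38 * ‖x - s G 0‖ ≤ 1 / 40) :
    ∀ j ≤ MM + 1, ‖(g G)^[j] x - s G j‖ ≤ 10 ^ 38 * ‖x - s G 0‖ := by
  have := shadow' (d := fun j => ‖(g G)^[j] x - s G j‖) (L := 21 / 5) (ε := 0) (δ := 1 / 40)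
    (H := 10 ^ 38) (by norm_num) le_rfl (norm_nonneg _) (n := MM + 1) ?_ MM_up (by simpa using hx)
  · simpa using this
  intro j hj hd
  have h1 := h.sabs (j := j) (by omega)
  have h2 := h.two_le (x := s G j) (x' := (g G)^[j] x) (by simp; linarith) (by linarith)
    (h.sum_bd (j := j) (by omega) (by simp) (by linarith)).2
  rw [h.gs] at h2
  simp only [Function.iterate_succ_apply']
  linarith [norm_nonneg ((g G)^[j] x - s G j)]

lemma low1 (h : Good G) {x : ℂ} (hx : 10 ^ 38 * ‖x - s G 0‖ ≤ 1 / 40) :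
    ∀ j ≤ MM + 1, (7 / 2) ^ j * ‖x - s G 0‖ ≤ ‖(g G)^[j] x - s G j‖ := by
  intro j
  induction j with
  | zero => simp
  | succ j ih =>
    intro hj
    have h0 := h.up1 hx j (by omega)
    have h1 := h.sabs (j := j) (by omega)
    have h2 := h.two_ge (x := s G j) (x' := (g G)^[j] x) (by simp; linarith) (by linarith)
      (h.sum_bd (j := j) (by omega) (by simp) (by linarith)).1
    rw [h.gs] at h2
    have := ih (by omega)
    simp only [Function.iterate_succ_apply', pow_succ]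
    linarith

lemma two_steps (h : Good G) {x : ℂ} (hx : ‖x - xi G‖ ≤ 1 / 10 ^ 21) :
    6 * ‖x - xi G‖ ^ 2 ≤ ‖g G (g G x) - s G 0‖ ∧ ‖g G (g G x) - s G 0‖ ≤ 10 * ‖x - xi G‖ ^ 2 := by
  have h1 := h.step1 (x := x) (by linarith)
  have h2 := h.cr_le (x := g G x) (by linarith)
  have h3 := h.cr_ge (x := g G x) (by linarith)
  rw [h.gcr] at h2 h3
  have h4 : (28 / 10 * ‖x - xi G‖) ^ 2 ≤ ‖g G x - cr G‖ ^ 2 := by gcongr; exact h1.1
  have h5 : ‖g G x - cr G‖ ^ 2 ≤ (29 / 10 * ‖x - xi G‖) ^ 2 := by gcongr; exact h1.2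
  constructor <;> nlinarith [sq_nonneg ‖x - xi G‖]

lemma Pbd (h : Good G) {x : ℂ} (hx : ‖x - xi G‖ ≤ 1 / 10 ^ 21) :
    10 ^ 33 * ‖x - xi G‖ ^ 2 ≤ ‖(g G)^[MM + 3] x - s G (MM + 1)‖ ∧
      ‖(g G)^[MM + 3] x - s G (MM + 1)‖ ≤ 10 ^ 39 * ‖x - xi G‖ ^ 2 := by
  have h1 := h.two_steps hx
  have h2 : ‖x - xi G‖ ^ 2 ≤ (1 / 10 ^ 21) ^ 2 := by gcongr
  have h3 : 10 ^ 38 * ‖g G (g G x) - s G 0‖ ≤ 1 / 40 := by linarith
  have h4 := h.up1 h3 (MM + 1) le_rfl
  have h5 := h.low1 h3 (MM + 1) le_rfl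
  have e : (g G)^[MM + 3] x = (g G)^[MM + 1] (g G (g G x)) := rfl
  rw [e]
  refine ⟨?_, by linarith⟩
  have h6 := mul_le_mul_of_nonneg_right MM_low (sq_nonneg ‖x - xi G‖)
  have h7 := mul_le_mul_of_nonneg_left h1.1 (show (0 : ℝ) ≤ (7 / 2) ^ (MM + 1) by positivity)
  linarith

/-- the orbit of a point of the small box -/
lemma orb (h : Good G) {z : C2} (hx : ‖z.1 - xi G‖ ≤ 3 * mu) (hy : ‖z.2‖ ≤ 1) :
    ‖z‖ ≤ 11 / 5 ∧ ‖(G z).1 - cr G‖ ≤ 10 * mu ∧ ‖(G z).2‖ ≤ th ∧ ‖G z‖ ≤ 11 / 5 ∧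
      ∀ j ≤ MM + 1, ‖G^[j + 2] z - ((s G j : ℂ), 0)‖ ≤ 102 / 10 ^ 28 := by
  have hc : ‖(cr G : ℂ)‖ ≤ 1 / 2000 := by simpa using h.cr_abs
  have hmu : mu = 1 / 10 ^ 33 := rfl
  have hth : th = 1 / 10 ^ 100 := rfl
  have h0 : ‖z‖ ≤ 11 / 5 := by
    have h1 := h.xi_bd
    have h2 : ‖(xi G : ℂ)‖ = xi G := by simp; linarith
    have := norm_add_le (z.1 - xi G) (xi G)
    rw [sub_add_cancel] at this
    rw [Prod.norm_def]; exact max_le (by linarith) (by linarith)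
  have h1 : ‖(G z).1 - cr G‖ ≤ 10 * mu := by
    have h1 := (h.step1 (x := z.1) (by linarith)).2
    have h2 := h.thin1 (z := z) (by linarith)
    have := norm_add_le ((G z).1 - g G z.1) (g G z.1 - cr G)
    rw [sub_add_sub_cancel] at this; linarith
  have h2 := h.thin2 (z := z) (by linarith)
  have h3 : ‖G z‖ ≤ 11 / 5 := by
    have := norm_add_le ((G z).1 - cr G) (cr G)
    rw [sub_add_cancel] at this
    rw [Prod.norm_def]; exact max_le (by linarith) (by linarith)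
  refine ⟨h0, h1, h2, h3, ?_⟩
  have h4 : ‖G (G z) - ((s G 0 : ℂ), 0)‖ ≤ 101 / 10 ^ 66 := by
    have h4 := h.thin (G z) (by linarith)
    have h5 := h.cr_le (x := (G z).1) (by linarith)
    rw [h.gcr] at h5
    have h6 : ‖(G z).1 - cr G‖ ^ 2 ≤ (10 * mu) ^ 2 := by gcongr
    have h7 := norm_add_le (G (G z) - (g G (G z).1, 0)) ((g G (G z).1, 0) - ((s G 0 : ℂ), 0))
    rw [sub_add_sub_cancel] at h7
    have h8 : ‖((g G (G z).1, 0) - ((s G 0 : ℂ), 0) : C2)‖ = ‖g G (G z).1 - s G 0‖ := by simp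
    rw [hmu] at h6
    linarith
  have := shadow' (d := fun j => ‖G^[j + 2] z - ((s G j : ℂ), 0)‖) (L := 21 / 5) (ε := th)
    (δ := 1 / 40) (H := 10 ^ 38) (by norm_num) th_pos.le (norm_nonneg _) (n := MM + 1) ?_ MM_up
    (by change 10 ^ 38 * (‖G (G z) - ((s G 0 : ℂ), 0)‖ + th) ≤ _; linarith)
  · intro j hj
    have := this j hj
    change _ ≤ 10 ^ 38 * (‖G (G z) - ((s G 0 : ℂ), 0)‖ + th) at this
    linarith
  intro j hj hd
  have h5 := h.sabs (j := j) (by omega)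
  have h6 : ‖(((s G j : ℂ), 0) : C2)‖ = |s G j| := by simp
  have h7 := h.lip (z := ((s G j : ℂ), 0)) (z' := G^[j + 2] z) (by linarith) (by linarith)
    (h.sum_bd (j := j) (by omega) (by simp)
      (((norm_fst_le (G^[j + 2] z - ((s G j : ℂ), 0))).trans hd).trans (by norm_num))).2
  have h8 := h.thin ((s G j : ℂ), 0) (by linarith)
  rw [h.gs] at h8
  have h9 := norm_add_le (G (G^[j + 2] z) - G ((s G j : ℂ), 0))
    (G ((s G j : ℂ), 0) - ((s G (j + 1) : ℂ), 0))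
  rw [sub_add_sub_cancel] at h9
  rw [show j + 1 + 2 = (j + 2) + 1 by ring, Function.iterate_succ_apply']
  linarith [norm_nonneg (G^[j + 2] z - ((s G j : ℂ), 0))]

lemma orb_norm (h : Good G) {z : C2} (hx : ‖z.1 - xi G‖ ≤ 3 * mu) (hy : ‖z.2‖ ≤ 1) :
    ∀ j ≤ MM + 3, ‖G^[j] z‖ ≤ 11 / 5 := by
  obtain ⟨h0, -, -, h1, h2⟩ := h.orb hx hy
  intro j hj
  match j with
  | 0 => exact h0
  | 1 => exact h1
  | j + 2 =>
    have h3 := h2 j (by omega)
    have h4 := h.sabs' (j := j) (by omega)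
    have h5 : ‖(((s G j : ℂ), 0) : C2)‖ = |s G j| := by simp
    have := norm_add_le (G^[j + 2] z - ((s G j : ℂ), 0)) ((s G j : ℂ), 0)
    rw [sub_add_cancel] at this
    linarith

/-- pseudo-orbits starting near a point of the small box -/
lemma pseudo (h : Good G) {z : C2} (hx : ‖z.1 - xi G‖ ≤ 3 * mu) (hy : ‖z.2‖ ≤ 1) {u : ℕ → C2}
    {ε : ℝ} (hε : 0 ≤ ε) (hu : ∀ j < MM + 3, ‖u j‖ ≤ 3 → ‖u (j + 1) - G (u j)‖ ≤ ε)
    (hs : 10 ^ 49 * (‖u 0 - z‖ + ε) ≤ 1 / 4) :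
    ∀ j ≤ MM + 3, ‖u j - G^[j] z‖ ≤ 10 ^ 49 * (‖u 0 - z‖ + ε) := by
  refine shadow' (d := fun j => ‖u j - G^[j] z‖) (L := 6) (ε := ε)
    (δ := 1 / 4) (H := 10 ^ 49) (by norm_num) hε (norm_nonneg _) (n := MM + 3) ?_ MM_six hs
  intro j hj hd
  have h1 := h.orb_norm hx hy j hj.le
  have h2 := h.lip6 h1 hd
  have h3 := norm_add_le (u j - G^[j] z) (G^[j] z)
  rw [sub_add_cancel] at h3
  have h4 := hu j hj (by linarith)
  have h5 := norm_add_le (u (j + 1) - G (u j)) (G (u j) - G (G^[j] z))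
  rw [sub_add_sub_cancel] at h5
  rw [Function.iterate_succ_apply']
  linarith

/-- dependence of the return map on the second coordinate -/
lemma ydep (h : Good G) {z z' : C2} (hx : ‖z.1 - xi G‖ ≤ 3 * mu) (he : z'.1 = z.1)
    (hy : ‖z.2‖ ≤ 1 / 10) (hy' : ‖z'.2‖ ≤ 1 / 10) :
    ‖G^[MM + 3] z' - G^[MM + 3] z‖ ≤ 24 * 10 ^ 6 * th * ‖z'.2 - z.2‖ := by
  have hmu : mu = 1 / 10 ^ 33 := rfl
  have hth : th = 1 / 10 ^ 100 := rfl
  obtain ⟨h0, h1, h2, h3, h4⟩ := h.orb hx (by linarith)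
  obtain ⟨h0', h1', h2', h3', h4'⟩ := h.orb (z := z') (by rwa [he]) (by linarith)
  have hd : ‖z' - z‖ = ‖z'.2 - z.2‖ := by rw [Prod.norm_def]; simp [he]
  have hd' := norm_sub_le z'.2 z.2
  have h5 := h.thinLip (z := z) (z' := z') (by linarith) (by linarith)
  rw [he, sub_sub_sub_cancel_right, hd] at h5
  have h6 := h.lipc (z := G z) (z' := G z') h1 h1' (by linarith) (by linarith)
  have h7 : ‖G (G z') - G (G z)‖ ≤ 240 / 10 ^ 33 * th * ‖z'.2 - z.2‖ := by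
    rw [hmu] at h6; linarith
  have h8 : th * ‖z'.2 - z.2‖ ≤ th * 1 := mul_le_mul_of_nonneg_left (by linarith) th_pos.le
  have := shadow' (d := fun j => ‖G^[j + 2] z' - G^[j + 2] z‖) (L := 21 / 5) (ε := 0)
    (δ := 1 / 40) (H := 10 ^ 38) (by norm_num) le_rfl (norm_nonneg _) (n := MM + 1) ?_ MM_up
    (by change 10 ^ 38 * (‖G (G z') - G (G z)‖ + 0) ≤ _; linarith)
  · have := this (MM + 1) le_rfl
    change ‖G^[MM + 3] z' - G^[MM + 3] z‖ ≤ 10 ^ 38 * (‖G (G z') - G (G z)‖ + 0) at this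
    linarith
  intro j hj hd
  have h9 := h.lip (z := G^[j + 2] z) (z' := G^[j + 2] z')
    ((h.orb_norm hx (by linarith) _ (by omega)).trans (by norm_num)) (by linarith)
    (h.sum_bd (j := j) (by omega)
      (((norm_fst_le (G^[j + 2] z - ((s G j : ℂ), 0))).trans (h4 j hj.le)).trans (by norm_num))
      (((norm_fst_le (G^[j + 2] z' - ((s G j : ℂ), 0))).trans (h4' j hj.le)).trans
        (by norm_num))).2
  rw [show j + 1 + 2 = (j + 2) + 1 by ring, Function.iterate_succ_apply' G (j + 2) z',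
    Function.iterate_succ_apply' G (j + 2) z]
  linarith [norm_nonneg (G^[j + 2] z' - G^[j + 2] z)]

end Good

end Pool.Agent.Lib.MP_7d4c8f_an
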