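import Pool.Agent.Lib.MP_7d4c8f_an.Ren
import Mathlib.Topology.Maps.Proper.Basic

/-! Choice of the parameter: an infinitely renormalisable real Henon map. -/

namespace Pool.Agent.Lib.MP_7d4c8f_an
open Metric Set

lemma cont_uniq {T : Type*} [TopologicalSpace T] {f : T → ℝ} {a b : ℝ} {R : T → ℝ → Prop}
    (hR : IsClosed {p : T × ℝ | R p.1 p.2}) (h1 : ∀ t, f t ∈ Icc a b ∧ R t (f t))
    (h2 : ∀ t, ∀ y ∈ Icc a b, R t y → y = f t) : Continuous f := by
  rw [continuous_iff_isClosed]
  intro C hC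
  have hc : Continuous fun p : T × Icc a b => ((p.1, p.2) : T × ℝ) := by fun_prop
  have := isClosedMap_fst_of_compactSpace (X := T) (Y := Icc a b) _
    ((hR.preimage hc).inter (hC.preimage (show Continuous fun p : T × Icc a b => (p.2 : ℝ) by
      fun_prop)))
  convert this using 1
  ext t
  constructor
  · intro ht
    exact ⟨(t, ⟨f t, (h1 t).1⟩), ⟨(h1 t).2, ht⟩, rfl⟩
  · rintro ⟨⟨t, y⟩, ⟨h3, h4⟩, rfl⟩
    have := h2 t y y.2 h3
    change f t ∈ C
    rw [← this]; exact h4

lemma cross {f : ℝ → ℝ} {a b A B : ℝ} (hab : a ≤ b) (hf : ContinuousOn f (Icc a b)) (hAB : A ≤ B)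
    (ha : f a ≤ A) (hb : B ≤ f b) : ∃ a' b', a ≤ a' ∧ a' ≤ b' ∧ b' ≤ b ∧ f a' = A ∧ f b' = B ∧
      ∀ t ∈ Icc a' b', f t ∈ Icc A B := by
  obtain ⟨b', ⟨hb1, hb2⟩, hb3⟩ := (isCompact_Icc.of_isClosed_subset
    (hf.preimage_isClosed_of_isClosed isClosed_Icc (isClosed_singleton (x := B)))
    inter_subset_left).exists_isLeast (by
      obtain ⟨t, ht, h⟩ := intermediate_value_Icc hab hf ⟨ha.trans hAB, hb⟩
      exact ⟨t, ht, h⟩)
  have hf' : ContinuousOn f (Icc a b') := hf.mono (Icc_subset_Icc_right hb1.2)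
  have hb2 : f b' = B := hb2
  obtain ⟨a', ⟨ha1, ha2⟩, ha3⟩ := (isCompact_Icc.of_isClosed_subset
    (hf'.preimage_isClosed_of_isClosed isClosed_Icc (isClosed_singleton (x := A)))
    inter_subset_left).exists_isGreatest (by
      obtain ⟨t, ht, h⟩ := intermediate_value_Icc hb1.1 hf' ⟨ha, hb2 ▸ hAB⟩
      exact ⟨t, ht, h⟩)
  have ha2 : f a' = A := ha2
  refine ⟨a', b', ha1.1, ha1.2, hb1.2, ha2, hb2, fun t ht => ⟨?_, ?_⟩⟩
  · by_contra hlt
    push Not at hlt
    obtain ⟨u, hu, h⟩ := intermediate_value_Icc ht.2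
      (hf'.mono (Icc_subset_Icc_left (ha1.1.trans ht.1))) ⟨hlt.le, hb2 ▸ hAB⟩
    have h1 : u ≤ a' := ha3 ⟨⟨ha1.1.trans (ht.1.trans hu.1), hu.2⟩, h⟩
    have : t = a' := le_antisymm (hu.1.trans h1) ht.1
    rw [this, ha2] at hlt; exact lt_irrefl _ hlt
  · by_contra hlt
    push Not at hlt
    have hat : a ≤ t := ha1.1.trans ht.1
    obtain ⟨u, hu, h⟩ := intermediate_value_Icc hat
      (hf'.mono (Icc_subset_Icc_right ht.2)) ⟨ha.trans hAB, hlt.le⟩
    have h1 : b' ≤ u := hb3 ⟨⟨hu.1, hu.2.trans (ht.2.trans hb1.2)⟩, h⟩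
    have : t = b' := le_antisymm ht.2 (h1.trans hu.2)
    rw [this, hb2] at hlt; exact lt_irrefl _ hlt

noncomputable def cl (x : ℝ) : ℝ := max (126 / 100) (min (41 / 20) x)
noncomputable def ph (G : C2 → C2) (j : ℕ) : ℝ := (fun x => cl (gr G x))^[j] (s G 0)

lemma ph_succ (G : C2 → C2) (j : ℕ) : ph G (j + 1) = cl (gr G (ph G j)) :=
  Function.iterate_succ_apply' _ _ _

lemma cl_mem (x : ℝ) : 126 / 100 ≤ cl x ∧ cl x ≤ 41 / 20 :=
  ⟨le_max_left _ _, max_le (by norm_num) (min_le_left _ _)⟩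

lemma cl_eq {x : ℝ} (h1 : 126 / 100 < cl x) (h2 : cl x < 41 / 20) : cl x = x := by
  unfold cl at *
  rcases le_total (41 / 20) x with h | h
  · rw [min_eq_left h] at h2; linarith [le_max_right (126 / 100 : ℝ) (41 / 20)]
  · rw [min_eq_right h] at h1 ⊢
    rcases le_total (126 / 100) x with h' | h'
    · exact max_eq_right h'
    · rw [max_eq_left h'] at h1; linarith

section
variable {T : Type*} [TopologicalSpace T] {F : T → C2 → C2}

lemma c_iter {X : Type*} [TopologicalSpace X] {F : T → X → X}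
    (hF : Continuous fun p : T × X => F p.1 p.2) (n : ℕ) :
    Continuous fun p : T × X => (F p.1)^[n] p.2 := by
  induction n with
  | zero => exact continuous_snd
  | succ n ih =>
    simp only [Function.iterate_succ_apply']
    exact hF.comp (continuous_fst.prodMk ih)

lemma c_app {X : Type*} [TopologicalSpace X] {Y : Type*} [TopologicalSpace Y] {F : T → X → Y}
    (hF : Continuous fun p : T × X => F p.1 p.2) {f : T → X} (hf : Continuous f) :
    Continuous fun t => F t (f t) := hF.comp (continuous_id.prodMk hf)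

variable (hF : Continuous fun p : T × C2 => F p.1 p.2)
include hF

lemma c_gr : Continuous fun p : T × ℝ => gr (F p.1) p.2 :=
  Complex.continuous_re.comp (continuous_fst.comp (hF.comp (f := fun p : T × ℝ =>
    (p.1, ((p.2 : ℂ), (0 : ℂ)))) (by fun_prop)))

lemma c_ka : Continuous fun p : T × ℝ => (ka (F p.1) p.2).re :=
  Complex.continuous_re.comp (continuous_snd.comp (hF.comp (f := fun p : T × ℝ =>
    (p.1, ((p.2 : ℂ), (0 : ℂ)))) (by fun_prop)))

lemma c_cr (h : ∀ t, Cls (F t)) : Continuous fun t => cr (F t) := by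
  refine cont_uniq (R := fun t c => ∀ x ∈ Icc (-5 / 2 : ℝ) (5 / 2), gr (F t) c ≤ gr (F t) x) ?_
    (fun t => (h t).cr_spec) (fun t y hy => (h t).cr_uniq hy)
  simp only [ofPred_forall]
  refine isClosed_iInter fun x => isClosed_iInter fun _ => isClosed_le (c_gr hF) ?_
  exact (c_gr hF).comp (f := fun p : T × ℝ => (p.1, x)) (by fun_prop)

lemma c_xi (h : ∀ t, Cls (F t)) : Continuous fun t => xi (F t) :=
  cont_uniq (R := fun t x => gr (F t) x = cr (F t))
    (isClosed_eq (c_gr hF) ((c_cr hF h).comp continuous_fst))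
    (fun t => (h t).xi_spec) (fun t _ hy => (h t).xi_uniq hy)

lemma c_s (h : ∀ t, Cls (F t)) (j : ℕ) : Continuous fun t => s (F t) j :=
  c_app (F := fun t => (gr (F t))^[j + 1]) (c_iter (F := fun t => gr (F t)) (c_gr hF) _) (c_cr hF h)

lemma c_ph (h : ∀ t, Cls (F t)) (j : ℕ) : Continuous fun t => ph (F t) j :=
  c_app (F := fun t => (fun x => cl (gr (F t) x))^[j])
    (c_iter (F := fun t x => cl (gr (F t) x))
      ((show Continuous cl by unfold cl; fun_prop).comp (c_gr hF)) _) (c_s hF h 0)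

lemma c_ren (h : ∀ t, Good (F t)) : Continuous fun p : T × C2 => Ren (F p.1) p.2 := by
  have h' : ∀ t, Cls (F t) := fun t => (h t).toCls
  have h1 := c_xi hF h'
  have h2 := c_s hF h' MM
  have h3 := c_s hF h' (MM + 1)
  have hQ : Continuous fun t => QQ (F t) :=
    ((c_app (F := fun t => (gr (F t))^[MM + 3]) (c_iter (F := fun t => gr (F t)) (c_gr hF) _)
      (h1.add continuous_const)).sub h3).div_const _
  have hk : Continuous fun t => k1 (F t) := by
    refine ((c_app (F := fun t x => (ka (F t) (x : ℝ)).re) (c_ka hF) (h2.add continuous_const)).sub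
      (c_app (F := fun t x => (ka (F t) (x : ℝ)).re) (c_ka hF) h2)).div
      ((c_app (F := fun t => gr (F t)) (c_gr hF) (h2.add continuous_const)).sub h3) fun t h0 => ?_
    have h4 := (h t).den
    rw [(h t).gs, (h t).greal, ← Complex.ofReal_sub, Complex.norm_real] at h4
    change gr (F t) (s (F t) MM + mu) - s (F t) (MM + 1) = 0 at h0
    rw [h0, norm_zero] at h4
    linarith [mu_pos]
  have hy : Continuous fun t => y0 (F t) :=
    (c_app (F := fun t x => (ka (F t) (x : ℝ)).re) (c_ka hF) h2).add (hk.mul (h1.sub h3))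
  have lift : ∀ {f : T → ℝ}, Continuous f → Continuous fun p : T × C2 => (f p.1 : ℂ) :=
    fun hf => Complex.continuous_ofReal.comp (hf.comp continuous_fst)
  have c1 : Continuous fun p : T × C2 => p.2.1 := by fun_prop
  have c2 : Continuous fun p : T × C2 => p.2.2 := by fun_prop
  have hd : Continuous fun p : T × C2 => p.2.1 / QQ (F p.1) :=
    Continuous.div c1 (lift hQ) fun p => (h p.1).QQ_ne
  have hP : Continuous fun p : T × C2 => Psi (F p.1) p.2 :=
    ((lift h1).add hd).prodMk (((lift hy).add ((lift hk).mul hd)).add (continuous_const.mul c2))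
  have hI : Continuous fun p : T × C2 => Inv (F p.1) p.2 :=
    ((lift hQ).mul (c1.sub (lift h1))).prodMk
      (((c2.sub (lift hy)).sub ((lift hk).mul (c1.sub (lift h1)))).div_const _)
  have h5 : Continuous fun p : T × C2 => (F p.1)^[MM + 3] (Psi (F p.1) p.2) :=
    (c_iter hF (MM + 3)).comp (continuous_fst.prodMk hP)
  exact hI.comp (continuous_fst.prodMk h5)

end

namespace Cls
variable {G : C2 → C2}

lemma good_of_ph (h : Cls G) (h1 : 13 / 10 ≤ ph G (MM + 1)) (h2 : ph G (MM + 1) ≤ 3 / 2) :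
    Good G ∧ s G (MM + 1) = ph G (MM + 1) := by
  have hlo : cl (gr G (126 / 100)) = 126 / 100 := by
    have := abs_le.1 (h.quadr (x := 126 / 100) (by norm_num [abs_le]))
    exact max_eq_left ((min_le_right _ _).trans (by linarith [h.hi]))
  have hhi : cl (gr G (41 / 20)) = 41 / 20 := by
    have := abs_le.1 (h.quadr (x := 41 / 20) (by norm_num [abs_le]))
    unfold cl
    rw [min_eq_left (by linarith [h.lo])]; norm_num
  have stuck : ∀ c, cl (gr G c) = c → ∀ j k, ph G j = c → ph G (j + k) = c := by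
    intro c hc j k hj
    induction k with
    | zero => exact hj
    | succ k ih => rw [← add_assoc, ph_succ, ih, hc]
  have strict : ∀ j ≤ MM, 126 / 100 < ph G (j + 1) ∧ ph G (j + 1) < 41 / 20 := by
    intro j hj
    have h3 := cl_mem (gr G (ph G j))
    rw [← ph_succ] at h3
    have e : j + 1 + (MM - j) = MM + 1 := by omega
    constructor
    · refine lt_of_le_of_ne h3.1 fun h4 => ?_
      have := stuck _ hlo _ (MM - j) h4.symm
      rw [e] at this; linarith
    · refine lt_of_le_of_ne h3.2 fun h4 => ?_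
      have := stuck _ hhi _ (MM - j) h4
      rw [e] at this; linarith
  have eq : ∀ j ≤ MM + 1, s G j = ph G j := by
    intro j
    induction j with
    | zero => intro _; rfl
    | succ j ih =>
      intro hj
      have := strict j (by omega)
      rw [ph_succ] at this ⊢
      rw [cl_eq this.1 this.2, s_succ, ih (by omega)]
  refine ⟨⟨h, fun j h3 h4 => ?_, by rw [eq _ le_rfl]; exact ⟨h1, h2⟩⟩, eq _ le_rfl⟩
  obtain ⟨i, rfl⟩ : ∃ i, j = i + 1 := ⟨j - 1, by omega⟩
  have h5 := strict i (by omega)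
  have h6 := (strict (i + 1) h4).1
  rw [← eq _ (by omega)] at h5 h6
  rw [s_succ] at h6
  have := abs_le.1 (h.quadr (x := s G (i + 1)) (abs_le.2 ⟨by linarith, by linarith⟩))
  exact ⟨by nlinarith [h.hi], h5.2.le⟩

lemma ph_lo (h : Cls G) (ha : gr G 0 = -201 / 100) : 3 / 2 ≤ ph G (MM + 1) := by
  have key : ∀ j, 201 / 100 ≤ ph G (j + 1) := by
    intro j
    induction j with
    | zero =>
      have h1 := h.s0
      have := abs_le.1 (h.quadr (x := s G 0) (abs_le.2 ⟨by linarith, by linarith⟩))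
      exact le_max_of_le_right (le_min (by norm_num) (by change _ ≤ gr G (s G 0); nlinarith))
    | succ j ih =>
      have h1 := (cl_mem (gr G (ph G j))).2
      rw [← ph_succ] at h1
      have := abs_le.1 (h.quadr (x := ph G (j + 1)) (abs_le.2 ⟨by linarith, by linarith⟩))
      rw [ph_succ]
      exact le_max_of_le_right (le_min (by norm_num) (by nlinarith))
  linarith [key MM]

lemma ph_hi (h : Cls G) (ha : gr G 0 = -199 / 100) : ph G (MM + 1) ≤ 13 / 10 := by
  have key : ∀ j : ℕ, ph G (j + 1) ≤ max (126 / 100 : ℝ) (198 / 100 - 4 / 100 * j) := by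
    intro j
    induction j with
    | zero =>
      have h1 := h.s0
      have := abs_le.1 (h.quadr (x := s G 0) (abs_le.2 ⟨by linarith, by linarith⟩))
      exact max_le_max le_rfl ((min_le_right _ _).trans (by
        change gr G (s G 0) ≤ _; push_cast; nlinarith))
    | succ j ih =>
      have h1 := (cl_mem (gr G (ph G j))).1
      rw [← ph_succ] at h1
      have h2 : ph G (j + 1) ≤ 198 / 100 :=
        ih.trans (max_le (by norm_num) (by linarith [(Nat.cast_nonneg j : (0 : ℝ) ≤ j)]))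
      have := abs_le.1 (h.quadr (x := ph G (j + 1)) (abs_le.2 ⟨by linarith, by linarith⟩))
      have h3 : gr G (ph G (j + 1)) ≤ ph G (j + 1) - 4 / 100 := by nlinarith
      rw [ph_succ]
      refine max_le (le_max_left _ _) ((min_le_right _ _).trans (h3.trans ?_))
      rcases le_max_iff.1 ih with h4 | h4
      · exact le_max_of_le_left (by linarith)
      · exact le_max_of_le_right (by push_cast; linarith)
  have : (20 : ℝ) ≤ MM := by exact_mod_cast MM_ge
  exact (key MM).trans (max_le (by norm_num) (by linarith))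

end Cls

structure Full (F : ℝ → C2 → C2) (a b : ℝ) : Prop where
  le : a ≤ b
  cont : Continuous fun p : Icc a b × C2 => F p.1 p.2
  cls : ∀ t ∈ Icc a b, Cls (F t)
  lo : gr (F a) 0 = -201 / 100
  hi : gr (F b) 0 = -199 / 100

lemma cont_sub {F : ℝ → C2 → C2} {a b a' b' : ℝ} (h : Icc a' b' ⊆ Icc a b)
    (hF : Continuous fun p : Icc a b × C2 => F p.1 p.2) :
    Continuous fun p : Icc a' b' × C2 => F p.1 p.2 :=
  hF.comp (f := fun p : Icc a' b' × C2 => (inclusion h p.1, p.2))
    (((continuous_inclusion h).comp continuous_fst).prodMk continuous_snd)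

lemma Full.step {F : ℝ → C2 → C2} {a b : ℝ} (h : Full F a b) :
    ∃ a' b', Icc a' b' ⊆ Icc a b ∧ (∀ t ∈ Icc a' b', Good (F t)) ∧
      Full (fun t => Ren (F t)) a' b' := by
  have h1 : ContinuousOn (fun t => -ph (F t) (MM + 1)) (Icc a b) :=
    continuousOn_iff_continuous_domRestrict.2
      (c_ph (F := fun t : Icc a b => F t) h.cont (fun t => h.cls t t.2) _).neg
  obtain ⟨a1, b1, ha1, hab1, hb1, e1, e2, hm⟩ := cross (A := -(3 / 2)) (B := -(13 / 10)) h.le h1
    (by norm_num) (by linarith [(h.cls a ⟨le_rfl, h.le⟩).ph_lo h.lo])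
    (by linarith [(h.cls b ⟨h.le, le_rfl⟩).ph_hi h.hi])
  have hs1 : Icc a1 b1 ⊆ Icc a b := Icc_subset_Icc ha1 hb1
  have hg : ∀ t ∈ Icc a1 b1, Good (F t) ∧ s (F t) (MM + 1) = ph (F t) (MM + 1) := fun t ht =>
    (h.cls t (hs1 ht)).good_of_ph (by linarith [(hm t ht).2]) (by linarith [(hm t ht).1])
  have hc := c_ren (F := fun t : Icc a1 b1 => F t) (cont_sub hs1 h.cont) fun t => (hg t t.2).1
  have h2 : ContinuousOn (fun t => gr (Ren (F t)) 0) (Icc a1 b1) :=
    continuousOn_iff_continuous_domRestrict.2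
      (c_app (F := fun t : Icc a1 b1 => gr (Ren (F t))) (c_gr (F := fun t : Icc a1 b1 => Ren (F t)) hc) continuous_const)
  obtain ⟨a2, b2, ha2, hab2, hb2, e3, e4, hm2⟩ := cross (A := -201 / 100) (B := -199 / 100) hab1 h2
    (by norm_num) (by
      obtain ⟨h3, h4⟩ := hg a1 ⟨le_rfl, hab1⟩
      have := abs_le.1 h3.ren_al
      have := h3.QQ_neg
      have := h3.xi_bd
      nlinarith) (by
      obtain ⟨h3, h4⟩ := hg b1 ⟨hab1, le_rfl⟩
      have := abs_le.1 h3.ren_al
      have := h3.QQ_neg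
      have := h3.xi_bd
      nlinarith)
  have hs2 : Icc a2 b2 ⊆ Icc a1 b1 := Icc_subset_Icc ha2 hb2
  exact ⟨a2, b2, hs2.trans hs1, fun t ht => (hg t (hs2 ht)).1, hab2,
    cont_sub (F := fun t => Ren (F t)) hs2 hc,
    fun t ht => (hg t (hs2 ht)).1.ren_cls (hm2 t ht).1 (hm2 t ht).2, e3, e4⟩

noncomputable def Hen (a : ℝ) (z : C2) : C2 :=
  (z.1 ^ 2 + a - (th / 3 : ℝ) * z.2, (th / 3 : ℝ) * z.1)

lemma Hen_gr (a : ℝ) : gr (Hen a) 0 = a := by simp [gr, g, Hen]

lemma Hen_full : Full Hen (-201 / 100) (-199 / 100) where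
  le := by norm_num
  cont := by unfold Hen; fun_prop
  cls a ha :=
    { diff := by unfold Hen; fun_prop
      real := fun z hz => by
        simp only [IsR, Hen, Complex.sub_im, Complex.add_im, Complex.im_ofReal_mul, hz.1, hz.2,
          sq, Complex.mul_im, Complex.ofReal_im]
        simp
      quad := fun x _ => by rw [Hen_gr]; simp [g, Hen]
      thin := fun z hz => by
        have h1 := norm_fst_le z
        have h2 := norm_snd_le z
        have : |th / 3| = th / 3 := abs_of_pos (by linarith [th_pos])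
        rw [Prod.norm_def]
        apply max_le
        · simp only [g, Hen, Prod.fst_sub, mul_zero, sub_zero, sub_sub_cancel_left, norm_neg,
            norm_mul, Complex.norm_real, Real.norm_eq_abs, this]
          nlinarith [th_pos]
        · simp only [Hen, Prod.snd_sub, sub_zero, norm_mul, Complex.norm_real, Real.norm_eq_abs,
            this]
          nlinarith [th_pos]
      lo := by rw [Hen_gr]; exact ha.1
      hi := by rw [Hen_gr]; exact ha.2 }
  lo := Hen_gr _
  hi := Hen_gr _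

theorem exists_good : ∃ a : ℝ, ∀ n, Good (Ren^[n] (Hen a)) := by
  let P : ℕ → ℝ × ℝ → Prop := fun n I => Full (fun a => Ren^[n] (Hen a)) I.1 I.2
  have step : ∀ n (I : {I // P n I}), ∃ J : {I // P (n + 1) I}, Icc J.1.1 J.1.2 ⊆ Icc I.1.1 I.1.2 ∧
      ∀ t ∈ Icc J.1.1 J.1.2, Good (Ren^[n] (Hen t)) := by
    intro n I
    obtain ⟨a', b', h1, h2, h3⟩ := I.2.step
    exact ⟨⟨(a', b'), by simpa only [P, Function.iterate_succ_apply'] using h3⟩, h1, h2⟩
  choose nx h1 h2 using step
  let I : ∀ n, {I // P n I} := fun n =>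
    Nat.rec (motive := fun n => {I // P n I}) ⟨(-201 / 100, -199 / 100), Hen_full⟩ nx n
  obtain ⟨a, ha⟩ := IsCompact.nonempty_iInter_of_sequence_nonempty_isCompact_isClosed
    (fun n => Icc (I n).1.1 (I n).1.2) (fun n => h1 n (I n))
    (fun n => nonempty_Icc.2 (I n).2.le) isCompact_Icc fun _ => isClosed_Icc
  exact ⟨a, fun n => h2 n (I n) a (mem_iInter.1 ha (n + 1))⟩

end Pool.Agent.Lib.MP_7d4c8f_an
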