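import Pool.Agent.Lib.MP_7d4c8f_an.Param

/-! Trapping regions and rigidity of the phase of pseudo-orbits. -/

namespace Pool.Agent.Lib.MP_7d4c8f_an
open Metric Set Filter Topology

def U (G : C2 → C2) : Set C2 :=
  {z | IsR z ∧ s G 0 - 1 / 10 ^ 40 ≤ z.1.re ∧ z.1.re ≤ s G 1 + 5 / 10 ^ 40 ∧ ‖z.2‖ ≤ 1}

def PO (G : C2 → C2) (ε : ℝ) (z : ℕ → C2) : Prop :=
  (∀ t, IsR (z t)) ∧ ∀ t, ‖z (t + 1) - G (z t)‖ ≤ ε

lemma IsR.fst_eq {z : C2} (h : IsR z) : z.1 = z.1.re := Complex.ext (by simp) (by simpa using h.1)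

lemma isClosed_U (G : C2 → C2) : IsClosed (U G) := by
  have c1 : Continuous fun z : C2 => z.1.re := by fun_prop
  exact ((isClosed_eq (f := fun z : C2 => z.1.im) (by fun_prop) continuous_const).inter
    (isClosed_eq (f := fun z : C2 => z.2.im) (by fun_prop) continuous_const)).inter
    ((isClosed_le continuous_const c1).inter ((isClosed_le c1 continuous_const).inter
    (isClosed_le (f := fun z : C2 => ‖z.2‖) (by fun_prop) continuous_const)))

namespace Good
variable {G : C2 → C2}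

lemma gap (h : Good G) : 3 / 10 ^ 39 ≤ s G 1 - s G 2 := by
  have hM := MM_ge
  have key : ∀ j, j + 1 ≤ MM → s G (j + 1) - s G (j + 2) ≤ (21 / 5) ^ j * max (s G 1 - s G 2) 0 := by
    intro j
    induction j with
    | zero => intro _; simp
    | succ j ih =>
      intro hj
      have h0 := ih (by omega)
      have h1 := h.mid (j + 1) (by omega) (by omega)
      have h2 := h.mid (j + 2) (by omega) (by omega)
      have h3 : (0 : ℝ) ≤ (21 / 5) ^ j * max (s G 1 - s G 2) 0 := by positivity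
      have e1 := s_succ G (j + 2)
      have e2 := s_succ G (j + 1)
      change s G (j + 2) - s G (j + 2 + 1) ≤ _
      change s G (j + 2) = _ at e2
      rw [pow_succ]
      rcases le_total (s G (j + 1)) (s G (j + 2)) with h4 | h4
      · have := h.mono (x := s G (j + 2)) (x' := s G (j + 1))
          (abs_le.2 ⟨by linarith [h2.1], by linarith [h2.2]⟩) h4 (by linarith [h1.1, h2.2])
          (by linarith [h1.1, h2.1])
        linarith
      · have := abs_le.1 (h.twor (x := s G (j + 2)) (x' := s G (j + 1))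
          (abs_le.2 ⟨by linarith [h2.1], by linarith [h2.2]⟩)
          (abs_lt.2 ⟨by linarith, by linarith [h1.2, h2.1]⟩))
        rw [abs_of_nonneg (by linarith)] at this
        nlinarith [h1.2, h2.2]
  have h1 := key (MM - 1) (by omega)
  rw [show MM - 1 + 1 = MM by omega, show MM - 1 + 2 = MM + 1 by omega] at h1
  have h2 := h.mid MM (by omega) le_rfl
  have h3 : (21 / 5 : ℝ) ^ (MM - 1) ≤ 10 ^ 38 :=
    (pow_le_pow_right₀ (by norm_num) (by omega)).trans MM_up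
  have h4 := mul_le_mul_of_nonneg_right h3 (le_max_right (s G 1 - s G 2) 0)
  have h5 := h.last
  rcases le_total (s G 1 - s G 2) 0 with h6 | h6
  · rw [max_eq_right h6] at h1; linarith [h2.1, h5.2]
  · rw [max_eq_left h6] at h1 h4; linarith [h2.1, h5.2]

lemma U_norm (h : Good G) {z : C2} (hz : z ∈ U G) : ‖z‖ ≤ 11 / 5 := by
  obtain ⟨h1, h2, h3, h4⟩ := hz
  have h5 := h.s0
  have h6 := h.mid 1 le_rfl (by linarith [MM_ge])
  rw [Prod.norm_def]
  refine max_le ?_ (by linarith)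
  rw [h1.fst_eq, Complex.norm_real, Real.norm_eq_abs, abs_le]
  constructor <;> linarith [h6.2]

lemma trap (h : Good G) {z z' : C2} (hz : z ∈ U G) (hr : IsR z')
    (hd : ‖z' - G z‖ ≤ 1 / 10 ^ 41) : z' ∈ U G := by
  have hn := h.U_norm hz
  obtain ⟨h1, h2, h3, h4⟩ := hz
  have hth : th = 1 / 10 ^ 100 := rfl
  have h5 := h.s0
  have h6 := h.mid 1 le_rfl (by linarith [MM_ge])
  have h6' := h.mid 2 (by norm_num) (by linarith [MM_ge])
  have h7 := h.thin1 (z := z) (by linarith)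
  have h8 := h.thin2 (z := z) (by linarith)
  set x := z.1.re with hx
  have h9 : |z'.1.re - gr G x| ≤ 2 / 10 ^ 41 := by
    have h9 := norm_add_le (z'.1 - (G z).1) ((G z).1 - g G z.1)
    rw [sub_add_sub_cancel] at h9
    have h10 : ‖z'.1 - (G z).1‖ ≤ _ := (norm_fst_le (z' - G z)).trans hd
    have := Complex.abs_re_le_norm (z'.1 - g G z.1)
    rw [h1.fst_eq] at this h9 h7
    rw [Complex.sub_re] at this
    exact this.trans (by linarith)
  have h10 : s G 0 ≤ gr G x := h.cr_spec.2 x ⟨by linarith, by linarith [h6.2]⟩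
  have h11 : gr G x ≤ s G 1 + 43 / 10 ^ 41 := by
    rcases le_total x (s G 0) with a1 | a1
    · have := abs_le.1 (h.twor (x := s G 0) (x' := x) (abs_le.2 ⟨by linarith, by linarith⟩)
        (abs_lt.2 ⟨by linarith, by linarith⟩))
      rw [abs_of_nonpos (by linarith), ← s_succ] at this
      nlinarith
    rcases le_total x (-16 / 10) with a2 | a2
    · have := h.anti (x := s G 0) (x' := x) (abs_le.2 ⟨by linarith, by linarith⟩) a1
        (by linarith) (by linarith)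
      rw [← s_succ] at this
      linarith
    rcases le_total x (19 / 10) with a3 | a3
    · have := abs_le.1 (h.quadr (x := x) (abs_le.2 ⟨by linarith, by linarith⟩))
      nlinarith [h.hi, h6.1]
    have hg := h.gap
    rcases le_total x (s G 1) with a4 | a4
    · have := h.mono (x := s G 1) (x' := x) (abs_le.2 ⟨by linarith, by linarith [h6.2]⟩) a4
        (by linarith [h6.2]) (by linarith)
      rw [← s_succ] at this
      linarith
    · have := abs_le.1 (h.twor (x := s G 1) (x' := x)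
        (abs_le.2 ⟨by linarith [h6.1], by linarith [h6.2]⟩) (abs_lt.2 ⟨by linarith, by linarith⟩))
      rw [abs_of_nonneg (by linarith), ← s_succ] at this
      nlinarith [h6.2]
  have h12 := abs_le.1 h9
  refine ⟨hr, by linarith, by linarith, ?_⟩
  have h13 : ‖z'.2 - (G z).2‖ ≤ _ := (norm_snd_le (z' - G z)).trans hd
  have := norm_add_le (z'.2 - (G z).2) (G z).2
  rw [sub_add_cancel] at this
  linarith

lemma psi_mem (h : Good G) {z : C2} (hr : IsR z) (hz : ‖z‖ ≤ 3) : Psi G z ∈ U G := by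
  have h1 := abs_le.1 ((Complex.abs_re_le_norm _).trans (h.psi_fst hz))
  have h2 := h.xi_bd
  have h5 := h.s0
  have h6 := h.mid 1 le_rfl (by linarith [MM_ge])
  simp only [Complex.sub_re, Complex.ofReal_re, mu] at h1
  exact ⟨hr.psi, by linarith, by linarith [h6.1], by linarith [h.psi_snd' hz]⟩

lemma ren_po (h : Good G) (h' : Good (Ren G)) {ε : ℝ} (hε : 10 ^ 98 * ε ≤ 1 / 10 ^ 41)
    {z : ℕ → C2} (hz : PO G ε z) (h0 : Inv G (z 0) ∈ U (Ren G)) :
    PO (Ren G) (10 ^ 98 * ε) (fun k => Inv G (z ((MM + 3) * k))) ∧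
      ∀ t, (MM + 3 ∣ t ↔ (z t).1.re ∈ Ioo (12 / 10 : ℝ) (16 / 10)) := by
  have hε0 : 0 ≤ ε := (norm_nonneg _).trans (hz.2 0)
  have box : ∀ k, Inv G (z ((MM + 3) * k)) ∈ U (Ren G) →
      ‖(z ((MM + 3) * k)).1 - xi G‖ ≤ 3 * mu ∧ ‖(z ((MM + 3) * k)).2‖ ≤ 1 := by
    intro k hk
    have h1 : ‖Inv G (z ((MM + 3) * k))‖ ≤ 3 := by linarith [h'.U_norm hk]
    have h2 := h.psi_fst h1
    have h3 := h.psi_snd' h1
    rw [h.psi_inv] at h2 h3
    exact ⟨h2, by linarith⟩
  have near : ∀ k, Inv G (z ((MM + 3) * k)) ∈ U (Ren G) → ∀ j ≤ MM + 3,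
      ‖z ((MM + 3) * k + j) - G^[j] (z ((MM + 3) * k))‖ ≤ 10 ^ 49 * ε := by
    intro k hk j hj
    have := h.pseudo (box k hk).1 (box k hk).2 (u := fun j => z ((MM + 3) * k + j)) hε0
      (fun j _ _ => hz.2 _) (by simp only [add_zero, sub_self, norm_zero, zero_add]; linarith) j hj
    simpa using this
  have stp : ∀ k, Inv G (z ((MM + 3) * k)) ∈ U (Ren G) →
      ‖Inv G (z ((MM + 3) * (k + 1))) - Ren G (Inv G (z ((MM + 3) * k)))‖ ≤ 10 ^ 98 * ε := by
    intro k hk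
    have h1 := near k hk _ le_rfl
    unfold Ren
    rw [h.psi_inv, mul_add_one]
    linarith [h.inv_lip (G^[MM + 3] (z ((MM + 3) * k))) (z ((MM + 3) * k + (MM + 3)))]
  have all : ∀ k, Inv G (z ((MM + 3) * k)) ∈ U (Ren G) := by
    intro k
    induction k with
    | zero => exact h0
    | succ k ih => exact h'.trap ih (hz.1 _).inv ((stp k ih).trans hε)
  refine ⟨⟨fun k => (hz.1 _).inv, fun k => stp k (all k)⟩, fun t => ?_⟩
  obtain ⟨k, j, hj, rfl⟩ : ∃ k j, j < MM + 3 ∧ t = (MM + 3) * k + j :=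
    ⟨t / (MM + 3), t % (MM + 3), Nat.mod_lt _ (by omega), (Nat.div_add_mod _ _).symm⟩
  have h1 := abs_le.1 ((Complex.abs_re_le_norm _).trans
    ((norm_fst_le _).trans (near k (all k) j hj.le)))
  obtain ⟨b1, b2⟩ := box k (all k)
  obtain ⟨-, o1, -, -, o2⟩ := h.orb b1 b2
  have hmu : mu = 1 / 10 ^ 33 := rfl
  rw [Nat.dvd_add_right (dvd_mul_right _ _)]
  simp only [Prod.fst_sub, Complex.sub_re] at h1
  match j with
  | 0 =>
    have h2 := abs_le.1 ((Complex.abs_re_le_norm _).trans b1)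
    have h3 := h.xi_bd
    simp only [Complex.sub_re, Complex.ofReal_re] at h2
    exact iff_of_true (dvd_zero _) ⟨by simp only [add_zero]; linarith, by simp only [add_zero]; linarith⟩
  | 1 =>
    have h2 := abs_le.1 ((Complex.abs_re_le_norm _).trans o1)
    have h3 := abs_le.1 h.cr_abs
    simp only [Complex.sub_re, Complex.ofReal_re, Function.iterate_one] at h2 h1
    exact iff_of_false (fun h4 => by have := Nat.le_of_dvd one_pos h4; omega)
      fun h4 => by linarith [h4.1]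
  | j + 2 =>
    have h2 := abs_le.1 ((Complex.abs_re_le_norm _).trans
      ((norm_fst_le _).trans (o2 j (by omega))))
    have h3 := (h.sabs (j := j) (by omega)).1
    simp only [Prod.fst_sub, Complex.sub_re, Complex.ofReal_re] at h2
    refine iff_of_false (fun h4 => by have := Nat.le_of_dvd (by omega) h4; omega) fun h4 => ?_
    rcases le_abs.1 h3 with h5 | h5 <;> linarith [h4.1, h4.2]

end Good

theorem phase (n : ℕ) : ∀ (G : C2 → C2) (ω : ℕ → C2), (∀ k, Good (Ren^[k] G)) →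
    (∀ k, ω k ∈ U (Ren^[k] G) ∧ ω k = Psi (Ren^[k] G) (ω (k + 1))) →
    ∀ (ε : ℝ) (z z' : ℕ → C2) (i j : ℕ), (10 ^ 98) ^ n * ε ≤ 1 / 10 ^ 41 → PO G ε z → PO G ε z' →
    z 0 = ω 0 → z' 0 = ω 0 → (∀ t, z (i + t) = z' (j + t)) → i ≡ j [MOD (MM + 3) ^ n] := by
  induction n with
  | zero => intros; simp [Nat.modEq_one]
  | succ n ih =>
    intro G ω hG hω ε z z' i j hε hz hz' h0 h0' he
    have hε0 : 0 ≤ ε := (norm_nonneg _).trans (hz.2 0)
    have hε1 : 10 ^ 98 * ε ≤ 1 / 10 ^ 41 := by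
      refine le_trans ?_ hε
      exact mul_le_mul_of_nonneg_right (le_self_pow₀ (by norm_num) (by omega)) hε0
    have hI : Inv G (ω 0) = ω 1 := by rw [(hω 0).2]; exact (hG 0).inv_psi _
    obtain ⟨h1, h2⟩ := Good.ren_po (G := G) (hG 0) (hG 1) hε1 hz (by rw [h0, hI]; exact (hω 1).1)
    obtain ⟨h1', h2'⟩ := Good.ren_po (G := G) (hG 0) (hG 1) hε1 hz'
      (by rw [h0', hI]; exact (hω 1).1)
    have h3 : i + (MM + 2) * i = (MM + 3) * i := by ring
    obtain ⟨j', h4⟩ : MM + 3 ∣ j + (MM + 2) * i := by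
      rw [h2', ← he, ← h2, h3]; exact dvd_mul_right _ _
    have h5 := ih (Ren G) (fun k => ω (k + 1)) (fun k => hG (k + 1)) (fun k => hω (k + 1))
      _ _ _ i j' (by rw [← mul_assoc, ← pow_succ]; exact hε) h1 h1'
      (by simp only [mul_zero, h0, hI, zero_add]) (by simp only [mul_zero, h0', hI, zero_add])
      (fun t => by simp only [mul_add, ← h3, ← h4, add_assoc, he])
    have h6 := h5.mul_left' (c := MM + 3)
    rw [← h3, ← h4, ← pow_succ'] at h6
    exact Nat.ModEq.add_right_cancel' _ h6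

lemma exists_omega {G : C2 → C2} (hG : ∀ k, Good (Ren^[k] G)) :
    ∃ ω : ℕ → C2, ∀ k, ω k ∈ U (Ren^[k] G) ∧ ω k = Psi (Ren^[k] G) (ω (k + 1)) := by
  let f : ℕ → ℕ → C2 := fun n => Nat.rec (fun k => Psi (Ren^[k] G) 0)
    (fun _ f k => Psi (Ren^[k] G) (f (k + 1))) n
  have hf : ∀ n k, f n k ∈ U (Ren^[k] G) := by
    intro n
    induction n with
    | zero => exact fun k => (hG k).psi_mem ⟨rfl, rfl⟩ (by simp)
    | succ n ih =>
      exact fun k => (hG k).psi_mem (ih (k + 1)).1 (by linarith [(hG (k + 1)).U_norm (ih (k + 1))])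
  have hc : ∀ k, IsCompact (U (Ren^[k] G)) := fun k =>
    (isCompact_closedBall (0 : C2) (11 / 5)).of_isClosed_subset (isClosed_U _)
      fun z hz => by simpa using (hG k).U_norm hz
  have hl : ∀ k, ∃ w ∈ U (Ren^[k] G), Tendsto (fun m => f (m - k) k) (hyperfilter ℕ) (𝓝 w) :=
    fun k => (hc k).ultrafilter_le_nhds ((hyperfilter ℕ).map fun m => f (m - k) k)
      (le_principal_iff.2 (mem_map.2 (Eventually.of_forall fun m => hf _ _)))
  choose ω h1 h2 using hl
  refine ⟨ω, fun k => ⟨h1 k, tendsto_nhds_unique (h2 k) ?_⟩⟩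
  have h3 : Continuous (Psi (Ren^[k] G)) := by unfold Psi; fun_prop
  refine ((h3.tendsto _).comp (h2 (k + 1))).congr' ?_
  have : ∀ᶠ m in (hyperfilter ℕ : Filter ℕ), k + 1 ≤ m :=
    Nat.hyperfilter_le_atTop (eventually_ge_atTop _)
  filter_upwards [this] with m hm
  rw [show m - k = (m - (k + 1)) + 1 by omega]
  rfl

/-- the real Henon map -/
def HR (a b : ℝ) (z : ℝ × ℝ) : ℝ × ℝ := (z.1 ^ 2 + a - b * z.2, b * z.1)

theorem dyn : ∃ (a b : ℝ) (V : Set (ℝ × ℝ)) (ω : ℝ × ℝ) (p : ℕ) (C ε : ℝ), 0 < b ∧ b ≤ 1 ∧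
    |a| ≤ 3 ∧ 2 ≤ p ∧ 1 ≤ C ∧ 0 < ε ∧ (∀ z ∈ V, ‖z‖ ≤ 3) ∧ ω ∈ V ∧
    (∀ z ∈ V, ∀ z', ‖z' - HR a b z‖ ≤ ε → z' ∈ V) ∧
    ∀ (n : ℕ) (δ : ℝ) (z z' : ℕ → ℝ × ℝ) (i j : ℕ), C ^ n * δ ≤ ε →
      (∀ t, ‖z (t + 1) - HR a b (z t)‖ ≤ δ) → (∀ t, ‖z' (t + 1) - HR a b (z' t)‖ ≤ δ) →
      z 0 = ω → z' 0 = ω → (∀ t, z (i + t) = z' (j + t)) → i ≡ j [MOD p ^ n] := by
  obtain ⟨a, hG⟩ := exists_good
  obtain ⟨ω, hω⟩ := exists_omega hG
  let ι : ℝ × ℝ → C2 := fun z => (z.1, z.2)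
  have hι : ∀ z z', ‖ι z' - Hen a (ι z)‖ = ‖z' - HR a (th / 3) z‖ := by
    intro z z'
    have : Hen a (ι z) = ι (HR a (th / 3) z) := by simp [Hen, HR, ι]
    rw [this, Prod.norm_def, Prod.norm_def]
    simp only [ι, Prod.fst_sub, Prod.snd_sub, ← Complex.ofReal_sub, Complex.norm_real]
  have hr : ∀ z, IsR (ι z) := fun z => ⟨by simp [ι], by simp [ι]⟩
  have hω0 : ι ((ω 0).1.re, (ω 0).2.re) = ω 0 := by
    obtain ⟨h1, h2⟩ := (hω 0).1.1
    ext
    · exact Complex.ext (by simp [ι]) (by simpa [ι] using h1.symm)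
    · exact Complex.ext (by simp [ι]) (by simpa [ι] using h2.symm)
  have h0 : Good (Hen a) := hG 0
  have ha := h0.lo
  have ha' := h0.hi
  rw [Hen_gr] at ha ha'
  refine ⟨a, th / 3, ι ⁻¹' U (Hen a), ((ω 0).1.re, (ω 0).2.re), MM + 3, 10 ^ 98, 1 / 10 ^ 41,
    by linarith [th_pos], by unfold th; norm_num, abs_le.2 ⟨by linarith, by linarith⟩, by omega,
    by norm_num, by positivity, fun z hz => ?_, by rw [mem_preimage, hω0]; exact (hω 0).1,
    fun z hz z' hz' => h0.trap hz (hr _) (by rwa [hι]), fun n δ z z' i j h1 h2 h3 h4 h5 h6 => ?_⟩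
  · have := h0.U_norm hz
    rw [Prod.norm_def] at this ⊢
    simp only [ι, Complex.norm_real] at this
    linarith
  · exact phase n (Hen a) ω hG hω δ (ι ∘ z) (ι ∘ z') i j h1
      ⟨fun t => hr _, fun t => (hι _ _).trans_le (h2 t)⟩
      ⟨fun t => hr _, fun t => (hι _ _).trans_le (h3 t)⟩
      (by rw [← hω0, ← h4]; rfl) (by rw [← hω0, ← h5]; rfl) fun t => congrArg ι (h6 t)

end Pool.Agent.Lib.MP_7d4c8f_an
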