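import Pool.Agent.Lib.MP_7d4c8f_an.Q1Defs
import Pool.Agent.Lib.MP_7d4c8f_an.Act
import Mathlib.MeasureTheory.Integral.IntervalIntegral.AbsolutelyContinuousFun
import Mathlib.MeasureTheory.SpecificCodomains.Pi
import Mathlib.Analysis.Calculus.Deriv.Prod
import Mathlib.Tactic

/-! Calculus of actions: curves as primitives, concatenation, splitting. -/

namespace Pool.Agent.Lib.MP_7d4c8f_an.Q1
open MeasureTheory Filter Set

variable {d : ℕ}

lemma pr_add (x y : E d) : pr (x + y) = pr x + pr y := by ext i; simp [pr]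

lemma pr_surj : Function.Surjective (pr (d := d)) := fun x => by
  choose f hf using fun i => QuotientAddGroup.mk_surjective (x i)
  exact ⟨f, funext hf⟩

lemma ac_pi {γ : ℝ → E d} {a b : ℝ} :
    AbsolutelyContinuousOnInterval γ a b ↔
      ∀ i, AbsolutelyContinuousOnInterval (fun s => γ s i) a b := by
  constructor
  · intro h i
    refine squeeze_zero (fun t => Finset.sum_nonneg fun _ _ => dist_nonneg) (fun t => ?_) h
    exact Finset.sum_le_sum fun j _ => dist_le_pi_dist _ _ i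
  · intro h
    refine squeeze_zero (fun t => Finset.sum_nonneg fun _ _ => dist_nonneg) (fun t => ?_)
      (by simpa using tendsto_finsetSum Finset.univ fun i _ => h i)
    rw [Finset.sum_comm]
    refine Finset.sum_le_sum fun j _ => (dist_pi_le_iff (Finset.sum_nonneg fun _ _ =>
      dist_nonneg)).2 fun i => ?_
    exact Finset.single_le_sum (f := fun i => dist (γ (t.2 j).1 i) (γ (t.2 j).2 i))
      (fun _ _ => dist_nonneg) (Finset.mem_univ i)

lemma ii_pi {v : ℝ → E d} {a b : ℝ} :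
    IntervalIntegrable v volume a b ↔ ∀ i, IntervalIntegrable (fun s => v s i) volume a b := by
  simp only [intervalIntegrable_iff, IntegrableOn, integrable_pi_iff]

lemma int_pi {v : ℝ → E d} {a b : ℝ} (h : IntervalIntegrable v volume a b) (i : Fin d) :
    (∫ s in a..b, v s) i = ∫ s in a..b, v s i :=
  ((ContinuousLinearMap.proj (R := ℝ) (φ := fun _ : Fin d => ℝ) i).intervalIntegral_comp_comm
    h).symm

noncomputable def path (q : E d) (v : ℝ → E d) (t : ℝ) : E d := q + ∫ s in (0 : ℝ)..t, v s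

@[simp] lemma path_zero (q : E d) (v : ℝ → E d) : path q v 0 = q := by simp [path]

def Adm (L : Ph d → ℝ) (n : ℕ) (x y : Tor d) (r : ℝ) : Prop :=
  ∃ (q : E d) (v : ℝ → E d), IntervalIntegrable v volume 0 n ∧ pr q = x ∧ pr (path q v n) = y ∧
    IntervalIntegrable (fun t => lift L (path q v t) (v t) t) volume 0 n ∧
    r = ∫ t in (0 : ℝ)..n, lift L (path q v t) (v t) t

variable {L : Ph d → ℝ}

lemma Adm.hn_le {n : ℕ} {x y : Tor d} {r : ℝ} (h : Adm L n x y r) : hn L 0 n x y ≤ r := by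
  obtain ⟨q, v, h1, h2, h3, h4, h5⟩ := h
  have hd : ∀ᵐ t, t ∈ uIoc (0 : ℝ) n → lift L (path q v t) (deriv (path q v) t) t =
      lift L (path q v t) (v t) t := by
    filter_upwards [h1.ae_hasDerivAt_integral] with t ht h
    rw [show deriv (path q v) t = v t from
      ((ht (uIoc_subset_uIcc h) 0 left_mem_uIcc).const_add q).deriv]
  refine iInf₂_le_of_le (path q v) ⟨ac_pi.2 fun i => ?_, by simpa using h2, h3, ?_⟩ ?_
  · have h6 := (ii_pi.1 h1 i).absolutelyContinuousOnInterval_intervalIntegral left_mem_uIcc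
    unfold AbsolutelyContinuousOnInterval at h6 ⊢
    refine h6.congr' ?_
    filter_upwards [mem_inf_of_right (mem_principal_self _)] with t ht
    refine Finset.sum_congr rfl fun j hj => ?_
    simp only [path, Pi.add_apply, dist_add_left]
    rw [int_pi (h1.mono_set (uIcc_subset_uIcc_left (ht.1 j hj).1)),
      int_pi (h1.mono_set (uIcc_subset_uIcc_left (ht.1 j hj).2))]
  · rw [intervalIntegrable_iff] at h4 ⊢
    exact h4.congr_fun_ae ((ae_restrict_iff' measurableSet_uIoc).2 (hd.mono fun t h h' =>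
      (h h').symm))
  · simp only [add_zero]
    rw [intervalIntegral.integral_congr_ae hd, h5]

lemma adm_of_lt {n : ℕ} {x y : Tor d} {a : EReal} (h : hn L 0 n x y < a) :
    ∃ r : ℝ, Adm L n x y r ∧ (r : EReal) < a := by
  obtain ⟨γ, h⟩ := iInf_lt_iff.1 h
  obtain ⟨⟨h1, h2, h3, h4⟩, h⟩ := iInf_lt_iff.1 h
  have hc := ac_pi.1 h1
  have hd : ∀ᵐ t, t ∈ uIcc (0 : ℝ) n → ∀ i, deriv (fun s => γ s i) t = deriv γ t i := by
    filter_upwards [ae_all_iff.2 fun i => (hc i).ae_differentiableAt] with t ht h i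
    rw [show deriv γ t = _ from deriv_pi fun i => ht i h]
  have h5 : IntervalIntegrable (deriv γ) volume 0 n := ii_pi.2 fun i => by
    have := (hc i).intervalIntegrable_deriv
    rw [intervalIntegrable_iff] at this ⊢
    exact this.congr_fun_ae ((ae_restrict_iff' measurableSet_uIoc).2 (hd.mono fun t h h' =>
      h (uIoc_subset_uIcc h') i))
  have h6 : ∀ t ∈ uIcc (0 : ℝ) n, path (γ 0) (deriv γ) t = γ t := by
    intro t ht
    have hs := uIcc_subset_uIcc_left ht
    ext i
    rw [path, Pi.add_apply, int_pi (h5.mono_set hs), ← intervalIntegral.integral_congr_ae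
      (hd.mono fun s h h' => h (hs (uIoc_subset_uIcc h')) i),
      ((hc i).mono hs).integral_deriv_eq_sub]
    ring
  refine ⟨_, ⟨γ 0, deriv γ, h5, h2, by rw [h6 _ right_mem_uIcc, h3],
    h4.congr fun t ht => by simp only [h6 t (uIoc_subset_uIcc ht)], rfl⟩, ?_⟩
  rw [intervalIntegral.integral_congr (g := fun t => lift L (γ t) (deriv γ t) t + 0)
    fun t ht => by simp only [h6 t ht, add_zero]]
  exact h

lemma Adm.trans {n m : ℕ} {x y z : Tor d} {r r' : ℝ} (h : Adm L n x y r) (h' : Adm L m y z r') :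
    Adm L (n + m) x z (r + r') := by
  obtain ⟨q, v, h1, h2, h3, h4, h5⟩ := h
  obtain ⟨q', v', h1', h2', h3', h4', h5'⟩ := h'
  have hn : (0 : ℝ) ≤ n := n.cast_nonneg
  have hm : (0 : ℝ) ≤ m := m.cast_nonneg
  set w : ℝ → E d := fun t => if t ≤ n then v t else v' (t - n) with hw
  have e1 : ∀ t ∈ Icc (0 : ℝ) n, w t = v t := fun t ht => if_pos ht.2
  have e2 : ∀ t, 0 < t → w (t + n) = v' t := fun t ht => by
    simp only [hw]; rw [if_neg (by linarith), add_sub_cancel_right]
  have p1 : ∀ t ∈ Icc (0 : ℝ) n, path q w t = path q v t := fun t ht => by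
    unfold path
    rw [intervalIntegral.integral_congr (g := v) fun s hs => e1 s (by
      rw [uIcc_of_le ht.1] at hs; exact ⟨hs.1, hs.2.trans ht.2⟩)]
  have p2 : ∀ t ∈ Icc (0 : ℝ) m, pr (path q w (n + t)) = pr (path q' v' t) := fun t ht => by
    obtain ⟨g1, g2⟩ := glue hn ht.1 e1 fun s hs => e2 s hs.1
    unfold path at h3 ⊢
    rw [g2 (g1.2 ⟨h1, h1'.mono_set (uIcc_subset_uIcc_left (by rwa [uIcc_of_le hm]))⟩), ← add_assoc,
      pr_add, h3, pr_add, h2']
  obtain ⟨g1, g2⟩ := glue (f := fun t => lift L (path q w t) (w t) t) hn hm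
    (g := fun t => lift L (path q v t) (v t) t) (h := fun t => lift L (path q' v' t) (v' t) t)
    (fun t ht => by simp only [e1 t ht, p1 t ht]) fun t ht => by
      simp only [lift, e2 t ht.1, coe_add_nat, ← p2 t (Ioc_subset_Icc_self ht), add_comm (n : ℝ)]
  refine ⟨q, w, ?_⟩
  push_cast
  exact ⟨(glue hn hm e1 fun s hs => e2 s hs.1).1.2 ⟨h1, h1'⟩, h2,
    by rw [p2 _ (right_mem_Icc.2 hm), h3'], g1.2 ⟨h4, h4'⟩, by rw [g2 (g1.2 ⟨h4, h4'⟩), h5, h5']⟩

lemma Adm.split {n m : ℕ} {x z : Tor d} {r : ℝ} (h : Adm L (n + m) x z r) :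
    ∃ y r1 r2, Adm L n x y r1 ∧ Adm L m y z r2 ∧ r = r1 + r2 := by
  obtain ⟨q, v, h1, h2, h3, h4, h5⟩ := h
  push_cast at h1 h3 h4 h5
  have hn : (0 : ℝ) ≤ n := n.cast_nonneg
  have hm : (0 : ℝ) ≤ m := m.cast_nonneg
  have a1 := (glue (f := v) (g := v) (h := fun t => v (t + n)) hn hm (fun _ _ => rfl)
    fun _ _ => rfl).1.1 h1
  have p2 : ∀ t ∈ Icc (0 : ℝ) m, path q v (n + t) = path (path q v n) (fun t => v (t + n)) t :=
    fun t ht => by
      unfold path
      rw [(glue (f := v) (g := v) (h := fun t => v (t + n)) hn ht.1 (fun _ _ => rfl)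
        fun _ _ => rfl).2 (h1.mono_set (uIcc_subset_uIcc_left (by
          rw [uIcc_of_le (by linarith)]; exact ⟨by linarith [ht.1], by linarith [ht.2]⟩))), add_assoc]
  obtain ⟨g1, g2⟩ := glue (f := fun t => lift L (path q v t) (v t) t) hn hm
    (g := fun t => lift L (path q v t) (v t) t)
    (h := fun t => lift L (path (path q v n) (fun t => v (t + n)) t) (v (t + n)) t)
    (fun t ht => rfl) fun t ht => by
      simp only [lift, coe_add_nat, ← p2 t (Ioc_subset_Icc_self ht), add_comm (n : ℝ)]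
  exact ⟨_, _, _, ⟨q, v, a1.1, h2, rfl, (g1.1 h4).1, rfl⟩, ⟨path q v n, fun t => v (t + n), a1.2,
    rfl, by rw [← p2 _ (right_mem_Icc.2 hm), h3], (g1.1 h4).2, rfl⟩, by rw [h5, g2 h4]⟩

lemma Adm.zero {x z : Tor d} {r : ℝ} (h : Adm L 0 x z r) : x = z := by
  obtain ⟨q, v, -, h2, h3, -⟩ := h
  rw [← h2, ← h3]; simp

variable (hL : ∀ z, 0 ≤ L z)
include hL

lemma Adm.nonneg {n : ℕ} {x y : Tor d} {r : ℝ} (h : Adm L n x y r) : 0 ≤ r := by
  obtain ⟨q, v, -, -, -, -, rfl⟩ := h
  exact intervalIntegral.integral_nonneg_of_forall n.cast_nonneg fun _ => hL _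

lemma hn_nonneg (n : ℕ) (x y : Tor d) : 0 ≤ hn L 0 n x y := by
  by_contra h
  obtain ⟨r, h1, h2⟩ := adm_of_lt (not_le.1 h)
  exact absurd (h1.nonneg hL) (not_le.2 (by exact_mod_cast h2))

lemma barrier_nonneg (x y : Tor d) : 0 ≤ barrier L 0 x y :=
  le_liminf_of_le (h := Eventually.of_forall fun n => hn_nonneg hL n x y)

lemma barrier_tri (x y z : Tor d) : barrier L 0 x z ≤ barrier L 0 x y + barrier L 0 y z := by
  refine EReal.le_add_of_forall_gt (Or.inl ((barrier_nonneg hL _ _).trans_lt' EReal.bot_lt_zero).ne')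
    (Or.inr ((barrier_nonneg hL _ _).trans_lt' EReal.bot_lt_zero).ne') fun a ha b hb => ?_
  refine liminf_le_of_frequently_le' (frequently_atTop.2 fun N => ?_)
  obtain ⟨n, hn1, hn2⟩ := frequently_atTop.1 (frequently_lt_of_liminf_lt (h := ha)) N
  obtain ⟨m, hm2⟩ := (frequently_lt_of_liminf_lt (h := hb)).exists
  obtain ⟨r, h1, h2⟩ := adm_of_lt hn2
  obtain ⟨r', h1', h2'⟩ := adm_of_lt hm2
  exact ⟨n + m, by omega, (h1.trans h1').hn_le.trans (by
    rw [EReal.coe_add]; exact add_le_add h2.le h2'.le)⟩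

omit hL in
lemma Adm.chain {n : ℕ} : ∀ {x z : Tor d} {r : ℝ}, Adm L n x z r →
    ∃ (u : ℕ → Tor d) (c : ℕ → ℝ), u 0 = x ∧ u n = z ∧
      (∀ k < n, Adm L 1 (u k) (u (k + 1)) (c k)) ∧ ∑ k ∈ Finset.range n, c k = r := by
  induction n with
  | zero =>
    intro x z r h
    refine ⟨fun _ => _, fun _ => 0, rfl, h.zero, by simp, ?_⟩
    obtain ⟨q, v, -, -, -, -, h5⟩ := h
    simp [h5]
  | succ n ih =>
    intro x z r h
    rw [add_comm] at h
    obtain ⟨y, r1, r2, h1, h2, h3⟩ := h.split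
    obtain ⟨u, c, a1, a2, a3, a4⟩ := ih h2
    refine ⟨fun k => Nat.casesOn k x u, fun k => Nat.casesOn k r1 c, rfl, a2, fun k hk => ?_, ?_⟩
    · cases k with
      | zero => simpa [a1] using h1
      | succ k => exact a3 k (by omega)
    · rw [Finset.sum_range_succ', h3, ← a4, add_comm]
      rfl

theorem exists_quot : ∃ (Q : Type) (_ : EMetricSpace Q) (π : aubry L 0 → Q),
    Function.Surjective π ∧ ∀ x y, (edist (π x) (π y) : EReal) = rho L 0 x y := by
  obtain ⟨Q, _, π, h1, h2⟩ := quot_aux (X := aubry L 0) (fun x y => (rho L 0 x y).toENNReal)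
    (fun x => by rw [rho, show barrier L 0 x x = 0 from x.2]; simp)
    (fun x y => by rw [rho, rho, add_comm]) fun x y z => by
      refine le_trans (EReal.toENNReal_le_toENNReal ?_) EReal.toENNReal_add_le
      unfold rho
      calc _ ≤ (barrier L 0 x y + barrier L 0 y z) + (barrier L 0 z y + barrier L 0 y x) :=
            add_le_add (barrier_tri hL _ _ _) (barrier_tri hL _ _ _)
        _ = _ := by ac_rfl
  exact ⟨Q, _, π, h1, fun x y => by
    rw [h2]; exact EReal.coe_toENNReal (add_nonneg (barrier_nonneg hL _ _) (barrier_nonneg hL _ _))⟩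

omit hL

lemma hn_shift (L : Ph d → ℝ) (α : ℝ) (n : ℕ) (x y : Tor d) :
    hn L α n x y = hn (fun z => L z + α) 0 n x y := by
  unfold hn
  refine iInf_congr fun γ => ?_
  have : IntervalIntegrable (fun t => lift L (γ t) (deriv γ t) t) volume 0 n ↔
      IntervalIntegrable (fun t => lift (fun z => L z + α) (γ t) (deriv γ t) t) volume 0 n :=
    ⟨fun h => h.add intervalIntegrable_const,
      fun h => by simpa [lift] using h.sub (intervalIntegrable_const (c := α))⟩
  rw [this]
  simp only [lift, add_zero]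

lemma adm_one {L : Ph d → ℝ} (hL : Continuous fun p : E d × E d × ℝ => lift L p.1 p.2.1 p.2.2)
    (x y : Tor d) : ∃ r, Adm L 1 x y r := by
  obtain ⟨q, rfl⟩ := pr_surj x
  obtain ⟨q', rfl⟩ := pr_surj y
  refine ⟨_, q, fun _ => q' - q, intervalIntegrable_const, rfl, by simp [path], ?_, rfl⟩
  have : Continuous fun t : ℝ => (path q (fun _ => q' - q) t, q' - q, t) := by
    simp only [path, intervalIntegral.integral_const, sub_zero]
    fun_prop
  exact (hL.comp this).intervalIntegrable _ _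

lemma barrier_lt_top {L : Ph d → ℝ} (hL : IsTonelli L) {α : ℝ} {x : Tor d} (hx : x ∈ aubry L α)
    (y : Tor d) : barrier L α x y < ⊤ := by
  obtain ⟨r, hr⟩ := adm_one (L := fun z => L z + α) (hL.1.continuous.add continuous_const) x y
  have h1 : barrier L α x x < ((1 : ℝ) : EReal) := by
    rw [show barrier L α x x = 0 from hx]
    exact_mod_cast one_pos
  refine lt_of_le_of_lt ?_ (EReal.coe_lt_top (1 + r))
  refine liminf_le_of_frequently_le' (frequently_atTop.2 fun N => ?_)
  obtain ⟨n, hn1, hn2⟩ := frequently_atTop.1 (frequently_lt_of_liminf_lt (h := h1)) N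
  rw [hn_shift] at hn2
  obtain ⟨r1, h2, h3⟩ := adm_of_lt hn2
  refine ⟨n + 1, by omega, ?_⟩
  rw [hn_shift]
  refine (h2.trans hr).hn_le.trans ?_
  have : r1 < 1 := by exact_mod_cast h3
  exact_mod_cast (by linarith : r1 + r ≤ 1 + r)

theorem exists_quot_metric (hT : IsTonelli L) (hL : ∀ z, 0 ≤ L z) :
    ∃ (Q : Type) (_ : MetricSpace Q) (q : aubry L 0 → Q),
      Function.Surjective q ∧ ∀ x y, ((dist (q x) (q y) : ℝ) : EReal) = rho L 0 x y := by
  obtain ⟨Q, iQ, q, hs, hd⟩ := exists_quot hL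
  have hfin : ∀ a b : Q, edist a b ≠ ⊤ := by
    intro a b h
    obtain ⟨x, rfl⟩ := hs a
    obtain ⟨y, rfl⟩ := hs b
    have h4 := hd x y
    rw [h] at h4
    exact (EReal.add_lt_top (barrier_lt_top hT x.2 y).ne (barrier_lt_top hT y.2 x).ne).ne
      (by simpa [rho] using h4.symm)
  refine ⟨Q, EMetricSpace.toMetricSpace hfin, q, hs, fun x y => ?_⟩
  rw [← hd x y]
  exact EReal.coe_ennreal_toReal (hfin _ _)

end Pool.Agent.Lib.MP_7d4c8f_an.Q1
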