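import Mathlib.Analysis.Calculus.ContDiff.Basic
import Mathlib.MeasureTheory.Function.AbsolutelyContinuous
import Mathlib.MeasureTheory.Integral.IntervalIntegral.Periodic
import Mathlib.Topology.Connected.Basic
import Mathlib.Data.EReal.Operations
import Mathlib.Topology.Instances.EReal.Lemmas

/-! Mather's setting on the torus of dimension `d`, for the cohomology class `c = 0`. -/

namespace Pool.Agent.Lib.MP_7d4c8f_an.Q1
open MeasureTheory Filter
open scoped ContDiff

/-- the universal cover of the torus, also the fibre of its tangent bundle -/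
abbrev E (d : ℕ) := Fin d → ℝ
/-- the compact manifold `M = (ℝ/ℤ)^d` -/
abbrev Tor (d : ℕ) := Fin d → UnitAddCircle
/-- the extended phase space `TM × ℝ/ℤ` -/
abbrev Ph (d : ℕ) := Tor d × E d × UnitAddCircle

variable {d : ℕ}

/-- the covering map -/
def pr (x : E d) : Tor d := fun i => (x i : UnitAddCircle)

/-- a function on `TM × ℝ/ℤ` read on the universal cover -/
def lift (L : Ph d → ℝ) (x v : E d) (t : ℝ) : ℝ := L (pr x, v, (t : UnitAddCircle))

/-- smooth, fibrewise positive definite Hessian, superlinear -/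
def IsTonelli (L : Ph d → ℝ) : Prop :=
  ContDiff ℝ ∞ (fun p : E d × E d × ℝ => lift L p.1 p.2.1 p.2.2) ∧
  (∀ x v t w, w ≠ 0 → 0 < iteratedFDeriv ℝ 2 (fun u => lift L x u t) v ![w, w]) ∧
  ∀ K : ℝ, ∃ C : ℝ, ∀ x v t, K * ‖v‖ - C ≤ lift L x v t

/-- a solution of the Euler-Lagrange equation defined for all times -/
def IsEL (L : Ph d → ℝ) (x : ℝ → E d) : Prop :=
  ContDiff ℝ 2 x ∧ ∀ t w,
    HasDerivAt (fun s => fderiv ℝ (fun v => lift L (x s) v s) (deriv x s) w)
      (fderiv ℝ (fun y => lift L y (deriv x t) t) (x t) w) t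

/-- `φ` is the Euler-Lagrange flow, defined for all times through every point -/
def IsELFlow (L : Ph d → ℝ) (φ : ℝ → Ph d → Ph d) : Prop :=
  ∀ z, φ 0 z = z ∧ ∃ (x : ℝ → E d) (t₀ : ℝ), IsEL L x ∧
    ∀ s, φ s z = (pr (x (t₀ + s)), deriv x (t₀ + s), ((t₀ + s : ℝ) : UnitAddCircle))

/-- the infimum of the integral of `L + α` over invariant probability measures is `0` -/
def IsAlpha (L : Ph d → ℝ) (φ : ℝ → Ph d → Ph d) (α : ℝ) : Prop :=
  IsGLB {r | ∃ μ : Measure (Ph d), IsProbabilityMeasure μ ∧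
    (∀ s A, MeasurableSet A → μ (φ s ⁻¹' A) = μ A) ∧ Integrable L μ ∧ r = ∫ z, (L z + α) ∂μ} 0

/-- the minimal action `h^n (x, y)` -/
noncomputable def hn (L : Ph d → ℝ) (α : ℝ) (n : ℕ) (x y : Tor d) : EReal :=
  ⨅ (γ : ℝ → E d) (_ : AbsolutelyContinuousOnInterval γ 0 n ∧ pr (γ 0) = x ∧ pr (γ n) = y ∧
      IntervalIntegrable (fun t => lift L (γ t) (deriv γ t) t) volume 0 n),
    ((∫ t in (0 : ℝ)..n, (lift L (γ t) (deriv γ t) t + α) : ℝ) : EReal)

/-- the Peierls barrier -/
noncomputable def barrier (L : Ph d → ℝ) (α : ℝ) (x y : Tor d) : EReal :=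
  liminf (fun n => hn L α n x y) atTop

/-- the projected Aubry set -/
def aubry (L : Ph d → ℝ) (α : ℝ) : Set (Tor d) := {x | barrier L α x x = 0}

/-- Mather's pseudometric -/
noncomputable def rho (L : Ph d → ℝ) (α : ℝ) (x y : Tor d) : EReal :=
  barrier L α x y + barrier L α y x

end Pool.Agent.Lib.MP_7d4c8f_an.Q1
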