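import Pool.Agent.Lib.MP_7d4c8f_an.Q1Iso
import Pool.Agent.Lib.MP_7d4c8f_an.Q1Defs

/-! Register machines whose registers are moved by iterates of a planar map. -/

namespace Pool.Agent.Lib.MP_7d4c8f_an.Q1
open Set

/-- the conclusion: a Tonelli Lagrangian whose quotient Aubry set contains a connected set with
two points -/
def Concl : Prop := ∃ (d : ℕ) (L : Ph d → ℝ) (φ : ℝ → Ph d → Ph d) (α : ℝ),
  IsTonelli L ∧ IsELFlow L φ ∧ IsAlpha L φ α ∧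
    ∃ (Q : Type) (_ : MetricSpace Q) (q : aubry L α → Q), Function.Surjective q ∧
      (∀ x y, ((dist (q x) (q y) : ℝ) : EReal) = rho L α x y) ∧
      ∃ s : Set Q, IsConnected s ∧ s.Nontrivial

/-- symbols `σ`, registers `ρ`; in symbol `s` register `r` is moved by the iterate `sp s r`;
`eqv s r r'`: the symbol tests `x r = x r'`; `tip s r`: the symbol tests `x r = o` -/
structure Mach (σ ρ : Type) where
  succ : σ → σ → Prop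
  sp : σ → ρ → ℕ
  eqv : σ → ρ → ρ → Prop
  tip : σ → ρ → Prop

variable {σ ρ : Type} (M : Mach σ ρ) (F : ℝ × ℝ → ℝ × ℝ) (o : ℝ × ℝ) (V : Set (ℝ × ℝ))

/-- one step with error at most `η` -/
def Mach.Step (s : σ) (x : ρ → ℝ × ℝ) (s' : σ) (x' : ρ → ℝ × ℝ) (η : ℝ) : Prop :=
  0 ≤ η ∧ M.succ s s' ∧ (∀ r, ‖x' r - F^[M.sp s r] (x r)‖ ≤ η) ∧
    (∀ r r', M.eqv s r r' → ‖x r - x r'‖ ≤ η) ∧ ∀ r, M.tip s r → ‖x r - o‖ ≤ η

/-- a run of length `T` inside `V` with sum of squared errors at most `c` -/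
def Mach.Run (T : ℕ) (s : ℕ → σ) (x : ℕ → ρ → ℝ × ℝ) (c : ℝ) : Prop :=
  (∀ t ≤ T, ∀ r, x t r ∈ V) ∧ ∃ η : ℕ → ℝ,
    (∀ t < T, M.Step F o (s t) (x t) (s (t + 1)) (x (t + 1)) (η t)) ∧
      ∑ t ∈ Finset.range T, η t ^ 2 ≤ c

/-- runs from `a` to `b` that wait arbitrarily long in the first and in the last symbol -/
def Mach.Conn (a b : σ × (ρ → ℝ × ℝ)) (c : ℝ) : Prop :=
  ∀ T0 : ℕ, ∃ T ≥ T0, ∃ s x, M.Run F o V T s x c ∧ x 0 = a.2 ∧ x T = b.2 ∧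
    ∀ t ≤ T0, s t = a.1 ∧ s (T - t) = b.1

/-- a symbol that may repeat itself and tests nothing -/
def Mach.Idle (s : σ) : Prop := M.succ s s ∧ (∀ r r', ¬ M.eqv s r r') ∧ ∀ r, ¬ M.tip s r

/-- what the machine layer has to deliver -/
def Mach.Good : Prop := ∃ (B : Set (σ × (ρ → ℝ × ℝ))) (a b : σ × (ρ → ℝ × ℝ)) (c0 : ℝ),
  a ∈ B ∧ b ∈ B ∧ 0 < c0 ∧ (∀ z ∈ B, M.Idle z.1 ∧ ∀ r, z.2 r ∈ V) ∧
  (∀ T s x c, M.Run F o V T s x c → (s 0, x 0) = a → (s T, x T) = b → c0 ≤ c) ∧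
  (∀ z ∈ B, ∀ c > 0, M.Conn F o V z z c) ∧
  ∀ c > 0, Relation.ReflTransGen
    (fun z z' => z ∈ B ∧ z' ∈ B ∧ M.Conn F o V z z' c ∧ M.Conn F o V z' z c) a b

/-- the statement of the Lagrangian layer (file Q1Arc) -/
def ArcStmt : Prop := ∀ (W : Type) [NormedAddCommGroup W] [NormedSpace ℝ W] [FiniteDimensional ℝ W]
  (κ : Type) [Fintype κ] (f : W → W) (g : W → κ → ℝ) (S B : Set W) (a b : W) (c0 : ℝ),
  Iso f → ContDiff ℝ (⊤ : ℕ∞) g → Bornology.IsBounded S → 0 < c0 →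
  (∀ z ∈ S, ∀ z', cost f g z z' ≤ c0 → z' ∈ S) → B ⊆ S → a ∈ B → b ∈ B →
  (∀ T c, DPath f g S T a b c → c0 ≤ c) → (∀ z ∈ B, ∀ c > 0, DConn f g S z z c) →
  (∀ c > 0, Relation.ReflTransGen
    (fun z z' => z ∈ B ∧ z' ∈ B ∧ DConn f g S z z' c ∧ DConn f g S z' z c) a b) → Concl

end Pool.Agent.Lib.MP_7d4c8f_an.Q1
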