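import Pool.Agent.Lib.MP_7d4c8f_an.Q1Real
import Pool.Agent.Lib.MP_7d4c8f_an.Q1Mach

/-! From cheap chains of a discrete cost to a continuum in the quotient Aubry set. -/

namespace Pool.Agent.Lib.MP_7d4c8f_an.Q1
open MeasureTheory Filter Set Metric Topology
open scoped ContDiff

lemma continuum {X Q : Type} [TopologicalSpace X] [CompactSpace X] [MetricSpace Q] {Γ : X → Q}
    (hΓ : Continuous Γ) {a b : X} (hab : Γ a ≠ Γ b)
    (ch : ∀ ε > 0, Relation.ReflTransGen (fun x y => dist (Γ x) (Γ y) < ε) a b) :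
    ∃ s : Set Q, IsConnected s ∧ s.Nontrivial := by
  have : CompactSpace (range Γ) := isCompact_iff_compactSpace.1 (isCompact_range hΓ)
  have hb : (⟨Γ b, b, rfl⟩ : range Γ) ∈ connectedComponent ⟨Γ a, a, rfl⟩ := by
    rw [connectedComponent_eq_iInter_isClopen, mem_iInter]
    rintro ⟨Z, hZ, ha⟩
    obtain ⟨δ, hδ, h⟩ := hZ.1.isCompact.exists_thickening_subset_open hZ.2 Subset.rfl
    have : ∀ c, Relation.ReflTransGen (fun x y => dist (Γ x) (Γ y) < δ) a c →
        (⟨Γ c, c, rfl⟩ : range Γ) ∈ Z := fun c hc => by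
      induction hc with
      | refl => exact ha
      | tail _ h2 ih => exact h (mem_thickening_iff.2 ⟨_, ih, by rw [dist_comm]; exact h2⟩)
    exact this b (ch δ hδ)
  exact ⟨Subtype.val '' connectedComponent (⟨Γ a, a, rfl⟩ : range Γ),
    isConnected_connectedComponent.image _ continuous_subtype_val.continuousOn,
    Γ a, ⟨_, mem_connectedComponent, rfl⟩, Γ b, ⟨_, hb, rfl⟩, hab⟩

variable {W : Type} [NormedAddCommGroup W] {κ : Type} [Fintype κ]
  {f : W → W} {g : W → κ → ℝ} {S A : Set W}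

lemma DPath.subset {T : ℕ} {x y : W} {r : ℝ} (h : DPath f g S T x y r) (hA : S ⊆ A) :
    DPath f g A T x y r := by
  obtain ⟨z, h1, h2, h3, h4⟩ := h
  exact ⟨z, h1, h2, fun t ht => hA (h3 t ht), h4⟩

lemma DConn.subset {x y : W} {r : ℝ} (h : DConn f g S x y r) (hA : S ⊆ A) :
    DConn f g A x y r := fun T0 => by
  obtain ⟨T, h1, h2⟩ := h T0
  exact ⟨T, h1, DPath.subset h2 hA⟩

lemma DPath.head {T : ℕ} {x y : W} {r : ℝ} (h : DPath f g S (T + 1) x y r) :
    x ∈ S ∧ ∃ w ∈ S, ∃ c, 0 ≤ c ∧ DPath f g S T w y c ∧ cost f g x w + c ≤ r := by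
  obtain ⟨z, h1, h2, h3, h4⟩ := h
  rw [Finset.sum_range_succ', h1, add_comm] at h4
  exact ⟨h1 ▸ h3 0 (by omega), z 1, h3 1 (by omega), _,
    Finset.sum_nonneg fun _ _ => cost_nonneg _ _,
    ⟨fun t => z (t + 1), rfl, h2, fun t ht => h3 _ (by omega), le_rfl⟩, h4⟩

lemma DPath.last {T : ℕ} {x y : W} {r : ℝ} (h : DPath f g S (T + 1) x y r) :
    ∃ w ∈ S, ∃ c, 0 ≤ c ∧ DPath f g S T x w c ∧ c + cost f g w y ≤ r := by
  obtain ⟨z, h1, h2, h3, h4⟩ := h
  rw [Finset.sum_range_succ, h2] at h4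
  exact ⟨z T, h3 T (by omega), _, Finset.sum_nonneg fun _ _ => cost_nonneg _ _,
    ⟨z, h1, rfl, fun t ht => h3 _ (by omega), le_rfl⟩, h4⟩

lemma sq_tri {F : Type} [NormedAddCommGroup F] (u v : F) :
    ‖u‖ ^ 2 ≤ 2 * ‖v‖ ^ 2 + 2 * ‖u - v‖ ^ 2 := by
  have := norm_add_le v (u - v)
  rw [add_sub_cancel] at this
  nlinarith [sq_nonneg (‖v‖ - ‖u - v‖), norm_nonneg u, norm_nonneg v, norm_nonneg (u - v)]

lemma DConn.first {x y w : W} {r : ℝ} (h : DConn f g S x y r) (hw : w ∈ S) :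
    DConn f g S w y (2 * r + (2 * ‖f x - f w‖ ^ 2 + 2 * ‖g w - g x‖ ^ 2)) := fun T0 => by
  obtain ⟨T, h1, h2⟩ := h (T0 + 1)
  obtain ⟨T, rfl⟩ : ∃ n, T = n + 1 := ⟨T - 1, by omega⟩
  obtain ⟨-, v, a1, c, a2, a3, a4⟩ := DPath.head h2
  refine ⟨1 + T, by omega, ((DPath.single hw a1).trans a3).mono ?_⟩
  have b1 := sq_tri (v - f w) (v - f x)
  have b2 := sq_tri (g w) (g x)
  rw [sub_sub_sub_cancel_left] at b1
  unfold cost at *
  linarith

lemma DConn.final {x y w : W} {r : ℝ} (h : DConn f g S x y r) (hw : w ∈ S) :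
    DConn f g S x w (2 * r + 2 * ‖w - y‖ ^ 2) := fun T0 => by
  obtain ⟨T, h1, h2⟩ := h (T0 + 1)
  obtain ⟨T, rfl⟩ : ∃ n, T = n + 1 := ⟨T - 1, by omega⟩
  obtain ⟨v, a1, c, a2, a3, a4⟩ := DPath.last h2
  refine ⟨T + 1, by omega, (a3.trans (DPath.single a1 hw)).mono ?_⟩
  have b1 := sq_tri (w - f v) (y - f v)
  rw [sub_sub_sub_cancel_right] at b1
  unfold cost at *
  linarith [sq_nonneg ‖g v‖]

variable {d : ℕ} {L : Ph d → ℝ} {e : W → Tor d} {K : ℝ}

lemma Realises.adm (h : Realises L e f g A K) (hK : 0 < K) (T : ℕ) : ∀ {x y : W} {r : ℝ},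
    DPath f g A (T + 1) x y r → ∃ r' ≤ K * r, Adm L (T + 1) (e x) (e y) r' := by
  induction T with
  | zero =>
    intro x y r hp
    obtain ⟨hx, w, -, c, a2, ⟨z, a3, a4, -⟩, a5⟩ := hp.head
    obtain rfl : w = y := a3.symm.trans a4
    obtain ⟨r', b1, b2⟩ := h.1 x hx w
    exact ⟨r', b1.trans (mul_le_mul_of_nonneg_left (by linarith) hK.le), b2⟩
  | succ T ih =>
    intro x y r hp
    obtain ⟨w, a1, c, -, a3, a4⟩ := hp.last
    obtain ⟨r1, b1, b2⟩ := ih a3
    obtain ⟨r2, b3, b4⟩ := h.1 w a1 y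
    exact ⟨r1 + r2, by nlinarith, b2.trans b4⟩

lemma Realises.up (h : Realises L e f g A K) (hK : 0 < K) {x y : W} {r : ℝ}
    (hc : DConn f g A x y r) : barrier L 0 (e x) (e y) ≤ (K * r : ℝ) := by
  refine liminf_le_of_frequently_le' (frequently_atTop.2 fun N => ?_)
  obtain ⟨T, h1, h2⟩ := hc (N + 1)
  obtain ⟨T, rfl⟩ : ∃ n, T = n + 1 := ⟨T - 1, by omega⟩
  obtain ⟨r', b1, b2⟩ := h.adm hK T h2
  exact ⟨T + 1, by omega, b2.hn_le.trans (EReal.coe_le_coe b1)⟩

lemma Realises.up' (h : Realises L e f g A K) (hK : 0 < K) {x y : W} {m : ℝ}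
    (hc : ∀ r > 0, DConn f g A x y (2 * r + m)) : barrier L 0 (e x) (e y) ≤ (K * m : ℝ) := by
  refine EReal.le_of_forall_lt_iff_le.1 fun a ha => ?_
  have ha : K * m < a := by exact_mod_cast ha
  refine (h.up hK (hc ((a - K * m) / (2 * K)) (div_pos (by linarith) (by linarith)))).trans
    (EReal.coe_le_coe (le_of_eq ?_))
  field_simp
  ring

lemma Realises.low (h : Realises L e f g A K) (hK : 0 < K) (hL : ∀ z, 0 ≤ L z) (hA : S ⊆ A)
    (he : InjOn e A) {c0 : ℝ} (hc : 0 < c0) (trap : ∀ z ∈ S, ∀ z', cost f g z z' ≤ c0 → z' ∈ S)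
    {a b : W} (ha : a ∈ S) (hb : b ∈ S) (low : ∀ T c, DPath f g S T a b c → c0 ≤ c) :
    ((c0 / (2 * K) : ℝ) : EReal) ≤ barrier L 0 (e a) (e b) := by
  by_contra h1
  obtain ⟨N, h2⟩ := (frequently_lt_of_liminf_lt (h := not_le.1 h1)).exists
  obtain ⟨r, h3, h4⟩ := adm_of_lt h2
  have h4 : r < c0 / (2 * K) := by exact_mod_cast h4
  obtain ⟨u, c, u0, uN, hu, hs⟩ := h3.chain
  set δ := c0 / (2 * K) / (N + 1) with hδ
  have hδ0 : 0 < δ := by positivity
  have hδ1 : (N + 1) * δ = c0 / (2 * K) := by rw [hδ]; field_simp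
  have hK2 : K * (c0 / (2 * K)) = c0 / 2 := by field_simp
  have hN : (0 : ℝ) ≤ N * δ := by positivity
  have cr : ∀ k < N, c k ≤ r := fun k hk => hs ▸ Finset.single_le_sum (f := c)
    (fun j hj => (hu j (Finset.mem_range.1 hj)).nonneg hL) (Finset.mem_range.2 hk)
  have key : ∀ k ≤ N, ∃ w ∈ S, e w = u k ∧
      DPath f g S k a w (K * (∑ j ∈ Finset.range k, c j + k * δ)) := by
    intro k
    induction k with
    | zero => exact fun _ => ⟨a, ha, u0.symm, by simpa using DPath.refl ha⟩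
    | succ k ih =>
      intro hk
      obtain ⟨w, a1, a2, a3⟩ := ih (by omega)
      have a4 := (hu k hk).nonneg hL
      have a5 : √(c k + δ) ^ 2 = c k + δ := Real.sq_sqrt (by linarith)
      obtain ⟨w', b1, b2⟩ := h.2 w (hA a1) (u (k + 1)) (c k) √(c k + δ)
        (Real.sqrt_pos.2 (by linarith)) (by linarith) (a2 ▸ hu k hk)
      rw [a5] at b2
      have b3 : w' ∈ S := trap w a1 w' (b2.trans (by nlinarith [cr k hk]))
      refine ⟨w', b3, b1, (a3.trans (DPath.single a1 b3)).mono ?_⟩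
      rw [Finset.sum_range_succ]
      push_cast
      linarith
  obtain ⟨w, a1, a2, a3⟩ := key N le_rfl
  obtain rfl : w = b := he (hA a1) (hA hb) (a2.trans uN)
  have := low _ _ a3
  rw [hs] at this
  nlinarith

theorem arc : ArcStmt := by
  intro W _ _ _ κ _ f g S B a b c0 hf hg hS hc trap hB ha hb low hrec chain
  have hab : a ≠ b := by
    rintro rfl
    linarith [low 0 0 (DPath.refl (hB ha))]
  have : Nontrivial W := ⟨a, b, hab⟩
  have hA : IsCompact (closure S) := hS.isCompact_closure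
  obtain ⟨d, L, φ, e, K, a1, a2, a3, hL, hK, he, hR⟩ := realise hf hg hA
  obtain ⟨Q, iQ, q, hq, hd⟩ := exists_quot_metric a1 hL
  refine ⟨d, L, φ, 0, a1, a2, a3, Q, iQ, q, hq, hd, ?_⟩
  let m : W → W → ℝ := fun w z =>
    K * (2 * ‖f z - f w‖ ^ 2 + 2 * ‖g w - g z‖ ^ 2) + K * (2 * ‖w - z‖ ^ 2)
  have fc := hf.continuous
  have gc := hg.continuous
  have mc : Continuous fun p : W × W => m p.1 p.2 := by fun_prop
  have m0 : ∀ w, m w w = 0 := fun w => by simp [m]
  have hBA : closure B ⊆ closure S := closure_mono hB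
  have b1 : ∀ w ∈ closure B, ∀ z ∈ B, rho L 0 (e w) (e z) ≤ (m w z : ℝ) := fun w hw z hz => by
    rw [EReal.coe_add]
    exact add_le_add
      (hR.up' hK fun r hr => ((hrec z hz r hr).subset subset_closure).first (hBA hw))
      (hR.up' hK fun r hr => ((hrec z hz r hr).subset subset_closure).final (hBA hw))
  have b2 : ∀ w ∈ closure B, e w ∈ aubry L 0 := fun w hw => by
    refine le_antisymm ?_ (barrier_nonneg hL _ _)
    have : w ∈ {z | barrier L 0 (e w) (e w) ≤ (m w z : ℝ)} :=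
      closure_minimal (fun z hz => (barrier_tri hL _ (e z) _).trans (b1 w hw z hz))
        (isClosed_le continuous_const
          (continuous_coe_real_ereal.comp (mc.comp (Continuous.prodMk_right w)))) hw
    simpa [m0] using this
  let Γ : closure B → Q := fun w => q ⟨e w, b2 w w.2⟩
  have b3 : ∀ (w : closure B) z (hz : z ∈ B), dist (Γ w) (Γ ⟨z, subset_closure hz⟩) ≤ m w z :=
    fun w z hz => EReal.coe_le_coe_iff.1 ((hd _ _).trans_le (b1 w w.2 z hz))
  have b4 : ∀ w w' : closure B, dist (Γ w) (Γ w') ≤ m w w' := fun w w' => by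
    have : (w' : W) ∈ {z | dist (Γ w) (Γ w') ≤ m w z + m w' z} :=
      closure_minimal (fun z hz => (dist_triangle_right _ _ (Γ ⟨z, subset_closure hz⟩)).trans
        (add_le_add (b3 w z hz) (b3 w' z hz))) (isClosed_le continuous_const
          ((mc.comp (Continuous.prodMk_right _)).add (mc.comp (Continuous.prodMk_right _)))) w'.2
    simpa [m0] using this
  have b5 : Continuous Γ := continuous_iff_continuousAt.2 fun w => by
    refine tendsto_iff_dist_tendsto_zero.2 (squeeze_zero (fun _ => dist_nonneg)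
      (fun w' => b4 w' w) ?_)
    rw [← m0 w]
    exact (mc.comp (continuous_subtype_val.prodMk continuous_const)).tendsto w
  have : CompactSpace (closure B) :=
    isCompact_iff_compactSpace.1 (hA.of_isClosed_subset isClosed_closure hBA)
  refine continuum b5 (a := ⟨a, subset_closure ha⟩) (b := ⟨b, subset_closure hb⟩) (fun h => ?_)
    fun ε hε => ?_
  · have h1 := hd ⟨e a, b2 a (subset_closure ha)⟩ ⟨e b, b2 b (subset_closure hb)⟩
    have h2 := (hR.low hK hL subset_closure he hc trap (hB ha) (hB hb) low).trans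
      (le_add_of_nonneg_right (barrier_nonneg hL (e b) (e a)))
    change q _ = q _ at h
    rw [h, dist_self] at h1
    have h3 : c0 / (2 * K) ≤ 0 := EReal.coe_le_coe_iff.1 (h2.trans_eq h1.symm)
    have : 0 < c0 / (2 * K) := by positivity
    linarith
  · have key : ∀ c, Relation.ReflTransGen (fun z z' => z ∈ B ∧ z' ∈ B ∧
        DConn f g S z z' (ε / (4 * K)) ∧ DConn f g S z' z (ε / (4 * K))) a c → ∀ hc : c ∈ B,
        Relation.ReflTransGen (fun x y => dist (Γ x) (Γ y) < ε) ⟨a, subset_closure ha⟩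
          ⟨c, subset_closure hc⟩ := fun c h => by
      induction h with
      | refl => exact fun _ => .refl
      | tail _ h2 ih =>
        intro hc
        refine (ih h2.1).tail ?_
        have h3 := (hd ⟨_, b2 _ (subset_closure h2.1)⟩ ⟨_, b2 _ (subset_closure hc)⟩).trans_le
          (add_le_add (hR.up hK (h2.2.2.1.subset subset_closure))
            (hR.up hK (h2.2.2.2.subset subset_closure)))
        rw [← EReal.coe_add, EReal.coe_le_coe_iff] at h3
        have h4 : K * (ε / (4 * K)) = ε / 4 := by field_simp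
        exact h3.trans_lt (by linarith)
    exact key b (chain _ (by positivity)) hb

end Pool.Agent.Lib.MP_7d4c8f_an.Q1
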