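import Pool.Agent.Lib.MP_7d4c8f_an.Q1Stk
import Mathlib.Analysis.Calculus.BumpFunction.FiniteDimension
import Mathlib.Analysis.SpecificLimits.Normed

/-! Piecewise diagonal affine maps are isotopic to the identity after adding a latch. -/

namespace Pool.Agent.Lib.MP_7d4c8f_an.Q1
open Set Real Filter Topology Metric
open scoped ContDiff

section blk
variable {ι Wm : Type} [Fintype ι] [Fintype Wm] [DecidableEq Wm]

omit [Fintype Wm] in
lemma bump_sum {ctr : Wm → ι → ℝ} (sep : ∀ w w', w ≠ w' → 1 ≤ ‖ctr w - ctr w'‖) {r : ℝ}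
    (h0 : 0 < r) (h1 : r ≤ 1 / 4) : ∃ χ : Wm → (ι → ℝ) → ℝ, (∀ w, ContDiff ℝ ∞ (χ w)) ∧
      (∀ w x, ‖x - ctr w‖ ≤ r → (fun w' => χ w' x) = Pi.single w 1) ∧
      ∀ w x, 2 * r ≤ ‖x - ctr w‖ → χ w x = 0 := by
  let β : ∀ w, ContDiffBump (ctr w) := fun w => ⟨r, 2 * r, h0, by linarith⟩
  have hz : ∀ w x, 2 * r ≤ ‖x - ctr w‖ → β w x = 0 := fun w x h =>
    (β w).zero_of_le_dist (by rwa [dist_eq_norm])
  refine ⟨fun w => β w, fun w => (β w).contDiff, fun w x h => funext fun w' => ?_, hz⟩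
  by_cases e : w' = w
  · subst e
    rw [Pi.single_eq_same]
    exact (β w').one_of_mem_closedBall (by rwa [mem_closedBall, dist_eq_norm])
  · rw [Pi.single_eq_of_ne e]
    have h2 := sep w' w e
    have h3 := norm_sub_le (x - ctr w) (x - ctr w')
    rw [show x - ctr w - (x - ctr w') = ctr w' - ctr w by abel] at h3
    exact hz _ _ (by linarith)

lemma blk {ctr : Wm → ι → ℝ} (sep : ∀ w w', w ≠ w' → 1 ≤ ‖ctr w - ctr w'‖) {lam : Wm → ι → ℝ}
    (bb : Wm → ι → ℝ) (hl : ∀ w i, 0 < lam w i) :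
    ∃ (f : (ι → ℝ) × (Wm → ℝ) → (ι → ℝ) × (Wm → ℝ)) (g : (ι → ℝ) × (Wm → ℝ) → Unit → ℝ),
      Iso f ∧ ContDiff ℝ ∞ g ∧
      (∀ x h w, ‖h‖ ≤ 2 → ‖x - ctr w‖ ≤ 1 / 4 →
        f (x, h) = (fun i => lam w i * x i + bb w i, (1 / 10 : ℝ) • h + Pi.single w 1)) ∧
      (∀ z w, ‖z.1 - ctr w‖ ≤ 1 / 8 → g z = 0) ∧
      ∀ z, ‖g z‖ < 1 → ∃ w, ‖z.1 - ctr w‖ ≤ 1 / 4 := by
  obtain ⟨χ, c1, c2, -⟩ := bump_sum sep (r := 1 / 4) (by norm_num) le_rfl
  obtain ⟨ψ, p1, p2, p3⟩ := bump_sum sep (r := 1 / 8) (by norm_num) (by norm_num)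
  have hin : ContDiff ℝ ∞ fun (z : ι ⊕ Wm → ℝ) i => z (Sum.inl i) := by fun_prop
  have hs : ∀ w, ContDiff ℝ ∞ fun z : ι ⊕ Wm → ℝ => ST 1 (z (Sum.inr w)) := fun w =>
    (ST_smooth 1).comp (by fun_prop)
  have i1 := Iso.aff (ι := ι ⊕ Wm) (range Sum.inr)
    (k := fun _ => Sum.elim (fun _ => 0) fun _ => log (1 / 10))
    (h := fun z => Sum.elim (fun _ => 0) fun w => χ w fun i => z (Sum.inl i)) contDiff_const
    (contDiff_pi.2 fun j => by
      rcases j with i | w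
      exacts [contDiff_const, (c1 w).comp hin])
    (fun z j hj => by
      rcases j with i | w
      exacts [⟨rfl, rfl⟩, absurd ⟨w, rfl⟩ hj])
    (fun z z' h => ⟨rfl, by
      rw [show (fun i => z (Sum.inl i)) = fun i => z' (Sum.inl i) from
        funext fun i => h _ (by simp)]⟩)
  have i2 := Iso.aff (ι := ι ⊕ Wm) (range Sum.inl)
    (k := fun z => Sum.elim (fun i => ∑ w, ST 1 (z (Sum.inr w)) * log (lam w i)) fun _ => 0)
    (h := fun z => Sum.elim (fun i => ∑ w, ST 1 (z (Sum.inr w)) * bb w i) fun _ => 0)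
    (contDiff_pi.2 fun j => by
      rcases j with i | w
      exacts [ContDiff.sum fun w _ => (hs w).mul contDiff_const, contDiff_const])
    (contDiff_pi.2 fun j => by
      rcases j with i | w
      exacts [ContDiff.sum fun w _ => (hs w).mul contDiff_const, contDiff_const])
    (fun z j hj => by
      rcases j with i | w
      exacts [absurd ⟨i, rfl⟩ hj, ⟨rfl, rfl⟩])
    (fun z z' h => by
      have : ∀ w, z (Sum.inr w) = z' (Sum.inr w) := fun w => h _ (by simp)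
      simp only [this, and_self])
  refine ⟨_, fun z _ => 1 - ∑ w, ψ w z.1,
    (i2.comp i1).conj (ContinuousLinearEquiv.sumPiEquivProdPi ℝ ι Wm fun _ => ℝ),
    contDiff_pi.2 fun _ => contDiff_const.sub (ContDiff.sum fun w _ => (p1 w).comp contDiff_fst),
    fun x h w hh hx => ?_, fun z w hz => funext fun _ => ?_, fun z hz => ?_⟩
  · have e1 : ∀ w', χ w' x = (Pi.single w 1 : Wm → ℝ) w' := fun w' => congrFun (c2 w x hx) w'
    have e2 : ∀ w', ST 1 (1 / 10 * h w' + (Pi.single w 1 : Wm → ℝ) w') =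
        (Pi.single w 1 : Wm → ℝ) w' := fun w' => by
      have := abs_le.1 ((norm_le_pi_norm h w').trans hh)
      by_cases e : w' = w
      · rw [e, Pi.single_eq_same]
        exact ST_hi (by rw [← e]; linarith [this.1])
      · rw [Pi.single_eq_of_ne e]
        exact ST_lo (by linarith [this.2])
    have e3 : exp (log (1 / 10)) = 1 / 10 := exp_log (by norm_num)
    refine Prod.ext (funext fun i => ?_) (funext fun w' => ?_)
    · change exp (∑ w', ST 1 (exp (log (1 / 10)) * h w' + χ w' x) * log (lam w' i)) *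
        (exp 0 * x i + 0) + ∑ w', ST 1 (exp (log (1 / 10)) * h w' + χ w' x) * bb w' i = _
      simp only [e1, e3, e2]
      simp [Pi.single_apply, exp_log (hl w i)]
    · change exp 0 * (exp (log (1 / 10)) * h w' + χ w' x) + 0 = _
      simp only [e1, e3]
      simp
  · have e1 : ∀ w', ψ w' z.1 = (Pi.single w 1 : Wm → ℝ) w' := fun w' => congrFun (p2 w _ hz) w'
    simp [e1, Pi.single_apply]
  · by_contra hc
    push Not at hc
    have e1 : ∀ w, ψ w z.1 = 0 := fun w => p3 w _ (by linarith [hc w])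
    simp [e1] at hz

end blk

section code
variable {S : Type} [Fintype S] [DecidableEq S]

/-- the analog code of a stream -/
noncomputable def cd (s : ℕ → S) : S → ℝ := ∑' k, (1 / 10 : ℝ) ^ k • Pi.single (s k) 1

lemma cd_bd (s : ℕ → S) (k : ℕ) :
    ‖(1 / 10 : ℝ) ^ k • (Pi.single (s k) 1 : S → ℝ)‖ ≤ (1 / 10) ^ k := by
  rw [norm_smul, Pi.norm_single, norm_one, mul_one, norm_pow, Real.norm_of_nonneg (by norm_num)]

lemma cd_norm (s : ℕ → S) : ‖cd s‖ ≤ 10 / 9 :=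
  (tsum_of_norm_bounded (hasSum_geometric_of_lt_one (r := 1 / 10) (by norm_num) (by norm_num))
    (cd_bd s)).trans_eq (by norm_num)

lemma cd_eq (s : ℕ → S) : cd s = Pi.single (s 0) 1 + (1 / 10 : ℝ) • cd fun n => s (n + 1) := by
  have hs : ∀ s : ℕ → S, Summable fun k => (1 / 10 : ℝ) ^ k • (Pi.single (s k) 1 : S → ℝ) :=
    fun s => Summable.of_norm_bounded
      (summable_geometric_of_lt_one (r := 1 / 10) (by norm_num) (by norm_num)) (cd_bd s)
  rw [cd, (hs s).tsum_eq_zero_add, cd, ← (hs _).tsum_const_smul]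
  simp only [pow_zero, one_smul, pow_succ', mul_smul]

lemma cd_top (s : ℕ → S) : ‖cd s - Pi.single (s 0) 1‖ ≤ 1 / 8 := by
  rw [cd_eq, add_sub_cancel_left, norm_smul, Real.norm_of_nonneg (by norm_num)]
  linarith [cd_norm fun n => s (n + 1)]

lemma cd_pop (s : ℕ → S) : pop (s 0) (cd s) = cd fun n => s (n + 1) := by
  rw [pop, cd_eq, add_sub_cancel_left, smul_smul]
  norm_num

lemma cd_app (l : List S) (s : ℕ → S) : cd (app l s) = pushL l (cd s) := by
  induction l with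
  | nil => rfl
  | cons a l ih =>
    rw [cd_eq]
    change Pi.single a 1 + (1 / 10 : ℝ) • cd (app l s) = _
    rw [ih]
    rfl

lemma cd_agree (n : ℕ) : ∀ s s' : ℕ → S, (∀ k < n, s k = s' k) →
    ‖cd s - cd s'‖ ≤ 3 * (1 / 10) ^ n := by
  induction n with
  | zero =>
    intro s s' _
    linarith [norm_sub_le (cd s) (cd s'), cd_norm s, cd_norm s', pow_zero (1 / 10 : ℝ)]
  | succ n ih =>
    intro s s' h
    rw [cd_eq s, cd_eq s', h 0 n.succ_pos, add_sub_add_left_eq_sub, ← smul_sub, norm_smul,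
      Real.norm_of_nonneg (by norm_num), pow_succ]
    linarith [ih (fun k => s (k + 1)) (fun k => s' (k + 1)) fun k hk => h _ (by omega)]

omit [Fintype S] in
lemma pushL_aff (l : List S) (x y : S → ℝ) :
    pushL l x = (1 / 10 : ℝ) ^ l.length • (x - y) + pushL l y := by
  induction l with
  | nil => simp [pushL]
  | cons a l ih =>
    change Pi.single a 1 + (1 / 10 : ℝ) • pushL l x = _ + (Pi.single a 1 + (1 / 10 : ℝ) • pushL l y)
    rw [ih, List.length_cons, pow_succ', smul_add, mul_smul]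
    abel

end code

section stack
variable {Q P S : Type} [Fintype Q] [Fintype P] [Fintype S] [DecidableEq Q] [DecidableEq P]
  [DecidableEq S]

/-- a control vector and one vector per peg, as one vector -/
def pk (u : Q → ℝ) (x : P → S → ℝ) : Q ⊕ P × S → ℝ := Sum.elim u fun j => x j.1 j.2

omit [DecidableEq Q] [DecidableEq P] [DecidableEq S] in
lemma pk_le {u u' : Q → ℝ} {x x' : P → S → ℝ} {r : ℝ} (hr : 0 ≤ r) :
    ‖pk u x - pk u' x'‖ ≤ r ↔ ‖u - u'‖ ≤ r ∧ ∀ i, ‖x i - x' i‖ ≤ r := by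
  simp only [pi_norm_le_iff_of_nonneg hr, Sum.forall, Prod.forall]
  rfl

omit [DecidableEq Q] [DecidableEq P] [DecidableEq S] in
lemma pk_of {u u' : Q → ℝ} {x x' : P → S → ℝ} {r : ℝ} (h1 : ‖u - u'‖ ≤ r)
    (h2 : ∀ i, ‖x i - x' i‖ ≤ r) : ‖pk u x - pk u' x'‖ ≤ r :=
  (pk_le ((norm_nonneg _).trans h1)).2 ⟨h1, h2⟩

omit [DecidableEq Q] [DecidableEq P] [DecidableEq S] in
lemma pk_nm {u : Q → ℝ} {x : P → S → ℝ} {r : ℝ} (h1 : ‖u‖ ≤ r) (h2 : ∀ i, ‖x i‖ ≤ r) :
    ‖pk u x‖ ≤ r := by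
  rw [← sub_zero (pk u x), show (0 : Q ⊕ P × S → ℝ) = pk 0 0 from by
    ext j; rcases j with q | ⟨i, s⟩ <;> rfl]
  exact pk_of (by rwa [sub_zero]) fun i => by rw [Pi.zero_apply, sub_zero]; exact h2 i

lemma pr_le {A B : Type} [SeminormedAddCommGroup A] [SeminormedAddCommGroup B] {a a' : A}
    {b b' : B} {r : ℝ} (h1 : ‖a - a'‖ ≤ r) (h2 : ‖b - b'‖ ≤ r) : ‖(a, b) - (a', b')‖ ≤ r :=
  max_le h1 h2

omit [Fintype Q] [Fintype P] [Fintype S] [DecidableEq Q] [DecidableEq P] [DecidableEq S] in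
lemma pk_eta (z : Q ⊕ P × S → ℝ) :
    z = pk (fun q => z (Sum.inl q)) fun i s => z (Sum.inr (i, s)) := by
  ext j; rcases j with q | ⟨i, s⟩ <;> rfl

lemma single_eq {S : Type} [Fintype S] [DecidableEq S] {a b : S}
    (h : ‖(Pi.single a 1 : S → ℝ) - Pi.single b 1‖ < 1) : a = b := by
  by_contra e
  have := (norm_le_pi_norm _ a).trans_lt h
  simp [Pi.single_eq_of_ne e] at this

lemma stk (M : SM Q P S) :
    ∃ (f : (Q ⊕ P × S → ℝ) × (Q × (P → S) → ℝ) → (Q ⊕ P × S → ℝ) × (Q × (P → S) → ℝ))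
      (g : (Q ⊕ P × S → ℝ) × (Q × (P → S) → ℝ) → Unit → ℝ), Iso f ∧ ContDiff ℝ ∞ g ∧
      (∀ u x h q top, ‖h‖ ≤ 2 → ‖u - Pi.single q 1‖ ≤ 1 / 4 →
        (∀ i, ‖x i - Pi.single (top i) 1‖ ≤ 1 / 4) →
        f (pk u x, h) = (pk (Pi.single (M.nq q top) 1 + (1 / 10 : ℝ) • (u - Pi.single q 1))
          fun i => pushL (M.pu q top i) (pop (top i) (x i)),
          (1 / 10 : ℝ) • h + Pi.single (q, top) 1)) ∧
      (∀ u x h q (top : P → S), ‖u - Pi.single q 1‖ ≤ 1 / 8 →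
        (∀ i, ‖x i - Pi.single (top i) 1‖ ≤ 1 / 8) →
        g (pk u x, h) = 0) ∧
      ∀ u x h, ‖g (pk u x, h)‖ < 1 → ∃ (q : Q) (top : P → S), ‖u - Pi.single q 1‖ ≤ 1 / 4 ∧
        ∀ i, ‖x i - Pi.single (top i) 1‖ ≤ 1 / 4 := by
  obtain ⟨f, g, h1, h2, h3, h4, h5⟩ := blk
    (ctr := fun w : Q × (P → S) => pk (Pi.single w.1 1) fun i => Pi.single (w.2 i) 1)
    (fun w w' h => by
      by_contra hc
      obtain ⟨e1, e2⟩ := (pk_le (norm_nonneg _)).1 (le_refl ‖pk (Pi.single w.1 (1 : ℝ))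
        (fun i => Pi.single (w.2 i) (1 : ℝ)) - pk (Pi.single w'.1 1) fun i => Pi.single (w'.2 i) 1‖)
      exact h (Prod.ext (single_eq (e1.trans_lt (not_le.1 hc)))
        (funext fun i => single_eq ((e2 i).trans_lt (not_le.1 hc)))))
    (lam := fun w => pk (fun _ => 1 / 10) fun i _ => (1 / 10) ^ (M.pu w.1 w.2 i).length * 10)
    (fun w => pk (Pi.single (M.nq w.1 w.2) 1 - (1 / 10 : ℝ) • Pi.single w.1 1)
      fun i => pushL (M.pu w.1 w.2 i) (pop (w.2 i) 0))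
    (fun w j => by rcases j with q | ⟨i, s⟩ <;> simp only [pk, Sum.elim_inl, Sum.elim_inr] <;>
      positivity)
  refine ⟨f, g, h1, h2, fun u x h q top a1 a2 a3 => ?_, fun u x h q top a2 a3 =>
    h4 _ (q, top) (pk_of a2 a3), fun u x h a => ?_⟩
  · rw [h3 _ h (q, top) a1 (pk_of a2 a3)]
    refine Prod.ext (funext fun j => ?_) rfl
    rcases j with q' | ⟨i, s⟩
    · simp only [pk, Sum.elim_inl, Pi.add_apply, Pi.sub_apply, Pi.smul_apply, smul_eq_mul]
      ring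
    · simp only [pk, Sum.elim_inr]
      rw [pushL_aff _ (pop (top i) (x i)) (pop (top i) 0)]
      simp only [pop, Pi.add_apply, Pi.sub_apply, Pi.smul_apply, smul_eq_mul, Pi.zero_apply]
      ring
  · obtain ⟨w, hw⟩ := h5 _ a
    exact ⟨w.1, w.2, (pk_le (by norm_num)).1 hw⟩

end stack

lemma pushL_le {S : Type} [Fintype S] [DecidableEq S] (l : List S) {x : S → ℝ} (h : ‖x‖ ≤ 5 / 2) :
    ‖pushL l x‖ ≤ 5 / 2 := by
  induction l with
  | nil => exact h
  | cons a l ih =>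
    change ‖Pi.single a 1 + (1 / 10 : ℝ) • pushL l x‖ ≤ _
    refine (norm_add_le _ _).trans ?_
    rw [Pi.norm_single, norm_one, norm_smul, Real.norm_of_nonneg (by norm_num)]
    linarith

lemma DPath.adj {W κ : Type} [NormedAddCommGroup W] [Fintype κ] {f : W → W} {g : W → κ → ℝ}
    {S : Set W} {T : ℕ} {x y y' : W} {r : ℝ} (h : DPath f g S (T + 1) x y r) (hy : y' ∈ S) :
    DPath f g S (T + 1) x y' (2 * r + 2 * ‖y' - y‖ ^ 2) := by
  obtain ⟨z, h1, h2, h3, h4⟩ := h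
  have a1 : DPath f g S T x (z T) (∑ t ∈ Finset.range T, cost f g (z t) (z (t + 1))) :=
    ⟨z, h1, rfl, fun t ht => h3 t (by omega), le_rfl⟩
  refine (a1.trans (DPath.single (h3 T (by omega)) hy)).mono ?_
  rw [Finset.sum_range_succ, h2] at h4
  have a2 : 0 ≤ ∑ t ∈ Finset.range T, cost f g (z t) (z (t + 1)) :=
    Finset.sum_nonneg fun _ _ => cost_nonneg _ _
  have a3 := norm_add_le (y' - y) (y - f (z T))
  rw [sub_add_sub_cancel] at a3
  have a4 := pow_le_pow_left₀ (norm_nonneg _) a3 2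
  unfold cost at *
  nlinarith [sq_nonneg (‖y' - y‖ - ‖y - f (z T)‖), sq_nonneg ‖g (z T)‖]

theorem stack (arc : ArcStmt) : StackStmt := by
  intro Q P S _ _ _ _ M a b ⟨c0, hc0, low⟩ ⟨B, ha, hb, hrec, hch⟩
  classical
  obtain ⟨f, g, h1, h2, h3, h4, h5⟩ := stk M
  let Z : Set ((Q ⊕ P × S → ℝ) × (Q × (P → S) → ℝ)) := {z | ‖z.1‖ ≤ 3 ∧ ‖z.2‖ ≤ 2}
  let cf : Q × (P → ℕ → S) → Q ⊕ P × S → ℝ := fun c => pk (Pi.single c.1 1) fun i => cd (c.2 i)
  let nx : Q × (P → ℕ → S) → (Q × (P → S) → ℝ) → Q × (P → S) → ℝ := fun c h =>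
    (1 / 10 : ℝ) • h + Pi.single (c.1, fun i => c.2 i 0) 1
  have nxle : ∀ (w : Q × (P → S)) (h : Q × (P → S) → ℝ), ‖h‖ ≤ 2 →
      ‖(1 / 10 : ℝ) • h + Pi.single w 1‖ ≤ 3 / 2 := fun w h hh => by
    refine (norm_add_le _ _).trans ?_
    rw [Pi.norm_single, norm_one, norm_smul, Real.norm_of_nonneg (by norm_num)]
    linarith
  have cZ : ∀ c h, ‖h‖ ≤ 2 → (cf c, h) ∈ Z := fun c h hh => by
    refine ⟨?_, hh⟩
    dsimp only [cf]
    refine pk_nm ?_ fun i => ?_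
    · rw [Pi.norm_single]; norm_num
    · linarith [cd_norm (c.2 i)]
  have cg : ∀ c h, g (cf c, h) = 0 := fun c h =>
    h4 _ _ h c.1 (fun i => c.2 i 0) (by simp) fun i => cd_top _
  have cstep : ∀ n c c' h, ‖h‖ ≤ 2 → Agree (n + 1) c c' →
      ‖(cf (M.step c'), nx c' h) - f (cf c, h)‖ ≤ 3 * (1 / 10) ^ n := fun n c c' h hh hc => by
    rw [h3 _ _ h c'.1 (fun i => c'.2 i 0) hh (by simp [hc.1]) fun i => by
      rw [← hc.2 i 0 n.succ_pos]; linarith [cd_top (c.2 i)]]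
    refine pr_le (pk_of ?_ fun i => ?_) ?_
    · simp [hc.1, SM.step]
    · change ‖cd (app _ _) - _‖ ≤ _
      rw [cd_app, ← cd_pop, pushL_aff _ _ (pop (c'.2 i 0) (cd (c.2 i))), add_sub_cancel_right,
        pop, pop, ← smul_sub, sub_sub_sub_cancel_right, norm_smul, norm_smul, norm_pow,
        Real.norm_of_nonneg (by norm_num : (0 : ℝ) ≤ 1 / 10),
        Real.norm_of_nonneg (by norm_num : (0 : ℝ) ≤ 10)]
      have b1 := cd_agree (n + 1) (c'.2 i) (c.2 i) fun k hk => (hc.2 i k hk).symm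
      rw [pow_succ] at b1
      exact (mul_le_of_le_one_left (by positivity)
        (pow_le_one₀ (by norm_num) (by norm_num))).trans (by linarith)
    · simp [nx]
  have cf0 : ∀ c h, ‖h‖ ≤ 2 → cost f g (cf c, h) (cf (M.step c), nx c h) ≤ 0 := fun c h hh => by
    have : ‖(cf (M.step c), nx c h) - f (cf c, h)‖ ≤ 0 :=
      ge_of_tendsto' (by simpa using (tendsto_pow_atTop_nhds_zero_of_lt_one (r := (1 / 10 : ℝ))
        (by norm_num) (by norm_num)).const_mul 3) fun n => cstep n c c h hh ⟨rfl, fun _ _ _ => rfl⟩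
    simp [cost, cg, norm_le_zero_iff.1 this]
  have ex : ∀ T c, ∃ τ : (Q × (P → S) → ℝ) → Q × (P → S) → ℝ,
      (∀ h h', ‖τ h - τ h'‖ ≤ (1 / 10) ^ T * ‖h - h'‖) ∧ ∀ h, ‖h‖ ≤ 2 → ‖τ h‖ ≤ 2 ∧
        DPath f g Z T (cf c, h) (cf (M.step^[T] c), τ h) 0 := fun T => by
    induction T with
    | zero => exact fun c => ⟨id, by simp, fun h hh => ⟨hh, DPath.refl (cZ c h hh)⟩⟩
    | succ T ih =>
      intro c
      obtain ⟨τ, t1, t2⟩ := ih (M.step c)
      refine ⟨fun h => τ (nx c h), fun h h' => (t1 _ _).trans_eq ?_, fun h hh => ?_⟩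
      · simp only [nx]
        rw [add_sub_add_right_eq_sub, ← smul_sub, norm_smul, Real.norm_of_nonneg (by norm_num),
          pow_succ, mul_assoc]
      · have b1 : ‖nx c h‖ ≤ 2 := (nxle _ h hh).trans (by norm_num)
        refine ⟨(t2 _ b1).1, ?_⟩
        have := ((DPath.single (cZ c h hh) (cZ _ _ b1)).mono (cf0 c h hh)).trans (t2 _ b1).2
        rwa [add_comm, add_zero] at this
  have conn : ∀ ε > (0 : ℝ), ∃ n, ∀ c d, M.SConn n c d → ∀ T0, ∃ T ≥ T0, ∃ h0, ‖h0‖ ≤ 2 ∧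
      ∀ δ ≥ ε, ∀ h h', ‖h‖ ≤ 2 → ‖h'‖ ≤ 2 → ‖h' - h0‖ ≤ δ →
        DPath f g Z T (cf c, h) (cf d, h') (10 * δ ^ 2) := fun ε hε => by
    obtain ⟨n, hn⟩ := exists_pow_lt_of_lt_one (show 0 < ε / 4 by positivity)
      (show (1 / 10 : ℝ) < 1 by norm_num)
    refine ⟨n + 1, fun c d hs T0 => ?_⟩
    obtain ⟨T, hT, c', a1, a2⟩ := hs (T0 + n + 1)
    obtain ⟨T, rfl⟩ : ∃ T', T = T' + 1 := ⟨T - 1, by omega⟩
    obtain ⟨τ, t1, t2⟩ := ex T (M.step c')
    refine ⟨T + 1, by omega, τ 0, (t2 0 (by simp)).1, fun δ hδ h h' hh hh' hd => ?_⟩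
    have b1 : ‖nx c' h‖ ≤ 2 := (nxle _ h hh).trans (by norm_num)
    have b2 : cost f g (cf c, h) (cf (M.step c'), nx c' h) ≤ δ ^ 2 := by
      simp only [cost, cg, norm_zero]
      have := pow_le_pow_left₀ (norm_nonneg _) ((cstep n c c' h hh a1).trans
        (show _ ≤ δ by linarith)) 2
      linarith
    have b3 := ((DPath.single (cZ c h hh) (cZ _ _ b1)).mono b2).trans (t2 _ b1).2
    rw [add_comm 1 T] at b3
    refine (b3.adj (cZ d h' hh')).mono ?_
    have b4 : (1 / 10 : ℝ) ^ T ≤ (1 / 10) ^ n :=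
      pow_le_pow_of_le_one (by norm_num) (by norm_num) (by omega)
    have b5 : ‖(cf d, h') - (cf (M.step^[T] (M.step c')), τ (nx c' h))‖ ≤ 2 * δ := by
      refine pr_le (pk_of ?_ fun i => ?_) ?_
      · rw [← a2.1]
        simpa using (by linarith : 0 ≤ δ)
      · refine (cd_agree (n + 1) _ _ fun k hk => (a2.2 i k hk).symm).trans ?_
        rw [pow_succ]
        linarith
      · have b6 := t1 0 (nx c' h)
        rw [zero_sub, norm_neg] at b6
        have b7 := norm_add_le (h' - τ 0) (τ 0 - τ (nx c' h))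
        rw [sub_add_sub_cancel] at b7
        have b8 : (1 / 10 : ℝ) ^ T * ‖nx c' h‖ ≤ (1 / 10) ^ n * 2 :=
          mul_le_mul b4 b1 (norm_nonneg _) (by positivity)
        linarith
    have := pow_le_pow_left₀ (norm_nonneg _) b5 2
    linarith
  have sm : ∀ r > (0 : ℝ), ∃ ε > (0 : ℝ), 10 * ε ^ 2 ≤ r := fun r hr =>
    ⟨√(r / 10), by positivity, by rw [Real.sq_sqrt (by positivity)]; linarith⟩
  have arr : ∀ c, ∃ H, ‖H‖ ≤ 2 ∧ (c ∈ B → ∀ h, ‖h‖ ≤ 2 → ∀ r > 0,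
      DConn f g Z (cf c, h) (cf c, H) r) := fun c => by
    by_cases hc : c ∈ B
    swap
    · exact ⟨0, by simp, fun h => absurd h hc⟩
    have := fun k : ℕ => (conn (1 / ((k : ℝ) + 1)) (by positivity)).elim fun n hn =>
      hn c c (hrec c hc n) k
    choose T hT h0 b1 b2 using this
    obtain ⟨H, b3, φ, b4, b5⟩ := (isCompact_closedBall (0 : Q × (P → S) → ℝ) 2).tendsto_subseq
      (x := h0) fun k => mem_closedBall_zero_iff.2 (b1 k)
    rw [mem_closedBall_zero_iff] at b3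
    refine ⟨H, b3, fun _ h hh r hr T0 => ?_⟩
    obtain ⟨ε, e1, e2⟩ := sm r hr
    obtain ⟨k, ⟨k1, k2⟩, k3⟩ := (((Metric.tendsto_nhds.1 b5 ε e1).and (eventually_ge_atTop T0)).and
      ((tendsto_one_div_add_atTop_nhds_zero_nat.comp b4.tendsto_atTop).eventually
        (ge_mem_nhds e1))).exists
    exact ⟨T (φ k), k2.trans (b4.le_apply.trans (hT _)), (b2 (φ k) ε k3 h H hh b3 (by
      rw [← dist_eq_norm, dist_comm]; exact k1.le)).mono e2⟩
  choose H hH arr using arr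
  have blkZ : ∀ z z', cost f g z z' ≤ 1 / 100 → ‖z' - f z‖ ≤ 1 / 10 ∧ ∃ (q : Q) (top : P → S),
      ‖(fun q => z.1 (Sum.inl q)) - Pi.single q 1‖ ≤ 1 / 4 ∧
        ∀ i, ‖(fun s => z.1 (Sum.inr (i, s))) - Pi.single (top i) 1‖ ≤ 1 / 4 := fun z z' h => by
    unfold cost at h
    refine ⟨by nlinarith [norm_nonneg (z' - f z), sq_nonneg ‖g z‖], h5 _ _ z.2 ?_⟩
    rw [← pk_eta]
    nlinarith [norm_nonneg (g z), sq_nonneg ‖z' - f z‖]
  refine arc _ _ f g Z ((fun c => (cf c, H c)) '' B) (cf a, H a) (cf b, H b) (min c0 (1 / 100))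
    h1 h2 ((isBounded_closedBall (x := 0) (r := 3)).subset fun z hz => mem_closedBall_zero_iff.2
      (max_le hz.1 (hz.2.trans (by norm_num)))) (by positivity) (fun z hz z' h => ?_)
    (by rintro _ ⟨c, -, rfl⟩; exact cZ c _ (hH c)) ⟨a, ha, rfl⟩ ⟨b, hb, rfl⟩ (fun T c h => ?_)
    (by rintro _ ⟨c, hc, rfl⟩; exact arr c hc _ (hH c)) fun r hr => ?_
  · obtain ⟨b1, q, top, b2, b3⟩ := blkZ z z' (h.trans (min_le_right _ _))
    have b4 := h3 _ _ z.2 q top hz.2 b2 b3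
    rw [← pk_eta] at b4
    have b5 : ‖(f z).1‖ ≤ 5 / 2 := by
      rw [b4]
      dsimp only
      refine pk_nm ((norm_add_le _ _).trans ?_) fun i => ?_
      · rw [Pi.norm_single, norm_one, norm_smul, Real.norm_of_nonneg (by norm_num)]
        linarith
      · refine pushL_le _ ?_
        rw [pop, norm_smul, Real.norm_of_nonneg (by norm_num)]
        linarith [b3 i]
    have b6 : ‖(f z).2‖ ≤ 3 / 2 := by rw [b4]; exact nxle _ _ hz.2
    have b7 := norm_add_le (z' - f z).1 (f z).1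
    have b8 := norm_add_le (z' - f z).2 (f z).2
    rw [Prod.fst_sub, sub_add_cancel, ← Prod.fst_sub] at b7
    rw [Prod.snd_sub, sub_add_cancel, ← Prod.snd_sub] at b8
    exact ⟨by linarith [norm_fst_le (z' - f z)], by linarith [norm_snd_le (z' - f z)]⟩
  · by_contra hc
    obtain ⟨z, z0, zT, zZ, zc⟩ := h
    obtain ⟨k1, k2⟩ := lt_min_iff.1 (not_le.1 hc)
    have b1 : ∀ t < T, cost f g (z t) (z (t + 1)) ≤ 1 / 100 := fun t ht =>
      (Finset.single_le_sum (f := fun t => cost f g (z t) (z (t + 1))) (fun _ _ => cost_nonneg _ _)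
        (Finset.mem_range.2 ht)).trans (zc.trans k2.le)
    have b2 : ∀ t, ∃ (q : Q) (top : P → S), t ≤ T →
        ‖(fun q => (z t).1 (Sum.inl q)) - Pi.single q 1‖ ≤ 1 / 4 ∧
        ∀ i, ‖(fun s => (z t).1 (Sum.inr (i, s))) - Pi.single (top i) 1‖ ≤ 1 / 4 := fun t => by
      by_cases ht : t < T
      · obtain ⟨q, top, b⟩ := (blkZ _ _ (b1 t ht)).2
        exact ⟨q, top, fun _ => b⟩
      · refine ⟨b.1, fun i => b.2 i 0, fun h => ?_⟩
        rw [show t = T by omega, zT]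
        exact ⟨by simp [cf, pk], fun i => (cd_top (b.2 i)).trans (by norm_num)⟩
    choose q top b2 using b2
    have tri : ∀ {ι : Type} [Fintype ι] [DecidableEq ι] {x : ι → ℝ} {s s' : ι},
        ‖x - Pi.single s 1‖ ≤ 1 / 4 → ‖x - Pi.single s' 1‖ ≤ 1 / 2 → s = s' := by
      intro ι _ _ x s s' e1 e2
      have := norm_sub_le (x - Pi.single s' 1) (x - Pi.single s 1)
      rw [sub_sub_sub_cancel_left] at this
      exact single_eq (by linarith)
    have ends : ∀ t ≤ T, ∀ c h, z t = (cf c, h) → q t = c.1 ∧ ∀ i, top t i = c.2 i 0 :=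
      fun t ht c h e => by
        obtain ⟨e1, e2⟩ := b2 t ht
        rw [e] at e1 e2
        exact ⟨tri e1 (by simp [cf, pk]), fun i => tri (e2 i) ((cd_top (c.2 i)).trans (by norm_num))⟩
    have := low T q top (fun t i s => (z t).1 (Sum.inr (i, s))) (fun t => ‖z (t + 1) - f (z t)‖)
      ⟨fun t ht => (b2 t ht).2, fun t ht => ?_⟩ (ends 0 T.zero_le a _ z0).1
      (ends 0 T.zero_le a _ z0).2 (ends T le_rfl b _ zT).1 (ends T le_rfl b _ zT).2
    · refine absurd (this.trans ((Finset.sum_le_sum fun t _ => ?_).trans zc)) (not_le.2 k1)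
      exact le_add_of_nonneg_right (sq_nonneg _)
    have b4 := h3 _ _ (z t).2 (q t) (top t) (zZ t ht.le).2 (b2 t ht.le).1 (b2 t ht.le).2
    rw [← pk_eta] at b4
    have b5 := norm_fst_le (z (t + 1) - f (z t))
    rw [Prod.fst_sub, pk_eta (z (t + 1)).1, congrArg Prod.fst b4] at b5
    dsimp only at b5
    obtain ⟨b6, b7⟩ := (pk_le (norm_nonneg (z (t + 1) - f (z t)))).1 b5
    refine ⟨norm_nonneg _, tri (b2 (t + 1) ht).1 ?_, b7⟩
    have b8 := norm_add_le ((fun q => (z (t + 1)).1 (Sum.inl q)) - (Pi.single (M.nq (q t) (top t)) 1 +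
      (1 / 10 : ℝ) • ((fun q => (z t).1 (Sum.inl q)) - Pi.single (q t) 1)))
      ((1 / 10 : ℝ) • ((fun q => (z t).1 (Sum.inl q)) - Pi.single (q t) 1))
    rw [norm_smul, Real.norm_of_nonneg (by norm_num : (0 : ℝ) ≤ 1 / 10), ← sub_sub,
      sub_add_cancel] at b8
    rw [← sub_sub] at b6
    linarith [(blkZ _ _ (b1 t ht)).1, (b2 t ht.le).1]
  · obtain ⟨ε, e1, e2⟩ := sm (r / 2) (by positivity)
    obtain ⟨n, hn⟩ := conn ε e1
    have key : ∀ c d, d ∈ B → M.SConn n c d → DConn f g Z (cf c, H c) (cf d, H d) r :=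
      fun c d hd hs => by
        obtain ⟨T, -, h0, b1, b2⟩ := hn c d hs 0
        exact ((b2 ε le_rfl _ h0 (hH c) b1 (by simpa using e1.le)).trans_conn
          (arr d hd h0 b1 (r / 2) (by positivity))).mono (by linarith)
    exact (hch n).lift (fun c => (cf c, H c)) fun c d h =>
      ⟨⟨c, h.1, rfl⟩, ⟨d, h.2.1, rfl⟩, key c d h.2.1 h.2.2.1, key d c h.1 h.2.2.2⟩

end Pool.Agent.Lib.MP_7d4c8f_an.Q1
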