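import Pool.Agent.Lib.MP_7d4c8f_an.Q1Mach
import Pool.Agent.Lib.MP_7d4c8f_an.Phase
import Mathlib.Analysis.Calculus.BumpFunction.InnerProduct

/-! A horseshoe drives the finite control of a register machine. -/

namespace Pool.Agent.Lib.MP_7d4c8f_an.Q1
open Set Filter Topology Real
open scoped ContDiff

lemma iso_fst (k : ℝ) {h : ℝ → ℝ} (hh : ContDiff ℝ ∞ h) :
    Iso (fun z : ℝ × ℝ => (exp k * z.1 + h z.2, z.2)) := by
  have hc := hh.continuous
  refine ⟨fun p => (k * (p.2.1 - p.1 * h p.2.2) + h p.2.2, 0),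
    fun s z => (exp (s * k) * z.1 + s * h z.2, z.2), by fun_prop, by fun_prop, fun z s => ?_,
    fun z => by simp, fun z => by simp⟩
  refine HasDerivAt.prodMk (((((hasDerivAt_id s).mul_const k).exp.mul_const z.1).add
    ((hasDerivAt_id s).mul_const (h z.2))).congr_deriv ?_) (hasDerivAt_const s z.2)
  simp only [_root_.id]
  ring

lemma iso_snd (k : ℝ) {h : ℝ → ℝ} (hh : ContDiff ℝ ∞ h) :
    Iso (fun z : ℝ × ℝ => (z.1, exp k * z.2 + h z.1)) :=
  ((iso_fst k hh).conj (ContinuousLinearEquiv.prodComm ℝ ℝ ℝ)).congr fun z => by simp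

lemma iso_HR (a : ℝ) {b : ℝ} (hb : 0 < b) : Iso (HR a b) := by
  refine ((iso_fst 0 (h := fun y => -y / b) (by fun_prop)).comp
    ((iso_snd (log b) (h := fun x => b * x) (by fun_prop)).comp
    ((iso_fst 0 (h := fun y => -y) (by fun_prop)).comp
    (iso_snd (log b) (h := fun x => -x ^ 2 - a) (by fun_prop))))).congr fun z => ?_
  simp only [HR, exp_log hb, exp_zero]
  refine Prod.ext ?_ ?_
  · field_simp
    ring
  · simp only
    ring

section
variable {A C : Type} [NormedAddCommGroup A] [NormedSpace ℝ A] [NormedAddCommGroup C]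
  [NormedSpace ℝ C]

lemma Iso.right {f : C → C} (h : Iso f) : Iso (fun z : A × C => (z.1, f z.2)) := by
  obtain ⟨X, Φ, h1, h2, h3, h4, h5⟩ := h
  exact ⟨fun p => (0, X (p.1, p.2.2)), fun s z => (z.1, Φ s z.2),
    contDiff_const.prodMk (h1.comp (by fun_prop)),
    (continuous_fst.comp continuous_snd).prodMk
      (h2.comp (f := fun p : ℝ × A × C => (p.1, p.2.2)) (by fun_prop)),
    fun z s => (hasDerivAt_const s z.1).prodMk (h3 z.2 s), fun z => by simp [h4],
    fun z => by simp [h5]⟩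

lemma Iso.skew {ρ : Type} [Fintype ρ] {f : A → A} (h : Iso f) {u : ρ → C → ℝ}
    (hu : ∀ r, ContDiff ℝ ∞ (u r)) : ∃ G : (ρ → A) × C → (ρ → A) × C, Iso G ∧ ∀ z, (G z).2 = z.2 ∧
      ∀ r, (u r z.2 = 0 → (G z).1 r = z.1 r) ∧ (u r z.2 = 1 → (G z).1 r = f (z.1 r)) := by
  obtain ⟨X, Φ, h1, h2, h3, h4, h5⟩ := h
  refine ⟨fun z => (fun r => Φ (1 * u r z.2) (z.1 r), z.2),
    ⟨fun p => (fun r => u r p.2.2 • X (p.1 * u r p.2.2, p.2.1 r), 0),
      fun s z => (fun r => Φ (s * u r z.2) (z.1 r), z.2), ?_, ?_, fun z s => ?_,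
      fun z => by simp [h4], fun z => rfl⟩, fun z => ⟨rfl, fun r => ⟨fun e => ?_, fun e => ?_⟩⟩⟩
  · refine (contDiff_pi.2 fun r => ?_).prodMk contDiff_const
    have := hu r
    exact ContDiff.smul (by fun_prop) (h1.comp (by fun_prop))
  · refine (continuous_pi fun r => ?_).prodMk (by fun_prop)
    have := (hu r).continuous
    exact h2.comp (f := fun p : ℝ × (ρ → A) × C => (p.1 * u r p.2.2, p.2.1 r)) (by fun_prop)
  · refine HasDerivAt.prodMk (hasDerivAt_pi.2 fun r => ?_) (hasDerivAt_const s z.2)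
    have e := (h3 (z.1 r) (s * u r z.2)).scomp s ((hasDerivAt_id s).mul_const (u r z.2))
    simpa [Function.comp_def] using e
  · simp [e, h4]
  · simp [e, h5]

end

section
variable {σ : Type} [Fintype σ]

/-- the value of a symbol -/
noncomputable def cv (s : σ) : ℝ := ((Fintype.equivFin σ s : ℕ) : ℝ)

variable (σ) in
/-- a bound for the control coordinates -/
noncomputable def NN : ℝ := (Fintype.card σ : ℝ) + 1

variable (σ) in
/-- the expansion -/
noncomputable def lam : ℝ := 16 * NN σ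

lemma NN_ge : 1 ≤ NN σ := by unfold NN; linarith [Nat.cast_nonneg (α := ℝ) (Fintype.card σ)]

lemma lam_ge : 16 ≤ lam σ := by unfold lam; linarith [NN_ge (σ := σ)]

lemma cv_abs (s : σ) : |cv s| ≤ NN σ - 1 := by
  unfold cv NN
  rw [abs_of_nonneg (Nat.cast_nonneg _), add_sub_cancel_right]
  exact_mod_cast (Fintype.equivFin σ s).2.le

lemma cv_sep {s s' : σ} (h : |cv s - cv s'| < 1) : s = s' := by
  unfold cv at h
  have : |((Fintype.equivFin σ s : ℕ) : ℤ) - ((Fintype.equivFin σ s' : ℕ) : ℤ)| < 1 := by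
    exact_mod_cast h
  rw [Int.abs_lt_one_iff] at this
  exact (Fintype.equivFin σ).injective (Fin.ext (by omega))

lemma div_lam {y : ℝ} (h : |y| ≤ NN σ) : |y / lam σ| ≤ 1 / 16 := by
  have := lam_ge (σ := σ)
  rw [abs_div, abs_of_pos (by linarith : 0 < lam σ), div_le_div_iff₀ (by linarith) (by norm_num)]
  unfold lam
  linarith

/-- plateau functions -/
noncomputable def bump (x : ℝ) (hx : 0 < x) : ContDiffBump (0 : ℝ) := ⟨x, 2 * x, hx, by linarith⟩

lemma bump_one {x y : ℝ} {hx : 0 < x} (h : |y| ≤ x) : bump x hx y = 1 :=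
  (bump x hx).one_of_mem_closedBall (by simpa [bump] using h)

lemma bump_zero {x y : ℝ} {hx : 0 < x} (h : 2 * x ≤ |y|) : bump x hx y = 0 :=
  (bump x hx).zero_of_le_dist (by simpa [bump] using h)

/-- a smooth function with value `a s` near the value of `s` -/
noncomputable def sel (a : σ → ℝ) (w : ℝ) : ℝ := ∑ s, bump (1 / 4) (by norm_num) (w - cv s) * a s

lemma sel_smooth (a : σ → ℝ) : ContDiff ℝ ∞ (sel a) :=
  ContDiff.sum fun s _ => ((bump _ _).contDiff.comp (by fun_prop)).mul contDiff_const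

lemma sel_eq (a : σ → ℝ) {s : σ} {w : ℝ} (h : |w - cv s| ≤ 1 / 4) : sel a w = a s := by
  unfold sel
  rw [Finset.sum_eq_single s, bump_one h, one_mul]
  · intro s' _ hs
    rw [bump_zero, zero_mul]
    by_contra hc
    refine hs (cv_sep ?_)
    rw [not_le, abs_lt] at hc
    rw [abs_le] at h
    rw [abs_lt]
    constructor <;> linarith [hc.1, hc.2, h.1, h.2]
  · simp

/-- the fixed point of a symbol -/
noncomputable def fp (s : σ) : ℝ := cv s * lam σ / (lam σ - 1)

lemma fp_eq (s : σ) : fp s = fp s / lam σ + cv s := by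
  have := lam_ge (σ := σ)
  have h1 : lam σ - 1 ≠ 0 := by linarith
  have h2 : lam σ ≠ 0 := by linarith
  unfold fp
  field_simp
  ring

lemma fp_abs (s : σ) : |fp s| ≤ NN σ := by
  have h := lam_ge (σ := σ)
  have h1 := cv_abs s
  have h2 := NN_ge (σ := σ)
  unfold fp
  rw [abs_div, abs_mul, abs_of_pos (by linarith : 0 < lam σ - 1),
    abs_of_pos (by linarith : 0 < lam σ), div_le_iff₀ (by linarith)]
  have h3 : lam σ = 16 * NN σ := rfl
  nlinarith [mul_le_mul_of_nonneg_right h1 (by linarith : 0 ≤ lam σ)]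

lemma fp_near (s : σ) : |fp s - cv s| ≤ 1 / 16 := by
  have := div_lam (fp_abs s)
  rwa [show fp s / lam σ = fp s - cv s by linarith [fp_eq s]] at this

/-- the contracting recursion along a word -/
noncomputable def rc (u : ℕ → σ) (p : ℝ) : ℕ → ℝ
  | 0 => p
  | k + 1 => rc u p k / lam σ + cv (u k)

lemma rc_abs (u : ℕ → σ) {p : ℝ} (hp : |p| ≤ NN σ) (k : ℕ) : |rc u p k| ≤ NN σ := by
  induction k with
  | zero => exact hp
  | succ k ih =>
    refine (abs_add_le _ _).trans ?_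
    linarith [div_lam ih, cv_abs (u k)]

lemma rc_near (u : ℕ → σ) {p : ℝ} (hp : |p| ≤ NN σ) (a : σ) (n m : ℕ)
    (h : ∀ k < m, u (n + k) = a) : |rc u p (n + m) - fp a| ≤ 2 * NN σ * (1 / 2) ^ m := by
  have hl := lam_ge (σ := σ)
  induction m with
  | zero =>
    refine (abs_sub _ _).trans ?_
    simp only [add_zero, pow_zero]
    linarith [rc_abs u hp n, fp_abs a]
  | succ m ih =>
    have ih := ih fun k hk => h k (by omega)
    have e : rc u p (n + (m + 1)) - fp a = (rc u p (n + m) - fp a) / lam σ := by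
      rw [← add_assoc, rc, h m (by omega), sub_div]
      linarith [fp_eq a]
    rw [e, abs_div, abs_of_pos (by linarith : 0 < lam σ), div_le_iff₀ (by linarith), pow_succ]
    have : 0 ≤ 2 * NN σ * (1 / 2 : ℝ) ^ m := (abs_nonneg _).trans ih
    nlinarith

/-- an almost exact control orbit along a word that begins and ends with long constant blocks -/
lemma ctl_path (s : ℕ → σ) (T m : ℕ) (hT : m + 1 ≤ T) (a b : σ)
    (h : ∀ t ≤ m + 1, s t = a ∧ s (T - t) = b) : ∃ v w e : ℕ → ℝ,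
    v 0 = fp a ∧ w 0 = fp a ∧ v T = fp b ∧ w T = fp b ∧ (∀ t, |v t| ≤ NN σ ∧ |w t| ≤ NN σ) ∧
    ∑ t ∈ Finset.range T, e t ≤ 2 * (2 * NN σ * (1 / 2) ^ m) ^ 2 ∧ ∀ t < T,
      |lam σ * (w t - cv (s t)) - cv (s (t + 1))| ≤ 1 / 16 ∧
      (v (t + 1) - (v t / lam σ + cv (s t))) ^ 2 + (w (t + 1) - lam σ * (w t - cv (s t))) ^ 2 ≤ e t := by
  have hl := lam_ge (σ := σ)
  have hl0 : lam σ ≠ 0 := by linarith
  set δ := 2 * NN σ * (1 / 2 : ℝ) ^ m with hδ
  set W := rc (fun k => s (T - k - 1)) (fp b) with hW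
  have W1 : ∀ t < T, W (T - t) = W (T - (t + 1)) / lam σ + cv (s t) := fun t ht => by
    rw [show T - t = T - (t + 1) + 1 by omega, hW, rc, show T - (T - (t + 1)) - 1 = t by omega]
  have W2 : ∀ t ≤ T, |W (T - t) - cv (s t)| ≤ 1 / 16 := fun t ht => by
    rcases ht.lt_or_eq with ht | rfl
    · rw [W1 t ht, add_sub_cancel_right]
      exact div_lam (rc_abs _ (fp_abs b) _)
    · have := (h 0 (by omega)).2
      rw [Nat.sub_zero] at this
      rw [Nat.sub_self, this]
      exact fp_near b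
  have s0 : s 0 = a := (h 0 (by omega)).1
  have fa : lam σ * (fp a - cv a) = fp a := by
    rw [show fp a - cv a = fp a / lam σ by linarith [fp_eq a]]
    field_simp
  refine ⟨fun t => if t = T then fp b else rc s (fp a) t, fun t => if t = 0 then fp a else W (T - t),
    fun t => (if t = T - 1 then δ ^ 2 else 0) + (if t = 0 then δ ^ 2 else 0),
    by simp [show 0 ≠ T by omega, rc], by simp, by simp, by simp [show T ≠ 0 by omega, hW, rc],
    fun t => ⟨?_, ?_⟩, ?_, fun t ht => ⟨?_, add_le_add ?_ ?_⟩⟩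
  · dsimp only
    split_ifs
    exacts [fp_abs b, rc_abs _ (fp_abs a) _]
  · dsimp only
    split_ifs
    exacts [fp_abs a, rc_abs _ (fp_abs b) _]
  · rw [Finset.sum_add_distrib, Finset.sum_ite_eq', Finset.sum_ite_eq']
    have := sq_nonneg δ
    split_ifs <;> linarith
  · dsimp only
    split_ifs with h0
    · subst h0
      rw [s0, fa, (h (0 + 1) (by omega)).1]
      exact fp_near a
    · rw [W1 t ht, add_sub_cancel_right, mul_div_cancel₀ _ hl0]
      exact W2 _ ht
  · dsimp only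
    rw [if_neg ht.ne]
    by_cases h0 : t + 1 = T
    · rw [if_pos h0, if_pos (by omega), ← sq_abs, abs_sub_comm]
      refine pow_le_pow_left₀ (abs_nonneg _) ?_ 2
      have := rc_near s (fp_abs a) b (T - m) m fun k hk => by
        rw [show T - m + k = T - (m - k) by omega]
        exact (h _ (by omega)).2
      rwa [show T - m + m = t + 1 by omega, rc] at this
    · rw [if_neg h0, if_neg (by omega), rc]
      simp
  · dsimp only
    rw [if_neg (Nat.succ_ne_zero t)]
    by_cases h0 : t = 0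
    · subst h0
      rw [if_pos rfl, if_pos rfl, s0, fa, ← sq_abs]
      refine pow_le_pow_left₀ (abs_nonneg _) ?_ 2
      have := rc_near (fun k => s (T - k - 1)) (fp_abs b) a (T - 1 - m) m fun k hk => by
        rw [show T - (T - 1 - m + k) - 1 = m - k by omega]
        exact (h _ (by omega)).1
      rwa [show T - 1 - m + m = T - (0 + 1) by omega] at this
    · rw [if_neg h0, if_neg h0, W1 t ht, add_sub_cancel_right, mul_div_cancel₀ _ hl0]
      simp

end

section
variable {σ ρ : Type} [Fintype σ] [Fintype ρ] (M : Mach σ ρ)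

/-- the map driven by the horseshoe -/
lemma exists_map {F : ℝ × ℝ → ℝ × ℝ} (hF : Iso F) :
    ∃ f : (ρ → ℝ × ℝ) × ℝ × ℝ → (ρ → ℝ × ℝ) × ℝ × ℝ, Iso f ∧ ∀ z s, |z.2.1| ≤ NN σ →
      |z.2.2 - cv s| ≤ 1 / 4 → f z = (fun r => F^[M.sp s r] (z.1 r),
        z.2.1 / lam σ + cv s, lam σ * (z.2.2 - cv s)) := by
  have hl := lam_ge (σ := σ)
  have hl0 : 0 < lam σ := by linarith
  choose G hG using fun k : ℕ => hF.skew (ρ := ρ) (C := ℝ × ℝ)
    (u := fun r c => sel (fun s => if k < M.sp s r then 1 else 0) c.2)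
    fun r => (sel_smooth _).comp contDiff_snd
  let P : ℕ → (ρ → ℝ × ℝ) × ℝ × ℝ → (ρ → ℝ × ℝ) × ℝ × ℝ :=
    fun n => Nat.rec (fun z => z) (fun k Q z => G k (Q z)) n
  have hP : ∀ n z, (P n z).2 = z.2 ∧ ∀ s, |z.2.2 - cv s| ≤ 1 / 4 →
      ∀ r, (P n z).1 r = F^[min n (M.sp s r)] (z.1 r) := fun n z => by
    induction n with
    | zero => exact ⟨rfl, fun s _ r => by simp [P]⟩
    | succ n ih =>
      obtain ⟨g1, g2⟩ := (hG n).2 (P n z)
      refine ⟨g1.trans ih.1, fun s hs r => ?_⟩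
      have g3 := g2 r
      rw [ih.1, sel_eq _ hs, ih.2 s hs r] at g3
      by_cases hn : n < M.sp s r
      · rw [min_eq_left (by omega), Function.iterate_succ_apply']
        rw [min_eq_left hn.le] at g3
        exact g3.2 (if_pos hn)
      · rw [min_eq_right (by omega)]
        rw [min_eq_right (by omega)] at g3
        exact g3.1 (if_neg hn)
  obtain ⟨K, hK⟩ := (Set.finite_range fun q : σ × ρ => M.sp q.1 q.2).bddAbove
  have hc := (iso_snd (log (lam σ)) (h := fun v => -lam σ * sel (cv (σ := σ)) v)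
    (contDiff_const.mul (sel_smooth _))).comp (iso_fst (-log (lam σ)) (sel_smooth (cv (σ := σ))))
  refine ⟨_, (hc.right (A := ρ → ℝ × ℝ)).comp
    (Iso.iter (fun k => (hG k).1) P (fun _ => rfl) (fun _ _ => rfl) K), fun z s h1 h2 => ?_⟩
  obtain ⟨p1, p2⟩ := hP K z
  have e : exp (-log (lam σ)) * z.2.1 = z.2.1 / lam σ := by
    rw [exp_neg, exp_log hl0, div_eq_inv_mul]
  refine Prod.ext (funext fun r => ?_) ?_
  · have := p2 s h2 r
    rwa [min_eq_right (show M.sp s r ≤ K from hK ⟨(s, r), rfl⟩)] at this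
  · simp only [p1, e, sel_eq _ h2, exp_log hl0]
    rw [sel_eq (s := s) _ (by
      rw [add_sub_cancel_right]
      exact (div_lam h1).trans (by norm_num))]
    exact Prod.ext rfl (by ring)

/-- the tests of a symbol -/
def Mach.tst (s : σ) (r : ρ) : Option ρ → Prop
  | none => M.tip s r
  | some r' => M.eqv s r r'

open Classical in
/-- the penalty -/
noncomputable def pen (o : ℝ × ℝ) (z : (ρ → ℝ × ℝ) × ℝ × ℝ) : Option (ρ × Option ρ × Bool) → ℝ
  | none => ∏ q : σ × σ, (1 - (if M.succ q.1 q.2 then 1 else 0) *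
      bump (1 / 16) (by norm_num) (lam σ * (z.2.2 - cv q.1) - cv q.2))
  | some q => sel (fun s => if M.tst s q.1 q.2.1 then 1 else 0) z.2.2 *
      (bif q.2.2 then (z.1 q.1 - q.2.1.elim o z.1).1 else (z.1 q.1 - q.2.1.elim o z.1).2)

lemma pen_smooth (o : ℝ × ℝ) : ContDiff ℝ ∞ (pen M o) := by
  refine contDiff_pi.2 fun q => ?_
  rcases q with _ | ⟨r, j, c⟩
  · exact contDiff_prod fun q _ => contDiff_const.sub
      (contDiff_const.mul ((bump _ _).contDiff.comp (by fun_prop)))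
  · refine ((sel_smooth _).comp (by fun_prop)).mul ?_
    cases c <;> cases j <;> simp only [cond, Option.elim] <;> fun_prop

lemma pen_lo (o : ℝ × ℝ) (z : (ρ → ℝ × ℝ) × ℝ × ℝ) (h : ‖pen M o z‖ < 1) : ∃ s s', M.succ s s' ∧
    |z.2.2 - cv s| ≤ 1 / 4 ∧ |lam σ * (z.2.2 - cv s) - cv s'| ≤ 1 / 8 ∧
    ∀ r j, M.tst s r j → ‖z.1 r - j.elim o z.1‖ ≤ ‖pen M o z‖ := by
  have hl := lam_ge (σ := σ)
  have : ∃ s s', M.succ s s' ∧ |lam σ * (z.2.2 - cv s) - cv s'| ≤ 1 / 8 := by
    by_contra hc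
    push Not at hc
    have e : pen M o z none = 1 := Finset.prod_eq_one fun q _ => by
      split_ifs with hq
      · rw [bump_zero (by linarith [hc _ _ hq])]
        simp
      · simp
    have := norm_le_pi_norm (pen M o z) none
    rw [e, norm_one] at this
    linarith
  obtain ⟨s, s', h1, h2⟩ := this
  have h3 : |z.2.2 - cv s| ≤ 1 / 4 := by
    have h4 : |lam σ * (z.2.2 - cv s)| ≤ NN σ := by
      have := abs_add_le (lam σ * (z.2.2 - cv s) - cv s') (cv s')
      rw [sub_add_cancel] at this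
      linarith [cv_abs s']
    have := div_lam h4
    rw [mul_div_cancel_left₀ _ (by linarith)] at this
    linarith
  refine ⟨s, s', h1, h3, h2, fun r j hj => ?_⟩
  have e := fun c => norm_le_pi_norm (pen M o z) (some (r, j, c))
  simp only [pen, sel_eq _ h3, if_pos hj, one_mul] at e
  exact max_le (e true) (e false)

lemma pen_hi (o : ℝ × ℝ) (z : (ρ → ℝ × ℝ) × ℝ × ℝ) {s s' : σ} {η : ℝ} (hη : 0 ≤ η)
    (h1 : M.succ s s') (h2 : |z.2.2 - cv s| ≤ 1 / 4)
    (h3 : |lam σ * (z.2.2 - cv s) - cv s'| ≤ 1 / 16)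
    (h4 : ∀ r j, M.tst s r j → ‖z.1 r - j.elim o z.1‖ ≤ η) : ‖pen M o z‖ ≤ η := by
  refine (pi_norm_le_iff_of_nonneg hη).2 fun q => ?_
  rcases q with _ | ⟨r, j, c⟩
  · have e : pen M o z none = 0 := Finset.prod_eq_zero (Finset.mem_univ (s, s')) (by
      rw [if_pos h1, bump_one h3]
      simp)
    rwa [e, norm_zero]
  · simp only [pen, sel_eq _ h2]
    split_ifs with hj
    · rw [one_mul]
      cases c
      exacts [(norm_snd_le _).trans (h4 r j hj), (norm_fst_le _).trans (h4 r j hj)]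
    · simpa using hη

theorem ctl (h : ArcStmt) (a b : ℝ) (hb : 0 < b) (o : ℝ × ℝ) (V : Set (ℝ × ℝ))
    (hV : Bornology.IsBounded V) (ε : ℝ) (hε : 0 < ε)
    (trap : ∀ z ∈ V, ∀ z', ‖z' - HR a b z‖ ≤ ε → z' ∈ V) (hsp : ∀ s r, 1 ≤ M.sp s r)
    (hG : M.Good (HR a b) o V) : Concl := by
  classical
  obtain ⟨B, α, β, c0, hα, hβ, hc0, hB, hlo, hrec, hch⟩ := hG
  obtain ⟨f, hf, hf'⟩ := exists_map M (iso_HR a hb)
  have hN := NN_ge (σ := σ)
  have hl := lam_ge (σ := σ)
  set S : Set ((ρ → ℝ × ℝ) × ℝ × ℝ) := {z | (∀ r, z.1 r ∈ V) ∧ |z.2.1| ≤ NN σ ∧ |z.2.2| ≤ NN σ}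
    with hS
  let hat : σ × (ρ → ℝ × ℝ) → (ρ → ℝ × ℝ) × ℝ × ℝ := fun z => (z.2, fp z.1, fp z.1)
  have hit : ∀ n, ∀ z ∈ V, (HR a b)^[n] z ∈ V := fun n z hz => by
    induction n with
    | zero => exact hz
    | succ n ih =>
      rw [Function.iterate_succ_apply']
      exact trap _ ih _ (by simpa using hε.le)
  -- one cheap step
  have key : ∀ z ∈ S, ∀ z' η, 0 ≤ η → η ≤ 1 / 8 → cost f (pen M o) z z' ≤ η ^ 2 → ∃ s s',
      |z.2.2 - cv s| ≤ 1 / 4 ∧ |z'.2.2 - cv s'| ≤ 1 / 4 ∧ |z'.2.1| ≤ NN σ ∧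
      M.Step (HR a b) o s z.1 s' z'.1 η := fun z hz z' η h0 h1 h2 => by
    unfold cost at h2
    have h3 : ‖z' - f z‖ ≤ η := abs_le_of_sq_le_sq' (by linarith [sq_nonneg ‖pen M o z‖]) h0 |>.2
    have h4 : ‖pen M o z‖ ≤ η := abs_le_of_sq_le_sq' (by linarith [sq_nonneg ‖z' - f z‖]) h0 |>.2
    obtain ⟨s, s', k1, k2, k3, k4⟩ := pen_lo M o z (by linarith)
    rw [hf' z s hz.2.1 k2] at h3
    have e1 : |z'.2.1 - (z.2.1 / lam σ + cv s)| ≤ η :=
      (norm_fst_le _).trans ((norm_snd_le _).trans h3)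
    have e2 : |z'.2.2 - lam σ * (z.2.2 - cv s)| ≤ η :=
      (norm_snd_le _).trans ((norm_snd_le _).trans h3)
    have e3 := div_lam hz.2.1
    have e4 := cv_abs s
    refine ⟨s, s', k2, ?_, ?_, h0, k1, fun r => ?_, fun r r' hr => (k4 r (some r') hr).trans h4,
      fun r hr => (k4 r none hr).trans h4⟩
    · rw [abs_le] at *
      constructor <;> linarith [e2.1, e2.2, k3.1, k3.2]
    · rw [abs_le] at *
      constructor <;> linarith [e1.1, e1.2, e3.1, e3.2, e4.1, e4.2]
    · exact (norm_le_pi_norm (z' - _).1 r).trans ((norm_fst_le _).trans h3)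
  -- runs give paths
  have up : ∀ z z' c, 0 < c → M.Conn (HR a b) o V z z' (c / 4) →
      DConn f (pen M o) S (hat z) (hat z') c := fun z z' c hc hC T0 => by
    have : Tendsto (fun m : ℕ => 2 * (2 * NN σ * (1 / 2 : ℝ) ^ m) ^ 2) atTop
        (𝓝 (2 * (2 * NN σ * 0) ^ 2)) :=
      (((tendsto_pow_atTop_nhds_zero_of_lt_one (by norm_num) (by norm_num)).const_mul _).pow
        2).const_mul _
    obtain ⟨m, hm, hm'⟩ := ((this.eventually (gt_mem_nhds (show _ < c / 2 by
      simpa using hc))).and (eventually_ge_atTop T0)).exists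
    obtain ⟨T, hT, s, x, ⟨r1, η, r2, r3⟩, x0, xT, hs⟩ := hC (m + 1)
    obtain ⟨v, w, e, v0, w0, vT, wT, hvw, he, hst⟩ := ctl_path s T m hT z.1 z'.1 hs
    refine ⟨T, by omega, fun t => (x t, v t, w t), by simp [hat, x0, v0, w0],
      by simp [hat, xT, vT, wT], fun t ht => ⟨r1 t ht, hvw t⟩, ?_⟩
    have hs : ∀ t ∈ Finset.range T, cost f (pen M o) (x t, v t, w t) (x (t + 1), v (t + 1), w (t + 1))
        ≤ 2 * η t ^ 2 + e t := fun t ht => by
      have ht := Finset.mem_range.1 ht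
      obtain ⟨q0, q1, q2, q3, q4⟩ := r2 t ht
      obtain ⟨u1, u2⟩ := hst t ht
      have h3 : |w t - cv (s t)| ≤ 1 / 4 := by
        have h4 : |lam σ * (w t - cv (s t))| ≤ NN σ := by
          have := abs_add_le (lam σ * (w t - cv (s t)) - cv (s (t + 1))) (cv (s (t + 1)))
          rw [sub_add_cancel] at this
          linarith [cv_abs (s (t + 1))]
        have := div_lam h4
        rw [mul_div_cancel_left₀ _ (by linarith)] at this
        linarith
      have p1 := pen_hi M o (x t, v t, w t) q0 q1 h3 u1 fun r j hj => by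
        cases j
        exacts [q4 r hj, q3 r _ hj]
      have p2 := pow_le_pow_left₀ (norm_nonneg _) p1 2
      have p3 : ‖(x (t + 1), v (t + 1), w (t + 1)) - f (x t, v t, w t)‖ ^ 2 ≤ η t ^ 2 + e t := by
        rw [hf' _ (s t) (hvw t).1 h3]
        have a1 := sq_nonneg (η t)
        have a2 := sq_nonneg (v (t + 1) - (v t / lam σ + cv (s t)))
        have a3 := sq_nonneg (w (t + 1) - lam σ * (w t - cv (s t)))
        have a4 := pow_le_pow_left₀ (norm_nonneg _) ((pi_norm_le_iff_of_nonneg q0).2 q2) 2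
        simp only [Prod.mk_sub_mk, Prod.norm_mk, Real.norm_eq_abs]
        rcases max_choice ‖x (t + 1) - fun r => (HR a b)^[M.sp (s t) r] (x t r)‖
          (max |v (t + 1) - (v t / lam σ + cv (s t))| |w (t + 1) - lam σ * (w t - cv (s t))|)
          with e1 | e1
        · rw [e1]
          exact a4.trans (by linarith)
        · rw [e1]
          rcases max_choice |v (t + 1) - (v t / lam σ + cv (s t))|
            |w (t + 1) - lam σ * (w t - cv (s t))| with e2 | e2 <;> rw [e2, sq_abs] <;> linarith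
      unfold cost
      linarith
    refine (Finset.sum_le_sum hs).trans ?_
    rw [Finset.sum_add_distrib, ← Finset.mul_sum]
    linarith
  set η0 := min (min ε (1 / 8)) (min c0 1) with hη0
  have n0 : 0 < η0 := by positivity
  have n1 : η0 ≤ ε := (min_le_left _ _).trans (min_le_left _ _)
  have n2 : η0 ≤ 1 / 8 := (min_le_left _ _).trans (min_le_right _ _)
  have n3 : η0 ≤ c0 := (min_le_right _ _).trans (min_le_left _ _)
  refine h _ _ f (pen M o) S (hat '' B) (hat α) (hat β) (η0 ^ 2) hf (pen_smooth M o) ?_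
    (by positivity) (fun z hz z' hc => ?_) ?_ ⟨α, hα, rfl⟩ ⟨β, hβ, rfl⟩ (fun T c hP => ?_) ?_
    fun c hc => ?_
  · obtain ⟨R, hR⟩ := hV.exists_norm_le
    refine isBounded_iff_forall_norm_le.2 ⟨max (max R 0) (NN σ), fun z hz => ?_⟩
    exact max_le_max ((pi_norm_le_iff_of_nonneg (le_max_right _ _)).2 fun r =>
      (hR _ (hz.1 r)).trans (le_max_left _ _)) (max_le hz.2.1 hz.2.2)
  · obtain ⟨s, s', -, k2, k3, -, -, k4, -⟩ := key z hz z' η0 n0.le n2 hc
    refine ⟨fun r => ?_, k3, ?_⟩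
    · have := k4 r
      obtain ⟨n, hn⟩ := Nat.exists_eq_add_of_le' (hsp s r)
      rw [hn, Function.iterate_succ_apply'] at this
      exact trap _ (hit n _ (hz.1 r)) _ (this.trans n1)
    · have := abs_add_le (z'.2.2 - cv s') (cv s')
      rw [sub_add_cancel] at this
      linarith [cv_abs s']
  · rintro _ ⟨z, hz, rfl⟩
    exact ⟨(hB z hz).2, fp_abs _, fp_abs _⟩
  · by_contra hc
    rw [not_le] at hc
    obtain ⟨z, z0, zT, zS, zc⟩ := hP
    let sy : ℝ → σ := fun w => if h : ∃ s : σ, |w - cv s| ≤ 1 / 4 then h.choose else α.1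
    have hsy : ∀ w s, |w - cv s| ≤ 1 / 4 → sy w = s := fun w s hw => by
      have e : ∃ s : σ, |w - cv s| ≤ 1 / 4 := ⟨s, hw⟩
      have e2 := e.choose_spec
      simp only [sy, dif_pos e]
      refine cv_sep ?_
      rw [abs_le] at hw e2
      rw [abs_lt]
      constructor <;> linarith [hw.1, hw.2, e2.1, e2.2]
    have sq : ∀ t, √(cost f (pen M o) (z t) (z (t + 1))) ^ 2 = cost f (pen M o) (z t) (z (t + 1)) :=
      fun t => sq_sqrt (cost_nonneg _ _)
    have := hlo T (fun t => sy (z t).2.2) (fun t => (z t).1) c ⟨fun t ht => (zS t ht).1,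
      fun t => √(cost f (pen M o) (z t) (z (t + 1))), fun t ht => ?_, by simpa only [sq] using zc⟩
      (by rw [z0, hsy _ α.1 ((fp_near _).trans (by norm_num))])
      (by rw [zT, hsy _ β.1 ((fp_near _).trans (by norm_num))])
    · nlinarith
    · have e := (Finset.single_le_sum (f := fun t => cost f (pen M o) (z t) (z (t + 1)))
        (fun t _ => cost_nonneg _ _) (Finset.mem_range.2 ht)).trans zc
      obtain ⟨s, s', k1, k2, -, k4⟩ := key _ (zS t ht.le) (z (t + 1)) _ (sqrt_nonneg _)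
        (sqrt_le_iff.2 ⟨by norm_num, by nlinarith⟩) (sq t).ge
      dsimp only
      rwa [hsy _ _ k1, hsy _ _ k2]
  · rintro _ ⟨z, hz, rfl⟩ c hc
    exact up z z c hc (hrec z hz _ (by positivity))
  · have := hch (c / 4) (by positivity)
    clear hβ hlo hch
    induction this with
    | refl => exact .refl
    | tail _ hz ih =>
      exact ih.tail ⟨⟨_, hz.1, rfl⟩, ⟨_, hz.2.1, rfl⟩, up _ _ c hc hz.2.2.1, up _ _ c hc hz.2.2.2⟩

end

end Pool.Agent.Lib.MP_7d4c8f_an.Q1
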