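import Pool.Agent.Lib.MP_7d4c8f_an.Q1Act
import Pool.Agent.Lib.MP_7d4c8f_an.EL
import Mathlib.Geometry.Manifold.IntegralCurve.UniformTime
import Mathlib.Analysis.Calculus.ContDiff.RCLike

/-! Mane Lagrangians: Tonelli properties, completeness, critical value. -/

namespace Pool.Agent.Lib.MP_7d4c8f_an.Q1
open MeasureTheory Filter Set Metric
open scoped ContDiff Manifold

variable {d : ℕ}

lemma pr_int (x : E d) (m : Fin d → ℤ) : pr (x + fun i => (m i : ℝ)) = pr x := by
  ext i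
  simp only [pr, Pi.add_apply]
  rw [AddCircle.coe_add, add_eq_left, AddCircle.coe_eq_zero_iff]
  exact ⟨m i, by simp⟩

lemma per_bdd {F : Type*} [NormedAddCommGroup F] {g : ℝ × E d → F} (hg : Continuous g)
    (hp : ∀ t x (n : ℤ) (m : Fin d → ℤ), g (t + n, x + fun i => (m i : ℝ)) = g (t, x)) :
    ∃ K, ∀ p, ‖g p‖ ≤ K := by
  obtain ⟨K, hK⟩ := (isCompact_closedBall (0 : ℝ × E d) 1).exists_bound_of_continuousOn
    hg.continuousOn
  refine ⟨K, fun p => ?_⟩
  have := hp (Int.fract p.1) (fun i => Int.fract (p.2 i)) ⌊p.1⌋ fun i => ⌊p.2 i⌋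
  rw [Int.fract_add_floor, show ((fun i => Int.fract (p.2 i)) + fun i => (⌊p.2 i⌋ : ℝ)) = p.2 from
    funext fun i => Int.fract_add_floor _] at this
  rw [show g p = _ from this]
  have h : ∀ a : ℝ, ‖Int.fract a‖ ≤ 1 := fun a => by
    rw [Real.norm_eq_abs, abs_of_nonneg (Int.fract_nonneg a)]; exact (Int.fract_lt_one a).le
  refine hK _ ?_
  rw [mem_closedBall_zero_iff, Prod.norm_def]
  exact max_le (h _) ((pi_norm_le_iff_of_nonneg zero_le_one).2 fun i => h _)

noncomputable def ML (Y : UnitAddCircle → Tor d → E d) (U : UnitAddCircle → Tor d → ℝ)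
    (z : Ph d) : ℝ :=
  1 / 2 * ∑ i, (z.2.1 i - Y z.2.2 z.1 i) ^ 2 + U z.2.2 z.1

def XX {F : Type} (Y : UnitAddCircle → Tor d → F) (t : ℝ) (x : E d) : F := Y t (pr x)

variable {Y : UnitAddCircle → Tor d → E d} {U : UnitAddCircle → Tor d → ℝ}

lemma ML_nonneg (hU : ∀ t x, 0 ≤ U t x) (z : Ph d) : 0 ≤ ML Y U z :=
  add_nonneg (by positivity) (hU _ _)

lemma lift_ML (x v : E d) (t : ℝ) :
    lift (ML Y U) x v t = 1 / 2 * ∑ i, ((v - XX Y t x) i) ^ 2 + XX U t x := rfl

lemma norm_sq_le {ι : Type} [Fintype ι] (w : ι → ℝ) : ‖w‖ ^ 2 ≤ ∑ i, w i ^ 2 := by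
  have h0 : 0 ≤ ∑ i, w i ^ 2 := by positivity
  refine (pow_le_pow_left₀ (norm_nonneg _) ((pi_norm_le_iff_of_nonneg (Real.sqrt_nonneg _)).2
    fun i => Real.abs_le_sqrt (Finset.single_le_sum (f := fun i => w i ^ 2)
      (fun _ _ => sq_nonneg _) (Finset.mem_univ i))) 2).trans_eq (Real.sq_sqrt h0)

lemma sq_le_norm {ι : Type} [Fintype ι] (w : ι → ℝ) :
    ∑ i, w i ^ 2 ≤ Fintype.card ι * ‖w‖ ^ 2 := by
  have : ∀ i, w i ^ 2 ≤ ‖w‖ ^ 2 := fun i => by
    rw [← sq_abs]; exact pow_le_pow_left₀ (abs_nonneg _) (norm_le_pi_norm w i) 2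
  simpa using Finset.sum_le_card_nsmul Finset.univ _ _ fun i _ => this i

noncomputable def BB : E d →L[ℝ] E d →L[ℝ] ℝ :=
  ∑ i, (ContinuousLinearMap.proj (R := ℝ) (φ := fun _ : Fin d => ℝ) i).smulRight
    (ContinuousLinearMap.proj (R := ℝ) (φ := fun _ : Fin d => ℝ) i)

lemma BB_apply (u w : E d) : BB u w = ∑ i, u i * w i := by simp [BB]

lemma fd_sq {g : E d → E d} {g' : E d →L[ℝ] E d} {y : E d} (h : HasFDerivAt g g' y) :
    HasFDerivAt (fun y => 1 / 2 * ∑ i, (g y i) ^ 2) ((BB (g y)).comp g') y := by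
  have h1 := (BB.hasFDerivAt_of_bilinear h h).const_mul (1 / 2)
  have e : (fun y => 1 / 2 * ∑ i, (g y i) ^ 2) = fun y => 1 / 2 * BB (g y) (g y) := by
    ext y; simp [BB_apply, sq]
  rw [e]
  refine h1.congr_fderiv (ContinuousLinearMap.ext fun w => ?_)
  simp only [BB_apply, ContinuousLinearMap.comp_apply, smul_apply, add_apply,
    ContinuousLinearMap.precompR_apply, ContinuousLinearMap.precompL_apply,
    ContinuousLinearMap.compL_apply, smul_eq_mul, mul_comm (g' w _)]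
  ring

lemma fd_v (x v : E d) (t : ℝ) : fderiv ℝ (fun u => lift (ML Y U) x u t) v = BB (v - XX Y t x) :=
  ((fd_sq ((hasFDerivAt_id v).sub_const (XX Y t x))).add_const (XX U t x)).fderiv

section
variable {F : Type} [NormedAddCommGroup F] [NormedSpace ℝ F] {Y : UnitAddCircle → Tor d → F}
variable (hY : ContDiff ℝ ∞ fun p : ℝ × E d => XX Y p.1 p.2)
include hY

lemma XX_diff (t : ℝ) : Differentiable ℝ (XX Y t) :=
  (hY.comp (contDiff_prodMk_right t)).differentiable (by simp)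

lemma D_smooth : ContDiff ℝ ∞ fun p : ℝ × E d => fderiv ℝ (XX Y p.1) p.2 :=
  ContDiff.fderiv (m := ∞) (f := fun p : ℝ × E d => XX Y p.1)
    (hY.comp (f := fun q : (ℝ × E d) × E d => (q.1.1, q.2)) (by fun_prop)) contDiff_snd (by simp)

lemma XX_bdd : ∃ K > 0, ∀ t x, ‖XX Y t x‖ ≤ K ∧ ‖fderiv ℝ (XX Y t) x‖ ≤ K := by
  have hp : ∀ t x (n : ℤ) (m : Fin d → ℤ), XX Y (t + n) (x + fun i => (m i : ℝ)) = XX Y t x :=
    fun t x n m => by simp only [XX, pr_int, coe_add_int]
  obtain ⟨K1, h1⟩ := per_bdd hY.continuous hp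
  obtain ⟨K2, h2⟩ := per_bdd (D_smooth hY).continuous fun t x n m => by
    simp only [← fderiv_comp_add_right, hp]
  exact ⟨max 1 (max K1 K2), by positivity, fun t x =>
    ⟨(h1 (t, x)).trans (le_max_of_le_right (le_max_left _ _)),
      (h2 (t, x)).trans (le_max_of_le_right (le_max_right _ _))⟩⟩

lemma XX_lip : ∃ K : NNReal, 0 < K ∧ ∀ t, LipschitzWith K (XX Y t) := by
  obtain ⟨K, hK, h⟩ := XX_bdd hY
  exact ⟨⟨K, hK.le⟩, hK, fun t => lipschitzWith_of_nnnorm_fderiv_le (XX_diff hY t)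
    fun x => (h t x).2⟩

end

noncomputable def cov (p : E d) (D : E d →L[ℝ] E d) : E d := fun j => -BB p (D (Pi.single j 1))
noncomputable def grad (D : E d →L[ℝ] ℝ) : E d := fun j => D (Pi.single j 1)

lemma BB_grad (w : E d) (D : E d →L[ℝ] ℝ) : BB (grad D) w = D w := by
  conv_rhs => rw [← Finset.univ_sum_single w]
  rw [BB_apply, map_sum]
  refine Finset.sum_congr rfl fun j _ => ?_
  rw [show Pi.single j (w j) = w j • (Pi.single j 1 : E d) by rw [← Pi.single_smul]; simp,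
    map_smul]
  simp [grad, mul_comm]

lemma BB_cov (p w : E d) (D : E d →L[ℝ] E d) : BB (cov p D) w = -BB p (D w) :=
  BB_grad w (-(BB p).comp D)

lemma cov_smooth : ContDiff ℝ ∞ fun q : E d × (E d →L[ℝ] E d) => cov q.1 q.2 := by
  refine contDiff_pi.2 fun j => ContDiff.neg ?_
  exact (BB.contDiff.comp contDiff_fst).clm_apply (contDiff_snd.clm_apply contDiff_const)

lemma grad_smooth : ContDiff ℝ ∞ fun q : E d →L[ℝ] ℝ => grad q :=
  contDiff_pi.2 fun _ => contDiff_id.clm_apply contDiff_const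

variable (hY : ContDiff ℝ ∞ fun p : ℝ × E d => XX Y p.1 p.2)
  (hU : ContDiff ℝ ∞ fun p : ℝ × E d => XX U p.1 p.2)
include hY hU

theorem tonelli (h0 : ∀ t x, 0 ≤ U t x) : IsTonelli (ML Y U) := by
  refine ⟨?_, fun x v t w hw => ?_, fun K => ?_⟩
  · simp only [lift_ML]
    have h2 : ContDiff ℝ ∞ fun p : E d × E d × ℝ => (p.2.2, p.1) := by fun_prop
    have h1 : ContDiff ℝ ∞ fun p : E d × E d × ℝ => p.2.1 - XX Y p.2.2 p.1 :=
      ContDiff.sub (by fun_prop) (hY.comp h2)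
    exact (contDiff_const.mul (ContDiff.sum fun i _ => (contDiff_pi.1 h1 i).pow 2)).add
      (hU.comp h2)
  · rw [iteratedFDeriv_two_apply, show fderiv ℝ (fun u => lift (ML Y U) x u t) =
      fun v => BB (v - XX Y t x) from funext fun v => fd_v x v t,
      show fderiv ℝ (fun v => BB (v - XX Y t x)) v = _ from
        (BB.hasFDerivAt.comp v ((hasFDerivAt_id v).sub_const (XX Y t x))).fderiv]
    change 0 < BB w w
    rw [BB_apply]
    have := norm_sq_le w
    simp only [sq] at this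
    exact lt_of_lt_of_le (mul_pos (norm_pos_iff.2 hw) (norm_pos_iff.2 hw)) this
  · obtain ⟨B, hB, h⟩ := XX_bdd hY
    refine ⟨K ^ 2 / 2 + |K| * B, fun x v t => ?_⟩
    have h1 := norm_sq_le (v - XX Y t x)
    have h2 := norm_add_le (v - XX Y t x) (XX Y t x)
    rw [sub_add_cancel] at h2
    have h3 : K * ‖v‖ ≤ |K| * (‖v - XX Y t x‖ + B) :=
      mul_le_mul (le_abs_self K) (by linarith [(h t x).1]) (norm_nonneg _) (abs_nonneg _)
    have h4 : 0 ≤ XX U t x := h0 _ _
    rw [lift_ML]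
    nlinarith [sq_nonneg (|K| - ‖v - XX Y t x‖), sq_abs K]

lemma isEL_of {x p : ℝ → E d} (hx : ∀ t, HasDerivAt x (p t + XX Y t (x t)) t)
    (hp : ∀ t, HasDerivAt p
      (cov (p t) (fderiv ℝ (XX Y t) (x t)) + grad (fderiv ℝ (XX U t) (x t))) t) :
    IsEL (ML Y U) x := by
  have dx : deriv x = fun t => p t + XX Y t (x t) := funext fun t => (hx t).deriv
  have dp : deriv p = fun t => cov (p t) (fderiv ℝ (XX Y t) (x t)) +
    grad (fderiv ℝ (XX U t) (x t)) := funext fun t => (hp t).deriv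
  have x0 : Differentiable ℝ x := fun t => (hx t).differentiableAt
  have p0 : Differentiable ℝ p := fun t => (hp t).differentiableAt
  have x1 : ContDiff ℝ 1 x := contDiff_one_iff_deriv.2 ⟨x0, dx ▸ p0.continuous.add
    (hY.continuous.comp (continuous_id.prodMk x0.continuous))⟩
  have p1 : ContDiff ℝ 1 p := contDiff_one_iff_deriv.2 ⟨p0, dp ▸ (cov_smooth.continuous.comp
    (p0.continuous.prodMk ((D_smooth hY).continuous.comp
      (continuous_id.prodMk x0.continuous)))).add (grad_smooth.continuous.comp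
        ((D_smooth hU).continuous.comp (continuous_id.prodMk x0.continuous)))⟩
  refine ⟨(contDiff_succ_iff_deriv (n := 1)).2 ⟨x0, by simp, dx ▸ p1.add
    ((hY.of_le (by simp)).comp (contDiff_id.prodMk x1))⟩, fun t w => ?_⟩
  simp only [fd_v, dx, add_sub_cancel_right]
  simp only [lift_ML]
  rw [show fderiv ℝ (fun y => 1 / 2 * ∑ i, (p t + XX Y t (x t) - XX Y t y) i ^ 2 + XX U t y)
    (x t) = _ from
    ((fd_sq ((XX_diff hY t (x t)).hasFDerivAt.const_sub (p t + XX Y t (x t)))).add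
      (XX_diff hU t (x t)).hasFDerivAt).fderiv]
  have := ((BB.flip w).hasFDerivAt.comp_hasDerivAt t (hp t))
  refine HasDerivAt.congr_deriv this ?_
  simp [BB_cov, BB_grad]

lemma exists_EL (q v : E d) (t0 : ℝ) : ∃ x, IsEL (ML Y U) x ∧ x t0 = q ∧ deriv x t0 = v := by
  obtain ⟨B, hB, h⟩ := XX_bdd hY
  obtain ⟨B', hB', h'⟩ := XX_bdd hU
  obtain ⟨z, h0, hz⟩ := global_ode (Z := E d × E d × ℝ) (W := fun z => (z.2.1 + XX Y z.2.2 z.1,
    cov z.2.1 (fderiv ℝ (XX Y z.2.2) z.1) + grad (fderiv ℝ (XX U z.2.2) z.1), 1)) (by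
      have h1 : ContDiff ℝ ∞ fun z : E d × E d × ℝ => (z.2.2, z.1) := by fun_prop
      have h2 : ContDiff ℝ ∞ fun z : E d × E d × ℝ => z.2.1 := by fun_prop
      exact ((h2.add (hY.comp h1)).prodMk (((cov_smooth.comp (h2.prodMk
        ((D_smooth hY).comp h1))).add (grad_smooth.comp ((D_smooth hU).comp h1))).prodMk
          contDiff_const)).of_le (by simp))
    (B := d * B + B + B' + 1) (by positivity) (fun z => by
      have h1 : ‖z.2.1‖ ≤ ‖z‖ := (norm_fst_le z.2).trans (norm_snd_le z)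
      have h2 := norm_nonneg z
      have h3 := mul_nonneg hB.le h2
      have h3' := mul_nonneg hB'.le h2
      have hd : 0 ≤ d * B := by positivity
      have h3'' := mul_nonneg hd h2
      rw [Prod.norm_def, Prod.norm_def]
      refine max_le ((norm_add_le _ _).trans ?_) (max_le ((norm_add_le _ _).trans ?_) ?_)
      · nlinarith [(h z.2.2 z.1).1]
      · have a1 : ‖cov z.2.1 (fderiv ℝ (XX Y z.2.2) z.1)‖ ≤ d * (‖z‖ * B) := by
          refine (pi_norm_le_iff_of_nonneg (by positivity)).2 fun j => ?_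
          have h4 : ‖fderiv ℝ (XX Y z.2.2) z.1 (Pi.single j 1)‖ ≤ B := by
            simpa [Pi.norm_single] using (fderiv ℝ (XX Y z.2.2) z.1).le_of_opNorm_le
              (h z.2.2 z.1).2 (Pi.single j 1)
          simp only [cov, BB_apply, norm_neg]
          refine (norm_sum_le _ _).trans ((Finset.sum_le_card_nsmul _ _ (‖z‖ * B)
            fun i _ => ?_).trans (by simp))
          rw [norm_mul]
          exact mul_le_mul ((norm_le_pi_norm _ i).trans h1) ((norm_le_pi_norm _ i).trans h4)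
            (norm_nonneg _) h2
        have a2 : ‖grad (fderiv ℝ (XX U z.2.2) z.1)‖ ≤ B' := by
          refine (pi_norm_le_iff_of_nonneg hB'.le).2 fun j => ?_
          simpa [Pi.norm_single, grad] using (fderiv ℝ (XX U z.2.2) z.1).le_of_opNorm_le
            (h' z.2.2 z.1).2 (Pi.single j 1)
        nlinarith
      · simp; nlinarith) (q, v - XX Y t0 q, t0)
  have z1 := fun s => (ContinuousLinearMap.fst ℝ _ _).hasFDerivAt.comp_hasDerivAt s (hz s)
  have z2 := fun s => (ContinuousLinearMap.snd ℝ _ _).hasFDerivAt.comp_hasDerivAt s (hz s)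
  have z21 := fun s => (ContinuousLinearMap.fst ℝ _ _).hasFDerivAt.comp_hasDerivAt s (z2 s)
  have z22 := fun s => (ContinuousLinearMap.snd ℝ _ _).hasFDerivAt.comp_hasDerivAt s (z2 s)
  have ht : ∀ s, (z (s - t0)).2.2 = s := by
    have h1 : ∀ s, HasDerivAt (fun s => (z s).2.2 - s) 0 s := fun s => by
      exact ((z22 s).sub (hasDerivAt_id s)).congr_deriv (by simp)
    intro s
    have := is_const_of_deriv_eq_zero (fun s => (h1 s).differentiableAt) (fun s => (h1 s).deriv)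
      (s - t0) 0
    simp only [h0] at this
    linarith
  have hx : ∀ t, HasDerivAt (fun t => (z (t - t0)).1)
      ((z (t - t0)).2.1 + XX Y t (z (t - t0)).1) t := fun t => by
    exact ((z1 (t - t0)).comp_sub_const t t0).congr_deriv (by simp [ht])
  refine ⟨fun t => (z (t - t0)).1, isEL_of hY hU (p := fun t => (z (t - t0)).2.1) hx fun t => ?_,
    by simp [h0], by rw [(hx t0).deriv]; simp [h0]⟩
  exact ((z21 (t - t0)).comp_sub_const t t0).congr_deriv (by simp [ht])

theorem exists_flow (hn : ∀ t x, 0 ≤ U t x) {q0 : E d} (h0 : ∀ t, Y t (pr q0) = 0)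
    (h0' : ∀ t, U t (pr q0) = 0) :
    ∃ φ, IsELFlow (ML Y U) φ ∧ IsAlpha (ML Y U) φ 0 := by
  have key : ∀ z : Ph d, ∃ (x : ℝ → E d) (t0 : ℝ), IsEL (ML Y U) x ∧
      (pr (x t0), deriv x t0, (t0 : UnitAddCircle)) = z ∧
      (z.1 = pr q0 → z.2.1 = 0 → x = fun _ => q0) := by
    rintro ⟨a, v, τ⟩
    obtain ⟨t0, rfl⟩ := QuotientAddGroup.mk_surjective τ
    by_cases h : a = pr q0 ∧ v = 0
    · refine ⟨fun _ => q0, t0, isEL_of hY hU (p := fun _ => 0) (fun t => ?_) (fun t => ?_),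
        by simp [h.1, h.2], fun _ _ => rfl⟩
      · simpa [XX, h0] using hasDerivAt_const t q0
      · refine (hasDerivAt_const t (0 : E d)).congr_deriv ?_
        have hm : fderiv ℝ (XX U t) q0 = 0 := IsLocalMin.fderiv_eq_zero
          (Eventually.of_forall fun y => by simpa [XX, h0'] using hn t (pr y))
        ext j; simp [cov, grad, hm]
    · obtain ⟨q, rfl⟩ := pr_surj a
      obtain ⟨x, h1, h2, h3⟩ := exists_EL hY hU q v t0
      exact ⟨x, t0, h1, by rw [h2, h3], fun a b => absurd ⟨a, b⟩ h⟩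
  choose x t0 h1 h2 h3 using key
  refine ⟨fun s z => (pr (x z (t0 z + s)), deriv (x z) (t0 z + s), ((t0 z + s : ℝ) : UnitAddCircle)),
    fun z => ⟨by simpa using h2 z, x z, t0 z, h1 z, fun _ => rfl⟩, IsLeast.isGLB ⟨?_, ?_⟩⟩
  · let j : UnitAddCircle → Ph d := fun τ => (pr q0, 0, τ)
    have hj : MeasurableEmbedding j :=
      (measurableEmbedding_prodMk_left (pr q0)).comp (measurableEmbedding_prodMk_left (0 : E d))
    have hL : ∀ τ, ML Y U (j τ) = 0 := fun τ => by simp [ML, j, h0, h0']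
    refine ⟨volume.map j, ⟨by rw [hj.map_apply]; simp⟩, fun s A _ => ?_,
      hj.integrable_map_iff.2 (by simp [Function.comp_def, hL]), by simp [hj.integral_map, hL]⟩
    rw [hj.map_apply, hj.map_apply, ← measure_preimage_add_right volume (s : UnitAddCircle)
      (j ⁻¹' A)]
    congr 1
    ext τ
    have h4 : ((t0 (j τ) : ℝ) : UnitAddCircle) = τ := congrArg (fun z => z.2.2) (h2 (j τ))
    simp [h3 (j τ) rfl rfl, h4, j]
  · rintro _ ⟨μ, -, -, -, rfl⟩
    exact integral_nonneg fun z => by simpa using ML_nonneg hn z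

end Pool.Agent.Lib.MP_7d4c8f_an.Q1
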