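import Pool.Agent.Lib.MP_7d4c8f_an.Q1Mach

/-! Stack machines: symbolic configurations and their analog shadows. -/

namespace Pool.Agent.Lib.MP_7d4c8f_an.Q1
open Set

/-- control states `Q`, pegs `P`, symbols `S`; one step reads and removes the top symbol of
every peg, then puts the list `pu q top i` on peg `i` (head of the list on top) -/
structure SM (Q P S : Type) where
  nq : Q → (P → S) → Q
  pu : Q → (P → S) → P → List S

variable {Q P S : Type}

/-- put a list on top of a stream -/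
def app : List S → (ℕ → S) → ℕ → S
  | [], s => s
  | a :: l, s => fun n => Nat.casesOn n a (app l s)

/-- the exact symbolic step -/
def SM.step (M : SM Q P S) (c : Q × (P → ℕ → S)) : Q × (P → ℕ → S) :=
  (M.nq c.1 fun i => c.2 i 0, fun i => app (M.pu c.1 (fun i => c.2 i 0) i) fun n => c.2 i (n + 1))

/-- same control state and same symbols at depth less than `n` -/
def Agree (n : ℕ) (c d : Q × (P → ℕ → S)) : Prop := c.1 = d.1 ∧ ∀ i k, k < n → c.2 i k = d.2 i k

/-- change `c` at depth `≥ n`, run exactly for a time as long as we like, change at depth `≥ n` -/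
def SM.SConn (M : SM Q P S) (n : ℕ) (c d : Q × (P → ℕ → S)) : Prop :=
  ∀ T0 : ℕ, ∃ T ≥ T0, ∃ c', Agree n c c' ∧ Agree n (M.step^[T] c') d

/-- what the upper bound has to deliver -/
def SM.Up (M : SM Q P S) (a b : Q × (P → ℕ → S)) : Prop :=
  ∃ B : Set (Q × (P → ℕ → S)), a ∈ B ∧ b ∈ B ∧ (∀ c ∈ B, ∀ n, M.SConn n c c) ∧
    ∀ n, Relation.ReflTransGen (fun c d => c ∈ B ∧ d ∈ B ∧ M.SConn n c d ∧ M.SConn n d c) a b

variable [DecidableEq S]

/-- analog push of a list -/
noncomputable def pushL (l : List S) (x : S → ℝ) : S → ℝ :=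
  l.foldr (fun s y => Pi.single s 1 + (1 / 10 : ℝ) • y) x

/-- analog pop -/
noncomputable def pop (s : S) (x : S → ℝ) : S → ℝ := (10 : ℝ) • (x - Pi.single s 1)

variable [Fintype S]

/-- an analog run with control states `q t`, top symbols `top t` and errors at most `e t` -/
def SM.APath (M : SM Q P S) (T : ℕ) (q : ℕ → Q) (top : ℕ → P → S) (x : ℕ → P → S → ℝ)
    (e : ℕ → ℝ) : Prop :=
  (∀ t ≤ T, ∀ i, ‖x t i - Pi.single (top t i) 1‖ ≤ 1 / 4) ∧
    ∀ t < T, 0 ≤ e t ∧ q (t + 1) = M.nq (q t) (top t) ∧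
      ∀ i, ‖x (t + 1) i - pushL (M.pu (q t) (top t) i) (pop (top t i) (x t i))‖ ≤ e t

/-- what the lower bound has to deliver: it sees only control states and top symbols at both ends -/
def SM.Low (M : SM Q P S) (a b : Q × (P → ℕ → S)) : Prop :=
  ∃ c0 > (0 : ℝ), ∀ T q top x e, M.APath T q top x e → q 0 = a.1 → (∀ i, top 0 i = a.2 i 0) →
    q T = b.1 → (∀ i, top T i = b.2 i 0) → c0 ≤ ∑ t ∈ Finset.range T, e t ^ 2

/-- the statement of the stack layer (file Q1Blk) -/
def StackStmt : Prop := ∀ (Q P S : Type) [Fintype Q] [Fintype P] [Fintype S] [DecidableEq S]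
  (M : SM Q P S) (a b : Q × (P → ℕ → S)), M.Low a b → M.Up a b → Concl

end Pool.Agent.Lib.MP_7d4c8f_an.Q1
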