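import Pool.Agent.Lib.MP_7d4c8f_an.HanDefs
import Pool.Agent.Lib.MP_7d4c8f_an.Q1Stk

/-! The Hanoi machine as a stack machine. -/

namespace Pool.Agent.Lib.MP_7d4c8f_an.Han
open Q1

variable {P : ℕ}

/-- the Hanoi machine -/
def han (P : ℕ) : SM Ctl Peg (Sym P) where
  nq q _ := nxt q
  pu q t i := if dir q t = 0 then [t i] else if i = src q t then [] else
    if i = src q t + dir q t then
      [(upd (dir q t) (t (src q t)) (t i)).1, (upd (dir q t) (t (src q t)) (t i)).2] else [t i]

/-- a complete tower on peg `0` with digits `x`, floors on the other pegs -/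
def tow (x : ℕ → Fin (P + 2)) : Ctl × (Peg → ℕ → Sym P) :=
  ((0, false), fun i k => (false, 0, if i = 0 then x k else 0))

/-- all digits `1` -/
def ca : Ctl × (Peg → ℕ → Sym 400) := tow fun _ => 1

/-- all digits `400` -/
def cb : Ctl × (Peg → ℕ → Sym 400) := tow fun _ => 400

lemma push_eq (q : Ctl) (t : Peg → Sym P) (X : Peg → Sym P → ℝ) (i : Peg) :
    pushL ((han P).pu q t i) (Q1.pop (t i) (X i)) = mstep q t X i := by
  have h : ∀ s : Sym P, Pi.single s (1 : ℝ) = e s := fun _ => rfl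
  simp only [han, mstep]
  split_ifs with h1 h2 h3
  · simp [pushL, Q1.pop, smul_smul]
  · subst h2; simp [pushL, Q1.pop, mv, h]
  · simp only [pushL, Q1.pop, mv, h, List.foldr, smul_smul, if_neg h2, if_pos h3]
    norm_num
    module
  · simp [pushL, Q1.pop, smul_smul, mv, h2, h3]

theorem low_of (h : LowStmt) : (han 400).Low ca cb := by
  refine ⟨1 / 40, by norm_num, fun T q t X u hp h1 h2 h3 h4 => ?_⟩
  have := h 400 le_rfl T q t X u (fun n hn => (hp.2 n hn).2.1) (fun n hn j => hp.1 n hn j)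
    (fun n hn => (pi_norm_le_iff_of_nonneg (hp.2 n hn).1).2 fun i => by
      rw [Pi.sub_apply, ← push_eq]; exact (hp.2 n hn).2.2 i)
  rw [h2, h4, h1, h3] at this
  have e1 : ((cb.2 cb.1.1 0).2.2.val : ℝ) = 400 := by
    have : (cb.2 cb.1.1 0).2.2.val = 400 := by decide
    rw [this]; norm_num
  have e2 : ((ca.2 ca.1.1 0).2.2.val : ℝ) = 1 := by
    have : (ca.2 ca.1.1 0).2.2.val = 1 := by decide
    rw [this]; norm_num
  rw [e1, e2] at this
  push_cast at this
  linarith

end Pool.Agent.Lib.MP_7d4c8f_an.Han
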