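import Mathlib.Analysis.SpecialFunctions.SmoothTransition
import Mathlib.Analysis.SpecialFunctions.ExpDeriv
import Mathlib.Analysis.Calculus.Deriv.Prod
import Mathlib.Analysis.Calculus.ContDiff.Operations
import Mathlib.Tactic

/-! Maps isotopic to the identity, discrete costs and cheap connections. -/

namespace Pool.Agent.Lib.MP_7d4c8f_an.Q1
open Set Filter Topology Real
open scoped ContDiff

variable {W : Type} [NormedAddCommGroup W] [NormedSpace ℝ W]

/-- `f` is the time-one map of a smooth time dependent vector field -/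
def Iso (f : W → W) : Prop :=
  ∃ (X : ℝ × W → W) (Φ : ℝ → W → W), ContDiff ℝ ∞ X ∧ (Continuous fun p : ℝ × W => Φ p.1 p.2) ∧
    (∀ x s, HasDerivAt (fun s => Φ s x) (X (s, Φ s x)) s) ∧ (∀ x, Φ 0 x = x) ∧ ∀ x, Φ 1 x = f x

lemma Iso.continuous {f : W → W} (h : Iso f) : Continuous f := by
  obtain ⟨X, Φ, -, h2, -, -, h5⟩ := h
  rw [show f = fun x => Φ 1 x from funext fun x => (h5 x).symm]
  exact h2.comp (f := fun x => ((1 : ℝ), x)) (by fun_prop)

lemma Iso.id : Iso (fun x : W => x) :=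
  ⟨fun _ => 0, fun _ x => x, contDiff_const, continuous_snd, fun x s => hasDerivAt_const s x,
    fun _ => rfl, fun _ => rfl⟩

noncomputable def ST (c t : ℝ) : ℝ := smoothTransition (3 * t - c)

lemma ST_smooth (c : ℝ) : ContDiff ℝ ∞ (ST c) := smoothTransition.contDiff.comp (by fun_prop)

lemma ST_lo {c t : ℝ} (h : 3 * t ≤ c) : ST c t = 0 :=
  smoothTransition.zero_of_nonpos (by linarith)

lemma ST_hi {c t : ℝ} (h : c + 1 ≤ 3 * t) : ST c t = 1 :=
  smoothTransition.one_of_one_le (by linarith)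

lemma ST_deriv {c t : ℝ} (h : 3 * t < c ∨ c + 1 < 3 * t) : deriv (ST c) t = 0 := by
  rcases h with h | h
  · rw [EventuallyEq.deriv_eq (f := fun _ => 0), deriv_const]
    filter_upwards [Iio_mem_nhds (show t < c / 3 by linarith)] with s hs
    exact ST_lo (by linarith [mem_Iio.1 hs])
  · rw [EventuallyEq.deriv_eq (f := fun _ => 1), deriv_const]
    filter_upwards [Ioi_mem_nhds (show (c + 1) / 3 < t by linarith)] with s hs
    exact ST_hi (by linarith [mem_Ioi.1 hs])

lemma Iso.comp {f f' : W → W} (h' : Iso f') (h : Iso f) : Iso (fun x => f' (f x)) := by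
  obtain ⟨X, Φ, h1, h2, h3, h4, h5⟩ := h
  obtain ⟨X', Φ', h1', h2', h3', h4', h5'⟩ := h'
  have s0 := ST_smooth 0
  have s2 := ST_smooth 2
  have d0 : ContDiff ℝ ∞ (deriv (ST 0)) := (contDiff_infty_iff_deriv.1 s0).2
  have d2 : ContDiff ℝ ∞ (deriv (ST 2)) := (contDiff_infty_iff_deriv.1 s2).2
  refine ⟨fun p => deriv (ST 0) p.1 • X (ST 0 p.1, p.2) + deriv (ST 2) p.1 • X' (ST 2 p.1, p.2),
    fun s x => Φ' (ST 2 s) (Φ (ST 0 s) x), ?_, ?_, fun x s => ?_, fun x => ?_, fun x => ?_⟩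
  · exact ((d0.comp contDiff_fst).smul (h1.comp ((s0.comp contDiff_fst).prodMk contDiff_snd))).add
      ((d2.comp contDiff_fst).smul (h1'.comp ((s2.comp contDiff_fst).prodMk contDiff_snd)))
  · exact h2'.comp (f := fun p : ℝ × W => (ST 2 p.1, Φ (ST 0 p.1) p.2))
      ((s2.continuous.comp continuous_fst).prodMk (h2.comp (f := fun p : ℝ × W => (ST 0 p.1, p.2))
        ((s0.continuous.comp continuous_fst).prodMk continuous_snd)))
  · rcases lt_or_ge (3 * s) 2 with hs | hs
    · have e := (h3 x (ST 0 s)).scomp s (s0.differentiable (by simp) s).hasDerivAt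
      simp only [ST_deriv (Or.inl hs), ST_lo hs.le, h4', zero_smul, add_zero]
      refine e.congr_of_eventuallyEq ?_
      filter_upwards [Iio_mem_nhds (show s < 2 / 3 by linarith)] with t ht
      simp only [ST_lo (c := 2) (t := t) (by linarith [mem_Iio.1 ht]), h4', Function.comp]
    · have e := (h3' (f x) (ST 2 s)).scomp s (s2.differentiable (by simp) s).hasDerivAt
      simp only [ST_deriv (c := 0) (t := s) (Or.inr (by linarith)),
        ST_hi (c := 0) (t := s) (by linarith), h5, zero_smul, zero_add]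
      refine e.congr_of_eventuallyEq ?_
      filter_upwards [Ioi_mem_nhds (show 1 / 3 < s by linarith)] with t ht
      simp only [ST_hi (c := 0) (t := t) (by linarith [mem_Ioi.1 ht]), h5, Function.comp]
  · simp only [ST_lo (c := 0) (t := 0) (by norm_num), ST_lo (c := 2) (t := 0) (by norm_num), h4, h4']
  · simp only [ST_hi (c := 0) (t := 1) (by norm_num), ST_hi (c := 2) (t := 1) (by norm_num), h5, h5']

lemma Iso.congr {f f' : W → W} (h : Iso f) (e : ∀ x, f' x = f x) : Iso f' := by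
  rwa [show f' = f from funext e]

lemma Iso.iter {f : ℕ → W → W} (h : ∀ k, Iso (f k)) (F : ℕ → W → W) (h0 : ∀ x, F 0 x = x)
    (h1 : ∀ k x, F (k + 1) x = f k (F k x)) (n : ℕ) : Iso (F n) := by
  induction n with
  | zero => exact Iso.id.congr h0
  | succ n ih => exact ((h n).comp ih).congr (h1 n)

/-- conditional shears and scalings of the coordinates in `A` -/
lemma Iso.aff {ι : Type} [Fintype ι] (A : Set ι) {k h : (ι → ℝ) → ι → ℝ} (hk : ContDiff ℝ ∞ k)
    (hh : ContDiff ℝ ∞ h) (h0 : ∀ z i, i ∉ A → k z i = 0 ∧ h z i = 0)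
    (h1 : ∀ z z', (∀ i, i ∉ A → z i = z' i) → k z = k z' ∧ h z = h z') :
    Iso (fun (z : ι → ℝ) i => exp (k z i) * z i + h z i) := by
  have ck : ∀ i, ContDiff ℝ ∞ fun p : ℝ × (ι → ℝ) => k p.2 i := fun i =>
    (contDiff_pi.1 hk i).comp contDiff_snd
  have ch : ∀ i, ContDiff ℝ ∞ fun p : ℝ × (ι → ℝ) => h p.2 i := fun i =>
    (contDiff_pi.1 hh i).comp contDiff_snd
  have cz : ∀ i, ContDiff ℝ ∞ fun p : ℝ × (ι → ℝ) => p.2 i := fun i => by fun_prop
  refine ⟨fun p i => k p.2 i * (p.2 i - p.1 * h p.2 i) + h p.2 i,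
    fun s z i => exp (s * k z i) * z i + s * h z i,
    contDiff_pi.2 fun i => ((ck i).mul ((cz i).sub (contDiff_fst.mul (ch i)))).add (ch i),
    continuous_pi fun i => (((contDiff_fst.mul (ck i)).exp.mul (cz i)).add
      (contDiff_fst.mul (ch i))).continuous, fun z s => hasDerivAt_pi.2 fun i => ?_,
    fun z => by simp, fun z => by simp⟩
  obtain ⟨e1, e2⟩ := h1 (fun i => exp (s * k z i) * z i + s * h z i) z fun i hi => by
    simp [(h0 z i hi).1, (h0 z i hi).2]
  change HasDerivAt _ (k _ i * (_ - s * h _ i) + h _ i) s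
  rw [e1, e2]
  refine ((((hasDerivAt_id s).mul_const (k z i)).exp.mul_const (z i)).add
    ((hasDerivAt_id s).mul_const (h z i))).congr_deriv ?_
  simp only [_root_.id]
  ring

lemma Iso.conj {W' : Type} [NormedAddCommGroup W'] [NormedSpace ℝ W'] (T : W ≃L[ℝ] W')
    {f : W → W} (h : Iso f) : Iso (fun x => T (f (T.symm x))) := by
  obtain ⟨X, Φ, h1, h2, h3, h4, h5⟩ := h
  refine ⟨fun p => T (X (p.1, T.symm p.2)), fun s x => T (Φ s (T.symm x)),
    T.contDiff.comp (h1.comp (contDiff_fst.prodMk (T.symm.contDiff.comp contDiff_snd))),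
    T.continuous.comp (h2.comp (f := fun p : ℝ × W' => (p.1, T.symm p.2)) (by fun_prop)),
    fun x s => ?_, fun x => by simp [h4], fun x => by simp [h5]⟩
  simp only [ContinuousLinearEquiv.symm_apply_apply]
  exact (T : W →L[ℝ] W').hasFDerivAt.comp_hasDerivAt s (h3 (T.symm x) s)

variable {κ : Type} [Fintype κ]

/-- the cost of one step -/
noncomputable def cost (f : W → W) (g : W → κ → ℝ) (z z' : W) : ℝ := ‖z' - f z‖ ^ 2 + ‖g z‖ ^ 2

/-- arbitrarily long paths inside `S` of total cost at most `r` -/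
def DConn (f : W → W) (g : W → κ → ℝ) (S : Set W) (x y : W) (r : ℝ) : Prop :=
  ∀ T0 : ℕ, ∃ T ≥ T0, ∃ z : ℕ → W, z 0 = x ∧ z T = y ∧ (∀ t ≤ T, z t ∈ S) ∧
    ∑ t ∈ Finset.range T, cost f g (z t) (z (t + 1)) ≤ r

/-- a path of length `T` inside `S` of total cost at most `r` -/
def DPath (f : W → W) (g : W → κ → ℝ) (S : Set W) (T : ℕ) (x y : W) (r : ℝ) : Prop :=
  ∃ z : ℕ → W, z 0 = x ∧ z T = y ∧ (∀ t ≤ T, z t ∈ S) ∧
    ∑ t ∈ Finset.range T, cost f g (z t) (z (t + 1)) ≤ r

variable {f : W → W} {g : W → κ → ℝ} {S : Set W}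

omit [NormedSpace ℝ W] in
lemma cost_nonneg (z z' : W) : 0 ≤ cost f g z z' := by unfold cost; positivity

omit [NormedSpace ℝ W] in
lemma DPath.refl {x : W} (hx : x ∈ S) : DPath f g S 0 x x 0 :=
  ⟨fun _ => x, rfl, rfl, fun _ _ => hx, by simp⟩

omit [NormedSpace ℝ W] in
lemma DPath.single {x y : W} (hx : x ∈ S) (hy : y ∈ S) : DPath f g S 1 x y (cost f g x y) :=
  ⟨fun t => if t = 0 then x else y, rfl, rfl, fun t _ => by dsimp only; split_ifs <;> assumption, by simp⟩

omit [NormedSpace ℝ W] in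
lemma DPath.mono {T : ℕ} {x y : W} {r r' : ℝ} (h : DPath f g S T x y r) (hr : r ≤ r') :
    DPath f g S T x y r' := by
  obtain ⟨z, h1, h2, h3, h4⟩ := h
  exact ⟨z, h1, h2, h3, h4.trans hr⟩

omit [NormedSpace ℝ W] in
lemma DPath.trans {T T' : ℕ} {x y w : W} {r r' : ℝ} (h : DPath f g S T x y r)
    (h' : DPath f g S T' y w r') : DPath f g S (T + T') x w (r + r') := by
  obtain ⟨z, h1, h2, h3, h4⟩ := h
  obtain ⟨z', h1', h2', h3', h4'⟩ := h'
  have e : ∀ t, (if T + t ≤ T then z (T + t) else z' (T + t - T)) = z' t := fun t => by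
    split_ifs with ht
    · obtain rfl : t = 0 := by omega
      simp [h2, h1']
    · simp
  refine ⟨fun t => if t ≤ T then z t else z' (t - T), by simp [h1], by rw [← h2', ← e],
    fun t ht => ?_, ?_⟩
  · dsimp only
    split_ifs with h5
    exacts [h3 t h5, h3' _ (by omega)]
  · rw [Finset.sum_range_add]
    refine add_le_add (le_of_eq_of_le (Finset.sum_congr rfl fun t ht => ?_) h4)
      (le_of_eq_of_le (Finset.sum_congr rfl fun t _ => ?_) h4')
    · have := Finset.mem_range.1 ht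
      dsimp only
      rw [if_pos (by omega), if_pos (by omega)]
    · dsimp only
      rw [e, add_assoc, e]

omit [NormedSpace ℝ W] in
lemma DConn.mono {x y : W} {r r' : ℝ} (h : DConn f g S x y r) (hr : r ≤ r') :
    DConn f g S x y r' := fun T0 => by
  obtain ⟨T, h1, h2⟩ := h T0
  exact ⟨T, h1, DPath.mono h2 hr⟩

omit [NormedSpace ℝ W] in
lemma DConn.trans_path {T : ℕ} {x y w : W} {r r' : ℝ} (h : DConn f g S x y r)
    (h' : DPath f g S T y w r') : DConn f g S x w (r + r') := fun T0 => by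
  obtain ⟨T1, h1, h2⟩ := h T0
  exact ⟨T1 + T, by omega, DPath.trans h2 h'⟩

omit [NormedSpace ℝ W] in
lemma DPath.trans_conn {T : ℕ} {x y w : W} {r r' : ℝ} (h : DPath f g S T x y r)
    (h' : DConn f g S y w r') : DConn f g S x w (r + r') := fun T0 => by
  obtain ⟨T1, h1, h2⟩ := h' T0
  exact ⟨T + T1, by omega, DPath.trans h h2⟩

omit [NormedSpace ℝ W] in
lemma DConn.trans {x y w : W} {r r' : ℝ} (h : DConn f g S x y r) (h' : DConn f g S y w r') :
    DConn f g S x w (r + r') := by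
  obtain ⟨T, -, h2⟩ := h' 0
  exact h.trans_path h2

end Pool.Agent.Lib.MP_7d4c8f_an.Q1
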