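import Pool.Agent.Lib.MP_7d4c8f_an.HanLow
import Pool.Agent.Lib.MP_7d4c8f_an.Q1Han

/-! The lower bound for the Hanoi stack machine. -/

namespace Pool.Agent.Lib.MP_7d4c8f_an.Han

theorem han_low : (han 400).Low ca cb := low_of low

end Pool.Agent.Lib.MP_7d4c8f_an.Han
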