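import Pool.Agent.Lib.MP_7d4c8f_an.Q1Step
import Pool.Agent.Lib.MP_7d4c8f_an.Q1Iso
import Pool.Agent.Lib.MP_7d4c8f_an.Field

/-! A Tonelli Lagrangian whose action is comparable with a given discrete cost. -/

namespace Pool.Agent.Lib.MP_7d4c8f_an.Q1
open MeasureTheory Filter Set Metric Topology
open scoped ContDiff

variable {W : Type} [NormedAddCommGroup W] [NormedSpace ℝ W] {κ : Type} [Fintype κ]

/-- the properties of the Lagrangian that are used later -/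
def Realises {d : ℕ} (L : Ph d → ℝ) (e : W → Tor d) (f : W → W) (g : W → κ → ℝ) (A : Set W)
    (K : ℝ) : Prop :=
  (∀ z ∈ A, ∀ z', ∃ r ≤ K * cost f g z z', Adm L 1 (e z) (e z') r) ∧
  ∀ z ∈ A, ∀ y r η, 0 < η → r ≤ η ^ 2 → Adm L 1 (e z) y r →
    ∃ z', e z' = y ∧ cost f g z z' ≤ K * η ^ 2

lemma realise0 {d : ℕ} (hd : 0 < d) (J : W ≃L[ℝ] E d) {f : W → W} {g : W → κ → ℝ}
    (hg : ContDiff ℝ ∞ g) {A : Set W} {X : ℝ × W → W} {Φ : ℝ → W → W} (h1 : ContDiff ℝ ∞ X)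
    (h3 : ∀ x s, HasDerivAt (fun s => Φ s x) (X (s, Φ s x)) s) (h4 : ∀ x, Φ 0 x = x)
    (h5 : ∀ x, Φ 1 x = f x) (hb : ∀ z ∈ A, ∀ s ∈ Icc (0 : ℝ) 1, ‖J (Φ s z)‖ ≤ 1 / 4) :
    ∃ (L : Ph d → ℝ) (φ : ℝ → Ph d → Ph d) (K : ℝ), IsTonelli L ∧ IsELFlow L φ ∧ IsAlpha L φ 0 ∧
      (∀ z, 0 ≤ L z) ∧ 0 < K ∧ Realises L (fun z => pr (J z)) f g A K := by
  let ψ : Tor d → ℝ := fun x => ∏ i, ps (x i)
  let u : Tor d → W := fun x => J.symm fun i => uu (x i)
  let Y : UnitAddCircle → Tor d → E d := fun τ x =>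
    (tb 2 τ * ψ x) • J (X (SS 2 (uu (τ - (1 / 2 : ℝ)) + 1 / 2), u x))
  let G : UnitAddCircle → Tor d → κ → ℝ := fun τ x => (tb 1 τ * ψ x) • g (u x)
  have sψ : ContDiff ℝ ∞ fun p : ℝ × E d => ψ (pr p.2) :=
    contDiff_prod fun i _ => ps_smooth.comp (f := fun p : ℝ × E d => p.2 i) (by fun_prop)
  have su : ContDiff ℝ ∞ fun p : ℝ × E d => u (pr p.2) :=
    J.symm.contDiff.comp (contDiff_pi.2 fun i =>
      uu_smooth.comp (f := fun p : ℝ × E d => p.2 i) (by fun_prop))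
  have hY : ContDiff ℝ ∞ fun p : ℝ × E d => XX Y p.1 p.2 := by
    refine (((tb_smooth (by norm_num) (by norm_num)).comp contDiff_fst).mul sψ).smul
      (J.contDiff.comp (h1.comp (ContDiff.prodMk ((SS_smooth 2).comp ?_) su)))
    exact (uu_smooth.comp (f := fun p : ℝ × E d => p.1 - 1 / 2) (by fun_prop)).add contDiff_const
  have hG : ContDiff ℝ ∞ fun p : ℝ × E d => XX G p.1 p.2 :=
    (((tb_smooth le_rfl (by norm_num)).comp contDiff_fst).mul sψ).smul (hg.comp su)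
  have ψ0 : ψ (pr fun _ => 1 / 2) = 0 :=
    Finset.prod_eq_zero (Finset.mem_univ ⟨0, hd⟩) ps_half
  obtain ⟨φ, a1, a2⟩ := exists_flow hY (UG_smooth hG) UG_nonneg (q0 := fun _ => 1 / 2)
    (fun t => by simp only [Y, ψ0, mul_zero, zero_smul])
    (fun t => by simp [UG, G, ψ0, -one_div])
  obtain ⟨C1, hC1, up⟩ := step_up hY hG
  obtain ⟨C2, hC2, low⟩ := step_low hY hG
  have dS : ∀ c, Continuous (deriv (SS c)) := fun c =>
    (contDiff_infty_iff_deriv.1 (SS_smooth c)).2.continuous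
  obtain ⟨M, hM⟩ := (isCompact_Icc (a := (0 : ℝ)) (b := 1)).exists_bound_of_continuousOn
    (dS 1).continuousOn
  have z0 : ∀ c : ℝ, 0 ≤ c → SS c 0 = 0 := fun c hc =>
    Real.smoothTransition.zero_of_nonpos (by linarith)
  have z1 : ∀ c : ℝ, c ≤ 3 → SS c 1 = 1 := fun c hc =>
    Real.smoothTransition.one_of_one_le (by linarith)
  have sol : ∀ z ∈ A, ∃ x : ℝ → E d, x 0 = J z ∧ x 1 = J (f z) ∧
      (∀ t ∈ Icc (0 : ℝ) 1, HasDerivAt x (XX Y t (x t)) t) ∧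
      ∀ t ∈ Icc (0 : ℝ) 1, XX G t (x t) = deriv (SS 1) t • g z := by
    intro z hz
    have b1 : ∀ t i, |J (Φ (SS 2 t) z) i| ≤ 1 / 4 := fun t i =>
      (norm_le_pi_norm _ i).trans
        (hb z hz _ ⟨Real.smoothTransition.nonneg _, Real.smoothTransition.le_one _⟩)
    have b2 : ∀ t, ψ (pr (J (Φ (SS 2 t) z))) = 1 := fun t =>
      Finset.prod_eq_one fun i _ => ps_eq (b1 t i)
    have b3 : ∀ t, u (pr (J (Φ (SS 2 t) z))) = Φ (SS 2 t) z := fun t => by
      rw [← J.symm_apply_apply (Φ (SS 2 t) z)]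
      simp only [u, J.apply_symm_apply]
      congr 1
      exact funext fun i => uu_eq (b1 t i)
    refine ⟨fun t => J (Φ (SS 2 t) z), by simp only [z0 2 (by norm_num), h4],
      by simp only [z1 2 (by norm_num), h5], fun t ht => ?_, fun t ht => ?_⟩
    · have e := (J : W →L[ℝ] E d).hasFDerivAt.comp_hasDerivAt t
        ((h3 z (SS 2 t)).scomp t ((SS_smooth 2).differentiable (by simp) t).hasDerivAt)
      refine HasDerivAt.congr_deriv e ?_
      simp only [XX, Y, b2, b3, tb_eq (c := 2) (by norm_num) (by norm_num) ht, mul_one, map_smul,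
        ContinuousLinearEquiv.coe_coe]
      rcases le_or_gt |t - 1 / 2| (1 / 4) with h | h
      · rw [← AddCircle.coe_sub, uu_eq h, sub_add_cancel]
      · rw [SS_deriv (c := 2) (t := t) (by
          rcases lt_abs.1 h with h | h
          exacts [Or.inr (by linarith), Or.inl (by linarith)]), zero_smul, zero_smul]
    · simp only [XX, G, b2, b3, tb_eq le_rfl (by norm_num) ht, mul_one]
      rcases le_or_gt (5 * t) 2 with h | h
      · rw [show SS 2 t = 0 from Real.smoothTransition.zero_of_nonpos (by linarith), h4]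
      · rw [SS_deriv (c := 1) (t := t) (Or.inr (by linarith)), zero_smul, zero_smul]
  set a := ‖(J : W →L[ℝ] E d)‖ with ha
  set b := ‖(J.symm : E d →L[ℝ] W)‖ with hb'
  refine ⟨_, φ, C1 * (a ^ 2 + M ^ 2) + C2 ^ 2 * (b ^ 2 + 1), tonelli hY (UG_smooth hG) UG_nonneg,
    a1, a2, ML_nonneg UG_nonneg, by positivity, fun z hz z' => ?_, fun z hz y r η hη hr hA => ?_⟩
  · obtain ⟨x, b1, b2, b3, b4⟩ := sol z hz
    obtain ⟨r, c1, c2⟩ := up x b3 (M * ‖g z‖) (fun t ht => by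
      rw [b4 t ht, norm_smul]
      exact mul_le_mul_of_nonneg_right (hM t ht) (norm_nonneg _)) (J z')
    refine ⟨r, c1.trans ?_, by rwa [b1] at c2⟩
    have c3 : ‖J z' - x 1‖ ^ 2 ≤ (a * ‖z' - f z‖) ^ 2 := by
      rw [b2, ← map_sub]
      gcongr
      exact (J : W →L[ℝ] E d).le_opNorm _
    have c4 : 0 ≤ C2 ^ 2 * (b ^ 2 + 1) * cost f g z z' := mul_nonneg (by positivity) (cost_nonneg _ _)
    have c5 : ‖J z' - x 1‖ ^ 2 + (M * ‖g z‖) ^ 2 ≤ (a ^ 2 + M ^ 2) * cost f g z z' := by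
      unfold cost
      nlinarith [sq_nonneg (a * ‖g z‖), sq_nonneg (M * ‖z' - f z‖)]
    nlinarith [mul_le_mul_of_nonneg_left c5 hC1.le]
  · obtain ⟨x, b1, b2, b3, b4⟩ := sol z hz
    obtain ⟨y', c1, c2, c3⟩ := low x b3 y r η hη hr (by rwa [b1])
    refine ⟨J.symm y', by simpa using c1, ?_⟩
    have c4 : ‖J.symm y' - f z‖ ≤ b * (C2 * η) := by
      rw [← J.symm_apply_apply (f z), ← map_sub, ← b2]
      exact ((J.symm : E d →L[ℝ] W).le_opNorm _).trans
        (mul_le_mul_of_nonneg_left c2 (norm_nonneg _))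
    have c5 : ‖g z‖ ≤ C2 * η := by
      refine le_trans ?_ c3
      rw [intervalIntegral.integral_congr (g := fun t => ‖deriv (SS 1) t • g z‖) fun t ht => by
        simp only [b4 t (by simpa using ht)]]
      refine le_trans ?_ (intervalIntegral.norm_integral_le_integral_norm zero_le_one)
      rw [intervalIntegral.integral_smul_const, intervalIntegral.integral_deriv_eq_sub
        (fun t _ => (SS_smooth 1).differentiable (by simp) t) ((dS 1).intervalIntegrable _ _),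
        z0 1 zero_le_one, z1 1 (by norm_num)]
      simp
    have c6 := pow_le_pow_left₀ (norm_nonneg _) c4 2
    have c7 := pow_le_pow_left₀ (norm_nonneg _) c5 2
    have c8 : 0 ≤ C1 * (a ^ 2 + M ^ 2) * η ^ 2 := by positivity
    unfold cost
    nlinarith

theorem realise [FiniteDimensional ℝ W] [Nontrivial W] {f : W → W} {g : W → κ → ℝ} (hf : Iso f)
    (hg : ContDiff ℝ ∞ g) {A : Set W} (hA : IsCompact A) :
    ∃ (d : ℕ) (L : Ph d → ℝ) (φ : ℝ → Ph d → Ph d) (e : W → Tor d) (K : ℝ), IsTonelli L ∧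
      IsELFlow L φ ∧ IsAlpha L φ 0 ∧ (∀ z, 0 ≤ L z) ∧ 0 < K ∧ InjOn e A ∧
      Realises L e f g A K := by
  obtain ⟨X, Φ, h1, h2, h3, h4, h5⟩ := hf
  let T : W ≃L[ℝ] E (Module.finrank ℝ W) := ContinuousLinearEquiv.ofFinrankEq (by simp)
  obtain ⟨R, hR⟩ := ((isCompact_Icc (a := (0 : ℝ)) (b := 1)).prod hA).exists_bound_of_continuousOn
    (T.continuous.comp h2).continuousOn
  set l := 4 * (|R| + 1) with hl
  have hl0 : 0 < l := by positivity
  let J : W ≃L[ℝ] E (Module.finrank ℝ W) := ContinuousLinearEquiv.equivOfInverse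
    (l⁻¹ • (T : W →L[ℝ] _)) (l • (T.symm : _ →L[ℝ] W))
    (fun x => by simp [smul_smul, hl0.ne']) (fun x => by simp [smul_smul, hl0.ne'])
  have hb : ∀ z ∈ A, ∀ s ∈ Icc (0 : ℝ) 1, ‖J (Φ s z)‖ ≤ 1 / 4 := fun z hz s hs => by
    have h6 : ‖T (Φ s z)‖ ≤ R := hR (s, z) ⟨hs, hz⟩
    change ‖l⁻¹ • T (Φ s z)‖ ≤ _
    rw [norm_smul, norm_inv, Real.norm_eq_abs, abs_of_pos hl0, inv_mul_le_iff₀ hl0]
    linarith [le_abs_self R]
  obtain ⟨L, φ, K, a1, a2, a3, a4, a5, a6⟩ := realise0 Module.finrank_pos J hg h1 h3 h4 h5 hb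
  refine ⟨_, L, φ, _, K, a1, a2, a3, a4, a5, fun x hx x' hx' h => J.injective ?_, a6⟩
  have h7 : ∀ x ∈ A, ∀ i, J x i ∈ Ico (-1 / 2 : ℝ) (-1 / 2 + 1) := fun x hx i => by
    have := abs_le.1 ((norm_le_pi_norm _ i).trans (hb x hx 0 (by simp)))
    rw [h4] at this
    exact ⟨by linarith, by linarith⟩
  ext i
  exact (AddCircle.coe_eq_coe_iff_of_mem_Ico (h7 x hx i) (h7 x' hx' i)).1 (congrFun h i)

end Pool.Agent.Lib.MP_7d4c8f_an.Q1
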