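import Pool.Agent.Lib.MP_7d4c8f_an.Q1EL
import Mathlib.Analysis.ODE.Gronwall

/-! Action of one unit of time versus the error of a step and the size of the constraints. -/

namespace Pool.Agent.Lib.MP_7d4c8f_an.Q1
open MeasureTheory Filter Set Metric Topology
open scoped ContDiff

variable {d : ℕ} {κ : Type} [Fintype κ]

noncomputable def UG (G : UnitAddCircle → Tor d → κ → ℝ) (t : UnitAddCircle) (x : Tor d) : ℝ :=
  1 / 2 * ∑ k, G t x k ^ 2

variable {Y : UnitAddCircle → Tor d → E d} {G : UnitAddCircle → Tor d → κ → ℝ}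

lemma UG_nonneg (t : UnitAddCircle) (x : Tor d) : 0 ≤ UG G t x := by unfold UG; positivity

lemma XX_UG (t : ℝ) (x : E d) : XX (UG G) t x = 1 / 2 * ∑ k, XX G t x k ^ 2 := rfl

lemma UG_smooth (hG : ContDiff ℝ ∞ fun p : ℝ × E d => XX G p.1 p.2) :
    ContDiff ℝ ∞ fun p : ℝ × E d => XX (UG G) p.1 p.2 := by
  simp only [XX_UG]
  exact contDiff_const.mul (ContDiff.sum fun k _ => (contDiff_pi.1 hG k).pow 2)

variable (hY : ContDiff ℝ ∞ fun p : ℝ × E d => XX Y p.1 p.2)
  (hG : ContDiff ℝ ∞ fun p : ℝ × E d => XX G p.1 p.2)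
include hY hG

lemma step_up : ∃ C > 0, ∀ (x : ℝ → E d), (∀ t ∈ Icc (0 : ℝ) 1, HasDerivAt x (XX Y t (x t)) t) →
    ∀ (M : ℝ), (∀ t ∈ Icc (0 : ℝ) 1, ‖XX G t (x t)‖ ≤ M) →
    ∀ z', ∃ r ≤ C * (‖z' - x 1‖ ^ 2 + M ^ 2), Adm (ML Y (UG G)) 1 (pr (x 0)) (pr z') r := by
  obtain ⟨K, hK, hL⟩ := XX_lip hY
  obtain ⟨K', hK', hL'⟩ := XX_lip hG
  refine ⟨d * (1 + K) ^ 2 + Fintype.card κ * (1 + K' ^ 2) + 1, by positivity,
    fun x hx M hM z' => ?_⟩
  set D := z' - x 1 with hD
  have xc : ContinuousOn x (Icc 0 1) := fun t ht => (hx t ht).continuousAt.continuousWithinAt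
  have Xc : ∀ {γ : ℝ → E d}, ContinuousOn γ (Icc 0 1) →
      ContinuousOn (fun t => XX Y t (γ t)) (Icc 0 1) := fun h =>
    hY.continuous.comp_continuousOn (continuousOn_id.prodMk h)
  have vc : ContinuousOn (fun t => XX Y t (x t) + D) (Icc 0 1) := (Xc xc).add continuousOn_const
  have hp : ∀ t ∈ Icc (0 : ℝ) 1, path (x 0) (fun t => XX Y t (x t) + D) t = x t + t • D := by
    intro t ht
    have hs : uIcc 0 t ⊆ Icc (0 : ℝ) 1 := by
      rw [uIcc_of_le ht.1]; exact Icc_subset_Icc_right ht.2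
    unfold path
    rw [intervalIntegral.integral_eq_sub_of_hasDerivAt (f := fun t => x t + t • D)
      (fun s h => (hx s (hs h)).add (by simpa using (hasDerivAt_id s).smul_const D))
      (vc.mono hs).intervalIntegrable]
    simp
  have gc : ContinuousOn (fun t => x t + t • D) (Icc 0 1) := xc.add (by fun_prop)
  have lc : ContinuousOn (fun t => lift (ML Y (UG G)) (x t + t • D) (XX Y t (x t) + D) t)
      (Icc 0 1) := by
    simp only [lift_ML]
    exact (continuousOn_const.mul (continuousOn_finsetSum _ fun i _ =>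
      (continuousOn_pi.1 (vc.sub (Xc gc)) i).pow 2)).add
      ((UG_smooth hG).continuous.comp_continuousOn (f := fun t => (t, x t + t • D))
        (continuousOn_id.prodMk gc))
  have li := lc.intervalIntegrable_of_Icc (μ := volume) zero_le_one
  refine ⟨_, ?_, x 0, fun t => XX Y t (x t) + D, by
    simpa using vc.intervalIntegrable_of_Icc zero_le_one, rfl, by
    rw [Nat.cast_one, hp 1 (by simp)]; simp [hD], ?_, rfl⟩
  · rw [Nat.cast_one, intervalIntegral.integral_congr (g := fun t =>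
      lift (ML Y (UG G)) (x t + t • D) (XX Y t (x t) + D) t) fun t ht => by
        simp only [hp t (by simpa using ht)]]
    refine (intervalIntegral.integral_mono_on zero_le_one li intervalIntegrable_const
      fun t ht => ?_).trans_eq (by simp; rfl)
    have h1 := sq_le_norm (XX Y t (x t) + D - XX Y t (x t + t • D))
    have h1' := sq_le_norm (XX G t (x t + t • D))
    have h2 := (hL t).dist_le_mul (x t) (x t + t • D)
    have h2' := (hL' t).dist_le_mul (x t + t • D) (x t)
    rw [dist_eq_norm, dist_self_add_right, norm_smul, Real.norm_eq_abs, abs_of_nonneg ht.1] at h2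
    rw [dist_eq_norm, dist_self_add_left, norm_smul, Real.norm_eq_abs, abs_of_nonneg ht.1] at h2'
    have h3 := norm_add_le (XX Y t (x t) - XX Y t (x t + t • D)) D
    rw [← add_sub_right_comm] at h3
    have h3' := norm_add_le (XX G t (x t + t • D) - XX G t (x t)) (XX G t (x t))
    rw [sub_add_cancel] at h3'
    have h4 : K * (t * ‖D‖) ≤ K * (1 * ‖D‖) := by gcongr; exact ht.2
    have h4' : K' * (t * ‖D‖) ≤ K' * (1 * ‖D‖) := by gcongr; exact ht.2
    have h5 : ‖XX Y t (x t) + D - XX Y t (x t + t • D)‖ ^ 2 ≤ ((1 + K) * ‖D‖) ^ 2 := by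
      gcongr; linarith
    have h5' : ‖XX G t (x t + t • D)‖ ^ 2 ≤ (K' * ‖D‖ + M) ^ 2 := by
      gcongr; linarith [hM t ht]
    have h6 : (K' * ‖D‖ + M) ^ 2 ≤ 2 * ((1 + K' ^ 2) * (‖D‖ ^ 2 + M ^ 2)) := by
      nlinarith [sq_nonneg (K' * ‖D‖ - M), sq_nonneg (K' * M), sq_nonneg ‖D‖]
    have h7 : ((1 + K) * ‖D‖) ^ 2 ≤ 2 * ((1 + K) ^ 2 * (‖D‖ ^ 2 + M ^ 2)) := by
      nlinarith [sq_nonneg ((1 + K) * M), sq_nonneg ((1 + K) * ‖D‖)]
    have h8 := mul_le_mul_of_nonneg_left (h5.trans h7) (Nat.cast_nonneg (α := ℝ) d)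
    have h9 := mul_le_mul_of_nonneg_left (h5'.trans h6) (Nat.cast_nonneg (α := ℝ) (Fintype.card κ))
    rw [Fintype.card_fin] at h1
    rw [lift_ML, XX_UG]
    nlinarith [sq_nonneg ‖D‖, sq_nonneg M]
  · rw [Nat.cast_one]
    exact li.congr fun t ht => by
      simp only [hp t (Ioc_subset_Icc_self (by simpa using ht))]

lemma step_low : ∃ C > 0, ∀ (x : ℝ → E d), (∀ t ∈ Icc (0 : ℝ) 1, HasDerivAt x (XX Y t (x t)) t) →
    ∀ y r η, 0 < η → r ≤ η ^ 2 → Adm (ML Y (UG G)) 1 (pr (x 0)) y r →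
      ∃ z', pr z' = y ∧ ‖z' - x 1‖ ≤ C * η ∧ ∫ t in (0 : ℝ)..1, ‖XX G t (x t)‖ ≤ C * η := by
  obtain ⟨K, hK, hL⟩ := XX_lip hY
  obtain ⟨K', hK', hL'⟩ := XX_lip hG
  refine ⟨(1 + K') * (2 * Real.exp K) + 2, by positivity,
    fun x hx y r η hη hr ⟨q, v, h1, h2, h3, h4, h5⟩ => ?_⟩
  have hpr : ∀ t, pr (path q v t) = pr (path (x 0) v t) := fun t => by
    simp only [path, pr_add, h2]
  simp only [Nat.cast_one, lift, hpr] at h1 h3 h4 h5
  set γ := path (x 0) v with hγ
  change IntervalIntegrable (fun t => lift (ML Y (UG G)) (γ t) (v t) t) volume 0 1 at h4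
  change r = ∫ t in (0 : ℝ)..1, lift (ML Y (UG G)) (γ t) (v t) t at h5
  have gc : ContinuousOn γ (Icc 0 1) := continuousOn_const.add (by
    simpa using intervalIntegral.continuousOn_primitive_interval' h1 left_mem_uIcc)
  have xc : ContinuousOn x (Icc 0 1) := fun t ht => (hx t ht).continuousAt.continuousWithinAt
  set β : ℝ → E d := fun t => XX Y t (γ (projIcc (0 : ℝ) 1 zero_le_one t)) with hβ
  have bc : Continuous β := hY.continuous.comp (continuous_id.prodMk
    (gc.comp_continuous (continuous_subtype_val.comp continuous_projIcc) fun t => Subtype.prop _))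
  have be : ∀ t ∈ Icc (0 : ℝ) 1, β t = XX Y t (γ t) := fun t ht => by
    simp only [hβ, projIcc_of_mem _ ht]
  have i1 : IntervalIntegrable (fun t => v t - β t) volume 0 1 :=
    h1.sub (bc.intervalIntegrable _ _)
  have key : ∀ {a : ℝ → ℝ} (b : ℝ), IntervalIntegrable a volume 0 1 →
      (∀ t ∈ Icc (0 : ℝ) 1, ∃ c, a t ≤ c + b ∧ c ^ 2 ≤ 2 * lift (ML Y (UG G)) (γ t) (v t) t) →
      ∫ t in (0 : ℝ)..1, a t ≤ 2 * η + b := by
    intro a b ha hb
    have := intervalIntegral.integral_mono_on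
      (g := fun t => (η + b) + η⁻¹ * lift (ML Y (UG G)) (γ t) (v t) t)
      zero_le_one ha (intervalIntegrable_const.add (h4.const_mul _)) fun t ht => by
        obtain ⟨c, h6, h7⟩ := hb t ht
        have : c - η ≤ η⁻¹ * lift (ML Y (UG G)) (γ t) (v t) t := by
          rw [inv_mul_eq_div, le_div_iff₀ hη]
          nlinarith [sq_nonneg (c - η), sq_nonneg η]
        linarith
    rw [intervalIntegral.integral_add intervalIntegrable_const (h4.const_mul _),
      intervalIntegral.integral_const_mul, ← h5] at this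
    have h6 : η⁻¹ * r ≤ η := by rw [inv_mul_le_iff₀ hη]; linarith
    simp only [intervalIntegral.integral_const, sub_zero, smul_eq_mul, one_mul] at this
    linarith
  have hA : ∫ t in (0 : ℝ)..1, ‖v t - β t‖ ≤ 2 * η := by
    simpa using key 0 i1.norm fun t ht => ⟨_, (add_zero _).ge, by
      have h6 := norm_sq_le (v t - XX Y t (γ t))
      have h7 : 0 ≤ XX (UG G) t (γ t) := UG_nonneg _ _
      rw [be t ht, lift_ML]
      linarith⟩
  have hd : ∀ t ∈ Icc (0 : ℝ) 1, ‖γ t - path (x 0) β t‖ ≤ 2 * η := by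
    intro t ht
    have hs : uIcc 0 t ⊆ uIcc (0 : ℝ) 1 := uIcc_subset_uIcc_left (by simpa using ht)
    simp only [hγ, path, add_sub_add_left_eq_sub]
    rw [← intervalIntegral.integral_sub (h1.mono_set hs) (bc.intervalIntegrable _ _)]
    refine (intervalIntegral.norm_integral_le_integral_norm ht.1).trans (le_trans ?_ hA)
    exact intervalIntegral.integral_mono_interval le_rfl ht.1 ht.2
      (Eventually.of_forall fun _ => norm_nonneg _) i1.norm
  have fd : ∀ t, HasDerivAt (path (x 0) β) (β t) t := fun t =>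
    ((bc.integral_hasStrictDerivAt 0 t).hasDerivAt).const_add _
  have hg := dist_le_of_approx_trajectories_ODE (v := XX Y) (f := path (x 0) β) (g := x) (f' := β)
    (g' := fun t => XX Y t (x t)) (εf := K * (2 * η)) (εg := 0) (δ := 0) (a := 0) (b := 1) hL
    (fun t _ => (fd t).continuousAt.continuousWithinAt) (fun t _ => (fd t).hasDerivWithinAt)
    (fun t ht => by
      rw [be t (Ico_subset_Icc_self ht)]
      refine ((hL t).dist_le_mul _ _).trans ?_
      rw [dist_eq_norm]
      gcongr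
      exact hd t (Ico_subset_Icc_self ht))
    (fun t ht => (hx t ht).continuousAt.continuousWithinAt)
    (fun t ht => (hx t (Ico_subset_Icc_self ht)).hasDerivWithinAt) (fun _ _ => by simp)
    (by simp)
  have hK0 : (K : ℝ) ≠ 0 := by exact_mod_cast hK.ne'
  have tube : ∀ t ∈ Icc (0 : ℝ) 1, ‖γ t - x t‖ ≤ 2 * Real.exp K * η := by
    intro t ht
    have h6 := hg t ht
    rw [gronwallBound_of_K_ne_0 hK0, dist_eq_norm] at h6
    simp only [zero_mul, add_zero, zero_add, sub_zero, mul_div_cancel_left₀ _ hK0] at h6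
    have := norm_add_le (γ t - path (x 0) β t) (path (x 0) β t - x t)
    rw [sub_add_sub_cancel] at this
    have h7 : Real.exp (K * t) ≤ Real.exp K :=
      Real.exp_le_exp.2 (mul_le_of_le_one_right K.coe_nonneg ht.2)
    nlinarith [hd t ht]
  have hK1 : 0 ≤ K' * (2 * Real.exp K * η) := by positivity
  have hK2 : 0 ≤ 2 * Real.exp K * η := by positivity
  refine ⟨γ 1, h3, by nlinarith [tube 1 (by simp)], ?_⟩
  have := key (a := fun t => ‖XX G t (x t)‖) (K' * (2 * Real.exp K * η))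
    ((hG.continuous.comp_continuousOn (continuousOn_id.prodMk xc)).norm.intervalIntegrable_of_Icc
      zero_le_one) fun t ht => ⟨‖XX G t (γ t)‖, by
        have h6 := (hL' t).dist_le_mul (x t) (γ t)
        rw [dist_eq_norm, dist_eq_norm, norm_sub_rev (x t)] at h6
        have h7 := norm_add_le (XX G t (x t) - XX G t (γ t)) (XX G t (γ t))
        rw [sub_add_cancel] at h7
        have h8 := mul_le_mul_of_nonneg_left (tube t ht) K'.coe_nonneg
        exact h7.trans (by linarith [h6.trans h8]), by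
        have h6 := norm_sq_le (XX G t (γ t))
        have h7 : 0 ≤ ∑ i, (v t - XX Y t (γ t)) i ^ 2 := by positivity
        rw [lift_ML, XX_UG]
        linarith⟩
  nlinarith

end Pool.Agent.Lib.MP_7d4c8f_an.Q1
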