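import Mathlib.Topology.MetricSpace.Thickening
import Mathlib.Topology.MetricSpace.Sequences
import Mathlib.Topology.Separation.Profinite
import Mathlib.Topology.Connected.Clopen
import Mathlib.Topology.Instances.Discrete
import Mathlib.Analysis.SpecificLimits.Basic

/-! Chains with small steps in a compact set give a connected set with two points. -/

namespace Pool.Agent.Lib.MP_7d4c8f_an.Q1
open Set Filter Topology Relation

variable {Q : Type*} [MetricSpace Q]

/-- a chain from `a` to `b` inside `S` with steps at most `ε` -/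
def Chn (S : Set Q) (ε : ℝ) (a b : Q) : Prop :=
  ReflTransGen (fun z z' => z ∈ S ∧ z' ∈ S ∧ dist z z' ≤ ε) a b

lemma Chn.mono {S : Set Q} {ε ε' : ℝ} {a b : Q} (h : Chn S ε a b) (he : ε ≤ ε') :
    Chn S ε' a b := by
  induction h with
  | refl => exact .refl
  | tail _ g ih => exact ReflTransGen.tail ih ⟨g.1, g.2.1, g.2.2.trans he⟩

lemma Chn.symm {S : Set Q} {ε : ℝ} {a b : Q} (h : Chn S ε a b) : Chn S ε b a := by
  induction h with
  | refl => exact .refl
  | tail _ g ih => exact ReflTransGen.head ⟨g.2.1, g.1, by rw [dist_comm]; exact g.2.2⟩ ih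

lemma Chn.mem {S : Set Q} {ε : ℝ} {a b : Q} (h : Chn S ε a b) (ha : a ∈ S) : b ∈ S := by
  induction h with
  | refl => exact ha
  | tail _ g _ => exact g.2.1

/-- push a chain forward along a map -/
lemma Chn.of_rel {B : Type*} {R : B → B → Prop} {S : Set Q} {ε : ℝ} (F : B → Q)
    (hR : ∀ z z', R z z' → F z ∈ S ∧ F z' ∈ S ∧ dist (F z) (F z') ≤ ε) {a b : B}
    (h : ReflTransGen R a b) : Chn S ε (F a) (F b) := by
  induction h with
  | refl => exact .refl
  | tail _ g ih => exact ReflTransGen.tail ih (hR _ _ g)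

/-- a sequence of points with small steps is a chain -/
lemma Chn.of_seq {S : Set Q} {ε : ℝ} (x : ℕ → Q) (n : ℕ) (hS : ∀ i ≤ n, x i ∈ S)
    (h : ∀ i < n, dist (x i) (x (i + 1)) ≤ ε) : Chn S ε (x 0) (x n) := by
  induction n with
  | zero => exact .refl
  | succ n ih =>
    exact ReflTransGen.tail (ih (fun i hi => hS i (by omega)) fun i hi => h i (by omega))
      ⟨hS n (by omega), hS _ le_rfl, h n (by omega)⟩

/-- points joined by chains of every mesh lie in one component of a compact set -/
theorem conn_of_chn {S : Set Q} (hS : IsCompact S) {a b : Q} (ha : a ∈ S)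
    (h : ∀ ε > 0, Chn S ε a b) : ∃ s ⊆ S, IsConnected s ∧ a ∈ s ∧ b ∈ s := by
  have hb : b ∈ S := (h 1 one_pos).mem ha
  have : CompactSpace S := isCompact_iff_compactSpace.1 hS
  refine ⟨Subtype.val '' connectedComponent (⟨a, ha⟩ : S), by rintro _ ⟨z, -, rfl⟩; exact z.2,
    isConnected_connectedComponent.image _ continuous_subtype_val.continuousOn,
    ⟨_, mem_connectedComponent, rfl⟩, ⟨⟨b, hb⟩, ?_, rfl⟩⟩
  rw [connectedComponent_eq_iInter_isClopen, mem_iInter]
  rintro ⟨U, hU, haU⟩
  obtain ⟨δ, hδ, hd⟩ := hU.isClosed.isCompact.exists_cthickening_subset_open hU.isOpen subset_rfl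
  have key : ∀ z, Chn S δ a z → ∀ hz : z ∈ S, (⟨z, hz⟩ : S) ∈ U := by
    intro z hz
    induction hz with
    | refl => exact fun _ => haU
    | tail _ g ih =>
      intro hz
      exact hd (Metric.mem_cthickening_of_dist_le _ _ δ U (ih g.1)
        (by simpa [Subtype.dist_eq, dist_comm] using g.2.2))
  exact key b (h δ hδ) hb

/-- fixed end points -/
theorem nontriv_of_chn {S : Set Q} (hS : IsCompact S) {a b : Q} (ha : a ∈ S) (hab : a ≠ b)
    (h : ∀ ε > 0, Chn S ε a b) : ∃ s ⊆ S, IsConnected s ∧ s.Nontrivial := by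
  obtain ⟨s, h1, h2, h3, h4⟩ := conn_of_chn hS ha h
  exact ⟨s, h1, h2, a, h3, b, h4, hab⟩

/-- the end points may depend on the mesh -/
theorem nontriv_of_chns {S : Set Q} (hS : IsCompact S) {c : ℝ} (hc : 0 < c)
    (h : ∀ ε > 0, ∃ a ∈ S, ∃ b, c ≤ dist a b ∧ Chn S ε a b) :
    ∃ s ⊆ S, IsConnected s ∧ s.Nontrivial := by
  choose a ha b hab hch using fun n : ℕ => h (1 / ((n : ℝ) + 1)) Nat.one_div_pos_of_nat
  obtain ⟨⟨x, y⟩, ⟨hx, hy⟩, φ, hφ, hl⟩ := (hS.prod hS).tendsto_subseq
    (x := fun n => (a n, b n)) fun n => ⟨ha n, (hch n).mem (ha n)⟩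
  have h1 : Tendsto (fun n => a (φ n)) atTop (𝓝 x) := (continuous_fst.tendsto _).comp hl
  have h2 : Tendsto (fun n => b (φ n)) atTop (𝓝 y) := (continuous_snd.tendsto _).comp hl
  have h3 : c ≤ dist x y := ge_of_tendsto' (h1.dist h2) fun n => hab _
  refine nontriv_of_chn hS (a := x) (b := y) hx
    (fun e => by rw [e, dist_self] at h3; linarith) fun ε hε => ?_
  have h4 : Tendsto (fun n => 1 / ((φ n : ℝ) + 1)) atTop (𝓝 0) :=
    tendsto_one_div_add_atTop_nhds_zero_nat.comp hφ.tendsto_atTop
  obtain ⟨n, ⟨e1, e2⟩, e3⟩ := (((Metric.tendsto_nhds.1 h1 ε hε).and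
    (Metric.tendsto_nhds.1 h2 ε hε)).and (h4.eventually (gt_mem_nhds hε))).exists
  exact ReflTransGen.head ⟨hx, ha _, by rw [dist_comm]; exact e1.le⟩
    (ReflTransGen.tail ((hch _).mono e3.le) ⟨(hch _).mem (ha _), hy, e2.le⟩)

/-- digit strings glued along the carries form a connected set -/
theorem digit_conn {P : ℕ} (F : (ℕ → Fin (P + 1)) → Q) (ε : ℕ → ℝ) (hε : Tendsto ε atTop (𝓝 0))
    (h1 : ∀ k x y, (∀ i < k, x i = y i) → dist (F x) (F y) ≤ ε k)
    (h2 : ∀ k j x y, k < j → (∀ i < k, x i = y i) → (y k : ℕ) = x k + 1 →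
      (∀ i, k < i → i < j → x i = Fin.last P ∧ y i = 0) → dist (F x) (F y) ≤ ε j) :
    IsConnected (range F) := by
  have hF : Continuous F := by
    refine continuous_iff_continuousAt.2 fun x => Metric.tendsto_nhds.2 fun δ hδ => ?_
    obtain ⟨k, hk⟩ := (hε.eventually (gt_mem_nhds hδ)).exists
    have : ∀ᶠ y in 𝓝 x, ∀ i ∈ Finset.range k, y i = x i :=
      (eventually_all_finset _).2 fun i _ =>
        ((continuous_apply i).tendsto x).eventually (p := fun t => t = x i) (by simp [nhds_discrete])
    exact this.mono fun y hy => (h1 k y x fun i hi => hy i (by simpa using hi)).trans_lt hk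
  have hS : IsCompact (range F) := isCompact_range hF
  -- strings that agree below `k` are chained with mesh `ε j`, `k ≤ j`
  have key : ∀ j d k, k + d = j → ∀ x y, (∀ i < k, x i = y i) → Chn (range F) (ε j) (F x) (F y) := by
    intro j d
    induction d with
    | zero =>
      rintro k rfl x y h
      exact ReflTransGen.single ⟨mem_range_self _, mem_range_self _, h1 k x y h⟩
    | succ d ih =>
      intro k hk
      have up : ∀ (n : ℕ) (x y : ℕ → Fin (P + 1)), (∀ i < k, x i = y i) → (y k : ℕ) = x k + n →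
          Chn (range F) (ε j) (F x) (F y) := by
        intro n
        induction n with
        | zero =>
          intro x y h e
          refine ih (k + 1) (by omega) x y fun i hi => ?_
          rcases Nat.lt_succ_iff_lt_or_eq.1 hi with g | rfl
          · exact h i g
          · exact Fin.ext (by omega)
        | succ n ihn =>
          intro x y h e
          have hy := (y k).2
          let u : ℕ → Fin (P + 1) := fun i =>
            if i < k then x i else if i = k then ⟨x k + n, by omega⟩ else Fin.last P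
          let w : ℕ → Fin (P + 1) := fun i => if i ≤ k then y i else 0
          have a1 : Chn (range F) (ε j) (F x) (F u) :=
            ihn x u (fun i hi => by simp [u, hi]) (by simp [u])
          have a2 : dist (F u) (F w) ≤ ε j :=
            h2 k j u w (by omega) (fun i hi => by simp [u, w, hi, hi.le, h i hi])
              (by simp [u, w]; omega)
              fun i hi _ => by simp [u, w, hi.not_gt, hi.ne', hi.not_ge]
          have a3 : Chn (range F) (ε j) (F w) (F y) :=
            ih (k + 1) (by omega) w y fun i hi => by simp [w, Nat.lt_succ_iff.1 hi]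
          exact (ReflTransGen.tail a1 ⟨mem_range_self _, mem_range_self _, a2⟩).trans a3
      intro x y h
      rcases le_total (x k : ℕ) (y k) with g | g
      · exact up (y k - x k) x y h (by omega)
      · exact (up (x k - y k) y x (fun i hi => (h i hi).symm) (by omega)).symm
  refine ⟨range_nonempty F, isPreconnected_of_forall_pair ?_⟩
  rintro _ ⟨x, rfl⟩ _ ⟨y, rfl⟩
  obtain ⟨s, a1, a2, a3, a4⟩ := conn_of_chn hS (mem_range_self x) (b := F y) fun δ hδ => by
    obtain ⟨j, hj⟩ := (hε.eventually (gt_mem_nhds hδ)).exists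
    exact (key j j 0 (by omega) x y (by simp)).mono hj.le
  exact ⟨s, a1, a3, a4, a2.isPreconnected⟩

/-- a connected set with two points contradicts total disconnectedness -/
lemma not_td {s : Set Q} (h : IsConnected s) (h' : s.Nontrivial) : ¬ TotallyDisconnectedSpace Q :=
  fun g => h'.not_subsingleton (g.1 s (subset_univ _) h.isPreconnected)

end Pool.Agent.Lib.MP_7d4c8f_an.Q1
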