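import Pool.Agent.Lib.MP_7d4c8f_an.Q1Han

/-! Chains of complete towers: the odometer in bijective base `P`. -/

namespace Pool.Agent.Lib.MP_7d4c8f_an.Han
open Q1 Function

variable {P : ℕ}

/-- the digits after one carry cascade that starts with the digit `a` at depth `n` -/
def cas : ℕ → (ℕ → Fin (P + 2)) → Fin (P + 2) → ℕ → Fin (P + 2)
  | 0, x, a => update x 0 a
  | n + 1, x, a => update (cas n x (carry (x n) a).1) (n + 1) (carry (x n) a).2

/-- all digits are standard -/
def Std (x : ℕ → Fin (P + 2)) : Prop := ∀ k, 1 ≤ (x k).val ∧ (x k).val ≤ P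

/-- moving an `n`-tower around runs the cascade -/
def MacroStmt (P : ℕ) : Prop := ∀ (n : ℕ) (x : ℕ → Fin (P + 2)) (a : Fin (P + 2)), Std x →
  Std (cas n x a) → (han P).SConn n (tow x) (tow (cas n x a))

lemma carry_std (x : Fin (P + 2)) {a : Fin (P + 2)} (h1 : 1 ≤ a.val) (h2 : a.val ≤ P) :
    carry x a = (x, a) := by
  unfold carry
  rw [dif_neg (by omega), if_neg (by omega)]

lemma cas_std {x : ℕ → Fin (P + 2)} (hx : Std x) (n : ℕ) : ∀ {a : Fin (P + 2)}, 1 ≤ a.val →
    a.val ≤ P → cas n x a = update x n a := by
  induction n with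
  | zero => exact fun _ _ => rfl
  | succ n ih =>
    intro a h1 h2
    rw [cas, carry_std _ h1 h2, ih (hx n).1 (hx n).2, update_eq_self]

lemma cas_up {x : ℕ → Fin (P + 2)} (hx : Std x) {j : ℕ} (hj : (x j).val < P) (k : ℕ)
    (hk : ∀ i, j < i → i < j + 1 + k → (x i).val = P) (i : ℕ) :
    (cas (j + 1 + k) x (Fin.last _) i).val =
      if i = j then (x j).val + 1 else if j < i ∧ i ≤ j + 1 + k then 1 else (x i).val := by
  induction k with
  | zero =>
    have e : carry (x j) (Fin.last _) = (⟨(x j).val + 1, by omega⟩, ⟨1, by omega⟩) :=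
      dif_pos ⟨rfl, by omega⟩
    rw [add_zero, cas, e, cas_std hx j (by simp) (by simpa using hj)]
    simp only [update_apply]
    split_ifs <;> first | rfl | omega
  | succ k ih =>
    have h1 := hk (j + 1 + k) (by omega) (by omega)
    have e : carry (x (j + 1 + k)) (Fin.last _) = (Fin.last _, ⟨1, by omega⟩) := by
      unfold carry
      rw [dif_pos ⟨rfl, by omega⟩]
      exact Prod.ext (Fin.ext (by simp [h1])) rfl
    have h2 := ih fun i a b => hk i a (by omega)
    rw [← add_assoc, cas, e]
    simp only [update_apply]
    split_ifs at h2 ⊢ <;> first | rfl | omega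

lemma cas_down {x : ℕ → Fin (P + 2)} (hx : Std x) {j : ℕ} (hj : 1 < (x j).val) (k : ℕ)
    (hk : ∀ i, j < i → i < j + 1 + k → (x i).val = 1) (i : ℕ) :
    (cas (j + 1 + k) x 0 i).val =
      if i = j then (x j).val - 1 else if j < i ∧ i ≤ j + 1 + k then P else (x i).val := by
  have hP := (hx j).2
  induction k with
  | zero =>
    have e : carry (x j) 0 = (⟨(x j).val - 1, by omega⟩, ⟨P, by omega⟩) := by
      unfold carry
      rw [dif_neg (by simp), if_pos ⟨rfl, by omega⟩]
    rw [add_zero, cas, e, cas_std hx j (by simp only; omega) (by simp only; omega)]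
    simp only [update_apply]
    split_ifs <;> first | rfl | omega
  | succ k ih =>
    have h1 := hk (j + 1 + k) (by omega) (by omega)
    have e : carry (x (j + 1 + k)) 0 = (0, ⟨P, by omega⟩) := by
      unfold carry
      rw [dif_neg (by simp), if_pos ⟨rfl, by omega⟩]
      exact Prod.ext (Fin.ext (by simp [h1])) rfl
    have h2 := ih fun i a b => hk i a (by omega)
    rw [← add_assoc, cas, e]
    simp only [update_apply]
    split_ifs at h2 ⊢ <;> first | rfl | omega

lemma sconn_agree {n : ℕ} {c : Ctl × (Peg → ℕ → Sym P)} {y y' : ℕ → Fin (P + 2)}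
    (h : (han P).SConn n c (tow y)) (e : ∀ i < n, (y i).val = (y' i).val) :
    (han P).SConn n c (tow y') := fun T0 => by
  obtain ⟨T, h1, c', h2, h3, h4⟩ := h T0
  refine ⟨T, h1, c', h2, h3, fun i k hk => (h4 i k hk).trans ?_⟩
  simp only [tow, Fin.ext (e k hk)]

theorem up_gen (h : MacroStmt P) {x y : ℕ → Fin (P + 2)} (hx : Std x) (hy : Std y) :
    (han P).Up (tow x) (tow y) := by
  have self : ∀ n x, Std x → (han P).SConn n (tow x) (tow x) := fun n x hx => by
    have := h n x (x n) hx
    rw [cas_std hx n (hx n).1 (hx n).2, update_eq_self] at this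
    exact this hx
  refine ⟨tow '' {x | Std x}, ⟨x, hx, rfl⟩, ⟨y, hy, rfl⟩,
    by rintro _ ⟨x, hx, rfl⟩ n; exact self n x hx, fun n => ?_⟩
  let R : (ℕ → Fin (P + 2)) → (ℕ → Fin (P + 2)) → Prop := fun x y =>
    Std x ∧ Std y ∧ (han P).SConn n (tow x) (tow y) ∧ (han P).SConn n (tow y) (tow x)
  have sy : ∀ {x y}, Relation.ReflTransGen R x y → Relation.ReflTransGen R y x := fun h => by
    induction h with
    | refl => exact .refl
    | tail _ h2 ih => exact .head ⟨h2.2.1, h2.1, h2.2.2.2, h2.2.2.1⟩ ih
  have key : ∀ k j, j + k = n → ∀ x y, Std x → Std y → (∀ i < j, x i = y i) →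
      Relation.ReflTransGen R x y := by
    intro k
    induction k with
    | zero =>
      intro j hj x y hx hy e
      obtain rfl : j = n := hj
      exact .single ⟨hx, hy, sconn_agree (self _ x hx) fun i hi => by rw [e i hi],
        sconn_agree (self _ y hy) fun i hi => by rw [e i hi]⟩
    | succ k ih =>
      intro j hj x y hx hy e
      have hP : 1 ≤ P := (hx 0).1.trans (hx 0).2
      let w : (d : ℕ) → d ≤ P → (c : ℕ) → c ≤ P → ℕ → Fin (P + 2) := fun d hd c hc i =>
        if i < j then x i else if i = j then ⟨d, by omega⟩ else ⟨c, by omega⟩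
      have ws : ∀ d hd c hc, 1 ≤ d → 1 ≤ c → Std (w d hd c hc) := fun d hd c hc h1 h2 i => by
        simp only [w]
        split_ifs
        exacts [hx i, ⟨h1, hd⟩, ⟨h2, hc⟩]
      have st : ∀ d hd, 1 ≤ d → Relation.ReflTransGen R (w 1 hP 1 hP) (w d hd 1 hP) := by
        intro d
        induction d with
        | zero => exact fun _ h => absurd h (by omega)
        | succ d ihd =>
          intro hd _
          rcases Nat.eq_zero_or_pos d with rfl | h0
          · exact .refl
          have s1 := ws d (by omega) P le_rfl h0 hP
          have s2 := ws (d + 1) hd 1 hP (by omega) le_rfl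
          refine ((ihd (by omega) h0).trans (ih (j + 1) (by omega) _ _
            (ws d (by omega) 1 hP h0 le_rfl) s1 fun i hi => ?_)).tail ⟨s1, s2, ?_, ?_⟩
          · simp only [w]
            split_ifs <;> first | rfl | omega
          · have c1 := cas_up s1 (j := j) (by simp only [w]; simp; omega) k fun i a _ => by
              simp only [w]; rw [if_neg (by omega), if_neg (by omega)]
            rw [show j + 1 + k = n by omega] at c1
            refine sconn_agree (h n _ (Fin.last _) s1 fun i => ?_) fun i hi => ?_
            · rw [c1]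
              have := s1 i
              have := s1 j
              simp only [w] at *
              split_ifs at * <;> (try simp only at *) <;> omega
            · rw [c1]
              simp only [w]
              split_ifs <;> first | rfl | omega
          · have c1 := cas_down s2 (j := j) (by simp only [w]; simp; omega) k fun i a _ => by
              simp only [w]; rw [if_neg (by omega), if_neg (by omega)]
            rw [show j + 1 + k = n by omega] at c1
            refine sconn_agree (h n _ 0 s2 fun i => ?_) fun i hi => ?_
            · rw [c1]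
              have := s2 i
              have := s2 j
              simp only [w] at *
              split_ifs at * <;> (try simp only at *) <;> omega
            · rw [c1]
              simp only [w]
              split_ifs <;> first | rfl | omega
      have fin : ∀ z, Std z → (∀ i < j, x i = z i) → Relation.ReflTransGen R (w 1 hP 1 hP) z :=
        fun z hz e => (st (z j).val (hz j).2 (hz j).1).trans (ih (j + 1) (by omega) _ _
          (ws _ (hz j).2 1 hP (hz j).1 le_rfl) hz fun i hi => by
            simp only [w]
            split_ifs with a b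
            · exact e i a
            · rw [b]
            · omega)
      exact (sy (fin x hx fun _ _ => rfl)).trans (fin y hy e)
  exact (key n 0 (by omega) x y hx hy (by simp)).lift tow fun x y h =>
    ⟨⟨x, h.1, rfl⟩, ⟨y, h.2.1, rfl⟩, h.2.2⟩

theorem up_of (h : MacroStmt 400) : (han 400).Up ca cb :=
  up_gen h (fun _ => by decide) fun _ => by decide

end Pool.Agent.Lib.MP_7d4c8f_an.Han
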