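import Pool.Agent.Lib.MP_7d4c8f_an.Orb

/-! The renormalisation operator. -/

namespace Pool.Agent.Lib.MP_7d4c8f_an
open Metric Set

noncomputable def QQ (G : C2 → C2) : ℝ := ((gr G)^[MM + 3] (xi G + mu) - s G (MM + 1)) / mu ^ 2
def ka (G : C2 → C2) (x : ℂ) : ℂ := (G (x, 0)).2
noncomputable def k1 (G : C2 → C2) : ℝ :=
  ((ka G (s G MM + mu : ℝ)).re - (ka G (s G MM)).re) / (gr G (s G MM + mu) - s G (MM + 1))
noncomputable def y0 (G : C2 → C2) : ℝ := (ka G (s G MM)).re + k1 G * (xi G - s G (MM + 1))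
noncomputable def Psi (G : C2 → C2) (z : C2) : C2 :=
  (xi G + z.1 / QQ G, y0 G + k1 G * (z.1 / QQ G) + ww * z.2)
noncomputable def Inv (G : C2 → C2) (z : C2) : C2 :=
  (QQ G * (z.1 - xi G), (z.2 - y0 G - k1 G * (z.1 - xi G)) / ww)
noncomputable def Ren (G : C2 → C2) (z : C2) : C2 := Inv G (G^[MM + 3] (Psi G z))

lemma IsR.psi {G : C2 → C2} {z : C2} (h : IsR z) : IsR (Psi G z) := by
  simp [IsR, Psi, h.1, h.2, Complex.div_ofReal_im]

lemma IsR.inv {G : C2 → C2} {z : C2} (h : IsR z) : IsR (Inv G z) := by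
  simp [IsR, Inv, h.1, h.2, Complex.div_ofReal_im]

namespace Cls
variable {G : C2 → C2}

lemma real_iter (h : Cls G) (n : ℕ) {z : C2} (hz : IsR z) : IsR (G^[n] z) := by
  induction n with
  | zero => exact hz
  | succ n ih => rw [Function.iterate_succ_apply']; exact h.real _ ih

lemma kareal (h : Cls G) (x : ℝ) : ka G x = (ka G x).re := by
  apply Complex.ext
  · simp
  · simpa [ka] using (h.real (x, 0) ⟨by simp, by simp⟩).2

lemma kadiff (h : Cls G) : Differentiable ℂ (ka G) :=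
  differentiable_snd.comp (h.diff.comp (differentiable_id.prodMk (differentiable_const _)))

lemma mono (h : Cls G) {x x' : ℝ} (hx : |x| ≤ 5 / 2) (h1 : x' ≤ x) (h2 : x - x' < 1 / 2)
    (h3 : 1 ≤ x' + x) : gr G x' ≤ gr G x := by
  have := abs_le.1 (h.twor hx (x' := x') (abs_lt.2 ⟨by linarith, by linarith⟩))
  rw [abs_of_nonpos (by linarith)] at this
  nlinarith

lemma anti (h : Cls G) {x x' : ℝ} (hx : |x| ≤ 5 / 2) (h1 : x ≤ x') (h2 : x' - x < 1 / 2)
    (h3 : x' + x ≤ -1) : gr G x' ≤ gr G x := by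
  have := abs_le.1 (h.twor hx (x' := x') (abs_lt.2 ⟨by linarith, by linarith⟩))
  rw [abs_of_nonneg (by linarith)] at this
  nlinarith

end Cls

namespace Good
variable {G : C2 → C2}

lemma Pxi (h : Good G) : (g G)^[MM + 3] (xi G) = s G (MM + 1) := by
  have := (h.Pbd (x := xi G) (by simp)).2
  simpa [sub_eq_zero] using this

lemma QQ_eq (h : Good G) :
    (g G)^[MM + 3] (xi G + mu) - s G (MM + 1) = QQ G * (mu : ℂ) ^ 2 := by
  have : (mu : ℂ) ≠ 0 := by exact_mod_cast mu_pos.ne'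
  rw [← Complex.ofReal_add, h.giter, QQ]
  push_cast
  field_simp

lemma QQ_abs (h : Good G) : 10 ^ 33 ≤ |QQ G| ∧ |QQ G| ≤ 10 ^ 39 := by
  have e : ‖(xi G : ℂ) + mu - xi G‖ = mu := by simp [abs_of_pos mu_pos]
  have := h.Pbd (x := xi G + mu) (by rw [e]; unfold mu; norm_num)
  rw [h.QQ_eq, e, norm_mul, norm_pow, Complex.norm_real, Complex.norm_real, Real.norm_eq_abs,
    Real.norm_eq_abs, abs_of_pos mu_pos] at this
  have h1 : 0 < mu ^ 2 := pow_pos mu_pos 2
  exact ⟨le_of_mul_le_mul_right this.1 h1, le_of_mul_le_mul_right this.2 h1⟩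

lemma QQ_neg (h : Good G) : QQ G ≤ -10 ^ 33 := by
  have hmu : mu = 1 / 10 ^ 33 := rfl
  have e : ‖((xi G + mu : ℝ) : ℂ) - xi G‖ = mu := by simp [abs_of_pos mu_pos]
  have h1 := (h.two_steps (x := (xi G + mu : ℝ)) (by rw [e]; unfold mu; norm_num)).2
  have h0 := (h.step1 (x := (xi G + mu : ℝ)) (by rw [e]; unfold mu; norm_num)).2
  rw [e, h.greal] at h1 h0
  rw [h.greal] at h1
  set x := gr G (gr G (xi G + mu)) with hx
  have h2 := h.up1 (x := x) (by rw [hmu] at h1; linarith)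
  have h3 : ∀ j ≤ MM + 1, |(gr G)^[j] x - s G j| ≤ 1 / 40 := by
    intro j hj
    have := h2 j hj
    rw [h.giter, ← Complex.ofReal_sub, Complex.norm_real, Real.norm_eq_abs] at this
    rw [hmu] at h1; linarith
  have h4 : s G 0 ≤ x := by
    rw [← Complex.ofReal_sub, Complex.norm_real, Real.norm_eq_abs, abs_le] at h0
    have := abs_le.1 h.cr_abs
    exact h.cr_spec.2 _ ⟨by linarith, by linarith⟩
  have h5 : ∀ j ≤ MM, (gr G)^[j + 1] x ≤ s G (j + 1) := by
    intro j
    induction j with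
    | zero =>
      intro _
      have := abs_le.1 (h3 0 (by omega))
      have := h.s0
      simp only [Function.iterate_zero, id_eq] at *
      rw [s_succ]
      exact h.anti (abs_le.2 ⟨by linarith, by linarith⟩) h4 (by linarith) (by linarith)
    | succ j ih =>
      intro hj
      have := abs_le.1 (h3 (j + 1) (by omega))
      have := h.mid (j + 1) (by omega) hj
      rw [s_succ, Function.iterate_succ_apply']
      exact h.mono (abs_le.2 ⟨by linarith [this.1], by linarith [this.2]⟩) (ih (by omega))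
        (by linarith) (by linarith [this.1])
  have h6 : QQ G ≤ 0 := by
    apply div_nonpos_of_nonpos_of_nonneg _ (sq_nonneg _)
    have := h5 MM le_rfl
    change (gr G)^[MM + 1] x - _ ≤ 0
    linarith
  have := h.QQ_abs.1
  rw [abs_of_nonpos h6] at this
  linarith

lemma QQ_ne (h : Good G) : (QQ G : ℂ) ≠ 0 := by
  have := h.QQ_neg
  exact_mod_cast (show QQ G ≠ 0 by linarith [show (0 : ℝ) < 10 ^ 33 by positivity])

lemma taylor (h : Good G) {x : ℂ} (hx : ‖x - xi G‖ ≤ 3 * mu) :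
    ‖(g G)^[MM + 3] x - s G (MM + 1) - QQ G * (x - xi G) ^ 2‖ ≤ 8 * 10 ^ 27 * ‖x - xi G‖ ^ 2 := by
  have hmu : mu = 1 / 10 ^ 33 := rfl
  set P := (g G)^[MM + 3] with hP
  have hPd : Differentiable ℂ P := h.gdiff.iterate _
  have hP0 : deriv P (xi G) = 0 := by
    have h1 : HasDerivAt (g G) 0 (g G (xi G)) := by rw [h.gxi]; exact h.cr_deriv
    have h2 := ((h.gdiff.iterate (MM + 1)) (g G (g G (xi G)))).hasDerivAt.comp _ h1
    have h3 := h2.comp _ (h.gdiff (xi G)).hasDerivAt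
    rw [mul_zero, zero_mul] at h3
    exact h3.deriv
  set D := dslope P (xi G) with hD
  have hDd : Differentiable ℂ D := by
    rw [← differentiableOn_univ] at hPd ⊢
    exact (Complex.differentiableOn_dslope Filter.univ_mem).2 hPd
  have hD0 : D (xi G) = 0 := by rw [hD, dslope_same, hP0]
  have key : ∀ z : ℂ, P z - s G (MM + 1) = (z - xi G) * D z := by
    intro z
    have := sub_smul_dslope P (xi G) z
    rw [smul_eq_mul, show P (xi G) = s G (MM + 1) from h.Pxi] at this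
    exact this.symm
  have key2 : ∀ z : ℂ, P z - s G (MM + 1) = (z - xi G) ^ 2 * dslope D (xi G) z := by
    intro z
    have := sub_smul_dslope D (xi G) z
    rw [smul_eq_mul, hD0, sub_zero] at this
    rw [key, ← this]; ring
  have hb : ∀ z : ℂ, ‖z - xi G‖ < 1 / 10 ^ 21 → ‖D z - D (xi G)‖ ≤ 10 ^ 18 := by
    intro z hz
    rcases eq_or_ne z (xi G) with rfl | hne
    · simp
    have h1 := (h.Pbd hz.le).2
    rw [← hP, key, norm_mul] at h1
    have h2 : 0 < ‖z - xi G‖ := norm_pos_iff.2 (sub_ne_zero.2 hne)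
    rw [hD0, sub_zero]
    have : ‖D z‖ ≤ 10 ^ 39 * ‖z - xi G‖ := le_of_mul_le_mul_left (by linarith) h2
    linarith
  have e : ‖(xi G : ℂ) + mu - xi G‖ = mu := by simp [abs_of_pos mu_pos]
  have h1 := (sch2 hDd hb (z := x) (by linarith)).2
  have h2 := (sch2 hDd hb (z := xi G + mu) (by rw [e]; linarith)).2
  have h3 : dslope D (xi G) (xi G + mu) = QQ G := by
    have h4 := key2 (xi G + mu)
    rw [h.QQ_eq, add_sub_cancel_left, mul_comm] at h4
    have : (mu : ℂ) ^ 2 ≠ 0 := pow_ne_zero _ (by exact_mod_cast mu_pos.ne')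
    exact (mul_left_cancel₀ this h4).symm
  rw [h3, e] at h2
  have h4 := norm_sub_le (dslope D (xi G) x - dslope D (xi G) (xi G))
    (QQ G - dslope D (xi G) (xi G))
  rw [sub_sub_sub_cancel_right] at h4
  rw [key2, show (x - xi G) ^ 2 * dslope D (xi G) x - QQ G * (x - xi G) ^ 2 =
    (dslope D (xi G) x - QQ G) * (x - xi G) ^ 2 by ring, norm_mul, norm_pow]
  refine mul_le_mul_of_nonneg_right ?_ (sq_nonneg _)
  rw [show (2 : ℝ) * 10 ^ 18 / (1 / 10 ^ 21) ^ 2 = 2 * 10 ^ 60 by norm_num] at h1 h2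
  linarith

lemma den (h : Good G) : 7 / 2 * mu ≤ ‖g G (s G MM + mu : ℝ) - g G (s G MM)‖ := by
  have hmu : mu = 1 / 10 ^ 33 := rfl
  have e : ‖((s G MM + mu : ℝ) : ℂ) - s G MM‖ = mu := by simp [abs_of_pos mu_pos]
  have h1 := h.sabs (j := MM) le_rfl
  have := h.two_ge (x := s G MM) (x' := (s G MM + mu : ℝ)) (by simp; linarith)
    (by rw [e]; linarith) (h.sum_bd (j := MM) le_rfl (by simp) (by rw [e]; linarith)).1
  rw [e] at this
  linarith

lemma k1_eq (h : Good G) : ka G (s G MM + mu : ℝ) - ka G (s G MM) =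
    k1 G * (g G (s G MM + mu : ℝ) - g G (s G MM)) := by
  have h1 := h.den
  have h2 : g G (s G MM + mu : ℝ) - g G (s G MM) ≠ 0 := by
    rw [← norm_pos_iff]; linarith [mu_pos]
  rw [h.gs, h.greal] at h2 ⊢
  rw [h.kareal (s G MM + mu), h.kareal (s G MM), k1]
  push_cast at h2 ⊢
  field_simp

lemma k1_abs (h : Good G) : |k1 G| ≤ 2 * th := by
  have hmu : mu = 1 / 10 ^ 33 := rfl
  have h1 := h.sabs (j := MM) le_rfl
  have e : ‖((((s G MM + mu : ℝ) : ℂ), (0 : ℂ)) : C2) - ((s G MM : ℂ), 0)‖ = mu := by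
    simp [abs_of_pos mu_pos, mu_pos.le]
  have h2 := h.thinLip (z := ((s G MM : ℂ), 0)) (z' := (((s G MM + mu : ℝ) : ℂ), 0))
    (by simp; linarith) (by rw [e]; linarith)
  have h3 := (norm_snd_le _).trans h2
  rw [e] at h3
  simp only [Prod.snd_sub, sub_zero] at h3
  change ‖ka G _ - ka G _‖ ≤ _ at h3
  rw [h.k1_eq, norm_mul, Complex.norm_real, Real.norm_eq_abs] at h3
  have h4 := mul_le_mul_of_nonneg_left h.den (abs_nonneg (k1 G))
  have h5 : |k1 G| * mu ≤ (2 * th) * mu := by nlinarith [mul_pos th_pos mu_pos]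
  exact le_of_mul_le_mul_right h5 mu_pos

lemma y0_abs (h : Good G) : |y0 G| ≤ 2 * th := by
  have h1 := h.sabs (j := MM) le_rfl
  have h2 := h.thin2 (z := ((s G MM : ℂ), 0)) (by simp; linarith)
  have h3 : |(ka G (s G MM)).re| ≤ th := (Complex.abs_re_le_norm _).trans h2
  have h4 := h.xi_bd
  have h5 := h.last
  have h6 : |xi G - s G (MM + 1)| ≤ 1 / 2 := abs_le.2 ⟨by linarith [h5.2], by linarith [h5.1]⟩
  have h7 : |k1 G * (xi G - s G (MM + 1))| ≤ 2 * th * (1 / 2) := by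
    rw [abs_mul]; exact mul_le_mul h.k1_abs h6 (abs_nonneg _) (by linarith [th_pos])
  have := abs_add_le (ka G (s G MM)).re (k1 G * (xi G - s G (MM + 1)))
  unfold y0; linarith

lemma psi_fst (h : Good G) {z : C2} (hz : ‖z‖ ≤ 3) : ‖(Psi G z).1 - xi G‖ ≤ 3 * mu := by
  have h1 := h.QQ_abs.1
  have : (0 : ℝ) < |QQ G| := lt_of_lt_of_le (by positivity) h1
  simp only [Psi, add_sub_cancel_left, norm_div, Complex.norm_real, Real.norm_eq_abs]
  rw [div_le_iff₀ this]
  unfold mu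
  linarith [norm_fst_le z]

lemma psi_snd (h : Good G) {z : C2} (hz : ‖z‖ ≤ 3) : ‖(Psi G z).2‖ ≤ 3 * th + ww * ‖z.2‖ := by
  have h1 := h.psi_fst hz
  simp only [Psi, add_sub_cancel_left] at h1 ⊢
  have h2 := norm_add₃_le (a := (y0 G : ℂ)) (b := k1 G * (z.1 / QQ G)) (c := ww * z.2)
  rw [norm_mul, norm_mul, Complex.norm_real, Complex.norm_real, Complex.norm_real,
    Real.norm_eq_abs, Real.norm_eq_abs, Real.norm_eq_abs, abs_of_pos ww_pos] at h2
  have h3 : |k1 G| * ‖z.1 / QQ G‖ ≤ 2 * th * (1 / 2) :=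
    mul_le_mul h.k1_abs (h1.trans (by unfold mu; norm_num)) (norm_nonneg _) (by linarith [th_pos])
  linarith [h.y0_abs]

lemma psi_snd' (h : Good G) {z : C2} (hz : ‖z‖ ≤ 3) : ‖(Psi G z).2‖ ≤ 1 / 10 := by
  have h1 := h.psi_snd hz
  have := norm_snd_le z
  unfold th ww at h1
  linarith

lemma inv_psi (h : Good G) (z : C2) : Inv G (Psi G z) = z := by
  have := h.QQ_ne
  have : (ww : ℂ) ≠ 0 := by exact_mod_cast ww_pos.ne'
  ext
  · simp only [Inv, Psi]; field_simp; ring
  · simp only [Inv, Psi]; field_simp; ring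

lemma psi_inv (h : Good G) (z : C2) : Psi G (Inv G z) = z := by
  have := h.QQ_ne
  have : (ww : ℂ) ≠ 0 := by exact_mod_cast ww_pos.ne'
  ext
  · simp only [Inv, Psi]; field_simp; ring
  · simp only [Inv, Psi]; field_simp; ring

lemma inv_lip (h : Good G) (z z' : C2) : ‖Inv G z' - Inv G z‖ ≤ 10 ^ 49 * ‖z' - z‖ := by
  have h1 := norm_fst_le (z' - z)
  have h2 := norm_snd_le (z' - z)
  have h0 := norm_nonneg (z' - z)
  rw [Prod.norm_def (Inv G z' - Inv G z)]
  apply max_le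
  · have : (Inv G z' - Inv G z).1 = QQ G * (z' - z).1 := by simp only [Inv, Prod.fst_sub]; ring
    rw [this, norm_mul, Complex.norm_real, Real.norm_eq_abs]
    have := mul_le_mul h.QQ_abs.2 h1 (norm_nonneg _) (by positivity)
    linarith
  · have : (Inv G z' - Inv G z).2 = ((z' - z).2 - k1 G * (z' - z).1) / ww := by
      simp only [Inv, Prod.fst_sub, Prod.snd_sub]; ring
    rw [this, norm_div, Complex.norm_real, Real.norm_eq_abs, abs_of_pos ww_pos,
      div_le_iff₀ ww_pos]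
    have h3 := norm_sub_le (z' - z).2 (k1 G * (z' - z).1)
    rw [norm_mul, Complex.norm_real, Real.norm_eq_abs] at h3
    have h4 : |k1 G| * ‖(z' - z).1‖ ≤ 1 * ‖z' - z‖ :=
      mul_le_mul (h.k1_abs.trans (by unfold th; norm_num)) h1 (norm_nonneg _) (by positivity)
    unfold ww
    linarith

lemma ren_quad (h : Good G) {x : ℂ} (hx : ‖x‖ ≤ 3) :
    ‖g (Ren G) x - x ^ 2 - QQ G * (s G (MM + 1) - xi G)‖ ≤ 1 / 10000 := by
  have hz : ‖((x, 0) : C2)‖ ≤ 3 := by simpa using hx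
  have h1 := h.psi_fst hz
  have h2 := h.psi_snd hz
  have hth : th = 1 / 10 ^ 100 := rfl
  set z := Psi G (x, 0) with hzz
  have h3 := h.pseudo h1 (by linarith [h.psi_snd' hz]) (u := fun j => ((g G)^[j] z.1, 0)) (ε := th)
    th_pos.le (fun j _ hj => by
      rw [Function.iterate_succ_apply', norm_sub_rev]; exact h.thin _ hj) ?_ (MM + 3) le_rfl
  all_goals
    have h4 : ‖(((g G)^[0] z.1, 0) : C2) - z‖ ≤ 3 * th := by
      rw [Prod.norm_def]; simpa using h2
  swap
  · linarith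
  have h5 := (norm_fst_le _).trans h3
  have h6 := h.taylor h1
  have h7 : z.1 - xi G = x / QQ G := by simp [hzz, Psi]
  have hQ := h.QQ_ne
  have e : g (Ren G) x - x ^ 2 - QQ G * (s G (MM + 1) - xi G) =
      QQ G * ((g G)^[MM + 3] z.1 - s G (MM + 1) - QQ G * (z.1 - xi G) ^ 2) -
      QQ G * ((g G)^[MM + 3] z.1 - (G^[MM + 3] z).1) := by
    rw [h7]
    simp only [g, Ren, Inv, ← hzz]
    field_simp; ring
  rw [e]
  refine (norm_sub_le _ _).trans ?_
  rw [norm_mul, norm_mul, Complex.norm_real, Real.norm_eq_abs]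
  have h8 := mul_le_mul h.QQ_abs.2 h5 (norm_nonneg _) (by positivity)
  have h9 := mul_le_mul_of_nonneg_left h6 (abs_nonneg (QQ G))
  have h10 : |QQ G| * ‖z.1 - xi G‖ ≤ 3 := by
    rw [h7, norm_div, Complex.norm_real, Real.norm_eq_abs, mul_div_cancel₀ _
      (by rw [abs_ne_zero]; exact_mod_cast hQ)]
    exact hx
  have h11 : (|QQ G| * ‖z.1 - xi G‖) * ‖z.1 - xi G‖ ≤ 3 * (3 * mu) :=
    mul_le_mul h10 h1 (norm_nonneg _) (by norm_num)
  unfold mu at h11
  simp only [Prod.fst_sub] at h8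
  nlinarith

lemma ren_al (h : Good G) : |gr (Ren G) 0 - QQ G * (s G (MM + 1) - xi G)| ≤ 1 / 10000 := by
  have := (Complex.abs_re_le_norm _).trans (h.ren_quad (x := 0) (by simp))
  simpa [gr] using this

lemma ren_snd (h : Good G) {z : C2} (hz : ‖z‖ ≤ 3) : ‖(Ren G z).2‖ ≤ th := by
  have hth : th = 1 / 10 ^ 100 := rfl
  have hmu : mu = 1 / 10 ^ 33 := rfl
  have h1 := h.psi_fst hz
  have h2 := h.psi_snd' hz
  have h3 := (h.orb h1 (by linarith)).2.2.2.2 MM (by omega)
  have h4 := h.orb_norm h1 (by linarith) (MM + 1) (by omega)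
  have h5 := h.orb_norm h1 (by linarith) (MM + 2) (by omega)
  have h6 := h.thin2 (z := G^[MM + 1] (Psi G z)) (by linarith)
  rw [← Function.iterate_succ_apply' G] at h6
  change ‖(G^[MM + 2] (Psi G z)).2‖ ≤ th at h6
  have e0 : Ren G z = Inv G (G (G^[MM + 2] (Psi G z))) := by
    rw [← Function.iterate_succ_apply' G]; rfl
  rw [e0]
  set u := G^[MM + 2] (Psi G z) with hu
  have h7 : ‖u.1 - s G MM‖ ≤ 102 / 10 ^ 28 := (norm_fst_le (u - ((s G MM : ℂ), 0))).trans h3
  have e1 : ‖u - (u.1, 0)‖ = ‖u.2‖ := by rw [Prod.norm_def]; simp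
  have h8 := h.thinLip (z := (u.1, 0)) (z' := u) (by simp; linarith [norm_fst_le u])
    (by rw [e1]; linarith)
  rw [e1] at h8
  have h9 := (norm_fst_le _).trans h8
  have h10 := (norm_snd_le _).trans h8
  simp only [Prod.fst_sub, Prod.snd_sub, sub_zero] at h9 h10
  change ‖(G u).1 - g G u.1 - (g G u.1 - g G u.1)‖ ≤ _ at h9
  change ‖(G u).2 - ka G u.1‖ ≤ _ at h10
  rw [sub_self, sub_zero] at h9
  set f : ℂ → ℂ := fun x => ka G x - k1 G * g G x with hf
  have hfd : Differentiable ℂ f := by have := h.gdiff; have := h.kadiff; fun_prop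
  have hs := h.sabs (j := MM) le_rfl
  have hsn : ‖(s G MM : ℂ)‖ = |s G MM| := by simp
  have hb : ∀ x : ℂ, ‖x - s G MM‖ < 2 / 5 → ‖f x - f (s G MM)‖ ≤ 6 * th := by
    intro x hx
    have h11 := norm_add_le (x - s G MM) (s G MM)
    rw [sub_add_cancel] at h11
    have h12 := h.thin2 (z := (x, 0)) (by simp; linarith)
    have h13 := h.thin2 (z := (s G MM, 0)) (by simp; linarith)
    have h14 := h.two_le (x := s G MM) (x' := x) (K := 9 / 2) (by linarith) (by linarith)
      (by linarith [norm_add_le x (s G MM)])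
    have h15 : |k1 G| * ‖g G x - g G (s G MM)‖ ≤ 2 * th * 2 :=
      mul_le_mul h.k1_abs (by linarith) (norm_nonneg _) (by linarith [th_pos])
    have e : f x - f (s G MM) = ka G x - ka G (s G MM) - k1 G * (g G x - g G (s G MM)) := by
      simp only [hf]; ring
    rw [e]
    have h16 := norm_sub_le (ka G x - ka G (s G MM)) (k1 G * (g G x - g G (s G MM)))
    rw [norm_mul, Complex.norm_real, Real.norm_eq_abs] at h16
    have h17 := norm_sub_le (ka G x) (ka G (s G MM))
    change ‖ka G x‖ ≤ _ at h12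
    change ‖ka G _‖ ≤ _ at h13
    linarith
  have e : ‖((s G MM + mu : ℝ) : ℂ) - s G MM‖ = mu := by simp [abs_of_pos mu_pos]
  have h11 := (sch2 hfd hb (z := u.1) (by linarith)).2
  have h12 := (sch2 hfd hb (z := (s G MM + mu : ℝ)) (by rw [e]; linarith)).2
  have h13 : dslope f (s G MM) (s G MM + mu : ℝ) = 0 := by
    have h14 := sub_smul_dslope f (s G MM) (s G MM + mu : ℝ)
    have h15 : f (s G MM + mu : ℝ) - f (s G MM) = 0 := by
      simp only [hf]; linear_combination h.k1_eq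
    rw [h15, smul_eq_mul, mul_eq_zero] at h14
    refine h14.resolve_left ?_
    intro h0
    rw [h0, norm_zero] at e
    exact mu_pos.ne e
  rw [h13, e, zero_sub, norm_neg] at h12
  have h14 := norm_add_le (dslope f (s G MM) u.1 - dslope f (s G MM) (s G MM))
    (dslope f (s G MM) (s G MM))
  rw [sub_add_cancel] at h14
  have h15 : ‖dslope f (s G MM) u.1‖ ≤ 8 / 10 ^ 25 * th := by
    rw [hmu] at h12
    have := mul_le_mul_of_nonneg_left h7 th_pos.le
    rw [show 2 * (6 * th) / (2 / 5) ^ 2 = 75 * th by ring] at h11 h12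
    linarith [th_pos]
  have h16 : ‖f u.1 - f (s G MM)‖ ≤ 102 / 10 ^ 28 * (8 / 10 ^ 25 * th) := by
    rw [← sub_smul_dslope, smul_eq_mul, norm_mul]
    exact mul_le_mul h7 h15 (norm_nonneg _) (by norm_num)
  have e2 : (Inv G (G u)).2 = (((G u).2 - ka G u.1) + (f u.1 - f (s G MM)) -
      k1 G * ((G u).1 - g G u.1)) / ww := by
    simp only [Inv, hf, y0]
    rw [h.gs]
    push_cast
    rw [← h.kareal]
    ring
  rw [e2, norm_div, Complex.norm_real, Real.norm_eq_abs, abs_of_pos ww_pos, div_le_iff₀ ww_pos]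
  have h17 := norm_sub_le (((G u).2 - ka G u.1) + (f u.1 - f (s G MM))) (k1 G * ((G u).1 - g G u.1))
  have h18 := norm_add_le ((G u).2 - ka G u.1) (f u.1 - f (s G MM))
  rw [norm_mul, Complex.norm_real, Real.norm_eq_abs] at h17
  have h19 : |k1 G| * ‖(G u).1 - g G u.1‖ ≤ 1 * (4 * th * ‖u.2‖) :=
    mul_le_mul (h.k1_abs.trans (by unfold th; norm_num)) h9 (norm_nonneg _) (by positivity)
  have h20 : th * ‖u.2‖ ≤ th * (1 / 10 ^ 100) := mul_le_mul_of_nonneg_left h6 th_pos.le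
  unfold ww
  linarith [th_pos]

lemma ren_fst (h : Good G) {z : C2} (hz : ‖z‖ ≤ 3) : ‖(Ren G z).1 - g (Ren G) z.1‖ ≤ th := by
  have hz' : ‖((z.1, 0) : C2)‖ ≤ 3 := by simpa using (norm_fst_le z).trans hz
  have h1 := h.ydep (z := Psi G (z.1, 0)) (z' := Psi G z) (h.psi_fst hz') rfl (h.psi_snd' hz')
    (h.psi_snd' hz)
  have h2 : ‖(Psi G z).2 - (Psi G (z.1, 0)).2‖ ≤ 3 / 10 ^ 48 := by
    have : (Psi G z).2 - (Psi G (z.1, 0)).2 = ww * z.2 := by simp [Psi]
    rw [this, norm_mul, Complex.norm_real, Real.norm_eq_abs, abs_of_pos ww_pos]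
    unfold ww; linarith [norm_snd_le z]
  have h3 := (norm_fst_le _).trans h1
  have e : (Ren G z).1 - g (Ren G) z.1 =
      QQ G * (G^[MM + 3] (Psi G z) - G^[MM + 3] (Psi G (z.1, 0))).1 := by
    simp only [g, Ren, Inv, Prod.fst_sub]; ring
  rw [e, norm_mul, Complex.norm_real, Real.norm_eq_abs]
  have h4 := mul_le_mul h.QQ_abs.2 h3 (norm_nonneg _) (by positivity)
  have h5 := mul_le_mul_of_nonneg_left h2 th_pos.le
  linarith [th_pos]

lemma ren_cls (h : Good G) (lo : -201 / 100 ≤ gr (Ren G) 0) (hi : gr (Ren G) 0 ≤ -199 / 100) :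
    Cls (Ren G) where
  diff := by
    have h1 : Differentiable ℂ (Psi G) := by unfold Psi; fun_prop
    have h2 : Differentiable ℂ (Inv G) := by unfold Inv; fun_prop
    exact h2.comp ((h.diff.iterate _).comp h1)
  real z hz := (h.real_iter _ hz.psi).inv
  quad x hx := by
    have h1 := h.ren_quad hx
    have h2 := h.ren_al
    have h3 := norm_sub_le (g (Ren G) x - x ^ 2 - QQ G * (s G (MM + 1) - xi G))
      ((gr (Ren G) 0 - QQ G * (s G (MM + 1) - xi G) : ℝ) : ℂ)
    rw [Complex.norm_real, Real.norm_eq_abs] at h3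
    push_cast at h3
    rw [sub_sub_sub_cancel_right] at h3
    linarith
  thin z hz := by
    rw [Prod.norm_def]
    exact max_le (h.ren_fst hz) (by simpa using h.ren_snd hz)
  lo := lo
  hi := hi

end Good

end Pool.Agent.Lib.MP_7d4c8f_an
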